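import Mathlib

/-!
Real inequalities behind the four-dimensional example.
-/

namespace Pool.Agent.P.MP_c4753b_co

/-- Strict inequalities of the body `t • D ε`. -/
def Lt (ε t x y z w : ℝ) : Prop :=
  |w| < 4 * t ∧ |x| + ε * |w| < 2 * t ∧ |y| + ε * |w| < 2 * t ∧ |z| + ε * |w| < 2 * t ∧
    |x + y + z| + ε * |w| < (3 - 2 * ε) * t ∧ |x - y - z| + ε * |w| < (3 - 2 * ε) * t ∧
    |-x + y - z + ε * w| < (3 - 4 * ε) * t ∧ |-x - y + z - ε * w| < (3 - 4 * ε) * t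

/-- Weak inequalities of the body `t • D ε`. -/
def Le (ε t x y z w : ℝ) : Prop :=
  |w| ≤ 4 * t ∧ |x| + ε * |w| ≤ 2 * t ∧ |y| + ε * |w| ≤ 2 * t ∧ |z| + ε * |w| ≤ 2 * t ∧
    |x + y + z| + ε * |w| ≤ (3 - 2 * ε) * t ∧ |x - y - z| + ε * |w| ≤ (3 - 2 * ε) * t ∧
    |-x + y - z + ε * w| ≤ (3 - 4 * ε) * t ∧ |-x - y + z - ε * w| ≤ (3 - 4 * ε) * t

section near

variable {ε x y z w : ℝ}

lemma eps_w (h0 : 0 ≤ ε) (h1 : ε ≤ 1 / 100) (hw : |w| < 4) :
    0 ≤ ε * |w| ∧ ε * |w| ≤ 1 / 25 ∧ -(ε * |w|) ≤ ε * w ∧ ε * w ≤ ε * |w| := by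
  have h2 := abs_nonneg w
  refine ⟨by positivity, by nlinarith, ?_, ?_⟩
  · nlinarith [neg_abs_le w]
  · nlinarith [le_abs_self w]

lemma lt_of_lin {ε x y z w : ℝ} (hw : |w| < 4) (h1 : x + ε * |w| < 2) (h1' : -x + ε * |w| < 2)
    (h2 : y + ε * |w| < 2) (h2' : -y + ε * |w| < 2) (h3 : z + ε * |w| < 2)
    (h3' : -z + ε * |w| < 2) (h4 : x + y + z + ε * |w| < 3 - 2 * ε)
    (h4' : -(x + y + z) + ε * |w| < 3 - 2 * ε) (h5 : x - y - z + ε * |w| < 3 - 2 * ε)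
    (h5' : -(x - y - z) + ε * |w| < 3 - 2 * ε) (h6 : -x + y - z + ε * w < 3 - 4 * ε)
    (h6' : -(-x + y - z + ε * w) < 3 - 4 * ε) (h7 : -x - y + z - ε * w < 3 - 4 * ε)
    (h7' : -(-x - y + z - ε * w) < 3 - 4 * ε) : Lt ε 1 x y z w := by
  refine ⟨by linarith, ?_, ?_, ?_, ?_, ?_, ?_, ?_⟩
  · cases abs_cases x <;> linarith
  · cases abs_cases y <;> linarith
  · cases abs_cases z <;> linarith
  · cases abs_cases (x + y + z) <;> linarith
  · cases abs_cases (x - y - z) <;> linarith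
  · cases abs_cases (-x + y - z + ε * w) <;> linarith
  · cases abs_cases (-x - y + z - ε * w) <;> linarith

lemma near_e0 (h0 : 0 ≤ ε) (h1 : ε ≤ 1 / 100) (hw : |w| < 4) (hx : |x - 2| ≤ 1 / 10)
    (hy : |y| ≤ 1 / 10) (hz : |z| ≤ 1 / 10) (h : ¬Lt ε 1 x y z w) : 2 ≤ x + ε * |w| := by
  obtain ⟨e1, e2, e3, e4⟩ := eps_w h0 h1 hw
  rw [abs_le] at hx hy hz
  by_contra hc
  apply h
  apply lt_of_lin hw <;> linarith

lemma near_e1 (h0 : 0 ≤ ε) (h1 : ε ≤ 1 / 100) (hw : |w| < 4) (hx : |x| ≤ 1 / 10)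
    (hy : |y - 2| ≤ 1 / 10) (hz : |z| ≤ 1 / 10) (h : ¬Lt ε 1 x y z w) : 2 ≤ y + ε * |w| := by
  obtain ⟨e1, e2, e3, e4⟩ := eps_w h0 h1 hw
  rw [abs_le] at hx hy hz
  by_contra hc
  apply h
  apply lt_of_lin hw <;> linarith

lemma near_e2 (h0 : 0 ≤ ε) (h1 : ε ≤ 1 / 100) (hw : |w| < 4) (hx : |x| ≤ 1 / 10)
    (hy : |y| ≤ 1 / 10) (hz : |z - 2| ≤ 1 / 10) (h : ¬Lt ε 1 x y z w) : 2 ≤ z + ε * |w| := by
  obtain ⟨e1, e2, e3, e4⟩ := eps_w h0 h1 hw
  rw [abs_le] at hx hy hz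
  by_contra hc
  apply h
  apply lt_of_lin hw <;> linarith

lemma near_a (h0 : 0 ≤ ε) (h1 : ε ≤ 1 / 100) (hw : |w| < 4) (hx : |x - 1| ≤ 1 / 10)
    (hy : |y - 1| ≤ 1 / 10) (hz : |z - 1| ≤ 1 / 10) (h : ¬Lt ε 1 x y z w) :
    3 - 2 * ε ≤ x + y + z + ε * |w| := by
  obtain ⟨e1, e2, e3, e4⟩ := eps_w h0 h1 hw
  rw [abs_le] at hx hy hz
  by_contra hc
  apply h
  apply lt_of_lin hw <;> linarith

lemma near_b (h0 : 0 ≤ ε) (h1 : ε ≤ 1 / 100) (hw : |w| < 4) (hx : |x - 1| ≤ 1 / 10)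
    (hy : |y + 1| ≤ 1 / 10) (hz : |z + 1| ≤ 1 / 10) (h : ¬Lt ε 1 x y z w) :
    3 - 2 * ε ≤ x - y - z + ε * |w| := by
  obtain ⟨e1, e2, e3, e4⟩ := eps_w h0 h1 hw
  rw [abs_le] at hx hy hz
  by_contra hc
  apply h
  apply lt_of_lin hw <;> linarith

lemma near_c (h0 : 0 ≤ ε) (h1 : ε ≤ 1 / 100) (hw : |w| < 4) (hx : |x + 1| ≤ 1 / 10)
    (hy : |y - 1| ≤ 1 / 10) (hz : |z + 1| ≤ 1 / 10) (h : ¬Lt ε 1 x y z w) :
    3 - 4 * ε ≤ -x + y - z + ε * w := by
  obtain ⟨e1, e2, e3, e4⟩ := eps_w h0 h1 hw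
  rw [abs_le] at hx hy hz
  by_contra hc
  apply h
  apply lt_of_lin hw <;> linarith

lemma near_d (h0 : 0 ≤ ε) (h1 : ε ≤ 1 / 100) (hw : |w| < 4) (hx : |x + 1| ≤ 1 / 10)
    (hy : |y + 1| ≤ 1 / 10) (hz : |z - 1| ≤ 1 / 10) (h : ¬Lt ε 1 x y z w) :
    3 - 4 * ε ≤ -x - y + z - ε * w := by
  obtain ⟨e1, e2, e3, e4⟩ := eps_w h0 h1 hw
  rw [abs_le] at hx hy hz
  by_contra hc
  apply h
  apply lt_of_lin hw <;> linarith

end near

lemma prod_err {b W c e : ℝ} (h : |W - c| ≤ e) : b * W ≤ b * c + e * |b| := by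
  have h1 : b * (W - c) ≤ |b| * |W - c| := by rw [← abs_mul]; exact le_abs_self _
  have h2 := mul_le_mul_of_nonneg_left h (abs_nonneg b)
  linarith

lemma quad_term {s δ p q : ℝ} (h : |s| ≤ δ) : -(δ * (p ^ 2 + q ^ 2) / 2) ≤ s * p * q := by
  rw [abs_le] at h
  nlinarith [mul_nonneg (by linarith : 0 ≤ δ + s) (sq_nonneg (p + q)),
    mul_nonneg (by linarith : 0 ≤ δ - s) (sq_nonneg (p - q))]

lemma prod2 {p q δ M : ℝ} (hp : |p| ≤ δ) (hq : |q| ≤ M) : -(δ * M) ≤ p * q ∧ p * q ≤ δ * M := by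
  have h : |p * q| ≤ δ * M := by
    rw [abs_mul]; exact mul_le_mul hp hq (abs_nonneg _) ((abs_nonneg _).trans hp)
  exact abs_le.1 h

lemma prod3 {p q r δ M : ℝ} (hp : |p| ≤ δ) (hq : |q| ≤ δ) (hr : |r| ≤ M) :
    -(δ * δ * M) ≤ p * q * r ∧ p * q * r ≤ δ * δ * M := by
  have h : |p * q| ≤ δ * δ := by
    rw [abs_mul]; exact mul_le_mul hp hq (abs_nonneg _) ((abs_nonneg _).trans hp)
  exact prod2 h hr

/-- Lower bound for a determinant near the identity. -/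
lemma det_lower {δ η a00 a01 a02 a10 a11 a12 a20 a21 a22 : ℝ} (hδ : δ ≤ 1 / 10) (hη : 0 ≤ η)
    (h00 : |a00| ≤ δ) (h01 : |a01| ≤ δ) (h02 : |a02| ≤ δ) (h10 : |a10| ≤ δ) (h11 : |a11| ≤ δ)
    (h12 : |a12| ≤ δ) (h20 : |a20| ≤ δ) (h21 : |a21| ≤ δ) (h22 : |a22| ≤ δ)
    (e0 : -η ≤ a00) (e1 : -η ≤ a11) (e2 : -η ≤ a22)
    (ea : -η ≤ a00 + a11 + a22 + (a01 + a10) + (a02 + a20) + (a12 + a21))
    (eb : -η ≤ a00 + a11 + a22 - (a01 + a10) - (a02 + a20) + (a12 + a21))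
    (ec : -η ≤ a00 + a11 + a22 - (a01 + a10) + (a02 + a20) - (a12 + a21))
    (ed : -η ≤ a00 + a11 + a22 + (a01 + a10) - (a02 + a20) - (a12 + a21)) :
    1 + (a00 + a11 + a22) - 7 * δ * (|a00 + a11 + a22| + 2 * η) ≤
      (1 + a00) * ((1 + a11) * (1 + a22) - a12 * a21) - a01 * (a10 * (1 + a22) - a12 * a20) +
        a02 * (a10 * a21 - (1 + a11) * a20) := by
  set τ := a00 + a11 + a22 with hτ
  set M := |τ| + 2 * η with hM
  have t1 := le_abs_self τ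
  have t2 := neg_abs_le τ
  have t3 := abs_nonneg τ
  have hδ0 : 0 ≤ δ := (abs_nonneg _).trans h00
  have hM0 : 0 ≤ M := by positivity
  set p := (a01 + a10) / 2 with hp
  set q := (a02 + a20) / 2 with hq
  set r := (a12 + a21) / 2 with hr
  have hpδ : |p| ≤ δ := by rw [abs_le] at *; constructor <;> linarith
  have hqδ : |q| ≤ δ := by rw [abs_le] at *; constructor <;> linarith
  have hrδ : |r| ≤ δ := by rw [abs_le] at *; constructor <;> linarith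
  have hpM : |p| ≤ M := by rw [abs_le]; constructor <;> linarith
  have hqM : |q| ≤ M := by rw [abs_le]; constructor <;> linarith
  have hrM : |r| ≤ M := by rw [abs_le]; constructor <;> linarith
  have h0M : |a00| ≤ M := by rw [abs_le]; constructor <;> linarith
  have h1M : |a11| ≤ M := by rw [abs_le]; constructor <;> linarith
  have h2M : |a22| ≤ M := by rw [abs_le]; constructor <;> linarith
  set ρ0 := (a12 - a21) / 2 with hρ0
  set ρ1 := (a20 - a02) / 2 with hρ1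
  set ρ2 := (a01 - a10) / 2 with hρ2
  have key : (1 + a00) * ((1 + a11) * (1 + a22) - a12 * a21) -
      a01 * (a10 * (1 + a22) - a12 * a20) + a02 * (a10 * a21 - (1 + a11) * a20) =
      (1 + τ + (a00 * a11 + a00 * a22 + a11 * a22 - p * p - q * q - r * r) +
        (a00 * a11 * a22 + 2 * (p * q * r) - a00 * r * r - a11 * q * q - a22 * p * p)) +
      (ρ0 ^ 2 + ρ1 ^ 2 + ρ2 ^ 2 + a00 * ρ0 * ρ0 + a11 * ρ1 * ρ1 + a22 * ρ2 * ρ2 +
        2 * (p * ρ0 * ρ1) + 2 * (q * ρ0 * ρ2) + 2 * (r * ρ1 * ρ2)) := by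
    simp only [hτ, hp, hq, hr, hρ0, hρ1, hρ2]; ring
  have q1 := quad_term (p := ρ0) (q := ρ0) h00
  have q2 := quad_term (p := ρ1) (q := ρ1) h11
  have q3 := quad_term (p := ρ2) (q := ρ2) h22
  have q4 := quad_term (p := ρ0) (q := ρ1) hpδ
  have q5 := quad_term (p := ρ0) (q := ρ2) hqδ
  have q6 := quad_term (p := ρ1) (q := ρ2) hrδ
  have q7 : δ * (ρ0 ^ 2 + ρ1 ^ 2 + ρ2 ^ 2) ≤ 1 / 10 * (ρ0 ^ 2 + ρ1 ^ 2 + ρ2 ^ 2) :=
    mul_le_mul_of_nonneg_right hδ (by positivity)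
  have q8 : 0 ≤ ρ0 ^ 2 + ρ1 ^ 2 + ρ2 ^ 2 := by positivity
  have s1 := (prod2 h00 h1M).1
  have s2 := (prod2 h00 h2M).1
  have s3 := (prod2 h11 h2M).1
  have s4 := (prod2 hpδ hpM).2
  have s5 := (prod2 hqδ hqM).2
  have s6 := (prod2 hrδ hrM).2
  have c1 := (prod3 h00 h11 h2M).1
  have c2 := (prod3 hpδ hqδ hrM).1
  have c3 := (prod3 h00 hrδ hrM).2
  have c4 := (prod3 h11 hqδ hqM).2
  have c5 := (prod3 h22 hpδ hpM).2
  have c6 : δ * (δ * M) ≤ 1 / 10 * (δ * M) := mul_le_mul_of_nonneg_right hδ (by positivity)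
  have c7 : 0 ≤ δ * M := by positivity
  rw [key]
  linarith

/-- Determinant of three vectors of `ℝ^3`. -/
def det3 (a0 a1 a2 b0 b1 b2 c0 c1 c2 : ℝ) : ℝ :=
  a0 * (b1 * c2 - b2 * c1) - a1 * (b0 * c2 - b2 * c0) + a2 * (b0 * c1 - b1 * c0)

/-- The three vectors are within `δ` of the generators of the body centred cubic lattice. -/
def Near (δ a0 a1 a2 b0 b1 b2 c0 c1 c2 : ℝ) : Prop :=
  |a0 - 1| ≤ δ ∧ |a1 - 1| ≤ δ ∧ |a2 - 1| ≤ δ ∧ |b0 - 1| ≤ δ ∧ |b1 + 1| ≤ δ ∧ |b2 + 1| ≤ δ ∧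
    |c0 + 1| ≤ δ ∧ |c1 - 1| ≤ δ ∧ |c2 + 1| ≤ δ

lemma final {κ δ ε m a0 a1 a2 b0 b1 b2 c0 c1 c2 : ℝ} (hκ : κ ≤ 1) (hδ : δ ≤ κ / 200)
    (hε0 : 0 < ε) (hε : ε ≤ δ) (hm0 : 0 ≤ m) (hm : m ≤ δ)
    (hn : Near δ a0 a1 a2 b0 b1 b2 c0 c1 c2)
    (e0 : 2 - 2 * (10 * ε + δ * m) ≤ a0 + b0) (e1 : 2 - 2 * (10 * ε + δ * m) ≤ a1 + c1)
    (e2 : 2 - 2 * (10 * ε + δ * m) ≤ -(b2 + c2))
    (ea : 3 - (10 * ε + δ * m) ≤ a0 + a1 + a2) (eb : 3 - (10 * ε + δ * m) ≤ b0 - b1 - b2)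
    (ec : 3 - (10 * ε + δ * m) ≤ -c0 + c1 - c2)
    (ed : 3 - (10 * ε + δ * m) ≤ (a0 + b0 + c0) + (a1 + b1 + c1) - (a2 + b2 + c2))
    (hτ : 6 - 2 * ((3 - κ) * ε + 3 * δ * m) ≤ (a0 + b0) + (a1 + c1) - (b2 + c2)) :
    16 * (1 - ε) ^ 3 + ε ^ 2 ≤ (4 + m) * det3 a0 a1 a2 b0 b1 b2 c0 c1 c2 := by
  obtain ⟨n1, n2, n3, n4, n5, n6, n7, n8, n9⟩ := hn
  have hδ0 : 0 < δ := by linarith
  have hδ1 : δ ≤ 1 / 200 := by linarith
  have hδm : 0 ≤ δ * m := by positivity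
  rw [abs_le] at n1 n2 n3 n4 n5 n6 n7 n8 n9
  have h := det_lower (δ := δ) (η := 10 * ε + δ * m) (a00 := (a0 + b0) / 2 - 1)
    (a01 := (a0 + c0) / 2) (a02 := -(b0 + c0) / 2) (a10 := (a1 + b1) / 2)
    (a11 := (a1 + c1) / 2 - 1) (a12 := -(b1 + c1) / 2) (a20 := (a2 + b2) / 2)
    (a21 := (a2 + c2) / 2) (a22 := -(b2 + c2) / 2 - 1) (by linarith) (by positivity)
    (by rw [abs_le]; constructor <;> linarith) (by rw [abs_le]; constructor <;> linarith)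
    (by rw [abs_le]; constructor <;> linarith) (by rw [abs_le]; constructor <;> linarith)
    (by rw [abs_le]; constructor <;> linarith) (by rw [abs_le]; constructor <;> linarith)
    (by rw [abs_le]; constructor <;> linarith) (by rw [abs_le]; constructor <;> linarith)
    (by rw [abs_le]; constructor <;> linarith) (by linarith) (by linarith) (by linarith)
    (by linarith) (by linarith) (by linarith) (by linarith)
  set τ := (a0 + b0) / 2 - 1 + ((a1 + c1) / 2 - 1) + (-(b2 + c2) / 2 - 1) with hτd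
  have hτ' : -((3 - κ) * ε + 3 * δ * m) ≤ τ := by linarith
  have hdet : 4 * (1 + τ - 7 * δ * (|τ| + 2 * (10 * ε + δ * m))) ≤
      det3 a0 a1 a2 b0 b1 b2 c0 c1 c2 := by
    refine (mul_le_mul_of_nonneg_left h (by norm_num)).trans (le_of_eq ?_)
    simp only [det3]; ring
  have hδε : 0 ≤ δ * ε := by positivity
  have hδδm : δ * (δ * m) ≤ 1 / 200 * (δ * m) := mul_le_mul_of_nonneg_right hδ1 hδm
  have hκε : 200 * (δ * ε) ≤ κ * ε := by nlinarith
  have hκε1 : κ * ε ≤ ε := by nlinarith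
  have hL : 1 - (3 - κ) * ε - 161 * (δ * ε) - 4 * (δ * m) ≤
      1 + τ - 7 * δ * (|τ| + 2 * (10 * ε + δ * m)) := by
    rcases abs_cases τ with ⟨h1, h2⟩ | ⟨h1, h2⟩
    · rw [h1]
      have : δ * τ ≤ 1 / 200 * τ := mul_le_mul_of_nonneg_right hδ1 h2
      nlinarith
    · rw [h1]
      have : δ * (-τ) ≤ δ * (3 * ε + 3 * δ * m) :=
        mul_le_mul_of_nonneg_left (by nlinarith) hδ0.le
      nlinarith
  set L := 1 - (3 - κ) * ε - 161 * (δ * ε) - 4 * (δ * m) with hLd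
  have hε1 : ε ≤ 1 / 200 := by linarith
  have h1 : δ * ε ≤ 1 / 200 * ε := mul_le_mul_of_nonneg_right hδ1 hε0.le
  have h2 : δ * m ≤ 1 / 200 * m := mul_le_mul_of_nonneg_right hδ1 hm0
  have hL1 : 1 / 2 ≤ L := by nlinarith
  have h3 : (4 + m) * (4 * L) ≤ (4 + m) * det3 a0 a1 a2 b0 b1 b2 c0 c1 c2 :=
    mul_le_mul_of_nonneg_left (by linarith) (by linarith)
  have h4 : m * (1 / 2) ≤ m * L := mul_le_mul_of_nonneg_left hL1 hm0
  have h5 : ε * ε ≤ δ * ε := mul_le_mul_of_nonneg_right hε hε0.le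
  have h6 : 0 ≤ ε * ε * ε := by positivity
  nlinarith

/-- Two neighbouring points of a column of lattice points. -/
lemma line {ε H p b c w : ℝ} (hε : 0 ≤ ε) (hH : 4 ≤ H) (hH5 : H ≤ 5)
    (h : ∀ k : ℤ, |w + k * H| < 4 → c ≤ p + b * (w + k * H) + ε * |w + k * H|) :
    c - 2 * ε * (Int.fract (w / H) * (1 - Int.fract (w / H))) * H - (|b| + ε) * (H - 4) ≤ p := by
  have hH0 : 0 < H := by linarith
  set θ := Int.fract (w / H) with hθ
  have t0 : 0 ≤ θ := Int.fract_nonneg _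
  have t1 : θ < 1 := Int.fract_lt_one _
  have e1 : w + ((-⌊w / H⌋ : ℤ) : ℝ) * H = θ * H := by
    rw [hθ, Int.fract]; push_cast; field_simp; ring
  have e2 : w + ((-⌊w / H⌋ - 1 : ℤ) : ℝ) * H = -((1 - θ) * H) := by
    rw [hθ, Int.fract]; push_cast; field_simp; ring
  have h1 := h (-⌊w / H⌋)
  have h2 := h (-⌊w / H⌋ - 1)
  have p1 : 0 ≤ θ * H := by positivity
  have p2 : 0 ≤ (1 - θ) * H := mul_nonneg (by linarith) hH0.le
  rw [e1, abs_of_nonneg p1] at h1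
  rw [e2, abs_neg, abs_of_nonneg p2] at h2
  have b1 := le_abs_self b
  have b2 := neg_abs_le b
  have b3 := abs_nonneg b
  have p3 : 0 ≤ ε * (θ * (1 - θ)) * H := by
    have : 0 ≤ 1 - θ := by linarith
    positivity
  have p4 : 0 ≤ (|b| + ε) * (H - 4) := mul_nonneg (by linarith) (by linarith)
  by_cases c1 : θ * H < 4
  · by_cases c2 : (1 - θ) * H < 4
    · have h3 := mul_le_mul_of_nonneg_left (h1 c1) (by linarith : 0 ≤ 1 - θ)
      have h4 := mul_le_mul_of_nonneg_left (h2 c2) t0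
      nlinarith
    · have h3 := h1 c1
      have h4 : θ * H ≤ H - 4 := by linarith
      have h5 : (b + ε) * (θ * H) ≤ (|b| + ε) * (H - 4) :=
        mul_le_mul (by linarith) h4 p1 (by linarith)
      nlinarith
  · have h4 : (1 - θ) * H ≤ H - 4 := by linarith
    have h3 := h2 (by linarith)
    have h5 : (-b + ε) * ((1 - θ) * H) ≤ (|b| + ε) * (H - 4) :=
      mul_le_mul (by linarith) h4 p2 (by linarith)
    nlinarith

lemma kuhn_sorted {g0 g1 g2 : ℝ} (ω0 ω1 ω2 : ℝ) (h0 : g0 ≤ 1) (h1 : g1 ≤ g0) (h2 : g2 ≤ g1)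
    (h3 : 0 ≤ g2) :
    g0 * ω0 + g1 * ω1 + g2 * ω2 ≤ 0 ∨ (g0 - 1) * ω0 + g1 * ω1 + g2 * ω2 ≤ 0 ∨
      (g0 - 1) * ω0 + (g1 - 1) * ω1 + g2 * ω2 ≤ 0 ∨
      (g0 - 1) * ω0 + (g1 - 1) * ω1 + (g2 - 1) * ω2 ≤ 0 := by
  by_contra hc
  push Not at hc
  obtain ⟨c0, c1, c2, c3⟩ := hc
  set μ := min (min (g0 * ω0 + g1 * ω1 + g2 * ω2) ((g0 - 1) * ω0 + g1 * ω1 + g2 * ω2))
    (min ((g0 - 1) * ω0 + (g1 - 1) * ω1 + g2 * ω2)
      ((g0 - 1) * ω0 + (g1 - 1) * ω1 + (g2 - 1) * ω2)) with hμ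
  have hμ0 : 0 < μ := lt_min (lt_min c0 c1) (lt_min c2 c3)
  have m0 : μ ≤ g0 * ω0 + g1 * ω1 + g2 * ω2 := (min_le_left _ _).trans (min_le_left _ _)
  have m1 : μ ≤ (g0 - 1) * ω0 + g1 * ω1 + g2 * ω2 := (min_le_left _ _).trans (min_le_right _ _)
  have m2 : μ ≤ (g0 - 1) * ω0 + (g1 - 1) * ω1 + g2 * ω2 :=
    (min_le_right _ _).trans (min_le_left _ _)
  have m3 : μ ≤ (g0 - 1) * ω0 + (g1 - 1) * ω1 + (g2 - 1) * ω2 :=
    (min_le_right _ _).trans (min_le_right _ _)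
  have k0 := mul_le_mul_of_nonneg_left m0 (by linarith : 0 ≤ 1 - g0)
  have k1 := mul_le_mul_of_nonneg_left m1 (by linarith : 0 ≤ g0 - g1)
  have k2 := mul_le_mul_of_nonneg_left m2 (by linarith : 0 ≤ g1 - g2)
  have k3 := mul_le_mul_of_nonneg_left m3 h3
  nlinarith

/-- The numbers `0, c0, c1, c2` lie in an interval of length one. -/
def Spread (c0 c1 c2 : ℝ) : Prop :=
  c0 ≤ 1 ∧ -1 ≤ c0 ∧ c1 ≤ 1 ∧ -1 ≤ c1 ∧ c2 ≤ 1 ∧ -1 ≤ c2 ∧ c0 - c1 ≤ 1 ∧ c1 - c0 ≤ 1 ∧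
    c0 - c2 ≤ 1 ∧ c2 - c0 ≤ 1 ∧ c1 - c2 ≤ 1 ∧ c2 - c1 ≤ 1

lemma kuhn (f0 f1 f2 ω0 ω1 ω2 : ℝ) : ∃ i j l : ℤ, Spread (f0 - i) (f1 - j) (f2 - l) ∧
    (f0 - i) * ω0 + (f1 - j) * ω1 + (f2 - l) * ω2 ≤ 0 := by
  have core : ∀ g0 g1 g2 : ℝ, 0 ≤ g0 → g0 ≤ 1 → 0 ≤ g1 → g1 ≤ 1 → 0 ≤ g2 → g2 ≤ 1 →
      ∃ i j l : ℤ, Spread (g0 - i) (g1 - j) (g2 - l) ∧
        (g0 - i) * ω0 + (g1 - j) * ω1 + (g2 - l) * ω2 ≤ 0 := by
    intro g0 g1 g2 a0 b0 a1 b1 a2 b2
    have mk : ∀ i j l : ℤ, Spread (g0 - i) (g1 - j) (g2 - l) →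
        (g0 - i) * ω0 + (g1 - j) * ω1 + (g2 - l) * ω2 ≤ 0 → ∃ i j l : ℤ,
        Spread (g0 - i) (g1 - j) (g2 - l) ∧
        (g0 - i) * ω0 + (g1 - j) * ω1 + (g2 - l) * ω2 ≤ 0 := fun i j l h1 h2 => ⟨i, j, l, h1, h2⟩
    rcases le_total g0 g1 with h01 | h01 <;> rcases le_total g1 g2 with h12 | h12 <;>
      rcases le_total g0 g2 with h02 | h02
    all_goals first
      | (rcases kuhn_sorted ω0 ω1 ω2 b0 h01 h12 a2 with h | h | h | h
         · exact mk 0 0 0 (by unfold Spread; push_cast; and_intros <;> linarith) (by push_cast; linarith)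
         · exact mk 1 0 0 (by unfold Spread; push_cast; and_intros <;> linarith) (by push_cast; linarith)
         · exact mk 1 1 0 (by unfold Spread; push_cast; and_intros <;> linarith) (by push_cast; linarith)
         · exact mk 1 1 1 (by unfold Spread; push_cast; and_intros <;> linarith) (by push_cast; linarith))
      | (rcases kuhn_sorted ω0 ω2 ω1 b0 h02 h12 a1 with h | h | h | h
         · exact mk 0 0 0 (by unfold Spread; push_cast; and_intros <;> linarith) (by push_cast; linarith)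
         · exact mk 1 0 0 (by unfold Spread; push_cast; and_intros <;> linarith) (by push_cast; linarith)
         · exact mk 1 0 1 (by unfold Spread; push_cast; and_intros <;> linarith) (by push_cast; linarith)
         · exact mk 1 1 1 (by unfold Spread; push_cast; and_intros <;> linarith) (by push_cast; linarith))
      | (rcases kuhn_sorted ω1 ω0 ω2 b1 h01 h02 a2 with h | h | h | h
         · exact mk 0 0 0 (by unfold Spread; push_cast; and_intros <;> linarith) (by push_cast; linarith)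
         · exact mk 0 1 0 (by unfold Spread; push_cast; and_intros <;> linarith) (by push_cast; linarith)
         · exact mk 1 1 0 (by unfold Spread; push_cast; and_intros <;> linarith) (by push_cast; linarith)
         · exact mk 1 1 1 (by unfold Spread; push_cast; and_intros <;> linarith) (by push_cast; linarith))
      | (rcases kuhn_sorted ω1 ω2 ω0 b1 h12 h02 a0 with h | h | h | h
         · exact mk 0 0 0 (by unfold Spread; push_cast; and_intros <;> linarith) (by push_cast; linarith)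
         · exact mk 0 1 0 (by unfold Spread; push_cast; and_intros <;> linarith) (by push_cast; linarith)
         · exact mk 0 1 1 (by unfold Spread; push_cast; and_intros <;> linarith) (by push_cast; linarith)
         · exact mk 1 1 1 (by unfold Spread; push_cast; and_intros <;> linarith) (by push_cast; linarith))
      | (rcases kuhn_sorted ω2 ω0 ω1 b2 h02 h01 a1 with h | h | h | h
         · exact mk 0 0 0 (by unfold Spread; push_cast; and_intros <;> linarith) (by push_cast; linarith)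
         · exact mk 0 0 1 (by unfold Spread; push_cast; and_intros <;> linarith) (by push_cast; linarith)
         · exact mk 1 0 1 (by unfold Spread; push_cast; and_intros <;> linarith) (by push_cast; linarith)
         · exact mk 1 1 1 (by unfold Spread; push_cast; and_intros <;> linarith) (by push_cast; linarith))
      | (rcases kuhn_sorted ω2 ω1 ω0 b2 h12 h01 a0 with h | h | h | h
         · exact mk 0 0 0 (by unfold Spread; push_cast; and_intros <;> linarith) (by push_cast; linarith)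
         · exact mk 0 0 1 (by unfold Spread; push_cast; and_intros <;> linarith) (by push_cast; linarith)
         · exact mk 0 1 1 (by unfold Spread; push_cast; and_intros <;> linarith) (by push_cast; linarith)
         · exact mk 1 1 1 (by unfold Spread; push_cast; and_intros <;> linarith) (by push_cast; linarith))
  obtain ⟨i, j, l, h⟩ := core (Int.fract f0) (Int.fract f1) (Int.fract f2) (Int.fract_nonneg _)
    (Int.fract_lt_one _).le (Int.fract_nonneg _) (Int.fract_lt_one _).le (Int.fract_nonneg _)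
    (Int.fract_lt_one _).le
  refine ⟨⌊f0⌋ + i, ⌊f1⌋ + j, ⌊f2⌋ + l, ?_⟩
  have e : ∀ (f : ℝ) (i : ℤ), f - ((⌊f⌋ + i : ℤ) : ℝ) = Int.fract f - i := fun f i => by
    rw [Int.fract]; push_cast; ring
  rw [e, e, e]
  exact h

lemma spread_cases {c0 c1 c2 : ℝ} (h : Spread c0 c1 c2) :
    (|c0 + c1 - c2| < 2 ∧ |c0 - c1 + c2| < 2 ∧ |c0 - c1 - c2| < 2 ∧ |3 * c0 - c1 - c2| < 3 ∧
      |-c0 + 3 * c1 - c2| < 3 ∧ |-c0 - c1 + 3 * c2| < 3 ∧ |-c0 - c1 - c2| < 3) ∨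
    ∃ i j l : ℤ, c0 = i ∧ c1 = j ∧ c2 = l := by
  obtain ⟨h1, h2, h3, h4, h5, h6, h7, h8, h9, h10, h11, h12⟩ := h
  by_contra hc
  rw [not_or] at hc
  obtain ⟨hc, hi⟩ := hc
  have mk : ∀ i j l : ℤ, c0 = i → c1 = j → c2 = l → False := fun i j l a b c => hi ⟨i, j, l, a, b, c⟩
  apply hc
  refine ⟨?_, ?_, ?_, ?_, ?_, ?_, ?_⟩ <;> rw [abs_lt] <;> constructor <;> by_contra hh
  · exact mk (-1) (-1) 0 (by push_cast; linarith) (by push_cast; linarith) (by push_cast; linarith)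
  · exact mk 1 1 0 (by push_cast; linarith) (by push_cast; linarith) (by push_cast; linarith)
  · exact mk (-1) 0 (-1) (by push_cast; linarith) (by push_cast; linarith) (by push_cast; linarith)
  · exact mk 1 0 1 (by push_cast; linarith) (by push_cast; linarith) (by push_cast; linarith)
  · exact mk 0 1 1 (by push_cast; linarith) (by push_cast; linarith) (by push_cast; linarith)
  · exact mk 0 (-1) (-1) (by push_cast; linarith) (by push_cast; linarith) (by push_cast; linarith)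
  · exact mk (-1) 0 0 (by push_cast; linarith) (by push_cast; linarith) (by push_cast; linarith)
  · exact mk 1 0 0 (by push_cast; linarith) (by push_cast; linarith) (by push_cast; linarith)
  · exact mk 0 (-1) 0 (by push_cast; linarith) (by push_cast; linarith) (by push_cast; linarith)
  · exact mk 0 1 0 (by push_cast; linarith) (by push_cast; linarith) (by push_cast; linarith)
  · exact mk 0 0 (-1) (by push_cast; linarith) (by push_cast; linarith) (by push_cast; linarith)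
  · exact mk 0 0 1 (by push_cast; linarith) (by push_cast; linarith) (by push_cast; linarith)
  · exact mk 1 1 1 (by push_cast; linarith) (by push_cast; linarith) (by push_cast; linarith)
  · exact mk (-1) (-1) (-1) (by push_cast; linarith) (by push_cast; linarith)
      (by push_cast; linarith)

end Pool.Agent.P.MP_c4753b_co
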