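import Mathlib

/-!
Rigidity: a subgroup of `ℝ^4` that packs and covers with the prism over the truncated
octahedron consists of columns or of layers.
-/

namespace Pool.Agent.P.MP_c4753b_co

/-- Packing and covering properties of a limit group, in coordinates. -/
structure Lim (M : ℝ → ℝ → ℝ → ℝ → Prop) : Prop where
  sub : ∀ {x y z w x' y' z' w' : ℝ}, M x y z w → M x' y' z' w' →
    M (x - x') (y - y') (z - z') (w - w')
  adm : ∀ {x y z w : ℝ}, M x y z w → |w| < 4 → |x| < 2 → |y| < 2 → |z| < 2 →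
    |x| + |y| + |z| < 3 → x = 0 ∧ y = 0 ∧ z = 0 ∧ w = 0
  cov : ∀ x y z w : ℝ, (3 / 2 ≤ |x| + |y| + |z| ∨ 2 ≤ |w|) → ∃ p q r s : ℝ, M p q r s ∧
    ¬(p = 0 ∧ q = 0 ∧ r = 0 ∧ s = 0) ∧ |w - s| ≤ 2 ∧ |x - p| ≤ 1 ∧ |y - q| ≤ 1 ∧ |z - r| ≤ 1 ∧
    |x - p| + |y - q| + |z - r| ≤ 3 / 2

variable {M : ℝ → ℝ → ℝ → ℝ → Prop}

lemma abs_neg_sub (a b : ℝ) : |-a - b| = |a - -b| := by
  rw [← abs_neg]; congr 1; ring

lemma Lim.flip_b (h : Lim M) : Lim fun x y z w => M x (-y) (-z) w where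
  sub {x y z w x' y' z' w'} h1 h2 := by
    have := h.sub h1 h2
    rwa [show -y - -y' = -(y - y') by ring, show -z - -z' = -(z - z') by ring] at this
  adm h1 a b c d e := by
    have := h.adm h1 a b (by rwa [abs_neg]) (by rwa [abs_neg]) (by rwa [abs_neg, abs_neg])
    simpa using this
  cov x y z w h1 := by
    obtain ⟨p, q, r, s, h2, h3, h4⟩ := h.cov x (-y) (-z) w (by rwa [abs_neg, abs_neg])
    refine ⟨p, -q, -r, s, by simpa using h2, by simpa using h3, ?_⟩
    rwa [abs_neg_sub, abs_neg_sub] at h4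

lemma Lim.flip_c (h : Lim M) : Lim fun x y z w => M (-x) y (-z) w where
  sub {x y z w x' y' z' w'} h1 h2 := by
    have := h.sub h1 h2
    rwa [show -x - -x' = -(x - x') by ring, show -z - -z' = -(z - z') by ring] at this
  adm h1 a b c d e := by
    have := h.adm h1 a (by rwa [abs_neg]) c (by rwa [abs_neg]) (by rwa [abs_neg, abs_neg])
    simpa using this
  cov x y z w h1 := by
    obtain ⟨p, q, r, s, h2, h3, h4⟩ := h.cov (-x) y (-z) w (by rwa [abs_neg, abs_neg])
    refine ⟨-p, q, -r, s, by simpa using h2, by simpa using h3, ?_⟩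
    rwa [abs_neg_sub, abs_neg_sub] at h4

lemma Lim.stepA (h : Lim M) {x y z s : ℝ} (x0 : 0 < x) (x1 : x < 1) (y0 : 0 < y) (y1 : y < 1)
    (z0 : 0 < z) (z1 : z < 1) (hs : |s| < 2) (hsum : x + y + z = 3 / 2) :
    ∃ p q r w, M p q r w ∧ |s - w| ≤ 2 ∧ p + q + r = 3 ∧ x ≤ p ∧ p ≤ x + 1 ∧ y ≤ q ∧ q ≤ y + 1 ∧
      z ≤ r ∧ r ≤ z + 1 := by
  obtain ⟨p, q, r, w, h1, h2, h3, h4, h5, h6, h7⟩ := h.cov x y z s (Or.inl (by
    rw [abs_of_pos x0, abs_of_pos y0, abs_of_pos z0]; linarith))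
  have h8 : 3 ≤ |p| + |q| + |r| := by
    by_contra hc
    rw [abs_le] at h3 h4 h5 h6
    rw [abs_lt] at hs
    exact h2 (h.adm h1 (by rw [abs_lt]; constructor <;> linarith)
      (by rw [abs_lt]; constructor <;> linarith) (by rw [abs_lt]; constructor <;> linarith)
      (by rw [abs_lt]; constructor <;> linarith) (not_le.1 hc))
  have a1 : |p| ≤ x + |x - p| := by cases abs_cases p <;> cases abs_cases (x - p) <;> linarith
  have a2 : |q| ≤ y + |y - q| := by cases abs_cases q <;> cases abs_cases (y - q) <;> linarith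
  have a3 : |r| ≤ z + |z - r| := by cases abs_cases r <;> cases abs_cases (z - r) <;> linarith
  have b1 : p = x + |x - p| := by cases abs_cases p <;> cases abs_cases (x - p) <;> linarith
  have b2 : q = y + |y - q| := by cases abs_cases q <;> cases abs_cases (y - q) <;> linarith
  have b3 : r = z + |z - r| := by cases abs_cases r <;> cases abs_cases (z - r) <;> linarith
  have c1 := abs_nonneg (x - p)
  have c2 := abs_nonneg (y - q)
  have c3 := abs_nonneg (z - r)
  have d1 := le_abs_self p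
  have d2 := le_abs_self q
  have d3 := le_abs_self r
  have e1 : |p| = p := abs_of_nonneg (by linarith)
  have e2 : |q| = q := abs_of_nonneg (by linarith)
  have e3 : |r| = r := abs_of_nonneg (by linarith)
  exact ⟨p, q, r, w, h1, h3, by linarith, by linarith, by linarith, by linarith, by linarith,
    by linarith, by linarith⟩

lemma Lim.close (h : Lim M) {x y z w : ℝ} (h1 : M x y z w) (hw : |w| < 4) (hs : x + y + z = 0)
    (hx : |x| < 3 / 2) (hy : |y| < 3 / 2) (hz : |z| < 3 / 2) : x = 0 ∧ y = 0 ∧ z = 0 ∧ w = 0 := by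
  refine h.adm h1 hw (by linarith) (by linarith) (by linarith) ?_
  cases abs_cases x <;> cases abs_cases y <;> cases abs_cases z <;> linarith

lemma Lim.stepB (h : Lim M) {s : ℝ} (hs : |s| < 2) : ∃ w, M 1 1 1 w ∧ |s - w| ≤ 2 := by
  obtain ⟨p, q, r, w, h1, h2, h3, p1, p2, q1, q2, r1, r2⟩ := h.stepA (x := 1 / 2) (y := 1 / 2)
    (z := 1 / 2) (by norm_num) (by norm_num) (by norm_num) (by norm_num) (by norm_num)
    (by norm_num) hs (by norm_num)
  have hw : |w / 2| < 2 := by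
    rw [abs_le] at h2; rw [abs_lt] at hs ⊢; constructor <;> linarith
  have hw2 : ∀ w', |w / 2 - w'| ≤ 2 → |w' - w| < 4 := fun w' h' => by
    rw [abs_le] at h'; rw [abs_lt] at hw ⊢; constructor <;> linarith
  have hp : p ≤ 1 := by
    by_contra hc
    obtain ⟨p', q', r', w', k1, k2, k3, k4, k5, k6, k7, k8, k9⟩ := h.stepA (x := (p - 1) / 2)
      (y := (3 / 2 - (p - 1) / 2) / 2) (z := (3 / 2 - (p - 1) / 2) / 2) (by linarith) (by linarith)
      (by linarith) (by linarith) (by linarith) (by linarith) hw (by ring)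
    have := (h.close (h.sub k1 h1) (hw2 _ k2) (by linarith)
      (by rw [abs_lt]; constructor <;> linarith) (by rw [abs_lt]; constructor <;> linarith)
      (by rw [abs_lt]; constructor <;> linarith)).1
    linarith
  have hq : q ≤ 1 := by
    by_contra hc
    obtain ⟨p', q', r', w', k1, k2, k3, k4, k5, k6, k7, k8, k9⟩ := h.stepA (y := (q - 1) / 2)
      (x := (3 / 2 - (q - 1) / 2) / 2) (z := (3 / 2 - (q - 1) / 2) / 2) (by linarith) (by linarith)
      (by linarith) (by linarith) (by linarith) (by linarith) hw (by ring)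
    have := (h.close (h.sub k1 h1) (hw2 _ k2) (by linarith)
      (by rw [abs_lt]; constructor <;> linarith) (by rw [abs_lt]; constructor <;> linarith)
      (by rw [abs_lt]; constructor <;> linarith)).2.1
    linarith
  have hr : r ≤ 1 := by
    by_contra hc
    obtain ⟨p', q', r', w', k1, k2, k3, k4, k5, k6, k7, k8, k9⟩ := h.stepA (z := (r - 1) / 2)
      (x := (3 / 2 - (r - 1) / 2) / 2) (y := (3 / 2 - (r - 1) / 2) / 2) (by linarith) (by linarith)
      (by linarith) (by linarith) (by linarith) (by linarith) hw (by ring)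
    have := (h.close (h.sub k1 h1) (hw2 _ k2) (by linarith)
      (by rw [abs_lt]; constructor <;> linarith) (by rw [abs_lt]; constructor <;> linarith)
      (by rw [abs_lt]; constructor <;> linarith)).2.2.1
    linarith
  obtain rfl : p = 1 := by linarith
  obtain rfl : q = 1 := by linarith
  obtain rfl : r = 1 := by linarith
  exact ⟨w, h1, h2⟩

lemma Lim.sep (h : Lim M) {w w' : ℝ} (h1 : M 1 1 1 w) (h2 : M 1 1 1 w') (h3 : |w - w'| < 4) :
    w = w' := by
  have := (h.close (h.sub h1 h2) h3 (by ring) (by norm_num) (by norm_num) (by norm_num)).2.2.2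
  linarith

lemma Lim.dich (h : Lim M) : M 1 1 1 0 ∨ M 0 0 0 4 := by
  obtain ⟨w0, h0, k0⟩ := h.stepB (s := 0) (by norm_num)
  rw [abs_le] at k0
  have fin : ∀ {w w' : ℝ}, M 1 1 1 w → M 1 1 1 w' → w - w' = 4 → M 0 0 0 4 := by
    intro w w' a b c
    have := h.sub a b
    rwa [sub_self, c] at this
  rcases lt_trichotomy w0 0 with hw | rfl | hw
  · right
    obtain ⟨w1, h1, k1⟩ := h.stepB (s := 2 + w0 / 2) (by rw [abs_lt]; constructor <;> linarith)
    rw [abs_le] at k1
    have a1 : w0 + 4 ≤ w1 := by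
      by_contra hc
      have := h.sep h1 h0 (by rw [abs_lt]; constructor <;> linarith)
      linarith
    rcases a1.eq_or_lt with a2 | a2
    · exact fin h1 h0 (by linarith)
    obtain ⟨w2, h2, k2⟩ := h.stepB (s := (w0 + w1) / 2) (by rw [abs_lt]; constructor <;> linarith)
    rw [abs_le] at k2
    have a3 : w0 + 4 ≤ w2 := by
      by_contra hc
      have := h.sep h2 h0 (by rw [abs_lt]; constructor <;> linarith)
      linarith
    have := h.sep h2 h1 (by rw [abs_lt]; constructor <;> linarith)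
    linarith
  · exact Or.inl h0
  · right
    obtain ⟨w1, h1, k1⟩ := h.stepB (s := -2 + w0 / 2) (by rw [abs_lt]; constructor <;> linarith)
    rw [abs_le] at k1
    have a1 : w1 ≤ w0 - 4 := by
      by_contra hc
      have := h.sep h1 h0 (by rw [abs_lt]; constructor <;> linarith)
      linarith
    rcases a1.eq_or_lt with a2 | a2
    · exact fin h0 h1 (by linarith)
    obtain ⟨w2, h2, k2⟩ := h.stepB (s := (w0 + w1) / 2) (by rw [abs_lt]; constructor <;> linarith)
    rw [abs_le] at k2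
    have a3 : w2 ≤ w0 - 4 := by
      by_contra hc
      have := h.sep h2 h0 (by rw [abs_lt]; constructor <;> linarith)
      linarith
    have := h.sep h2 h1 (by rw [abs_lt]; constructor <;> linarith)
    linarith

lemma Lim.top (h : Lim M) : ∃ p q r, M p q r 4 ∧ |p| ≤ 1 ∧ |q| ≤ 1 ∧ |r| ≤ 1 := by
  obtain ⟨p, q, r, s, h1, h2, h3, h4, h5, h6, h7⟩ := h.cov 0 0 0 2 (Or.inr (by norm_num))
  simp only [zero_sub, abs_neg] at h4 h5 h6 h7
  rw [abs_le] at h3
  have : 4 ≤ s := by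
    by_contra hc
    exact h2 (h.adm h1 (by rw [abs_lt]; constructor <;> linarith) (by linarith) (by linarith)
      (by linarith) (by linarith))
  obtain rfl : s = 4 := by linarith
  exact ⟨p, q, r, h1, h4, h5, h6⟩

theorem Lim.classify (h : Lim M) :
    (M 0 0 0 4 ∧ ∃ ta tb tc, M 1 1 1 ta ∧ M 1 (-1) (-1) tb ∧ M (-1) 1 (-1) tc) ∨
    (¬M 0 0 0 4 ∧ M 1 1 1 0 ∧ M 1 (-1) (-1) 0 ∧ M (-1) 1 (-1) 0 ∧
      ∃ p q r, M p q r 4 ∧ |p| ≤ 1 ∧ |q| ≤ 1 ∧ |r| ≤ 1) := by
  by_cases h4 : M 0 0 0 4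
  · obtain ⟨ta, ha, -⟩ := h.stepB (s := 0) (by norm_num)
    obtain ⟨tb, hb, -⟩ := h.flip_b.stepB (s := 0) (by norm_num)
    obtain ⟨tc, hc, -⟩ := h.flip_c.stepB (s := 0) (by norm_num)
    exact Or.inl ⟨h4, ta, tb, tc, ha, hb, hc⟩
  · refine Or.inr ⟨h4, h.dich.resolve_right h4, h.flip_b.dich.resolve_right ?_,
      h.flip_c.dich.resolve_right ?_, h.top⟩
    · simpa using h4
    · simpa using h4

lemma special_heights {ta tb tc : ℝ} (h0 : Int.fract ((ta + tb) / 4) = 1 / 2)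
    (h1 : Int.fract ((ta + tc) / 4) = 1 / 2) (h2 : Int.fract (-(tb + tc) / 4) = 1 / 2) :
    ∃ σ : ℝ, (σ = 1 ∨ σ = -1) ∧ ∃ ka kb kc : ℤ, ta - ka * 4 = σ ∧ tb - kb * 4 = σ ∧
      tc - kc * 4 = σ := by
  rw [Int.fract] at h0 h1 h2
  set p0 := ⌊(ta + tb) / 4⌋
  set p1 := ⌊(ta + tc) / 4⌋
  set p2 := ⌊-(tb + tc) / 4⌋
  rcases Int.even_or_odd' (p0 + p1 + p2) with ⟨k, hk | hk⟩
  · have hk' : (p0 : ℝ) + p1 + p2 = 2 * k := by exact_mod_cast hk
    refine ⟨-1, Or.inr rfl, k + 1, p0 - k, p1 - k, ?_, ?_, ?_⟩ <;> push_cast <;> linarith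
  · have hk' : (p0 : ℝ) + p1 + p2 = 2 * k + 1 := by exact_mod_cast hk
    refine ⟨1, Or.inl rfl, k + 1, p0 - k - 1, p1 - k - 1, ?_, ?_, ?_⟩ <;> push_cast <;> linarith

end Pool.Agent.P.MP_c4753b_co
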