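import Pool.Agent.P.MP_c4753b_co.Det
import Pool.Agent.P.MP_c4753b_co.Rigid

/-!
The limit argument: no sequence of admissible lattices of small determinant exists.
-/

namespace Pool.Agent.P.MP_c4753b_co

open Filter Topology

/-- A determinant of order four, expanded along the last column. -/
def det4 (a0 a1 a2 a3 b0 b1 b2 b3 c0 c1 c2 c3 u0 u1 u2 u3 : ℝ) : ℝ :=
  u3 * det3 a0 a1 a2 b0 b1 b2 c0 c1 c2 - c3 * det3 a0 a1 a2 b0 b1 b2 u0 u1 u2 +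
    b3 * det3 a0 a1 a2 c0 c1 c2 u0 u1 u2 - a3 * det3 b0 b1 b2 c0 c1 c2 u0 u1 u2

/-- Properties, in coordinates, of an admissible lattice of small determinant. -/
structure Lat (ε η : ℝ) (L : ℝ → ℝ → ℝ → ℝ → Prop) : Prop where
  add : ∀ {x y z w x' y' z' w' : ℝ}, L x y z w → L x' y' z' w' →
    L (x + x') (y + y') (z + z') (w + w')
  zmul : ∀ {x y z w : ℝ} (k : ℤ), L x y z w → L (k * x) (k * y) (k * z) (k * w)
  adm : ∀ {x y z w : ℝ}, L x y z w → Lt ε 1 x y z w → x = 0 ∧ y = 0 ∧ z = 0 ∧ w = 0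
  cov : ∀ x y z w : ℝ, (3 / 2 ≤ |x| + |y| + |z| ∨ 2 ≤ |w|) → ∃ p q r s : ℝ, L p q r s ∧
    ¬(p = 0 ∧ q = 0 ∧ r = 0 ∧ s = 0) ∧ |(1 + 2 * η) * w - s| ≤ 2 * (1 + η) ∧
    |(1 + 2 * η) * x - p| ≤ 1 + η ∧ |(1 + 2 * η) * y - q| ≤ 1 + η ∧
    |(1 + 2 * η) * z - r| ≤ 1 + η ∧
    |(1 + 2 * η) * x - p| + |(1 + 2 * η) * y - q| + |(1 + 2 * η) * z - r| ≤ 3 / 2 * (1 + η)
  idx : ∀ {a0 a1 a2 a3 b0 b1 b2 b3 c0 c1 c2 c3 u0 u1 u2 u3 : ℝ}, L a0 a1 a2 a3 → L b0 b1 b2 b3 →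
    L c0 c1 c2 c3 → L u0 u1 u2 u3 →
    16 * (1 - ε) ^ 3 + ε ^ 2 ≤ det4 a0 a1 a2 a3 b0 b1 b2 b3 c0 c1 c2 c3 u0 u1 u2 u3 →
    20 < det4 a0 a1 a2 a3 b0 b1 b2 b3 c0 c1 c2 c3 u0 u1 u2 u3

section finite

variable {κ δ ε η H s0 s1 s2 a0 a1 a2 wa b0 b1 b2 wb c0 c1 c2 wc : ℝ} {L : ℝ → ℝ → ℝ → ℝ → Prop}

lemma triple {p q r : ℝ} (hp : |p - 1| ≤ 1 / 100) (hq : |q - 1| ≤ 1 / 100)
    (hr : |r - 1| ≤ 1 / 100) : 9 / 10 ≤ p * q * r ∧ p * q * r ≤ 11 / 10 := by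
  rw [abs_le] at hp hq hr
  have h1 : 98 / 100 ≤ p * q := by nlinarith
  have h2 : p * q ≤ 103 / 100 := by nlinarith
  constructor <;> nlinarith

lemma det3_bounds (hn : Near (1 / 100) a0 a1 a2 b0 b1 b2 c0 c1 c2) :
    3 ≤ det3 a0 a1 a2 b0 b1 b2 c0 c1 c2 ∧ det3 a0 a1 a2 b0 b1 b2 c0 c1 c2 ≤ 47 / 10 := by
  obtain ⟨n1, n2, n3, n4, n5, n6, n7, n8, n9⟩ := hn
  have ng : ∀ t : ℝ, |t + 1| ≤ 1 / 100 → |-t - 1| ≤ 1 / 100 := fun t h => by
    rw [abs_le] at h ⊢; constructor <;> linarith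
  have t1 := triple n1 (ng _ n5) (ng _ n9)
  have t2 := triple n1 (ng _ n6) n8
  have t3 := triple n2 n4 (ng _ n9)
  have t4 := triple n2 (ng _ n6) (ng _ n7)
  have t5 := triple n3 n4 n8
  have t6 := triple n3 (ng _ n5) (ng _ n7)
  unfold det3
  constructor <;> nlinarith [t1.1, t1.2, t2.1, t2.2, t3.1, t3.2, t4.1, t4.2, t5.1, t5.2, t6.1, t6.2]

lemma Lat.neg (h : Lat ε η L) {x y z w : ℝ} (h1 : L x y z w) : L (-x) (-y) (-z) (-w) := by
  simpa using h.zmul (-1) h1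

lemma Lat.line (h : Lat ε η L) (hu : L (s0 * H) (s1 * H) (s2 * H) H) {x y z w : ℝ}
    (hv : L (x + s0 * w) (y + s1 * w) (z + s2 * w) w) (hne : x ≠ 0 ∨ y ≠ 0 ∨ z ≠ 0) :
    LineAdm ε H s0 s1 s2 x y z w := by
  intro k hk
  have h1 := h.add hv (h.zmul k hu)
  rw [show x + s0 * w + k * (s0 * H) = x + s0 * (w + k * H) by ring,
    show y + s1 * w + k * (s1 * H) = y + s1 * (w + k * H) by ring,
    show z + s2 * w + k * (s2 * H) = z + s2 * (w + k * H) by ring] at h1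
  obtain ⟨e0, e1, e2, e3⟩ := h.adm h1 hk
  rw [e3] at e0 e1 e2
  rcases hne with h | h | h <;> apply h <;> linarith

lemma Lat.col (h : Lat ε η L) (hκ : κ ≤ 1) (hδ : δ ≤ κ / 2000) (hε0 : 0 < ε) (hε : ε ≤ δ)
    (hH : 4 ≤ H) (hH' : H ≤ 4 + δ) (h0 : |s0| ≤ δ) (h1 : |s1| ≤ δ) (h2 : |s2| ≤ δ)
    (hn : Near δ a0 a1 a2 b0 b1 b2 c0 c1 c2) (hu : L (s0 * H) (s1 * H) (s2 * H) H)
    (ha : L (a0 + s0 * wa) (a1 + s1 * wa) (a2 + s2 * wa) wa)
    (hb : L (b0 + s0 * wb) (b1 + s1 * wb) (b2 + s2 * wb) wb)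
    (hc : L (c0 + s0 * wc) (c1 + s1 * wc) (c2 + s2 * wc) wc)
    (hτ : qq ((wa + wb) / H) + qq ((wa + wc) / H) + qq (-(wb + wc) / H) ≤ 3 / 4 - κ / 4 ∨
      (κ = 1 / 8 ∧ ∃ σ : ℝ, (σ = 1 ∨ σ = -1) ∧ |wa - σ| ≤ δ ∧ |wb - σ| ≤ δ ∧ |wc - σ| ≤ δ)) :
    False := by
  have hn' := hn
  obtain ⟨n1, n2, n3, n4, n5, n6, n7, n8, n9⟩ := hn'
  rw [abs_le] at n1 n2 n3 n4 n5 n6 n7 n8 n9
  have hadm : ColAdm ε H s0 s1 s2 a0 a1 a2 wa b0 b1 b2 wb c0 c1 c2 wc := by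
    refine ⟨h.line hu ha (Or.inl (by linarith)), h.line hu hb (Or.inl (by linarith)),
      h.line hu hc (Or.inl (by linarith)), h.line hu ?_ (Or.inl (by linarith)),
      h.line hu ?_ (Or.inl (by linarith)), h.line hu ?_ (Or.inr (Or.inl (by linarith))),
      h.line hu ?_ (Or.inr (Or.inr (by linarith)))⟩
    · convert h.neg (h.add (h.add ha hb) hc) using 1 <;> ring
    · convert h.add ha hb using 1 <;> ring
    · convert h.add ha hc using 1 <;> ring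
    · convert h.neg (h.add hb hc) using 1 <;> ring
  have hin := colIneq_of_adm (by linarith) hε0.le hε h0 h1 h2 hn hadm
  have hfin := col_fin hκ hδ hε0 hε hH hH' h0 h1 h2 hn hin (by
    rcases hτ with hτ | ⟨rfl, σ, hσ, ta, tb, tc⟩
    · exact Or.inl hτ
    · exact Or.inr (col_special hσ (by linarith) hε0 hε hH hH' ta tb tc hin))
  have hd : det4 (a0 + s0 * wa) (a1 + s1 * wa) (a2 + s2 * wa) wa (b0 + s0 * wb) (b1 + s1 * wb)
      (b2 + s2 * wb) wb (c0 + s0 * wc) (c1 + s1 * wc) (c2 + s2 * wc) wc (s0 * H) (s1 * H)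
      (s2 * H) H = H * det3 a0 a1 a2 b0 b1 b2 c0 c1 c2 := by
    unfold det4 det3; ring
  have hi := h.idx ha hb hc hu (by rwa [hd])
  rw [hd] at hi
  have hb3 := det3_bounds (hn.mono (δ' := 1 / 100) (by linarith))
  nlinarith [hb3.1, hb3.2]

lemma Lat.layer {α β γ W : ℝ} (h : Lat ε η L) (hδ : δ ≤ 1 / 2000) (hε0 : 0 < ε) (hε : ε ≤ δ)
    (hn : Near δ a0 a1 a2 b0 b1 b2 c0 c1 c2) (ta : |wa| ≤ δ) (tb : |wb| ≤ δ) (tc : |wc| ≤ δ)
    (ha : L a0 a1 a2 wa) (hb : L b0 b1 b2 wb) (hc : L c0 c1 c2 wc)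
    (hu : L (α * a0 + β * b0 + γ * c0) (α * a1 + β * b1 + γ * c1) (α * a2 + β * b2 + γ * c2) W)
    (hW : 4 ≤ W) (hW' : W ≤ 4 + δ) (hs : Spread α β γ) (hneg : α * wa + β * wb + γ * wc ≤ 0) :
    False := by
  have hn' := hn
  obtain ⟨n1, n2, n3, n4, n5, n6, n7, n8, n9⟩ := hn'
  rw [abs_le] at n1 n2 n3 n4 n5 n6 n7 n8 n9
  have hfin := layer_det hδ hε0 hε hn ta tb tc
    (fun e => by linarith [(h.adm ha e).1]) (fun e => by linarith [(h.adm hb e).1])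
    (fun e => by linarith [(h.adm hc e).1])
    (fun e => by linarith [(h.adm (h.neg (h.add (h.add ha hb) hc)) e).1])
    (fun e => by linarith [(h.adm (h.add ha hb) e).1])
    (fun e => by linarith [(h.adm (h.add ha hc) e).2.1])
    (fun e => by linarith [(h.adm (h.neg (h.add hb hc)) e).2.2.1])
  have hd : det4 a0 a1 a2 wa b0 b1 b2 wb c0 c1 c2 wc (α * a0 + β * b0 + γ * c0)
      (α * a1 + β * b1 + γ * c1) (α * a2 + β * b2 + γ * c2) W =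
      (W - (α * wa + β * wb + γ * wc)) * det3 a0 a1 a2 b0 b1 b2 c0 c1 c2 := by
    unfold det4 det3; ring
  have hb3 := det3_bounds (hn.mono (δ' := 1 / 100) (by linarith))
  have hi := h.idx ha hb hc hu (by rw [hd]; nlinarith [hb3.1])
  rw [hd] at hi
  obtain ⟨u1, u2, u3, u4, u5, u6, -⟩ := hs
  have p1 := prod2 ta (abs_le.2 ⟨u2, u1⟩)
  have p2 := prod2 tb (abs_le.2 ⟨u4, u3⟩)
  have p3 := prod2 tc (abs_le.2 ⟨u6, u5⟩)
  have : W - (α * wa + β * wb + γ * wc) ≤ 41 / 10 := by linarith [p1.1, p2.1, p3.1]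
  nlinarith [hb3.1, hb3.2]

end finite

section limit

variable {U : Ultrafilter ℕ} {ε η : ℕ → ℝ} {L : ℕ → ℝ → ℝ → ℝ → ℝ → Prop}

lemma exists_lim (U : Ultrafilter ℕ) {f : ℕ → ℝ} {C : ℝ} (h : ∀ᶠ k in U, |f k| ≤ C) :
    ∃ x, Tendsto f U (𝓝 x) := by
  obtain ⟨x, -, hx⟩ := (isCompact_Icc (a := -C) (b := C)).ultrafilter_le_nhds' (U.map f)
    (by rw [Ultrafilter.mem_map]; exact h.mono fun k hk => abs_le.1 hk)
  exact ⟨x, hx⟩

lemma ev_near {l : Filter ℕ} {f : ℕ → ℝ} {x δ : ℝ} (h : Tendsto f l (𝓝 x)) (hδ : 0 < δ) :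
    ∀ᶠ k in l, |f k - x| ≤ δ := by
  have := Metric.tendsto_nhds.1 h δ hδ
  exact this.mono fun k hk => by rw [Real.dist_eq] at hk; exact hk.le

lemma ev_lt {l : Filter ℕ} {p q r : ℕ → ℝ} {x y z : ℝ} (hε0 : ∀ k, 0 < ε k)
    (hε : Tendsto ε l (𝓝 0)) (hp : Tendsto p l (𝓝 x)) (hq : Tendsto q l (𝓝 y))
    (hr : Tendsto r l (𝓝 z)) (h1 : |x| < 2) (h2 : |y| < 2) (h3 : |z| < 2) (h4 : |x + y + z| < 3)
    (h5 : |x - y - z| < 3) (h6 : |-x + y - z| < 3) (h7 : |-x - y + z| < 3) :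
    ∀ᶠ k in l, ∀ w, |w| < 4 → Lt (ε k) 1 (p k) (q k) (r k) w := by
  have key : ∀ {f : ℕ → ℝ} {t c : ℝ}, Tendsto f l (𝓝 t) → |t| < c →
      ∀ᶠ k in l, |f k| + 8 * ε k < c := by
    intro f t c hf ht
    have := (hf.abs.add (hε.const_mul 8)).eventually (gt_mem_nhds (a := c) (by simpa using ht))
    exact this
  filter_upwards [key hp h1, key hq h2, key hr h3, key ((hp.add hq).add hr) h4,
    key ((hp.sub hq).sub hr) h5, key ((hp.neg.add hq).sub hr) h6,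
    key ((hp.neg.sub hq).add hr) h7] with k k1 k2 k3 k4 k5 k6 k7 w hw
  have e0 := hε0 k
  have e1 : ε k * |w| ≤ 4 * ε k := by nlinarith
  have e2 : |ε k * w| = ε k * |w| := by rw [abs_mul, abs_of_pos e0]
  have e3 := abs_add_le (-p k + q k - r k) (ε k * w)
  have e4 := abs_sub (-p k - q k + r k) (ε k * w)
  refine ⟨by linarith, by linarith, by linarith, by linarith, by linarith, by linarith,
    by linarith, by linarith⟩

/-- The limit of the lattices along the ultrafilter. -/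
def Mlim (U : Ultrafilter ℕ) (L : ℕ → ℝ → ℝ → ℝ → ℝ → Prop) (x y z w : ℝ) : Prop :=
  ∃ p q r s : ℕ → ℝ, (∀ k, L k (p k) (q k) (r k) (s k)) ∧ Tendsto p U (𝓝 x) ∧
    Tendsto q U (𝓝 y) ∧ Tendsto r U (𝓝 z) ∧ Tendsto s U (𝓝 w)

lemma Mlim.add (h : ∀ k, Lat (ε k) (η k) (L k)) {x y z w x' y' z' w' : ℝ}
    (h1 : Mlim U L x y z w) (h2 : Mlim U L x' y' z' w') :
    Mlim U L (x + x') (y + y') (z + z') (w + w') := by
  obtain ⟨p, q, r, s, a, b, c, d, e⟩ := h1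
  obtain ⟨p', q', r', s', a', b', c', d', e'⟩ := h2
  exact ⟨_, _, _, _, fun k => (h k).add (a k) (a' k), b.add b', c.add c', d.add d', e.add e'⟩

lemma Mlim.zmul (h : ∀ k, Lat (ε k) (η k) (L k)) {x y z w : ℝ} (n : ℤ)
    (h1 : Mlim U L x y z w) : Mlim U L (n * x) (n * y) (n * z) (n * w) := by
  obtain ⟨p, q, r, s, a, b, c, d, e⟩ := h1
  exact ⟨_, _, _, _, fun k => (h k).zmul n (a k), b.const_mul _, c.const_mul _, d.const_mul _,
    e.const_mul _⟩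

lemma lim_of_lat (h : ∀ k, Lat (ε k) (η k) (L k)) (hε0 : ∀ k, 0 < ε k)
    (hε : Tendsto ε U (𝓝 0)) (hη : Tendsto η U (𝓝 0)) : Lim (Mlim U L) where
  sub h1 h2 := by
    have := h1.add h (h2.zmul h (-1))
    simpa [sub_eq_add_neg] using this
  adm {x y z w} h1 hw hx hy hz hs := by
    obtain ⟨p, q, r, s, a, b, c, d, e⟩ := h1
    have t1 := abs_add_three x y z
    have t2 : |x - y - z| ≤ |x| + |y| + |z| := by
      simpa [sub_eq_add_neg] using abs_add_three x (-y) (-z)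
    have t3 : |-x + y - z| ≤ |x| + |y| + |z| := by
      simpa [sub_eq_add_neg] using abs_add_three (-x) y (-z)
    have t4 : |-x - y + z| ≤ |x| + |y| + |z| := by
      simpa [sub_eq_add_neg] using abs_add_three (-x) (-y) z
    have k1 := ev_lt hε0 hε b c d hx hy hz (by linarith) (by linarith) (by linarith) (by linarith)
    have k2 := e.abs.eventually (gt_mem_nhds hw)
    have k3 : ∀ᶠ k in U, p k = 0 ∧ q k = 0 ∧ r k = 0 ∧ s k = 0 := by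
      filter_upwards [k1, k2] with k u v using (h k).adm (a k) (u _ v)
    have z0 : ∀ {f : ℕ → ℝ} {t : ℝ}, Tendsto f U (𝓝 t) → (∀ᶠ k in U, f k = 0) → t = 0 :=
      fun hf h0 => tendsto_nhds_unique hf (tendsto_const_nhds.congr' (h0.mono fun k hk => hk.symm))
    exact ⟨z0 b (k3.mono fun k hk => hk.1), z0 c (k3.mono fun k hk => hk.2.1),
      z0 d (k3.mono fun k hk => hk.2.2.1), z0 e (k3.mono fun k hk => hk.2.2.2)⟩
  cov x y z w h1 := by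
    choose p q r s a b c d e f g using fun k => (h k).cov x y z w h1
    have k1 := ev_near hη one_pos
    have bd : ∀ {v : ℕ → ℝ} {t : ℝ}, (∀ k, |η k| ≤ 1 → |(1 + 2 * η k) * t - v k| ≤ 4) →
        ∃ v0, Tendsto v U (𝓝 v0) ∧
          Tendsto (fun k => |(1 + 2 * η k) * t - v k|) U (𝓝 |t - v0|) := by
      intro v t hv
      obtain ⟨v0, h0⟩ := exists_lim U (f := v) (C := 4 + 3 * |t|) (by
        filter_upwards [k1] with k hk
        rw [sub_zero] at hk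
        have h2 := hv k hk
        have h3 : |(1 + 2 * η k) * t| ≤ 3 * |t| := by
          rw [abs_mul]
          refine mul_le_mul_of_nonneg_right ?_ (abs_nonneg _)
          rw [abs_le] at hk ⊢; constructor <;> linarith
        have h4 := abs_sub_abs_le_abs_sub (v k) ((1 + 2 * η k) * t)
        rw [abs_sub_comm] at h4
        linarith)
      refine ⟨v0, h0, ?_⟩
      have := ((((hη.const_mul 2).const_add 1).mul_const t).sub h0).abs
      simpa using this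
    obtain ⟨p0, hp, hp'⟩ := bd (v := p) (t := x) fun k hk => by linarith [d k, (abs_le.1 hk).2]
    obtain ⟨q0, hq, hq'⟩ := bd (v := q) (t := y) fun k hk => by linarith [e k, (abs_le.1 hk).2]
    obtain ⟨r0, hr, hr'⟩ := bd (v := r) (t := z) fun k hk => by linarith [f k, (abs_le.1 hk).2]
    obtain ⟨s0, hs, hs'⟩ := bd (v := s) (t := w) fun k hk => by linarith [c k, (abs_le.1 hk).2]
    have hη1 : Tendsto (fun k => 1 + η k) U (𝓝 1) := by simpa using hη.const_add 1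
    refine ⟨p0, q0, r0, s0, ⟨p, q, r, s, a, hp, hq, hr, hs⟩, ?_, ?_, ?_, ?_, ?_, ?_⟩
    · rintro ⟨rfl, rfl, rfl, rfl⟩
      have k2 := ev_lt hε0 hε hp hq hr (by norm_num) (by norm_num) (by norm_num) (by norm_num)
        (by norm_num) (by norm_num) (by norm_num)
      have k3 := hs.abs.eventually (gt_mem_nhds (a := 4) (by norm_num))
      obtain ⟨k, u, v⟩ := (k2.and k3).exists
      exact b k ((h k).adm (a k) (u _ v))
    · simpa using le_of_tendsto_of_tendsto' hs' (hη1.const_mul 2) c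
    · exact le_of_tendsto_of_tendsto' hp' hη1 d
    · exact le_of_tendsto_of_tendsto' hq' hη1 e
    · exact le_of_tendsto_of_tendsto' hr' hη1 f
    · simpa using le_of_tendsto_of_tendsto' ((hp'.add hq').add hr') (hη1.const_mul (3 / 2)) g

lemma continuous_qq : Continuous qq := by
  have : ContinuousOn (fun t : ℝ => t * (1 - t)) (Set.Icc 0 1) := by fun_prop
  exact this.comp_fract'' (by norm_num)

lemma ev_Near {l : Filter ℕ} {a0 a1 a2 b0 b1 b2 c0 c1 c2 : ℕ → ℝ} {δ : ℝ} (hδ : 0 < δ)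
    (h1 : Tendsto a0 l (𝓝 1)) (h2 : Tendsto a1 l (𝓝 1)) (h3 : Tendsto a2 l (𝓝 1))
    (h4 : Tendsto b0 l (𝓝 1)) (h5 : Tendsto b1 l (𝓝 (-1))) (h6 : Tendsto b2 l (𝓝 (-1)))
    (h7 : Tendsto c0 l (𝓝 (-1))) (h8 : Tendsto c1 l (𝓝 1)) (h9 : Tendsto c2 l (𝓝 (-1))) :
    ∀ᶠ k in l, Near δ (a0 k) (a1 k) (a2 k) (b0 k) (b1 k) (b2 k) (c0 k) (c1 k) (c2 k) := by
  filter_upwards [ev_near h1 hδ, ev_near h2 hδ, ev_near h3 hδ, ev_near h4 hδ, ev_near h5 hδ,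
    ev_near h6 hδ, ev_near h7 hδ, ev_near h8 hδ, ev_near h9 hδ] with k k1 k2 k3 k4 k5 k6 k7 k8 k9
  rw [sub_neg_eq_add] at k5 k6 k7 k9
  exact ⟨k1, k2, k3, k4, k5, k6, k7, k8, k9⟩

lemma col_contra (h : ∀ k, Lat (ε k) (η k) (L k)) (hε0 : ∀ k, 0 < ε k)
    (hε : Tendsto ε U (𝓝 0)) {κ ta tb tc : ℝ} (hκ0 : 0 < κ) (hκ : κ ≤ 1)
    (hu : Mlim U L 0 0 0 4) (ha : Mlim U L 1 1 1 ta) (hb : Mlim U L 1 (-1) (-1) tb)
    (hc : Mlim U L (-1) 1 (-1) tc)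
    (hτ : qq ((ta + tb) / 4) + qq ((ta + tc) / 4) + qq (-(tb + tc) / 4) < 3 / 4 - κ / 4 ∨
      (κ = 1 / 8 ∧ (ta = 1 ∨ ta = -1) ∧ tb = ta ∧ tc = ta)) : False := by
  obtain ⟨u0, u1, u2, H, lu, tu0, tu1, tu2, tH⟩ := hu
  obtain ⟨a0, a1, a2, wa, la, ta0, ta1, ta2, twa⟩ := ha
  obtain ⟨b0, b1, b2, wb, lb, tb0, tb1, tb2, twb⟩ := hb
  obtain ⟨c0, c1, c2, wc, lc, tc0, tc1, tc2, twc⟩ := hc
  have hδ : 0 < κ / 2000 := by positivity
  have sl : ∀ {u : ℕ → ℝ}, Tendsto u U (𝓝 0) → Tendsto (fun k => u k / H k) U (𝓝 0) :=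
    fun hu => by simpa [Pi.div_def] using hu.div tH (by norm_num)
  have sh : ∀ {u a w : ℕ → ℝ} {x t : ℝ}, Tendsto u U (𝓝 0) → Tendsto a U (𝓝 x) →
      Tendsto w U (𝓝 t) → Tendsto (fun k => a k - u k / H k * w k) U (𝓝 x) :=
    fun hu ha hw => by simpa using ha.sub ((sl hu).mul hw)
  have k1 := ev_Near hδ (sh tu0 ta0 twa) (sh tu1 ta1 twa) (sh tu2 ta2 twa) (sh tu0 tb0 twb)
    (sh tu1 tb1 twb) (sh tu2 tb2 twb) (sh tu0 tc0 twc) (sh tu1 tc1 twc) (sh tu2 tc2 twc)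
  have k2 := ev_lt hε0 hε tu0 tu1 tu2 (by norm_num) (by norm_num) (by norm_num) (by norm_num)
    (by norm_num) (by norm_num) (by norm_num)
  have k3 : ∀ᶠ k in U, qq ((wa k + wb k) / H k) + qq ((wa k + wc k) / H k) +
      qq (-(wb k + wc k) / H k) ≤ 3 / 4 - κ / 4 ∨ (κ = 1 / 8 ∧ ∃ σ : ℝ, (σ = 1 ∨ σ = -1) ∧
        |wa k - σ| ≤ κ / 2000 ∧ |wb k - σ| ≤ κ / 2000 ∧ |wc k - σ| ≤ κ / 2000) := by
    rcases hτ with hτ | ⟨e1, e2, rfl, rfl⟩
    · have q : ∀ {v : ℕ → ℝ} {t : ℝ}, Tendsto v U (𝓝 t) →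
          Tendsto (fun k => qq (v k / H k)) U (𝓝 (qq (t / 4))) :=
        fun hv => (continuous_qq.tendsto _).comp (hv.div tH (by norm_num))
      have := (((q (twa.add twb)).add (q (twa.add twc))).add (q (twb.add twc).neg)).eventually
        (gt_mem_nhds hτ)
      exact this.mono fun k hk => Or.inl hk.le
    · filter_upwards [ev_near twa hδ, ev_near twb hδ, ev_near twc hδ] with k v1 v2 v3
      exact Or.inr ⟨e1, _, e2, v1, v2, v3⟩
  obtain ⟨k, n1, n2, n3, n4, n5, n6, n7, n8⟩ := (k1.and (k2.and (k3.and ((ev_near hε hδ).and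
    ((ev_near tH hδ).and ((ev_near (sl tu0) hδ).and ((ev_near (sl tu1) hδ).and
      (ev_near (sl tu2) hδ)))))))).exists
  rw [sub_zero] at n4 n6 n7 n8
  rw [abs_le] at n4 n5
  have hH : 4 ≤ H k := by
    by_contra hc
    have := ((h k).adm (lu k) (n2 _ (by rw [abs_lt]; constructor <;> linarith))).2.2.2
    linarith
  have hH0 : H k ≠ 0 := by linarith
  refine (h k).col hκ le_rfl (hε0 k) n4.2 hH (by linarith) n6 n7 n8 n1 ?_ ?_ ?_ ?_ n3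
  · simpa [div_mul_cancel₀ _ hH0] using lu k
  · simpa using la k
  · simpa using lb k
  · simpa using lc k

lemma layer_contra (h : ∀ k, Lat (ε k) (η k) (L k)) (hε0 : ∀ k, 0 < ε k)
    (hε : Tendsto ε U (𝓝 0)) {p q r : ℝ} (h4 : ¬Mlim U L 0 0 0 4) (ha : Mlim U L 1 1 1 0)
    (hb : Mlim U L 1 (-1) (-1) 0) (hc : Mlim U L (-1) 1 (-1) 0) (hu : Mlim U L p q r 4)
    (hp : |p| ≤ 1) (hq : |q| ≤ 1) (hr : |r| ≤ 1) : False := by
  have ha' := ha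
  have hb' := hb
  have hc' := hc
  obtain ⟨u0, u1, u2, H, lu, tu0, tu1, tu2, tH⟩ := hu
  obtain ⟨a0, a1, a2, wa, la, ta0, ta1, ta2, twa⟩ := ha'
  obtain ⟨b0, b1, b2, wb, lb, tb0, tb1, tb2, twb⟩ := hb'
  obtain ⟨c0, c1, c2, wc, lc, tc0, tc1, tc2, twc⟩ := hc'
  have hδ : (0 : ℝ) < 1 / 2000 := by norm_num
  have k1 := ev_Near hδ ta0 ta1 ta2 tb0 tb1 tb2 tc0 tc1 tc2
  have two : ∀ {u : ℕ → ℝ} {t : ℝ}, Tendsto u U (𝓝 t) → |t| ≤ 1 → ∀ᶠ k in U, |u k| ≤ 2 :=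
    fun hu ht => (ev_near hu one_pos).mono fun k hk => by
      rw [abs_le] at ht hk ⊢; constructor <;> linarith
  have k2 : ∀ᶠ k in U, ∃ v : (ℤ × ℤ × ℤ) × ℝ × ℝ × ℝ, |(v.1.1 : ℝ)| ≤ 10 ∧ |(v.1.2.1 : ℝ)| ≤ 10 ∧
      |(v.1.2.2 : ℝ)| ≤ 10 ∧ Spread v.2.1 v.2.2.1 v.2.2.2 ∧
      u0 k - v.1.1 * a0 k - v.1.2.1 * b0 k - v.1.2.2 * c0 k =
        v.2.1 * a0 k + v.2.2.1 * b0 k + v.2.2.2 * c0 k ∧
      u1 k - v.1.1 * a1 k - v.1.2.1 * b1 k - v.1.2.2 * c1 k =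
        v.2.1 * a1 k + v.2.2.1 * b1 k + v.2.2.2 * c1 k ∧
      u2 k - v.1.1 * a2 k - v.1.2.1 * b2 k - v.1.2.2 * c2 k =
        v.2.1 * a2 k + v.2.2.1 * b2 k + v.2.2.2 * c2 k ∧
      v.2.1 * wa k + v.2.2.1 * wb k + v.2.2.2 * wc k ≤ 0 := by
    filter_upwards [k1, two tu0 hp, two tu1 hq, two tu2 hr] with k n g0 g1 g2
    have hd := (det3_bounds (n.mono (δ' := 1 / 100) (by norm_num))).1
    obtain ⟨i, j, l, α, β, γ, e⟩ := layer_reduce (wa := wa k) (wb := wb k) (wc := wc k)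
      (n.mono (δ' := 1 / 10) (by norm_num)) (by linarith) g0 g1 g2
    exact ⟨((i, j, l), α, β, γ), e⟩
  obtain ⟨v, hv⟩ := k2.choice
  obtain ⟨α0, tα⟩ := exists_lim U (f := fun k => (v k).2.1) (C := 1)
    (hv.mono fun k hk => abs_le.2 ⟨hk.2.2.2.1.2.1, hk.2.2.2.1.1⟩)
  obtain ⟨β0, tβ⟩ := exists_lim U (f := fun k => (v k).2.2.1) (C := 1)
    (hv.mono fun k hk => abs_le.2 ⟨hk.2.2.2.1.2.2.2.1, hk.2.2.2.1.2.2.1⟩)
  obtain ⟨γ0, tγ⟩ := exists_lim U (f := fun k => (v k).2.2.2) (C := 1)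
    (hv.mono fun k hk => abs_le.2 ⟨hk.2.2.2.1.2.2.2.2.2.1, hk.2.2.2.1.2.2.2.2.1⟩)
  obtain ⟨i0, ti⟩ := exists_lim U (f := fun k => ((v k).1.1 : ℝ)) (hv.mono fun k hk => hk.1)
  obtain ⟨j0, tj⟩ := exists_lim U (f := fun k => ((v k).1.2.1 : ℝ)) (hv.mono fun k hk => hk.2.1)
  obtain ⟨l0, tl⟩ := exists_lim U (f := fun k => ((v k).1.2.2 : ℝ))
    (hv.mono fun k hk => hk.2.2.1)
  have hs : Spread α0 β0 γ0 := by
    have hcl : IsClosed {t : ℝ × ℝ × ℝ | Spread t.1 t.2.1 t.2.2} := by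
      simp only [Spread, Set.ofPred_and]
      repeat' apply IsClosed.inter
      all_goals exact isClosed_le (by fun_prop) (by fun_prop)
    exact hcl.mem_of_tendsto (tα.prodMk_nhds (tβ.prodMk_nhds tγ))
      (hv.mono fun k hk => hk.2.2.2.1)
  have lr : ∀ k, L k (u0 k - (v k).1.1 * a0 k - (v k).1.2.1 * b0 k - (v k).1.2.2 * c0 k)
      (u1 k - (v k).1.1 * a1 k - (v k).1.2.1 * b1 k - (v k).1.2.2 * c1 k)
      (u2 k - (v k).1.1 * a2 k - (v k).1.2.1 * b2 k - (v k).1.2.2 * c2 k)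
      (H k - (v k).1.1 * wa k - (v k).1.2.1 * wb k - (v k).1.2.2 * wc k) := fun k => by
    have := (h k).add ((h k).add ((h k).add (lu k) ((h k).neg ((h k).zmul (v k).1.1 (la k))))
      ((h k).neg ((h k).zmul (v k).1.2.1 (lb k)))) ((h k).neg ((h k).zmul (v k).1.2.2 (lc k)))
    simpa [sub_eq_add_neg] using this
  have tW : Tendsto (fun k => H k - (v k).1.1 * wa k - (v k).1.2.1 * wb k - (v k).1.2.2 * wc k)
      U (𝓝 4) := by
    simpa using ((tH.sub (ti.mul twa)).sub (tj.mul twb)).sub (tl.mul twc)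
  have t0 : Tendsto (fun k => u0 k - (v k).1.1 * a0 k - (v k).1.2.1 * b0 k - (v k).1.2.2 * c0 k)
      U (𝓝 (α0 + β0 - γ0)) := by
    refine Tendsto.congr' (hv.mono fun k hk => hk.2.2.2.2.1.symm) ?_
    simpa [sub_eq_add_neg] using ((tα.mul ta0).add (tβ.mul tb0)).add (tγ.mul tc0)
  have t1 : Tendsto (fun k => u1 k - (v k).1.1 * a1 k - (v k).1.2.1 * b1 k - (v k).1.2.2 * c1 k)
      U (𝓝 (α0 - β0 + γ0)) := by
    refine Tendsto.congr' (hv.mono fun k hk => hk.2.2.2.2.2.1.symm) ?_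
    simpa [sub_eq_add_neg] using ((tα.mul ta1).add (tβ.mul tb1)).add (tγ.mul tc1)
  have t2 : Tendsto (fun k => u2 k - (v k).1.1 * a2 k - (v k).1.2.1 * b2 k - (v k).1.2.2 * c2 k)
      U (𝓝 (α0 - β0 - γ0)) := by
    refine Tendsto.congr' (hv.mono fun k hk => hk.2.2.2.2.2.2.1.symm) ?_
    simpa [sub_eq_add_neg] using ((tα.mul ta2).add (tβ.mul tb2)).add (tγ.mul tc2)
  rcases spread_cases hs with ⟨s1, s2, s3, s4, s5, s6, s7⟩ | ⟨i, j, l, rfl, rfl, rfl⟩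
  · have k3 := ev_lt hε0 hε t0 t1 t2 s1 s2 s3 (by convert s4 using 2; ring)
      (by convert s5 using 2; ring) (by convert s6 using 2; ring)
      (by convert s7 using 2; ring)
    obtain ⟨k, n1, n2, n3, n4, n5, n6, n7, n8⟩ := (k1.and (k3.and (hv.and ((ev_near hε hδ).and
      ((ev_near tW hδ).and ((ev_near twa hδ).and ((ev_near twb hδ).and
        (ev_near twc hδ)))))))).exists
    rw [sub_zero] at n4 n6 n7 n8
    rw [abs_le] at n4 n5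
    obtain ⟨-, -, -, m1, m2, m3, m4, m5⟩ := n3
    have hl := lr k
    have hW : 4 ≤ H k - (v k).1.1 * wa k - (v k).1.2.1 * wb k - (v k).1.2.2 * wc k := by
      by_contra hc
      have := ((h k).adm hl (n2 _ (by rw [abs_lt]; constructor <;> linarith))).2.2.2
      linarith
    rw [m2, m3, m4] at hl
    exact (h k).layer le_rfl (hε0 k) n4.2 n1 n6 n7 n8 (la k) (lb k) (lc k) hl hW (by linarith)
      m1 m5
  · apply h4
    have hm : Mlim U L (i + j - l) (i - j + l) (i - j - l) 4 := ⟨_, _, _, _, lr, t0, t1, t2, tW⟩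
    have := ((hm.add h (ha.zmul h (-i))).add h (hb.zmul h (-j))).add h (hc.zmul h (-l))
    convert this using 1 <;> push_cast <;> ring

theorem no_seq (h : ∀ k, Lat (ε k) (η k) (L k)) (hε0 : ∀ k, 0 < ε k)
    (hε : Tendsto ε atTop (𝓝 0)) (hη : Tendsto η atTop (𝓝 0)) : False := by
  have hU : (hyperfilter ℕ : Filter ℕ) ≤ atTop := by
    rw [← Nat.cofinite_eq_atTop]; exact hyperfilter_le_cofinite
  have hε' := hε.mono_left hU
  have hη' := hη.mono_left hU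
  rcases (lim_of_lat h hε0 hε' hη').classify with ⟨hu, ta, tb, tc, ha, hb, hc⟩ |
    ⟨h4, ha, hb, hc, p, q, r, hu, hp, hq, hr⟩
  · have q1 := qq_le ((ta + tb) / 4)
    have q2 := qq_le ((ta + tc) / 4)
    have q3 := qq_le (-(tb + tc) / 4)
    by_cases hτ : qq ((ta + tb) / 4) + qq ((ta + tc) / 4) + qq (-(tb + tc) / 4) < 3 / 4
    · refine col_contra h hε0 hε' (κ := min 1 (3 / 4 - (qq ((ta + tb) / 4) + qq ((ta + tc) / 4) +
        qq (-(tb + tc) / 4)))) (lt_min one_pos (by linarith)) (min_le_left _ _) hu ha hb hc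
        (Or.inl ?_)
      have := min_le_right 1 (3 / 4 - (qq ((ta + tb) / 4) + qq ((ta + tc) / 4) +
        qq (-(tb + tc) / 4)))
      linarith
    · have half : ∀ x : ℝ, 1 / 4 ≤ qq x → Int.fract x = 1 / 2 := fun x hx => by
        unfold qq at hx
        nlinarith [sq_nonneg (Int.fract x - 1 / 2)]
      obtain ⟨σ, hσ, ka, kb, kc, ea, eb, ec⟩ := special_heights (ta := ta) (tb := tb) (tc := tc)
        (half _ (by linarith)) (half _ (by linarith)) (half _ (by linarith))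
      refine col_contra h hε0 hε' (κ := 1 / 8) (ta := σ) (tb := σ) (tc := σ) (by norm_num)
        (by norm_num) hu ?_ ?_ ?_ (Or.inr ⟨rfl, hσ, rfl, rfl⟩)
      · convert ha.add h (hu.zmul h (-ka)) using 1 <;> push_cast <;> linarith
      · convert hb.add h (hu.zmul h (-kb)) using 1 <;> push_cast <;> linarith
      · convert hc.add h (hu.zmul h (-kc)) using 1 <;> push_cast <;> linarith
  · exact layer_contra h hε0 hε' h4 ha hb hc hu hp hq hr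

end limit

end Pool.Agent.P.MP_c4753b_co
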