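import Pool.Agent.P.MP_c4753b_co.Density
import Pool.Agent.P.MP_c4753b_co.Limit

/-!
The convex body, its interior, its volume, and the lower bound for the determinants of its
packing lattices.
-/

namespace Pool.Agent.P.MP_c4753b_co

open MeasureTheory Set Filter Topology Module Submodule
open scoped Pointwise ENNReal

section real

variable {ε s t x y z w x' y' z' w' : ℝ}

lemma Lt.le (h : Lt ε t x y z w) : Le ε t x y z w := by
  obtain ⟨h1, h2, h3, h4, h5, h6, h7, h8⟩ := h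
  exact ⟨h1.le, h2.le, h3.le, h4.le, h5.le, h6.le, h7.le, h8.le⟩

lemma Lt.neg (h : Lt ε t x y z w) : Lt ε t (-x) (-y) (-z) (-w) := by
  obtain ⟨h1, h2, h3, h4, h5, h6, h7, h8⟩ := h
  refine ⟨by rwa [abs_neg], by rwa [abs_neg, abs_neg], by rwa [abs_neg, abs_neg],
    by rwa [abs_neg, abs_neg], ?_, ?_, ?_, ?_⟩
  · rwa [show -x + -y + -z = -(x + y + z) by ring, abs_neg, abs_neg]
  · rwa [show -x - -y - -z = -(x - y - z) by ring, abs_neg, abs_neg]
  · rwa [show - -x + -y - -z + ε * -w = -(-x + y - z + ε * w) by ring, abs_neg]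
  · rwa [show - -x - -y + -z - ε * -w = -(-x - y + z - ε * w) by ring, abs_neg]

lemma Le.neg (h : Le ε t x y z w) : Le ε t (-x) (-y) (-z) (-w) := by
  obtain ⟨h1, h2, h3, h4, h5, h6, h7, h8⟩ := h
  refine ⟨by rwa [abs_neg], by rwa [abs_neg, abs_neg], by rwa [abs_neg, abs_neg],
    by rwa [abs_neg, abs_neg], ?_, ?_, ?_, ?_⟩
  · rwa [show -x + -y + -z = -(x + y + z) by ring, abs_neg, abs_neg]
  · rwa [show -x - -y - -z = -(x - y - z) by ring, abs_neg, abs_neg]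
  · rwa [show - -x + -y - -z + ε * -w = -(-x + y - z + ε * w) by ring, abs_neg]
  · rwa [show - -x - -y + -z - ε * -w = -(-x - y + z - ε * w) by ring, abs_neg]

lemma tri (hε : 0 ≤ ε) (x y z w x' y' z' w' : ℝ) :
    |w + w'| ≤ |w| + |w'| ∧ ε * |w + w'| ≤ ε * |w| + ε * |w'| ∧ |x + x'| ≤ |x| + |x'| ∧
    |y + y'| ≤ |y| + |y'| ∧ |z + z'| ≤ |z| + |z'| ∧
    |x + x' + (y + y') + (z + z')| ≤ |x + y + z| + |x' + y' + z'| ∧
    |x + x' - (y + y') - (z + z')| ≤ |x - y - z| + |x' - y' - z'| ∧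
    |-(x + x') + (y + y') - (z + z') + ε * (w + w')| ≤
      |-x + y - z + ε * w| + |-x' + y' - z' + ε * w'| ∧
    |-(x + x') - (y + y') + (z + z') - ε * (w + w')| ≤
      |-x - y + z - ε * w| + |-x' - y' + z' - ε * w'| := by
  refine ⟨abs_add_le _ _, ?_, abs_add_le _ _, abs_add_le _ _, abs_add_le _ _, ?_, ?_, ?_, ?_⟩
  · rw [← mul_add]; exact mul_le_mul_of_nonneg_left (abs_add_le _ _) hε
  all_goals refine le_trans (le_of_eq ?_) (abs_add_le _ _); congr 1; ring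

lemma Lt.add (hε : 0 ≤ ε) (h : Lt ε s x y z w) (h' : Le ε t x' y' z' w') :
    Lt ε (s + t) (x + x') (y + y') (z + z') (w + w') := by
  obtain ⟨h1, h2, h3, h4, h5, h6, h7, h8⟩ := h
  obtain ⟨k1, k2, k3, k4, k5, k6, k7, k8⟩ := h'
  obtain ⟨t1, t2, t3, t4, t5, t6, t7, t8, t9⟩ := tri hε x y z w x' y' z' w'
  refine ⟨?_, ?_, ?_, ?_, ?_, ?_, ?_, ?_⟩ <;> linarith

lemma Le.add (hε : 0 ≤ ε) (h : Le ε s x y z w) (h' : Le ε t x' y' z' w') :
    Le ε (s + t) (x + x') (y + y') (z + z') (w + w') := by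
  obtain ⟨h1, h2, h3, h4, h5, h6, h7, h8⟩ := h
  obtain ⟨k1, k2, k3, k4, k5, k6, k7, k8⟩ := h'
  obtain ⟨t1, t2, t3, t4, t5, t6, t7, t8, t9⟩ := tri hε x y z w x' y' z' w'
  refine ⟨?_, ?_, ?_, ?_, ?_, ?_, ?_, ?_⟩ <;> linarith

lemma Le.smul {c : ℝ} (hc : 0 ≤ c) (h : Le ε t x y z w) :
    Le ε (c * t) (c * x) (c * y) (c * z) (c * w) := by
  obtain ⟨h1, h2, h3, h4, h5, h6, h7, h8⟩ := h
  have e : ∀ u, |c * u| = c * |u| := fun u => by rw [abs_mul, abs_of_nonneg hc]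
  have m : ∀ {u v : ℝ}, u ≤ v → c * u ≤ c * v := fun h => mul_le_mul_of_nonneg_left h hc
  unfold Le
  rw [show c * x + c * y + c * z = c * (x + y + z) by ring,
    show c * x - c * y - c * z = c * (x - y - z) by ring,
    show -(c * x) + c * y - c * z + ε * (c * w) = c * (-x + y - z + ε * w) by ring,
    show -(c * x) - c * y + c * z - ε * (c * w) = c * (-x - y + z - ε * w) by ring]
  simp only [e]
  exact ⟨by linarith [m h1], by linarith [m h2], by linarith [m h3], by linarith [m h4],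
    by linarith [m h5], by linarith [m h6], by linarith [m h7], by linarith [m h8]⟩

lemma Le.lt (hε : ε ≤ 1 / 2) (hst : s < t) (h : Le ε s x y z w) : Lt ε t x y z w := by
  obtain ⟨h1, h2, h3, h4, h5, h6, h7, h8⟩ := h
  have a : (3 - 2 * ε) * s < (3 - 2 * ε) * t := mul_lt_mul_of_pos_left hst (by linarith)
  have b : (3 - 4 * ε) * s < (3 - 4 * ε) * t := mul_lt_mul_of_pos_left hst (by linarith)
  refine ⟨?_, ?_, ?_, ?_, ?_, ?_, ?_, ?_⟩ <;> linarith

lemma Le.lt_of_zero (hε0 : 0 < ε) (hs : 0 < s) (ht : t ≤ (1 - 3 * ε) * s)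
    (h : Le 0 t x y z w) : Lt ε s x y z w := by
  obtain ⟨h1, h2, h3, h4, h5, h6, h7, h8⟩ := h
  simp only [zero_mul, add_zero, sub_zero, mul_zero] at h2 h3 h4 h5 h6 h7 h8
  have p : 0 < ε * s := mul_pos hε0 hs
  have e1 : ε * |w| ≤ 4 * (ε * s) := by nlinarith
  have e2 : |ε * w| = ε * |w| := by rw [abs_mul, abs_of_pos hε0]
  have e3 := abs_add_le (-x + y - z) (ε * w)
  have e4 := abs_sub (-x - y + z) (ε * w)
  refine ⟨?_, ?_, ?_, ?_, ?_, ?_, ?_, ?_⟩ <;> linarith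

lemma Le.zero (hε0 : 0 ≤ ε) (h : Le ε t x y z w) : Le 0 t x y z w := by
  obtain ⟨h1, h2, h3, h4, h5, h6, h7, h8⟩ := h
  have t0 : 0 ≤ t := by linarith [abs_nonneg w]
  have e0 : 0 ≤ ε * |w| := by positivity
  have e0' : 0 ≤ ε * t := by positivity
  have e1 : ε * |w| ≤ 4 * (ε * t) := by nlinarith
  have e2 : |ε * w| = ε * |w| := by rw [abs_mul, abs_of_nonneg hε0]
  have e3 := abs_sub (-x + y - z + ε * w) (ε * w)
  have e4 := abs_add_le (-x - y + z - ε * w) (ε * w)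
  rw [add_sub_cancel_right] at e3
  rw [sub_add_cancel] at e4
  unfold Le
  simp only [zero_mul, add_zero, sub_zero, mul_zero]
  refine ⟨?_, ?_, ?_, ?_, ?_, ?_, ?_, ?_⟩ <;> linarith

lemma le_zero_iff : Le 0 t x y z w ↔
    |w| ≤ 4 * t ∧ |x| ≤ 2 * t ∧ |y| ≤ 2 * t ∧ |z| ≤ 2 * t ∧ |x| + |y| + |z| ≤ 3 * t := by
  unfold Le
  simp only [zero_mul, add_zero, sub_zero, mul_zero]
  constructor
  · rintro ⟨h1, h2, h3, h4, h5, h6, h7, h8⟩
    refine ⟨h1, h2, h3, h4, ?_⟩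
    rw [abs_le] at h5 h6 h7 h8
    cases abs_cases x <;> cases abs_cases y <;> cases abs_cases z <;> linarith
  · rintro ⟨h1, h2, h3, h4, h5⟩
    have := le_abs_self x
    have := le_abs_self y
    have := le_abs_self z
    have := neg_abs_le x
    have := neg_abs_le y
    have := neg_abs_le z
    refine ⟨h1, h2, h3, h4, ?_, ?_, ?_, ?_⟩ <;> rw [abs_le] <;> constructor <;> linarith

lemma cover_real (x y z w : ℝ) : ∃ n0 n1 n2 n3 : ℤ,
    Le 0 (1 / 2) (x - (n0 + n1 - n2)) (y - (n0 - n1 + n2)) (z - (n0 - n1 - n2)) (w - 4 * n3) := by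
  have r : ∀ u : ℝ, ∃ i : ℤ, |u - 2 * i| ≤ 1 := fun u => ⟨round (u / 2), by
    have := abs_sub_round (u / 2)
    rw [abs_le] at this ⊢; constructor <;> linarith⟩
  have sg : ∀ u : ℝ, |u| ≤ 1 → ∃ i : ℤ, |u - (2 * i - 1)| = 1 - |u| := fun u hu => by
    rw [abs_le] at hu
    rcases le_total 0 u with h | h
    · exact ⟨1, by rw [abs_of_nonneg h, abs_of_nonpos (by push_cast; linarith)]; push_cast; ring⟩
    · exact ⟨0, by rw [abs_of_nonpos h, abs_of_nonneg (by push_cast; linarith)]; push_cast; ring⟩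
  obtain ⟨i, hi⟩ := r x
  obtain ⟨j, hj⟩ := r y
  obtain ⟨k, hk⟩ := r z
  obtain ⟨l, hl⟩ := r (w / 2)
  have hw : |w - 4 * l| ≤ 4 * (1 / 2) := by rw [abs_le] at hl ⊢; constructor <;> linarith
  by_cases h : |x - 2 * i| + |y - 2 * j| + |z - 2 * k| ≤ 3 / 2
  · refine ⟨i + j, i - k, j - k, l, ?_⟩
    push_cast
    rw [show (i + j + (i - k) - (j - k) : ℝ) = 2 * i by ring,
      show (i + j - (i - k) + (j - k) : ℝ) = 2 * j by ring,
      show (i + j - (i - k) - (j - k) : ℝ) = 2 * k by ring, le_zero_iff]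
    exact ⟨hw, by linarith, by linarith, by linarith, by linarith⟩
  · obtain ⟨i', hi'⟩ := sg _ hi
    obtain ⟨j', hj'⟩ := sg _ hj
    obtain ⟨k', hk'⟩ := sg _ hk
    refine ⟨i + i' + j + j' - 1, i + i' - k - k', j + j' - k - k', l, ?_⟩
    push_cast
    rw [show x - (i + i' + j + j' - 1 + (i + i' - k - k') - (j + j' - k - k')) =
        x - 2 * i - (2 * i' - 1) by ring,
      show y - (i + i' + j + j' - 1 - (i + i' - k - k') + (j + j' - k - k')) =
        y - 2 * j - (2 * j' - 1) by ring,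
      show z - (i + i' + j + j' - 1 - (i + i' - k - k') - (j + j' - k - k')) =
        z - 2 * k - (2 * k' - 1) by ring, le_zero_iff, hi', hj', hk']
    have := abs_nonneg (x - 2 * i)
    have := abs_nonneg (y - 2 * j)
    have := abs_nonneg (z - 2 * k)
    exact ⟨hw, by linarith, by linarith, by linarith, by linarith⟩

end real

/-- The point with the given coordinates. -/
def vec (x y z w : ℝ) : EuclideanSpace ℝ (Fin 4) := !₂[x, y, z, w]

@[simp] lemma vec0 (x y z w : ℝ) : vec x y z w 0 = x := rfl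
@[simp] lemma vec1 (x y z w : ℝ) : vec x y z w 1 = y := rfl
@[simp] lemma vec2 (x y z w : ℝ) : vec x y z w 2 = z := rfl
@[simp] lemma vec3 (x y z w : ℝ) : vec x y z w 3 = w := rfl

lemma ext4 {p q : EuclideanSpace ℝ (Fin 4)} (h0 : p 0 = q 0) (h1 : p 1 = q 1) (h2 : p 2 = q 2)
    (h3 : p 3 = q 3) : p = q := by
  ext i
  fin_cases i
  exacts [h0, h1, h2, h3]

/-- The closed body. -/
def cl (ε t : ℝ) : Set (EuclideanSpace ℝ (Fin 4)) := {p | Le ε t (p 0) (p 1) (p 2) (p 3)}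

/-- The open body. -/
def op (ε t : ℝ) : Set (EuclideanSpace ℝ (Fin 4)) := {p | Lt ε t (p 0) (p 1) (p 2) (p 3)}

variable {ε η t : ℝ}

lemma isClosed_cl : IsClosed (cl ε t) := by
  simp only [cl, Le, Set.ofPred_and]
  repeat' apply IsClosed.inter
  all_goals exact isClosed_le (by fun_prop) (by fun_prop)

lemma isOpen_op : IsOpen (op ε t) := by
  simp only [op, Lt, Set.ofPred_and]
  repeat' apply IsOpen.inter
  all_goals exact isOpen_lt (by fun_prop) (by fun_prop)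

lemma op_subset : op ε t ⊆ cl ε t := fun _ h => Lt.le h

lemma isBounded_cl (hε : 0 ≤ ε) : Bornology.IsBounded (cl ε t) := by
  refine (Metric.isBounded_closedBall (x := 0) (r := 10 * |t|)).subset fun p hp => ?_
  obtain ⟨h1, h2, h3, h4, -⟩ := le_zero_iff.1 (Le.zero hε hp)
  rw [mem_closedBall_zero_iff, EuclideanSpace.norm_eq, Real.sqrt_le_left (by positivity),
    Fin.sum_univ_four]
  simp only [Real.norm_eq_abs]
  have := le_abs_self t
  have := abs_nonneg (p 0)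
  have := abs_nonneg (p 1)
  have := abs_nonneg (p 2)
  have := abs_nonneg (p 3)
  nlinarith

lemma isCompact_cl (hε : 0 ≤ ε) : IsCompact (cl ε t) :=
  Metric.isCompact_of_isClosed_isBounded isClosed_cl (isBounded_cl hε)

lemma convex_cl (hε : 0 ≤ ε) : Convex ℝ (cl ε t) := by
  intro p hp q hq a b ha hb hab
  have := Le.add hε (Le.smul ha hp) (Le.smul hb hq)
  rw [← add_mul, hab, one_mul] at this
  exact this

lemma interior_cl (hε : ε ≤ 1 / 2) (ht : 0 < t) : interior (cl ε t) = op ε t := by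
  refine Subset.antisymm (fun p hp => ?_) (interior_maximal op_subset isOpen_op)
  have h1 : Tendsto (fun c : ℝ => c • p) (𝓝[>] 1) (𝓝 p) := by
    have : Tendsto (fun c : ℝ => c • p) (𝓝 1) (𝓝 ((1 : ℝ) • p)) :=
      (by fun_prop : Continuous fun c : ℝ => c • p).tendsto 1
    rw [one_smul] at this
    exact this.mono_left nhdsWithin_le_nhds
  obtain ⟨c, hc, hc1⟩ := ((h1.eventually (mem_interior_iff_mem_nhds.1 hp)).and
    self_mem_nhdsWithin).exists
  have hc1 : 1 < c := hc1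
  have hc0 : 0 < c := by linarith
  have h2 := Le.smul (c := c⁻¹) (by positivity) hc
  simp only [PiLp.smul_apply, smul_eq_mul, ← mul_assoc, inv_mul_cancel₀ hc0.ne', one_mul] at h2
  exact h2.lt hε (mul_lt_of_lt_one_left ht (inv_lt_one_of_one_lt₀ hc1))

lemma volume_op (hε0 : 0 ≤ ε) (hε : ε ≤ 1 / 2) (ht : 0 < t) :
    volume (op ε t) = volume (cl ε t) := by
  rw [← interior_cl hε ht]
  exact measure_interior_of_null_frontier ((convex_cl hε0).addHaar_frontier _)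

lemma exists_basis_eq {d : ℕ} (v : Fin d → EuclideanSpace ℝ (Fin d)) (h : cdet v ≠ 0) :
    ∃ b : Basis (Fin d) ℝ (EuclideanSpace ℝ (Fin d)), ⇑b = v := by
  have h1 : IsUnit ((EuclideanSpace.basisFun (Fin d) ℝ).toBasis.det v) := by
    rw [isUnit_iff_ne_zero, Basis.det_apply]
    rwa [cdet, ← Matrix.det_transpose] at h
  obtain ⟨h2, h3⟩ := (Basis.is_basis_iff_det _).2 h1
  exact ⟨Basis.mk h2 h3.ge, Basis.coe_mk _ _⟩

lemma cdet4 (a b c u : EuclideanSpace ℝ (Fin 4)) : cdet ![a, b, c, u] =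
    det4 (a 0) (a 1) (a 2) (a 3) (b 0) (b 1) (b 2) (b 3) (c 0) (c 1) (c 2) (c 3)
      (u 0) (u 1) (u 2) (u 3) := by
  simp [cdet, det4, det3, Matrix.det_succ_row_zero, Fin.sum_univ_succ, Fin.succAbove]
  ring

lemma mem_span4 (a b c u g : EuclideanSpace ℝ (Fin 4)) : g ∈ span ℤ (range ![a, b, c, u]) ↔
    ∃ n0 n1 n2 n3 : ℤ, g = n0 • a + n1 • b + n2 • c + n3 • u := by
  rw [mem_span_range_iff_exists_fun]
  constructor
  · rintro ⟨n, rfl⟩
    exact ⟨n 0, n 1, n 2, n 3, by simp [Fin.sum_univ_four]⟩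
  · rintro ⟨n0, n1, n2, n3, rfl⟩
    exact ⟨![n0, n1, n2, n3], by simp [Fin.sum_univ_four]⟩

lemma volume_cl_zero (ht : 0 ≤ t) : ENNReal.ofReal (16 * t ^ 4) ≤ volume (cl 0 (t / 2)) := by
  have hd : cdet ![vec 1 1 1 0, vec 1 (-1) (-1) 0, vec (-1) 1 (-1) 0, vec 0 0 0 4] = 16 := by
    rw [cdet4]; simp [det4, det3]; norm_num
  obtain ⟨b, hb⟩ := exists_basis_eq _ (hd.trans_ne (by norm_num))
  have h1 := cdet_le_of_cover b (Q := cl 0 (1 / 2)) fun z => by
    obtain ⟨n0, n1, n2, n3, h⟩ := cover_real (z 0) (z 1) (z 2) (z 3)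
    refine ⟨_, by rw [hb]; exact (mem_span4 _ _ _ _ _).2 ⟨n0, n1, n2, n3, rfl⟩, ?_⟩
    change Le 0 (1 / 2) _ _ _ _
    convert h using 1 <;> simp <;> ring
  rw [hb, hd, abs_of_pos (by norm_num)] at h1
  have h2 : t • cl 0 (1 / 2) ⊆ cl 0 (t / 2) := by
    rintro _ ⟨p, hp, rfl⟩
    have := Le.smul ht hp
    rw [mul_one_div] at this
    exact this
  refine le_trans ?_ (measure_mono h2)
  rw [Measure.addHaar_smul, finrank_euclideanSpace_fin, abs_of_nonneg (by positivity), mul_comm,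
    ENNReal.ofReal_mul (by positivity)]
  exact mul_le_mul_right h1 _

lemma volume_op_ge (hε0 : 0 < ε) (hε : ε ≤ 1 / 3) :
    ENNReal.ofReal (16 * (1 - 12 * ε)) ≤ volume (op ε (1 / 2)) := by
  refine le_trans ?_ ((volume_cl_zero (t := 1 - 3 * ε) (by linarith)).trans
    (measure_mono fun p hp => Le.lt_of_zero hε0 (by norm_num) (by linarith) hp))
  refine ENNReal.ofReal_le_ofReal ?_
  have := one_add_mul_le_pow (a := -(3 * ε)) (by linarith) 4
  push_cast at this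
  rw [← sub_eq_add_neg] at this
  linarith

lemma lt_sub {p q : EuclideanSpace ℝ (Fin 4)} (hε0 : 0 ≤ ε) (hp : p ∈ op ε (1 / 2))
    (hq : q ∈ op ε (1 / 2)) : p - q ∈ op ε 1 := by
  have := Lt.add hε0 hp (Lt.neg hq).le
  rw [add_halves] at this
  simpa [op, sub_eq_add_neg] using this

section lattice

variable (b : Basis (Fin 4) ℝ (EuclideanSpace ℝ (Fin 4)))

lemma cover_vec (hε0 : 0 < ε) (hη : η ≤ 1 / 10) (hη0 : 0 < η) (hεη : 12 * ε ≤ η ^ 4)
    (adm : ∀ v ∈ span ℤ (range b), v ∈ op ε 1 → v = 0) (hdet : |cdet b| < 16)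
    (z : EuclideanSpace ℝ (Fin 4)) (hz : z ∉ cl 0 (1 / 2 + η / 2)) :
    ∃ g ∈ span ℤ (range b), g ≠ 0 ∧ z - g ∈ cl 0 (1 / 2 + η / 2) := by
  have hη4 : η ^ 4 ≤ (1 / 10) ^ 4 := pow_le_pow_left₀ hη0.le hη 4
  have hε : ε ≤ 1 / 100 := by linarith
  have key : ∀ p ∈ op ε (1 / 2), ∀ q ∈ cl 0 (η / 2), p - q ∈ cl 0 (1 / 2 + η / 2) :=
    fun p hp q hq => by
      have := Le.add le_rfl (Le.zero hε0.le (Lt.le hp)) (Le.neg hq)
      simpa [cl, sub_eq_add_neg] using this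
  have hdj : Disjoint (op ε (1 / 2)) (z +ᵥ cl 0 (η / 2)) := by
    rw [Set.disjoint_left]
    rintro _ hp ⟨q, hq, rfl⟩
    apply hz
    simpa using key _ hp q hq
  have hm : MeasurableSet (z +ᵥ cl 0 (η / 2)) := isClosed_cl.measurableSet.const_vadd _
  have hvol : ENNReal.ofReal |cdet b| < volume (op ε (1 / 2) ∪ (z +ᵥ cl 0 (η / 2))) := by
    rw [measure_union hdj hm, measure_vadd]
    refine lt_of_lt_of_le ?_ (add_le_add (volume_op_ge hε0 (by linarith)) (volume_cl_zero hη0.le))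
    rw [← ENNReal.ofReal_add (by linarith) (by positivity),
      ENNReal.ofReal_lt_ofReal_iff (by linarith [abs_nonneg (cdet b)])]
    linarith
  obtain ⟨p, hp, q, hq, hne, hpq⟩ := blichfeldt b (isOpen_op.measurableSet.union hm) hvol
  rcases hp with hp | ⟨p', hp', rfl⟩ <;> rcases hq with hq | ⟨q', hq', rfl⟩
  · exact (hne (sub_eq_zero.1 (adm _ hpq (lt_sub hε0.le hp hq)))).elim
  · refine ⟨-(p - (z + q')), neg_mem hpq, neg_ne_zero.2 (sub_ne_zero.2 hne), ?_⟩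
    convert key p hp q' hq' using 1
    abel
  · refine ⟨z + p' - q, hpq, sub_ne_zero.2 hne, ?_⟩
    convert key q hq p' hp' using 1
    abel
  · refine (hne (sub_eq_zero.1 (adm _ hpq ?_))).elim
    have h1 := Le.add le_rfl hp' (Le.neg hq')
    have h2 := h1.lt_of_zero hε0 one_pos (by linarith)
    rw [show (z +ᵥ p') - (z +ᵥ q') = p' - q' by simp]
    simpa [op, sub_eq_add_neg] using h2

lemma cdet_ge (hε0 : 0 < ε) (hε : ε ≤ 1 / 100)
    (adm : ∀ v ∈ span ℤ (range b), v ∈ op ε 1 → v = 0) : 10 < |cdet b| := by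
  by_contra hc
  have hvol : ENNReal.ofReal |cdet b| < volume (op ε (1 / 2)) := by
    refine lt_of_lt_of_le ?_ (volume_op_ge hε0 (by linarith))
    rw [ENNReal.ofReal_lt_ofReal_iff (by linarith)]
    linarith
  obtain ⟨p, hp, q, hq, hne, hpq⟩ := blichfeldt b isOpen_op.measurableSet hvol
  exact hne (sub_eq_zero.1 (adm _ hpq (lt_sub hε0.le hp hq)))

lemma lat_of_basis (hε0 : 0 < ε) (hη : η ≤ 1 / 10) (hη0 : 0 < η) (hεη : 12 * ε ≤ η ^ 4)
    (adm : ∀ v ∈ span ℤ (range b), v ∈ op ε 1 → v = 0)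
    (hdet : |cdet b| < 16 * (1 - ε) ^ 3 + ε ^ 2) :
    Lat ε η fun x y z w => vec x y z w ∈ span ℤ (range b) := by
  have hη4 : η ^ 4 ≤ (1 / 10) ^ 4 := pow_le_pow_left₀ hη0.le hη 4
  have hε : ε ≤ 1 / 100 := by linarith
  refine ⟨fun h1 h2 => ?_, fun k h1 => ?_, fun h1 h2 => ?_, fun x y z w h1 => ?_,
    fun {a0 a1 a2 a3 b0 b1 b2 b3 c0 c1 c2 c3 u0 u1 u2 u3} h1 h2 h3 h4 h5 => ?_⟩
  · convert add_mem h1 h2 using 1
    apply ext4 <;> simp
  · convert smul_mem _ k h1 using 1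
    apply ext4 <;> simp
  · have := adm _ h1 h2
    exact ⟨congrArg (· 0) this, congrArg (· 1) this, congrArg (· 2) this, congrArg (· 3) this⟩
  · have e : ∀ u, |(1 + 2 * η) * u| = (1 + 2 * η) * |u| := fun u => by
      rw [abs_mul, abs_of_pos (by linarith)]
    obtain ⟨g, hg, g0, g1⟩ := cover_vec b hε0 hη hη0 hεη adm (by nlinarith [pow_pos hε0 3])
      (vec ((1 + 2 * η) * x) ((1 + 2 * η) * y) ((1 + 2 * η) * z) ((1 + 2 * η) * w)) (by
        intro hc
        obtain ⟨k1, -, -, -, k2⟩ := le_zero_iff.1 hc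
        simp only [vec0, vec1, vec2, vec3, e] at k1 k2
        rcases h1 with h1 | h1 <;> nlinarith)
    obtain ⟨k1, k2, k3, k4, k5⟩ := le_zero_iff.1 g1
    simp only [PiLp.sub_apply, vec0, vec1, vec2, vec3] at k1 k2 k3 k4 k5
    refine ⟨g 0, g 1, g 2, g 3, ?_, fun h => g0 (ext4 h.1 h.2.1 h.2.2.1 h.2.2.2), by linarith,
      by linarith, by linarith, by linarith, by linarith⟩
    convert hg using 1
    apply ext4 <;> simp
  · obtain ⟨N, hN⟩ := cdet_eq_int_mul b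
      ![vec a0 a1 a2 a3, vec b0 b1 b2 b3, vec c0 c1 c2 c3, vec u0 u1 u2 u3] (by
      intro i; fin_cases i
      exacts [h1, h2, h3, h4])
    rw [cdet4] at hN
    simp only [vec0, vec1, vec2, vec3] at hN
    rw [hN] at h5 ⊢
    have h6 := cdet_ge b hε0 hε adm
    have h7 : 0 < N * cdet b := by linarith
    rw [← abs_of_pos h7, abs_mul] at h5 ⊢
    have h8 : (2 : ℝ) ≤ |(N : ℝ)| := by
      have : 1 < |(N : ℝ)| := by
        by_contra hc
        nlinarith
      rw [← Int.cast_abs] at this ⊢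
      exact_mod_cast (by exact_mod_cast this : 1 < |N|)
    nlinarith

end lattice

/-- For some small `ε`, every admissible lattice has a large determinant. -/
theorem exists_eps : ∃ ε : ℝ, 0 < ε ∧ ε ≤ 1 / 100 ∧
    ∀ b : Basis (Fin 4) ℝ (EuclideanSpace ℝ (Fin 4)),
      (∀ v ∈ span ℤ (range b), v ∈ op ε 1 → v = 0) → 16 * (1 - ε) ^ 3 + ε ^ 2 ≤ |cdet b| := by
  by_contra hc
  push Not at hc
  let η : ℕ → ℝ := fun k => 1 / 10 * (1 / ((k : ℝ) + 1))
  have η0 : ∀ k, 0 < η k := fun k => by positivity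
  have η1 : ∀ k, η k ≤ 1 / 10 := fun k => by
    have : 1 / ((k : ℝ) + 1) ≤ 1 := by
      rw [div_le_one (by positivity)]; linarith [Nat.cast_nonneg (α := ℝ) k]
    simp only [η]; linarith
  have ε0 : ∀ k, 0 < η k ^ 4 / 12 := fun k => by have := η0 k; positivity
  have ε1 : ∀ k, η k ^ 4 / 12 ≤ 1 / 100 := fun k => by
    linarith [pow_le_pow_left₀ (η0 k).le (η1 k) 4]
  choose b hb hb' using fun k => hc _ (ε0 k) (ε1 k)
  have tη : Tendsto η atTop (𝓝 0) := by
    have := tendsto_one_div_add_atTop_nhds_zero_nat.const_mul (1 / 10 : ℝ)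
    rwa [mul_zero] at this
  exact no_seq (fun k => lat_of_basis (b k) (ε0 k) (η1 k) (η0 k) (by linarith) (hb k) (hb' k)) ε0
    (by simpa using (tη.pow 4).div_const 12) tη

end Pool.Agent.P.MP_c4753b_co
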