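import Pool.Agent.P.MP_c4753b_co.Classify

/-!
The lower bound for the determinant of an admissible lattice.
-/

namespace Pool.Agent.P.MP_c4753b_co.Three

/-- A basis of the first type. -/
def T1 (δ : ℝ) (a b c : E3) : Prop := Adm a b c ∧ det3 a b c ^ 2 = δ ∧ InD a ∧ InD b ∧ InD c ∧
  InD (a - b) ∧ InD (a - c) ∧ InD (b - c)

/-- A basis of the second type. -/
def T2 (δ : ℝ) (a b c : E3) : Prop := Adm a b c ∧ det3 a b c ^ 2 = δ ∧ InD a ∧ InD b ∧ InD c ∧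
  InD (a + b) ∧ InD (a + c) ∧ InD (b + c)

lemma lv_add (a b c : E3) (i j k i' j' k' : ℤ) :
    lv a b c (i + i') (j + j') (k + k') = lv a b c i j k + lv a b c i' j' k' := by
  simp only [lv]
  push_cast
  module

lemma lv_sub (a b c : E3) (i j k i' j' k' : ℤ) :
    lv a b c (i - i') (j - j') (k - k') = lv a b c i j k - lv a b c i' j' k' := by
  simp only [lv]
  push_cast
  module

lemma of_goal {a b c : E3} (h : Adm a b c) (g : Goal fun i j k => InD (lv a b c i j k)) :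
    ∃ a' b' c', T1 (det3 a b c ^ 2) a' b' c' ∨ T2 (det3 a b c ^ 2) a' b' c' := by
  obtain ⟨p1, p2, p3, q1, q2, q3, r1, r2, r3, h0, h1, h2, h3, h4⟩ := g
  have k1 := h.change (p1 := p1) (p2 := p2) (p3 := p3) (q1 := q1) (q2 := q2) (q3 := q3) (r1 := r1)
    (r2 := r2) (r3 := r3) (by omega)
  have k2 : det3 (lv a b c p1 p2 p3) (lv a b c q1 q2 q3) (lv a b c r1 r2 r3) ^ 2 =
      det3 a b c ^ 2 := by
    rw [det_lv]
    rcases h0 with h0 | h0 <;> simp [h0]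
  simp only [lv_add, lv_sub] at h4
  exact ⟨_, _, _, h4.imp (fun h4 => ⟨k1, k2, h1, h2, h3, h4⟩) fun h4 => ⟨k1, k2, h1, h2, h3, h4⟩⟩

lemma idet_mod (p1 p2 p3 q1 q2 q3 r1 r2 r3 : ℤ) : idet p1 p2 p3 q1 q2 q3 r1 r2 r3 % 2 =
    idet (p1 % 2) (p2 % 2) (p3 % 2) (q1 % 2) (q2 % 2) (q3 % 2) (r1 % 2) (r2 % 2) (r3 % 2) % 2 := by
  have m : ∀ x : ℤ, x ≡ x % 2 [ZMOD 2] := fun x => (Int.mod_modEq x 2).symm
  exact (((m _).mul (((m _).mul (m _)).sub ((m _).mul (m _)))).add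
    ((m _).mul (((m _).mul (m _)).sub ((m _).mul (m _))))).add
    ((m _).mul (((m _).mul (m _)).sub ((m _).mul (m _))))

lemma pick {a b c : E3} (h : Adm a b c) {α β γ δ ε ζ : ℤ × ℤ × ℤ} (h1 : Has a b c α)
    (h2 : Has a b c β) (h3 : Has a b c γ) (h4 : Has a b c δ) (h5 : Has a b c ε) (h6 : Has a b c ζ)
    (e : idet α.1 α.2.1 α.2.2 β.1 β.2.1 β.2.2 γ.1 γ.2.1 γ.2.2 % 2 = 1 ∧
      δ = ((α.1 + β.1) % 2, (α.2.1 + β.2.1) % 2, (α.2.2 + β.2.2) % 2) ∧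
      ε = ((α.1 + γ.1) % 2, (α.2.1 + γ.2.1) % 2, (α.2.2 + γ.2.2) % 2) ∧
      ζ = ((β.1 + γ.1) % 2, (β.2.1 + γ.2.1) % 2, (β.2.2 + γ.2.2) % 2)) :
    ∃ a' b' c', T1 (det3 a b c ^ 2) a' b' c' ∨ T2 (det3 a b c ^ 2) a' b' c' := by
  obtain ⟨e0, rfl, rfl, rfl⟩ := e
  obtain ⟨⟨p1, p2, p3⟩, hp, a1, a2, a3⟩ := h1
  obtain ⟨⟨q1, q2, q3⟩, hq, b1, b2, b3⟩ := h2
  obtain ⟨⟨r1, r2, r3⟩, hr, c1, c2, c3⟩ := h3
  obtain ⟨⟨s1, s2, s3⟩, hs, d1, d2, d3⟩ := h4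
  obtain ⟨⟨t1, t2, t3⟩, ht, e1, e2, e3⟩ := h5
  obtain ⟨⟨u1, u2, u3⟩, hu, f1, f2, f3⟩ := h6
  dsimp only at hp hq hr hs ht hu a1 a2 a3 b1 b2 b3 c1 c2 c3 d1 d2 d3 e1 e2 e3 f1 f2 f3
  rw [← a1, ← a2, ← a3, ← b1, ← b2, ← b3, ← c1, ← c2, ← c3, ← idet_mod] at e0
  have hN := odd_det h hp hq hr e0
  obtain ⟨N, eN⟩ : ∃ N, N = idet p1 p2 p3 q1 q2 q3 r1 r2 r3 := ⟨_, rfl⟩
  rw [← eN] at hN
  have k1 := h.change (p1 := p1) (p2 := p2) (p3 := p3) (q1 := q1) (q2 := q2) (q3 := q3) (r1 := r1)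
    (r2 := r2) (r3 := r3) (by omega)
  have N2 : N * N = 1 := by rcases hN with rfl | rfl <;> rfl
  have k2 : det3 (lv a b c p1 p2 p3) (lv a b c q1 q2 q3) (lv a b c r1 r2 r3) ^ 2 =
      det3 a b c ^ 2 := by
    rw [det_lv, ← eN]
    rcases hN with h0 | h0 <;> simp [h0]
  have key : ∀ i j k x y z : ℤ, InD (lv a b c (i * p1 + j * q1 + k * r1 + 2 * x)
      (i * p2 + j * q2 + k * r2 + 2 * y) (i * p3 + j * q3 + k * r3 + 2 * z)) →
      ∃ x' y' z', InD (lv (lv a b c p1 p2 p3) (lv a b c q1 q2 q3) (lv a b c r1 r2 r3)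
        (i + 2 * x') (j + 2 * y') (k + 2 * z')) := fun i j k x y z hD => by
    refine ⟨N * idet x y z q1 q2 q3 r1 r2 r3, N * idet p1 p2 p3 x y z r1 r2 r3,
      N * idet p1 p2 p3 q1 q2 q3 x y z, ?_⟩
    rw [lv_lv]
    simp only [idet] at eN ⊢
    convert hD using 2
    · linear_combination 2 * x * N2 - 2 * N * x * eN
    · linear_combination 2 * y * N2 - 2 * N * y * eN
    · linear_combination 2 * z * N2 - 2 * N * z * eN
  obtain ⟨x1, x2, x3, m1⟩ := key 1 1 0 ((s1 - p1 - q1) / 2) ((s2 - p2 - q2) / 2)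
    ((s3 - p3 - q3) / 2) (by convert hs using 2 <;> omega)
  obtain ⟨y1, y2, y3, m2⟩ := key 1 0 1 ((t1 - p1 - r1) / 2) ((t2 - p2 - r2) / 2)
    ((t3 - p3 - r3) / 2) (by convert ht using 2 <;> omega)
  obtain ⟨z1, z2, z3, m3⟩ := key 0 1 1 ((u1 - q1 - r1) / 2) ((u2 - q2 - r2) / 2)
    ((u3 - q3 - r3) / 2) (by convert hu using 2 <;> omega)
  rw [← k2]
  refine of_goal k1 (comb1 (fun i j k h => by rw [lv_neg]; exact h.neg)
    (fun _ _ _ _ _ _ _ _ _ => odd_det k1) ?_ ?_ ?_ m1 m2 m3 (by omega) (by omega) (by omega)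
    (by omega) (by omega) (by omega) (by omega) (by omega) (by omega))
  · rw [lv_lv]; simpa using hp
  · rw [lv_lv]; simpa using hq
  · rw [lv_lv]; simpa using hr

theorem classify {a b c : E3} (h : Adm a b c)
    (hm : ∀ a' b' c', Adm a' b' c' → det3 a b c ^ 2 ≤ det3 a' b' c' ^ 2) :
    ∃ a' b' c', T1 (det3 a b c ^ 2) a' b' c' ∨ T2 (det3 a b c ^ 2) a' b' c' := by
  obtain ⟨μ, hμ⟩ := six h hm
  have key : ∀ μ ∈ C7, ∃ α ∈ C7, ∃ β ∈ C7, ∃ γ ∈ C7, ∃ δ ∈ C7, ∃ ε ∈ C7, ∃ ζ ∈ C7,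
      (α ≠ μ ∧ β ≠ μ ∧ γ ≠ μ ∧ δ ≠ μ ∧ ε ≠ μ ∧ ζ ≠ μ) ∧
      idet α.1 α.2.1 α.2.2 β.1 β.2.1 β.2.2 γ.1 γ.2.1 γ.2.2 % 2 = 1 ∧
      δ = ((α.1 + β.1) % 2, (α.2.1 + β.2.1) % 2, (α.2.2 + β.2.2) % 2) ∧
      ε = ((α.1 + γ.1) % 2, (α.2.1 + γ.2.1) % 2, (α.2.2 + γ.2.2) % 2) ∧
      ζ = ((β.1 + γ.1) % 2, (β.2.1 + γ.2.1) % 2, (β.2.2 + γ.2.2) % 2) := by
    intro μ hμ
    simp only [C7, Finset.mem_insert, Finset.mem_singleton] at hμ
    rcases hμ with rfl | rfl | rfl | rfl | rfl | rfl | rfl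
    · exact ⟨(0, 1, 0), by decide, (1, 0, 0), by decide, (1, 1, 1), by decide, (1, 1, 0), by decide,
        (1, 0, 1), by decide, (0, 1, 1), by decide, by decide, by decide⟩
    · exact ⟨(0, 0, 1), by decide, (1, 0, 0), by decide, (1, 1, 1), by decide, (1, 0, 1), by decide,
        (1, 1, 0), by decide, (0, 1, 1), by decide, by decide, by decide⟩
    · exact ⟨(0, 0, 1), by decide, (1, 0, 0), by decide, (1, 1, 0), by decide, (1, 0, 1), by decide,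
        (1, 1, 1), by decide, (0, 1, 0), by decide, by decide, by decide⟩
    · exact ⟨(0, 0, 1), by decide, (0, 1, 0), by decide, (1, 1, 1), by decide, (0, 1, 1), by decide,
        (1, 1, 0), by decide, (1, 0, 1), by decide, by decide, by decide⟩
    · exact ⟨(0, 0, 1), by decide, (0, 1, 0), by decide, (1, 1, 0), by decide, (0, 1, 1), by decide,
        (1, 1, 1), by decide, (1, 0, 0), by decide, by decide, by decide⟩
    · exact ⟨(0, 0, 1), by decide, (0, 1, 0), by decide, (1, 0, 1), by decide, (0, 1, 1), by decide,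
        (1, 0, 0), by decide, (1, 1, 1), by decide, by decide, by decide⟩
    · exact ⟨(0, 0, 1), by decide, (0, 1, 0), by decide, (1, 0, 0), by decide, (0, 1, 1), by decide,
        (1, 0, 1), by decide, (1, 1, 0), by decide, by decide, by decide⟩
  by_cases h7 : μ ∈ C7
  · obtain ⟨α, a1, β, b1, γ, c1, δ, d1, ε, e1, ζ, f1, ⟨a2, b2, c2, d2, e2, f2⟩, k⟩ := key μ h7
    exact pick h (hμ _ a1 a2) (hμ _ b1 b2) (hμ _ c1 c2) (hμ _ d1 d2) (hμ _ e1 e2) (hμ _ f1 f2) k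
  · obtain ⟨α, a1, β, b1, γ, c1, δ, d1, ε, e1, ζ, f1, -, k⟩ := key (1, 1, 1) (by decide)
    have m : ∀ κ ∈ C7, Has a b c κ := fun κ hκ => hμ κ hκ fun e => h7 (e ▸ hκ)
    exact pick h (m _ a1) (m _ b1) (m _ c1) (m _ d1) (m _ e1) (m _ f1) k

/-- The least index of a facet pair that separates a point. -/
noncomputable def io (w : E3) : ℕ := sInf {f | ∃ j < 18, j % 9 = f ∧ (hh j : ℝ) ≤ ell j w}

lemma Out.io {w : E3} (h : Out w) : ∃ j < 18, j % 9 = io w ∧ (hh j : ℝ) ≤ ell j w := by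
  obtain ⟨j, h1, h2⟩ := h
  exact Nat.sInf_mem (s := {f | ∃ j < 18, j % 9 = f ∧ (hh j : ℝ) ≤ ell j w}) ⟨_, j, h1, rfl, h2⟩

lemma io_neg (w : E3) : io (-w) = io w := by
  have key : ∀ w : E3, ∀ f, (∃ j < 18, j % 9 = f ∧ (hh j : ℝ) ≤ ell j w) →
      ∃ j < 18, j % 9 = f ∧ (hh j : ℝ) ≤ ell j (-w) := by
    rintro w _ ⟨j, h1, rfl, h2⟩
    refine ⟨(j + 9) % 18, Nat.mod_lt _ (by norm_num), by omega, ?_⟩
    rwa [ell_opp h1, hh_opp, map_neg, neg_neg]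
  unfold io
  congr 1
  ext f
  exact ⟨fun h => by simpa using key _ f h, key _ f⟩

lemma io_sub (x y : E3) : io (x - y) = io (y - x) := by rw [← io_neg, neg_sub]

lemma Adm.neg {a b c : E3} (h : Adm a b c) : Adm (-a) (-b) (-c) := fun i j k hn => by
  have := h (-i) (-j) (-k) (by omega)
  rwa [show lv a b c (-i) (-j) (-k) = lv (-a) (-b) (-c) i j k by
    simp only [lv]; push_cast; module] at this

lemma Adm.edge {a b c : E3} (h : Adm a b c) (e : ℕ) (he : e < 13) : Out (edge a b c e) :=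
  h _ _ _ ((by decide : ∀ e < 13, ¬(ze e 0 = 0 ∧ ze e 1 = 0 ∧ ze e 2 = 0)) e he)

lemma InD.sub {x y : E3} (h : InD (x - y)) : InD (y - x) := neg_sub x y ▸ h.neg

variable {δ : ℝ} {a b c : E3}

lemma T1.swap (h : T1 δ a b c) : T1 δ b a c := by
  obtain ⟨h0, h1, h2, h3, h4, h5, h6, h7⟩ := h
  exact ⟨h0.swap, by rw [det_swap, neg_sq, h1], h3, h2, h4, h5.sub, h7, h6⟩

lemma T1.rot (h : T1 δ a b c) : T1 δ b c a := by
  obtain ⟨h0, h1, h2, h3, h4, h5, h6, h7⟩ := h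
  exact ⟨h0.rot, by rw [det_rot, h1], h3, h4, h2, h7, h5.sub, h6.sub⟩

lemma T1.neg (h : T1 δ a b c) : T1 δ (-a) (-b) (-c) := by
  obtain ⟨h0, h1, h2, h3, h4, h5, h6, h7⟩ := h
  refine ⟨h0.neg, h1 ▸ ?_, h2.neg, h3.neg, h4.neg, ?_, ?_, ?_⟩
  · simp only [det3, PiLp.neg_apply]; ring
  all_goals rw [neg_sub_neg]; exact InD.sub ‹_›

lemma T1.base (h : T1 δ a b c) : T1 δ (-a) (b - a) (c - a) := by
  obtain ⟨h0, h1, h2, h3, h4, h5, h6, h7⟩ := h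
  refine ⟨fun i j k hn => ?_, h1 ▸ ?_, h2.neg, h5.sub, h6.sub, ?_, ?_, ?_⟩
  · have := h0 (-i - j - k) j k (by omega)
    rwa [show lv a b c (-i - j - k) j k = lv (-a) (b - a) (c - a) i j k by
      simp only [lv]; push_cast; module] at this
  · simp only [det3, PiLp.neg_apply, PiLp.sub_apply]; ring
  · exact (show -b = -a - (b - a) by abel) ▸ h3.neg
  · exact (show -c = -a - (c - a) by abel) ▸ h4.neg
  · exact (show b - c = b - a - (c - a) by abel) ▸ h7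

lemma T2.swap (h : T2 δ a b c) : T2 δ b a c := by
  obtain ⟨h0, h1, h2, h3, h4, h5, h6, h7⟩ := h
  exact ⟨h0.swap, by rw [det_swap, neg_sq, h1], h3, h2, h4, add_comm a b ▸ h5, h7, h6⟩

lemma T2.rot (h : T2 δ a b c) : T2 δ b c a := by
  obtain ⟨h0, h1, h2, h3, h4, h5, h6, h7⟩ := h
  exact ⟨h0.rot, by rw [det_rot, h1], h3, h4, h2, h7, add_comm a b ▸ h5, add_comm a c ▸ h6⟩

lemma T2.neg (h : T2 δ a b c) : T2 δ (-a) (-b) (-c) := by
  obtain ⟨h0, h1, h2, h3, h4, h5, h6, h7⟩ := h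
  refine ⟨h0.neg, h1 ▸ ?_, h2.neg, h3.neg, h4.neg, ?_, ?_, ?_⟩
  · simp only [det3, PiLp.neg_apply]; ring
  all_goals rw [← neg_add]; exact InD.neg ‹_›

lemma sq_lt {x : ℝ} (h : 2916000 < |x|) : 2916000 ^ 2 < x ^ 2 := by
  rw [← sq_abs x]
  exact pow_lt_pow_left₀ h (by norm_num) (by norm_num)

lemma T1.pos (h : T1 δ a b c) (ha : io a < 9) (ea : (hh (io a) : ℝ) ≤ ell (io a) a)
    (h1 : io a ≤ io b) (h2 : io b ≤ io c) (h3 : io b ≤ io (a - b)) (h4 : io b ≤ io (a - c))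
    (h5 : io a ≤ io (b - c)) : 2916000 ^ 2 < δ := by
  obtain ⟨k0, k1, k2, k3, k4, k5, k6, k7⟩ := h
  obtain ⟨jb, b1, b2, b3⟩ := k0.rot.out.io
  obtain ⟨jc, c1, c2, c3⟩ := k0.rot.rot.out.io
  have o : ∀ {w : E3} {m : ℕ}, Out w → m ≤ io w → ∃ j < 18, m ≤ j % 9 ∧ (hh j : ℝ) ≤ ell j w :=
    fun h hm => by
      obtain ⟨j, j1, j2, j3⟩ := h.io
      exact ⟨j, j1, j2 ▸ hm, j3⟩
  exact k1 ▸ sq_lt (type_one ha b1 c1 (by omega) (by omega) k2 k3 k4 ea b3 c3 k5 k6 k7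
    (o (by simpa [lv, sub_eq_add_neg] using k0 1 (-1) 0 (by norm_num)) (by omega))
    (o (by simpa [lv, sub_eq_add_neg] using k0 1 0 (-1) (by norm_num)) (by omega))
    (o (by simpa [lv, sub_eq_add_neg] using k0 0 1 (-1) (by norm_num)) h5) k0.edge)

lemma T2.pos (h : T2 δ a b c) (ha : io a < 9) (ea : (hh (io a) : ℝ) ≤ ell (io a) a)
    (h1 : io a ≤ io b) (h2 : io b ≤ io c) : 2916000 ^ 2 < δ := by
  obtain ⟨k0, k1, k2, k3, k4, k5, k6, k7⟩ := h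
  obtain ⟨jb, b1, b2, b3⟩ := k0.rot.out.io
  obtain ⟨jc, c1, c2, c3⟩ := k0.rot.rot.out.io
  exact k1 ▸ sq_lt (type_two ha b1 c1 (by omega) (by omega) k2 k3 k4 ea b3 c3 k5 k6 k7 k0.edge)

lemma Out.sign {w : E3} (h : Out w) : Three.io w < 9 ∧
    ((hh (Three.io w) : ℝ) ≤ ell (Three.io w) w ∨
      (hh (Three.io (-w)) : ℝ) ≤ ell (Three.io (-w)) (-w)) := by
  obtain ⟨j, h1, h2, h3⟩ := h.io
  refine ⟨by omega, ?_⟩
  rcases (by omega : Three.io w = j ∨ Three.io w = (j + 9) % 18) with e | e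
  · exact Or.inl (e ▸ h3)
  · refine Or.inr ?_
    rwa [io_neg, e, ell_opp h1, hh_opp, map_neg, neg_neg]

lemma exists_least {T : E3 → E3 → E3 → Prop} (h : T a b c) : ∃ a b c, T a b c ∧
    ∀ a' b' c', T a' b' c' → 2 * io a + io b ≤ 2 * io a' + io b' := by
  obtain ⟨a, b, c, h1, h2⟩ := Nat.sInf_mem (s := {n | ∃ a b c, T a b c ∧ 2 * io a + io b = n})
    ⟨_, a, b, c, h, rfl⟩
  exact ⟨a, b, c, h1, fun a' b' c' h' => h2 ▸ Nat.sInf_le ⟨a', b', c', h', rfl⟩⟩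

lemma T1.bound (h : T1 δ a b c) : 2916000 ^ 2 < δ := by
  obtain ⟨a, b, c, h, m⟩ := exists_least h
  have m1 := m _ _ _ h.swap
  have m2 := m _ _ _ h.rot.rot.swap
  have m3 := m _ _ _ h.base
  have m4 := m _ _ _ h.base.rot.rot.swap
  have m5 := m _ _ _ h.rot.base.swap
  rw [io_neg, io_sub] at m3 m4 m5
  obtain ⟨k1, k2 | k2⟩ := h.1.out.sign
  · exact h.pos k1 k2 (by omega) (by omega) (by omega) (by omega) (by omega)
  · refine h.neg.pos (by rwa [io_neg]) k2 ?_ ?_ ?_ ?_ ?_ <;>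
      simp only [neg_sub_neg, io_neg, io_sub b a, io_sub c a, io_sub c b] <;> omega

lemma T2.bound (h : T2 δ a b c) : 2916000 ^ 2 < δ := by
  obtain ⟨a, b, c, h, m⟩ := exists_least h
  have m1 := m _ _ _ h.swap
  have m2 := m _ _ _ h.rot.rot.swap
  obtain ⟨k1, k2 | k2⟩ := h.1.out.sign
  · exact h.pos k1 k2 (by omega) (by omega)
  · refine h.neg.pos (by rwa [io_neg]) k2 ?_ ?_ <;> simp only [io_neg] <;> omega

/-- Every admissible lattice has determinant at least `B`, for some `B > 2916000`. -/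
theorem lattice_bound : ∃ B : ℝ, 2916000 < B ∧ ∀ a b c, Adm a b c → B ≤ |det3 a b c| := by
  by_cases h : ∃ a b c, Adm a b c
  · obtain ⟨a0, b0, c0, h0⟩ := h
    obtain ⟨a, b, c, h1, h2⟩ := exists_min h0
    obtain ⟨a', b', c', h3⟩ := classify h1 h2
    have h4 : 2916000 ^ 2 < det3 a b c ^ 2 := h3.elim T1.bound T2.bound
    exact ⟨|det3 a b c|, lt_of_pow_lt_pow_left₀ 2 (abs_nonneg _) (by rwa [sq_abs]), fun a' b' c' h => sq_le_sq.1 (h2 a' b' c' h)⟩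
  · exact ⟨2916001, by norm_num, fun a b c k => absurd ⟨a, b, c, k⟩ h⟩

end Pool.Agent.P.MP_c4753b_co.Three
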