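/-!
A branch and bound certificate checker for determinants of three points in triangles, written
with recursors so that the kernel evaluates it quickly.
-/

namespace Pool.Agent.P.MP_c4753b_co.Chk

/-- A point in homogeneous natural coordinates. -/
structure Pt where
  x : Nat
  y : Nat
  z : Nat
  w : Nat

/-- A triangle. -/
structure Tri where
  p : Pt
  q : Pt
  r : Pt

/-- Evaluate `n`, then continue. -/
noncomputable def frc (n : Nat) (k : Nat → Bool) : Bool :=
  Nat.rec false (fun m _ => k m) (Nat.add n 1)

/-- Lazy conjunction. -/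
noncomputable def band (a b : Bool) : Bool := Bool.rec false b a

/-- Lazy conditional. -/
noncomputable def bif' (c a b : Bool) : Bool := Bool.rec b a c

/-- Coefficient table. -/
def TAB : Nat := nat_lit 0x5a2a4c305a2a4c305a2a4c305a2a304c5a2a304c5a2a304c2e5a4f292e5a4f292e5a4f292e5a294f2e5a294f2e5a294f50503030505030305050303080242e2e80242e2e80242e2e683f3227683f3227683f3227683f2732683f2732683f273266223c3c66223c3c66223c3c265634502656345026563450265650342656503426565034522631575226315752263157522657315226573152265731303050503030505030305050005c5252005c5252005c525218414e5918414e5918414e591841594e1841594e1841594e1a5e44441a5e44441a5e44445a2a4c305a2a4c30404040405a2a304c5a2a304c404040402e5a4f292e5a4f29404040402e5a294f2e5a294f4040404050503030505030304040404080242e2e80242e2e40404040683f3227683f322740404040683f2732683f27324040404066223c3c66223c3c40404040265634502656345040404040265650342656503440404040522631575226315740404040522657315226573140404040303050503030505040404040005c5252005c52524040404018414e5918414e59404040401841594e1841594e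404040401a5e44441a5e4444404040405a2a4c30404040405a2a4c305a2a304c404040405a2a304c2e5a4f29404040402e5a4f292e5a294f404040402e5a294f50503030404040405050303080242e2e4040404080242e2e683f322740404040683f3227683f273240404040683f273266223c3c4040404066223c3c265634504040404026563450265650344040404026565034522631574040404052263157522657314040404052265731303050504040404030305050005c525240404040005c525218414e594040404018414e591841594e404040401841594e1a5e4444404040401a5e4444404040405a2a4c305a2a4c30404040405a2a304c5a2a304c404040402e5a4f292e5a4f29404040402e5a294f2e5a294f4040404050503030505030304040404080242e2e80242e2e40404040683f3227683f322740404040683f2732683f27324040404066223c3c66223c3c40404040265634502656345040404040265650342656503440404040522631575226315740404040522657315226573140404040303050503030505040404040005c5252005c52524040404018414e5918414e59404040401841594e1841594e404040401a5e44441a5e44445a2a4c305a2a4c30265634505a2a304c5a2a304c265650342e5a4f292e5a4f29522631572e5a294f2e5a294f5226573150503030505030303030505080242e2e80242e2e005c52526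83f3227683f322718414e59683f2732683f27321841594e66223c3c66223c3c1a5e444426563450265634505a2a4c3026565034265650345a2a304c52263157522631572e5a4f2952265731522657312e5a294f303050503030505050503030005c5252005c525280242e2e18414e5918414e59683f32271841594e1841594e683f27321a5e44441a5e444466223c3c5a2a4c30265634505a2a4c305a2a304c265650345a2a304c2e5a4f29522631572e5a4f292e5a294f522657312e5a294f50503030303050505050303080242e2e005c525280242e2e683f322718414e59683f3227683f27321841594e683f273266223c3c1a5e444466223c3c265634505a2a4c3026563450265650345a2a304c26565034522631572e5a4f2952263157522657312e5a294f52265731303050505050303030305050005c525280242e2e005c525218414e59683f322718414e591841594e683f27321841594e1a5e444466223c3c1a5e4444265634505a2a4c305a2a4c30265650345a2a304c5a2a304c522631572e5a4f292e5a4f29522657312e5a294f2e5a294f303050505050303050503030005c525280242e2e80242e2e18414e59683f3227683f32271841594e683f2732683f27321a5e444466223c3c66223c3c5a2a4c3026563450265634505a2a304c26565034265650342e5a4f2952263157522631572e5a294f52265731522657315050303030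3050503030505080242e2e005c5252005c5252683f322718414e5918414e59683f27321841594e1841594e66223c3c1a5e44441a5e4444265634505a2a4c3040404040265650345a2a304c40404040522631572e5a4f2940404040522657312e5a294f40404040303050505050303040404040005c525280242e2e4040404018414e59683f3227404040401841594e683f2732404040401a5e444466223c3c404040405a2a4c3026563450404040405a2a304c26565034404040402e5a4f2952263157404040402e5a294f522657314040404050503030303050504040404080242e2e005c525240404040683f322718414e5940404040683f27321841594e4040404066223c3c1a5e44444040404026563450404040405a2a4c3026565034404040405a2a304c52263157404040402e5a4f2952265731404040402e5a294f303050504040404050503030005c52524040404080242e2e18414e5940404040683f32271841594e40404040683f27321a5e44444040404066223c3c5a2a4c3040404040265634505a2a304c40404040265650342e5a4f2940404040522631572e5a294f404040405226573150503030404040403030505080242e2e40404040005c5252683f32274040404018414e59683f2732404040401841594e66223c3c404040401a5e444440404040265634505a2a4c3040404040265650345a2a304c40404040522631572e5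a4f2940404040522657312e5a294f40404040303050505050303040404040005c525280242e2e4040404018414e59683f3227404040401841594e683f2732404040401a5e444466223c3c404040405a2a4c3026563450404040405a2a304c26565034404040402e5a4f2952263157404040402e5a294f522657314040404050503030303050504040404080242e2e005c525240404040683f322718414e5940404040683f27321841594e4040404066223c3c1a5e44445a2a4c3040404040404040405a2a304c40404040404040402e5a4f2940404040404040402e5a294f404040404040404050503030404040404040404080242e2e4040404040404040683f32274040404040404040683f2732404040404040404066223c3c4040404040404040265634504040404040404040265650344040404040404040522631574040404040404040522657314040404040404040303050504040404040404040005c5252404040404040404018414e5940404040404040401841594e40404040404040401a5e44444040404040404040404040405a2a4c3040404040404040405a2a304c40404040404040402e5a4f2940404040404040402e5a294f404040404040404050503030404040404040404080242e2e4040404040404040683f32274040404040404040683f2732404040404040404066223c3c404040404040404026563450404040404040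4040265650344040404040404040522631574040404040404040522657314040404040404040303050504040404040404040005c5252404040404040404018414e5940404040404040401841594e40404040404040401a5e44444040404040404040404040405a2a4c3040404040404040405a2a304c40404040404040402e5a4f2940404040404040402e5a294f404040404040404050503030404040404040404080242e2e4040404040404040683f32274040404040404040683f2732404040404040404066223c3c4040404040404040265634504040404040404040265650344040404040404040522631574040404040404040522657314040404040404040303050504040404040404040005c5252404040404040404018414e5940404040404040401841594e40404040404040401a5e4444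

/-- Threshold table. -/
def THR : Nat := nat_lit 0x184708000017b8f80000184708000017b8f80000185a58000017a5a80000185a58000017a5a800001840c0000017bf400000185630000017a9d00000184650000017b9b00000184650000017b9b00000185460000017aba00000184708000017b8f80000184708000017b8f80000185a58000017a5a80000185a58000017a5a800001840c0000017bf400000185630000017a9d00000184650000017b9b00000184650000017b9b00000185460000017aba00000

/-- Coefficient word of a constraint. -/
def word (i : Nat) : Nat :=
  Nat.land (Nat.shiftRight TAB (Nat.mul 96 (Nat.shiftRight i 1))) 79228162514264337593543950335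

/-- Threshold of a constraint. -/
def thr (i : Nat) : Nat := Nat.land (Nat.shiftRight THR (Nat.mul 40 (Nat.mod i 36))) 1099511627775

/-- Accumulate a nonnegative combination of constraints. -/
noncomputable def acc (m wm w9 sh : Nat)
    (k : Nat → Nat → Nat → Nat → Nat → Nat → Nat → Nat → Nat → Nat → Nat → Nat → Nat → Bool) (n : Nat) :
    Nat → Nat → Nat → Nat → Nat → Nat → Nat → Nat → Nat → Nat → Nat → Nat → Nat → Nat → Bool :=
  Nat.rec (motive := fun _ => Nat → Nat → Nat → Nat → Nat → Nat → Nat → Nat → Nat → Nat → Nat → Nat → Nat → Nat → Bool) (fun _ => k)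
    (fun _ ih d u0 u1 u2 u3 u4 u5 u6 u7 u8 u9 u10 u11 t =>
      frc (Nat.land d 511) fun i =>
      frc (Nat.mul (Nat.land (Nat.shiftRight m (Nat.add i 64)) 1)
        (Nat.shiftLeft (Nat.land (Nat.shiftRight d 9) wm) sh)) fun y =>
      frc (word i) fun c =>
      frc (Nat.shiftRight d w9) fun d' =>
      ih d'
        (Nat.add u0 (Nat.mul y (Nat.land c 255)))
        (Nat.add u1 (Nat.mul y (Nat.land (Nat.shiftRight c 8) 255)))
        (Nat.add u2 (Nat.mul y (Nat.land (Nat.shiftRight c 16) 255)))
        (Nat.add u3 (Nat.mul y (Nat.land (Nat.shiftRight c 24) 255)))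
        (Nat.add u4 (Nat.mul y (Nat.land (Nat.shiftRight c 32) 255)))
        (Nat.add u5 (Nat.mul y (Nat.land (Nat.shiftRight c 40) 255)))
        (Nat.add u6 (Nat.mul y (Nat.land (Nat.shiftRight c 48) 255)))
        (Nat.add u7 (Nat.mul y (Nat.land (Nat.shiftRight c 56) 255)))
        (Nat.add u8 (Nat.mul y (Nat.land (Nat.shiftRight c 64) 255)))
        (Nat.add u9 (Nat.mul y (Nat.land (Nat.shiftRight c 72) 255)))
        (Nat.add u10 (Nat.mul y (Nat.land (Nat.shiftRight c 80) 255)))
        (Nat.add u11 (Nat.mul y (Nat.land (Nat.shiftRight c 88) 255)))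
        (Nat.add t (Nat.mul y (thr i)))) n

/-- Scalar product. -/
noncomputable def dot (a b c e : Nat) (p : Pt) : Nat :=
  Pt.rec (fun x y z w => (Nat.add (Nat.mul a x) (Nat.add (Nat.mul b y) (Nat.add (Nat.mul c z) (Nat.mul e w))))) p

/-- Maximum of three numbers. -/
def mx (a b c : Nat) : Nat := Nat.add (Nat.add a (Nat.sub b a)) (Nat.sub c (Nat.add a (Nat.sub b a)))

/-- The determinant test for one vertex of the second and third triangle. -/
noncomputable def one (p q r : Pt) (a0 a1 a2 t : Nat) (B C : Pt) (s : Nat) : Bool :=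
  Pt.rec (fun b0 b1 b2 b3 => Pt.rec (fun c0 c1 c2 c3 =>
    frc (Nat.sub (Nat.add (Nat.mul b2 c1) (Nat.add (Nat.mul b3 c2) (Nat.add (Nat.mul b1 c3) 1152921504606846976)))
      (Nat.add (Nat.mul b1 c2) (Nat.add (Nat.mul b2 c3) (Nat.mul b3 c1)))) fun q0 =>
    frc (Nat.sub (Nat.add (Nat.mul b0 c2) (Nat.add (Nat.mul b3 c0) (Nat.add (Nat.mul b2 c3) 1152921504606846976)))
      (Nat.add (Nat.mul b2 c0) (Nat.add (Nat.mul b0 c3) (Nat.mul b3 c2)))) fun q1 =>
    frc (Nat.sub (Nat.add (Nat.mul b1 c0) (Nat.add (Nat.mul b3 c1) (Nat.add (Nat.mul b0 c3) 1152921504606846976)))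
      (Nat.add (Nat.mul b0 c1) (Nat.add (Nat.mul b1 c3) (Nat.mul b3 c0)))) fun q2 =>
    frc (Nat.sub (Nat.add (Nat.mul b2 c0) (Nat.add (Nat.mul b1 c2) (Nat.add (Nat.mul b0 c1) 1152921504606846976)))
      (Nat.add (Nat.mul b0 c2) (Nat.add (Nat.mul b2 c1) (Nat.mul b1 c0)))) fun q3 =>
    frc s fun s =>
    band (Nat.blt (Nat.add a0 (Nat.add s (dot q0 q1 q2 q3 p))) t)
      (band (Nat.blt (Nat.add a1 (Nat.add s (dot q0 q1 q2 q3 q))) t)
        (Nat.blt (Nat.add a2 (Nat.add s (dot q0 q1 q2 q3 r))) t))) C) B

/-- The determinant test. -/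
noncomputable def nine (A B C : Tri) (a0 a1 a2 b0 b1 b2 c0 c1 c2 t : Nat) : Bool :=
  Tri.rec (fun p q r => Tri.rec (fun B0 B1 B2 => Tri.rec (fun C0 C1 C2 =>
    frc (Nat.add a0 52529986053649465344000) fun a0 =>
    frc (Nat.add a1 52529986053649465344000) fun a1 =>
    frc (Nat.add a2 52529986053649465344000) fun a2 =>
    frc (Nat.add t 618970019642690137449562112) fun t =>
    band (one p q r a0 a1 a2 t B0 C0 (Nat.add b0 c0)) (
    band (one p q r a0 a1 a2 t B0 C1 (Nat.add b0 c1)) (
    band (one p q r a0 a1 a2 t B0 C2 (Nat.add b0 c2)) (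
    band (one p q r a0 a1 a2 t B1 C0 (Nat.add b1 c0)) (
    band (one p q r a0 a1 a2 t B1 C1 (Nat.add b1 c1)) (
    band (one p q r a0 a1 a2 t B1 C2 (Nat.add b1 c2)) (
    band (one p q r a0 a1 a2 t B2 C0 (Nat.add b2 c0)) (
    band (one p q r a0 a1 a2 t B2 C1 (Nat.add b2 c1)) (
    one p q r a0 a1 a2 t B2 C2 (Nat.add b2 c2)))))))))) C) B) A

/-- The final test at a leaf. -/
noncomputable def fin (A B C : Tri) (d u0 u1 u2 u3 u4 u5 u6 u7 u8 u9 u10 u11 t : Nat) : Bool :=
  frc u0 fun u0 => frc u1 fun u1 => frc u2 fun u2 => frc u3 fun u3 => frc u4 fun u4 => frc u5 fun u5 =>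
  frc u6 fun u6 => frc u7 fun u7 => frc u8 fun u8 => frc u9 fun u9 => frc u10 fun u10 => frc u11 fun u11 => frc t fun t =>
  Tri.rec (fun A0 A1 A2 => Tri.rec (fun B0 B1 B2 => Tri.rec (fun C0 C1 C2 =>
    frc (dot u0 u1 u2 u3 A0) fun a0 => frc (dot u0 u1 u2 u3 A1) fun a1 => frc (dot u0 u1 u2 u3 A2) fun a2 =>
    frc (dot u4 u5 u6 u7 B0) fun b0 => frc (dot u4 u5 u6 u7 B1) fun b1 => frc (dot u4 u5 u6 u7 B2) fun b2 =>
    frc (dot u8 u9 u10 u11 C0) fun c0 => frc (dot u8 u9 u10 u11 C1) fun c1 => frc (dot u8 u9 u10 u11 C2) fun c2 =>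
    bif' (Nat.beq (Nat.land d 1) 1)
      (bif' (Nat.beq (Nat.land d 4) 4) (nine A C B a0 a1 a2 c0 c1 c2 b0 b1 b2 t)
        (nine A B C a0 a1 a2 b0 b1 b2 c0 c1 c2 t))
      (Nat.blt (Nat.add (mx a0 a1 a2) (Nat.add (mx b0 b1 b2) (mx c0 c1 c2))) t)) C) B) A

/-- A leaf. -/
noncomputable def leaf (A B C : Tri) (m d : Nat) : Bool :=
  frc (Nat.land (Nat.shiftRight d 7) 31) fun w =>
  frc (Nat.sub (Nat.shiftLeft 1 w) 1) fun wm =>
  frc (Nat.add w 9) fun w9 =>
  frc (Nat.land (Nat.shiftRight d 12) 63) fun sh =>
  frc (Nat.shiftRight d 18) fun d' =>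
  acc m wm w9 sh (fin A B C (Nat.land d 7)) (Nat.land (Nat.shiftRight d 3) 15) d' 0 0 0 0 0 0 0 0 0 0 0 0 0

/-- Bisect the first edge of a triangle. -/
noncomputable def bis (p q r : Pt) (f : Tri → Tri → Bool) : Bool :=
  Pt.rec (fun x1 y1 z1 w1 => Pt.rec (fun x2 y2 z2 w2 =>
    frc (Nat.div (Nat.add x1 x2) 2) fun x => frc (Nat.div (Nat.add y1 y2) 2) fun y =>
    frc (Nat.div (Nat.add z1 z2) 2) fun z => frc (Nat.div (Nat.add w1 w2) 2) fun w =>
    band (Nat.beq (Nat.add (Nat.add (Nat.mod (Nat.add x1 x2) 2) (Nat.mod (Nat.add y1 y2) 2))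
        (Nat.add (Nat.mod (Nat.add z1 z2) 2) (Nat.mod (Nat.add w1 w2) 2))) 0)
      (f ⟨⟨x, y, z, w⟩, q, r⟩ ⟨p, ⟨x, y, z, w⟩, r⟩)) q) p

/-- Bisect the edge number `k` of a triangle. -/
noncomputable def spl (T : Tri) (k : Nat) (f : Tri → Tri → Bool) : Bool :=
  Tri.rec (fun p q r => bif' (Nat.beq k 0) (bis q r p f)
    (bif' (Nat.beq k 1) (bis r p q f) (bis p q r f))) T

/-- A node at which one of the triangles is bisected. -/
noncomputable def split (g : Tri → Tri → Tri → Nat → Nat → Bool) (A B C : Tri) (m d : Nat) : Bool :=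
  frc (Nat.land (Nat.shiftRight d 2) 3) fun v =>
  frc (Nat.land (Nat.shiftRight d 4) 3) fun k =>
  frc (Nat.land (Nat.shiftRight d 6) 1048575) fun l =>
  frc (Nat.land (Nat.shiftRight d 26) (Nat.sub (Nat.shiftLeft 1 l) 1)) fun d1 =>
  frc (Nat.shiftRight d (Nat.add l 26)) fun d2 =>
  bif' (Nat.beq v 0) (spl A k fun T1 T2 => band (g T1 B C m d1) (g T2 B C m d2))
    (bif' (Nat.beq v 1) (spl B k fun T1 T2 => band (g A T1 C m d1) (g A T2 C m d2))
      (spl C k fun T1 T2 => band (g A B T1 m d1) (g A B T2 m d2)))

/-- The mask with one more constraint. -/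
def ins (m e j : Nat) : Nat :=
  Nat.lor (Nat.lor m (Nat.shiftLeft 1 (Nat.add (Nat.add (Nat.mul 36 e) (Nat.mul 2 j)) 65)))
    (Nat.shiftLeft 1 (Nat.mod (Nat.add (Nat.mul 18 e) j) 64))

/-- The loop over the facets at a branching node. -/
noncomputable def brn (g : Nat → Nat → Bool) (m e lo n : Nat) : Nat → Bool :=
  Nat.rec (motive := fun _ => Nat → Bool) (fun _ => true)
    (fun n ih d => frc (Nat.sub 17 n) fun j =>
      bif' (Nat.ble lo (Nat.mod j 9))
        (frc (Nat.land d 1048575) fun l =>
          frc (Nat.land (Nat.shiftRight d 20) (Nat.sub (Nat.shiftLeft 1 l) 1)) fun d1 =>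
          frc (Nat.shiftRight d (Nat.add l 20)) fun d2 =>
          frc (ins m e j) fun m1 => band (g m1 d1) (ih d2))
        (ih d)) n

/-- A branching node. -/
noncomputable def branch (low : Nat) (g : Nat → Nat → Bool) (m d : Nat) : Bool :=
  frc (Nat.land (Nat.shiftRight d 2) 15) fun e =>
  frc (Nat.land (Nat.shiftRight low (Nat.mul 4 e)) 15) fun lo =>
  frc (Nat.shiftRight d 6) fun d' =>
  band (Nat.blt lo 9) (brn g m e lo 18 d')

/-- The checker. -/
noncomputable def chk (low fuel : Nat) : Tri → Tri → Tri → Nat → Nat → Bool :=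
  Nat.rec (motive := fun _ => Tri → Tri → Tri → Nat → Nat → Bool) (fun _ _ _ _ _ => false)
    (fun _ ih A B C m d =>
      bif' (Nat.beq (Nat.land d 2) 2) (leaf A B C m d)
        (bif' (Nat.beq (Nat.land d 1) 1) (branch low (ih A B C) m d) (split ih A B C m d))) fuel

/-- The starting triangles. -/
noncomputable def roots : List Tri := [
  ⟨⟨nat_lit 110493696, nat_lit 112066560, nat_lit 183369728, nat_lit 130940928⟩,
   ⟨nat_lit 116457472, nat_lit 135069696, nat_lit 165478400, nat_lit 119865344⟩,
   ⟨nat_lit 134873088, nat_lit 114425856, nat_lit 166854656, nat_lit 120717312⟩⟩,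
  ⟨⟨nat_lit 129957888, nat_lit 173473792, nat_lit 106364928, nat_lit 127074304⟩,
   ⟨nat_lit 71106560, nat_lit 191692800, nat_lit 154992640, nat_lit 119078912⟩,
   ⟨nat_lit 172490752, nat_lit 129499136, nat_lit 120061952, nat_lit 114819072⟩⟩,
  ⟨⟨nat_lit 173473792, nat_lit 129957888, nat_lit 106364928, nat_lit 127074304⟩,
   ⟨nat_lit 191692800, nat_lit 71106560, nat_lit 154992640, nat_lit 119078912⟩,
   ⟨nat_lit 129499136, nat_lit 172490752, nat_lit 120061952, nat_lit 114819072⟩⟩,
  ⟨⟨nat_lit 118030336, nat_lit 118554624, nat_lit 178323456, nat_lit 121962496⟩,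
   ⟨nat_lit 190906368, nat_lit 118030336, nat_lit 113836032, nat_lit 114098176⟩,
   ⟨nat_lit 118095872, nat_lit 163708928, nat_lit 138018816, nat_lit 117047296⟩⟩,
  ⟨⟨nat_lit 151191552, nat_lit 151191552, nat_lit 88801280, nat_lit 145686528⟩,
   ⟨nat_lit 192479232, nat_lit 109903872, nat_lit 124583936, nat_lit 109903872⟩,
   ⟨nat_lit 129171456, nat_lit 173211648, nat_lit 107937792, nat_lit 126550016⟩⟩,
  ⟨⟨nat_lit 86900736, nat_lit 172359680, nat_lit 139591680, nat_lit 138018816⟩,
   ⟨nat_lit 149749760, nat_lit 152895488, nat_lit 90243072, nat_lit 143982592⟩,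
   ⟨nat_lit 116850688, nat_lit 186056704, nat_lit 118685696, nat_lit 115277824⟩⟩,
  ⟨⟨nat_lit 172359680, nat_lit 86900736, nat_lit 139591680, nat_lit 138018816⟩,
   ⟨nat_lit 152895488, nat_lit 149749760, nat_lit 90243072, nat_lit 143982592⟩,
   ⟨nat_lit 186056704, nat_lit 116850688, nat_lit 118685696, nat_lit 115277824⟩⟩,
  ⟨⟨nat_lit 119406592, nat_lit 104464384, nat_lit 189399040, nat_lit 123600896⟩,
   ⟨nat_lit 88932352, nat_lit 204275712, nat_lit 110952448, nat_lit 132710400⟩,
   ⟨nat_lit 118816768, nat_lit 162856960, nat_lit 138477568, nat_lit 116719616⟩⟩,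
  ⟨⟨nat_lit 104464384, nat_lit 119406592, nat_lit 189399040, nat_lit 123600896⟩,
   ⟨nat_lit 204275712, nat_lit 88932352, nat_lit 110952448, nat_lit 132710400⟩,
   ⟨nat_lit 162856960, nat_lit 118816768, nat_lit 138477568, nat_lit 116719616⟩⟩,
  ⟨⟨nat_lit 157941760, nat_lit 156368896, nat_lit 85065728, nat_lit 137494528⟩,
   ⟨nat_lit 151977984, nat_lit 133365760, nat_lit 102957056, nat_lit 148570112⟩,
   ⟨nat_lit 133562368, nat_lit 154009600, nat_lit 101580800, nat_lit 147718144⟩⟩,
  ⟨⟨nat_lit 138477568, nat_lit 94961664, nat_lit 162070528, nat_lit 141361152⟩,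
   ⟨nat_lit 197328896, nat_lit 76742656, nat_lit 113442816, nat_lit 149356544⟩,
   ⟨nat_lit 95944704, nat_lit 138936320, nat_lit 148373504, nat_lit 153616384⟩⟩,
  ⟨⟨nat_lit 94961664, nat_lit 138477568, nat_lit 162070528, nat_lit 141361152⟩,
   ⟨nat_lit 76742656, nat_lit 197328896, nat_lit 113442816, nat_lit 149356544⟩,
   ⟨nat_lit 138936320, nat_lit 95944704, nat_lit 148373504, nat_lit 153616384⟩⟩,
  ⟨⟨nat_lit 150405120, nat_lit 149880832, nat_lit 90112000, nat_lit 146472960⟩,
   ⟨nat_lit 77529088, nat_lit 150405120, nat_lit 154599424, nat_lit 154337280⟩,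
   ⟨nat_lit 150339584, nat_lit 104726528, nat_lit 130416640, nat_lit 151388160⟩⟩,
  ⟨⟨nat_lit 117243904, nat_lit 117243904, nat_lit 179634176, nat_lit 122748928⟩,
   ⟨nat_lit 75956224, nat_lit 158531584, nat_lit 143851520, nat_lit 158531584⟩,
   ⟨nat_lit 139264000, nat_lit 95223808, nat_lit 160497664, nat_lit 141885440⟩⟩,
  ⟨⟨nat_lit 181534720, nat_lit 96075776, nat_lit 128843776, nat_lit 130416640⟩,
   ⟨nat_lit 118685696, nat_lit 115539968, nat_lit 178192384, nat_lit 124452864⟩,
   ⟨nat_lit 151584768, nat_lit 82378752, nat_lit 149749760, nat_lit 153157632⟩⟩,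
  ⟨⟨nat_lit 96075776, nat_lit 181534720, nat_lit 128843776, nat_lit 130416640⟩,
   ⟨nat_lit 115539968, nat_lit 118685696, nat_lit 178192384, nat_lit 124452864⟩,
   ⟨nat_lit 82378752, nat_lit 151584768, nat_lit 149749760, nat_lit 153157632⟩⟩,
  ⟨⟨nat_lit 149028864, nat_lit 163971072, nat_lit 79036416, nat_lit 144834560⟩,
   ⟨nat_lit 179503104, nat_lit 64159744, nat_lit 157483008, nat_lit 135725056⟩,
   ⟨nat_lit 149618688, nat_lit 105578496, nat_lit 129957888, nat_lit 151715840⟩⟩,
  ⟨⟨nat_lit 163971072, nat_lit 149028864, nat_lit 79036416, nat_lit 144834560⟩,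
   ⟨nat_lit 64159744, nat_lit 179503104, nat_lit 157483008, nat_lit 135725056⟩,
   ⟨nat_lit 105578496, nat_lit 149618688, nat_lit 129957888, nat_lit 151715840⟩⟩]

/-- The starting triangle of a facet. -/
noncomputable def root (j : Nat) : Tri := roots.getD j ⟨⟨0, 0, 0, 0⟩, ⟨0, 0, 0, 0⟩, ⟨0, 0, 0, 0⟩⟩

/-- The starting mask. -/
noncomputable def up (ty : Nat) : Nat := Bool.rec
  (nat_lit 0x5555555555555555555555555550000000000000000000000000000000000000000000000000000005555555555555555555555555550000000000000000)
  (nat_lit 0x5555555555555555555555555555555555555555555555555555550000000000000000) (Nat.beq ty 0)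

/-- The table of the smallest facet indices. -/
noncomputable def low (ty a b : Nat) : Nat := Bool.rec 0xfff0000fffffffff
  (Nat.add 0xfffffff000000fff (Nat.add (Nat.mul 0x11000 (Nat.mod b 9)) (Nat.mul 0x100000 a))) (Nat.beq ty 0)

/-- The test for one triple of facets. -/
noncomputable def top (ty a b c d : Nat) : Bool :=
  frc (up ty) fun m => frc (low ty a b) fun lw =>
  Tri.rec (fun a0 a1 a2 => Tri.rec (fun b0 b1 b2 => Tri.rec (fun c0 c1 c2 =>
    chk lw 40 ⟨a0, a1, a2⟩ ⟨b0, b1, b2⟩ ⟨c0, c1, c2⟩ m d) (root c)) (root b)) (root a)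

/-- The tests for a range of triples of facets. -/
noncomputable def rng (lo n : Nat) : Nat → Bool :=
  Nat.rec (motive := fun _ => Nat → Bool) (fun _ => true)
    (fun n ih d => frc (Nat.add lo n) fun i =>
      frc (Nat.mod i 18) fun c => frc (Nat.mod (Nat.div i 18) 18) fun b =>
      frc (Nat.mod (Nat.div i 324) 9) fun a =>
      bif' (band (Nat.ble a (Nat.mod b 9)) (Nat.ble (Nat.mod b 9) (Nat.mod c 9)))
        (frc (Nat.land d 16777215) fun l =>
          frc (Nat.land (Nat.shiftRight d 24) (Nat.sub (Nat.shiftLeft 1 l) 1)) fun d1 =>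
          frc (Nat.shiftRight d (Nat.add l 24)) fun d2 =>
          band (top (Nat.div i 2916) a b c d1) (ih d2))
        (ih d)) n

end Pool.Agent.P.MP_c4753b_co.Chk
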