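import Pool.Agent.P.MP_c4753b_co.Perturb

/-!
Minkowski's classification of the contact vectors of an extremal lattice.
-/

namespace Pool.Agent.P.MP_c4753b_co.Three

lemma uniq {a b c : E3} (h : Adm a b c) {i j k i' j' k' : ℤ} (h1 : InD (lv a b c i j k))
    (h2 : InD (lv a b c i' j' k')) (ei : i % 2 = i' % 2) (ej : j % 2 = j' % 2)
    (ek : k % 2 = k' % 2) : (i = i' ∧ j = j' ∧ k = k') ∨ (-i = i' ∧ -j = j' ∧ -k = k') := by
  by_contra hc
  obtain ⟨x, x', rfl, rfl⟩ : ∃ x x', i = x + x' ∧ i' = x - x' :=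
    ⟨(i + i') / 2, (i - i') / 2, by omega, by omega⟩
  obtain ⟨y, y', rfl, rfl⟩ : ∃ x x', j = x + x' ∧ j' = x - x' :=
    ⟨(j + j') / 2, (j - j') / 2, by omega, by omega⟩
  obtain ⟨z, z', rfl, rfl⟩ : ∃ x x', k = x + x' ∧ k' = x - x' :=
    ⟨(k + k') / 2, (k - k') / 2, by omega, by omega⟩
  refine mid h1 h2 ?_ ?_
  · convert h x y z (by omega) using 1
    simp only [lv]
    push_cast
    module
  · convert h x' y' z' (by omega) using 1
    simp only [lv]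
    push_cast
    module

/-- There is a lattice vector in `D` in the given class modulo two. -/
def Has (a b c : E3) (κ : ℤ × ℤ × ℤ) : Prop := ∃ z : ℤ × ℤ × ℤ,
  InD (lv a b c z.1 z.2.1 z.2.2) ∧ z.1 % 2 = κ.1 ∧ z.2.1 % 2 = κ.2.1 ∧ z.2.2 % 2 = κ.2.2

/-- The seven nonzero classes modulo two. -/
def C7 : Finset (ℤ × ℤ × ℤ) :=
  {(0, 0, 1), (0, 1, 0), (0, 1, 1), (1, 0, 0), (1, 0, 1), (1, 1, 0), (1, 1, 1)}

lemma six {a b c : E3} (h : Adm a b c)
    (hm : ∀ a' b' c', Adm a' b' c' → det3 a b c ^ 2 ≤ det3 a' b' c' ^ 2) :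
    ∃ μ, ∀ κ ∈ C7, κ ≠ μ → Has a b c κ := by
  classical
  let H := C7.filter (Has a b c)
  have hH : 6 ≤ H.card := by
    by_contra hc
    choose g g1 g2 g3 g4 using fun κ : H => (Finset.mem_filter.1 κ.2).2
    obtain ⟨a', b', c', h1, h2⟩ := perturb h (Finset.univ.image g)
      (Finset.card_image_le.trans (by simp only [Finset.card_univ, Fintype.card_coe]; omega))
      (fun w hw => by
        obtain ⟨κ, -, rfl⟩ := Finset.mem_image.1 hw
        refine h _ _ _ fun ⟨e1, e2, e3⟩ => ?_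
        have k0 := (Finset.mem_filter.1 κ.2).1
        have k1 := g2 κ
        have k2 := g3 κ
        have k3 := g4 κ
        rw [show κ.1 = (κ.1.1, κ.1.2.1, κ.1.2.2) from rfl, ← k1, ← k2, ← k3, e1, e2, e3] at k0
        exact absurd k0 (by decide))
      (fun i j k hn hD => by
        have k0 : (i % 2, j % 2, k % 2) ∈ C7 := by
          have := uniq h hD (i' := 0) (j' := 0) (k' := 0) (fun f _ => by
            have : lv a b c 0 0 0 = 0 := by simp [lv]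
            rw [this, map_zero]
            exact Nat.cast_nonneg _)
          simp only [C7, Finset.mem_insert, Finset.mem_singleton, Prod.mk.injEq]
          omega
        let κ : H := ⟨_, Finset.mem_filter.2 ⟨k0, (i, j, k), hD, rfl, rfl, rfl⟩⟩
        have k1 := Finset.mem_image_of_mem g (Finset.mem_univ κ)
        rcases uniq h hD (g1 κ) (g2 κ).symm (g3 κ).symm (g4 κ).symm with
          ⟨e1, e2, e3⟩ | ⟨e1, e2, e3⟩
        · exact Or.inl (by rw [e1, e2, e3]; exact k1)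
        · exact Or.inr (by rw [e1, e2, e3]; exact k1))
    exact absurd (hm _ _ _ h1) (not_le.2 h2)
  have h7 : C7.card = 7 := by decide
  have h1 : (C7 \ H).card ≤ 1 := by
    rw [Finset.card_sdiff_of_subset (show H ⊆ C7 from Finset.filter_subset _ _)]
    omega
  obtain ⟨μ, hμ⟩ := Finset.card_le_one_iff_subset_singleton.1 h1
  refine ⟨μ, fun κ h1 h2 => ?_⟩
  by_contra hc
  exact h2 (Finset.mem_singleton.1 (hμ (Finset.mem_sdiff.2 ⟨h1, fun h => hc
    (Finset.mem_filter.1 h).2⟩)))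

/-- A basis of one of the two Minkowski types, in integer coordinates. -/
def Goal (C : ℤ → ℤ → ℤ → Prop) : Prop := ∃ p1 p2 p3 q1 q2 q3 r1 r2 r3 : ℤ,
  (idet p1 p2 p3 q1 q2 q3 r1 r2 r3 = 1 ∨ idet p1 p2 p3 q1 q2 q3 r1 r2 r3 = -1) ∧
  C p1 p2 p3 ∧ C q1 q2 q3 ∧ C r1 r2 r3 ∧
  ((C (p1 - q1) (p2 - q2) (p3 - q3) ∧ C (p1 - r1) (p2 - r2) (p3 - r3) ∧
    C (q1 - r1) (q2 - r2) (q3 - r3)) ∨
  (C (p1 + q1) (p2 + q2) (p3 + q3) ∧ C (p1 + r1) (p2 + r2) (p3 + r3) ∧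
    C (q1 + r1) (q2 + r2) (q3 + r3)))

section comb

variable {C : ℤ → ℤ → ℤ → Prop} (neg : ∀ i j k, C i j k → C (-i) (-j) (-k))
  (odd : ∀ p1 p2 p3 q1 q2 q3 r1 r2 r3, C p1 p2 p3 → C q1 q2 q3 → C r1 r2 r3 →
    idet p1 p2 p3 q1 q2 q3 r1 r2 r3 % 2 = 1 →
    idet p1 p2 p3 q1 q2 q3 r1 r2 r3 = 1 ∨ idet p1 p2 p3 q1 q2 q3 r1 r2 r3 = -1)
  (h1 : C 1 0 0) (h2 : C 0 1 0) (h3 : C 0 0 1)

include neg in
lemma sg {i j k i' j' k' : ℤ} (h : C i j k)
    (e : (i' = i ∧ j' = j ∧ k' = k) ∨ (i' = -i ∧ j' = -j ∧ k' = -k)) : C i' j' k' := by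
  rcases e with ⟨rfl, rfl, rfl⟩ | ⟨rfl, rfl, rfl⟩
  exacts [h, neg _ _ _ h]

include neg odd h1 h2 h3 in
lemma comb2 {σ τ υ s t u : ℤ} (hσ : σ = 1 ∨ σ = -1) (hτ : τ = 1 ∨ τ = -1) (hυ : υ = 1 ∨ υ = -1)
    (hs : C 1 σ (2 * s)) (ht : C 1 (2 * t) τ) (hu : C (2 * u) 1 υ) : Goal C := by
  have o1 := odd _ _ _ _ _ _ _ _ _ h1 hs ht
  have o2 := odd _ _ _ _ _ _ _ _ _ h2 hs hu
  have o3 := odd _ _ _ _ _ _ _ _ _ h3 ht hu
  have o4 := odd _ _ _ _ _ _ _ _ _ h1 hs hu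
  have o5 := odd _ _ _ _ _ _ _ _ _ h2 hs ht
  have o6 := odd _ _ _ _ _ _ _ _ _ h1 ht hu
  have o7 := odd _ _ _ _ _ _ _ _ _ h3 hs ht
  have o8 := odd _ _ _ _ _ _ _ _ _ h2 ht hu
  have o9 := odd _ _ _ _ _ _ _ _ _ h3 hs hu
  have e : ∀ x y : ℤ, 2 * x * (2 * y) = 4 * (x * y) := fun x y => by ring
  simp only [idet, e] at o1 o2 o3 o4 o5 o6 o7 o8 o9
  have z1 : s = 0 ∨ t = 0 := mul_eq_zero.1 (by
    clear * - o1 hσ hτ
    rcases hσ with rfl | rfl <;> rcases hτ with rfl | rfl <;> omega)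
  have z2 : s = 0 ∨ u = 0 := mul_eq_zero.1 (by
    clear * - o2 hυ
    have := mul_comm s u
    rcases hυ with rfl | rfl <;> omega)
  have z3 : t = 0 ∨ u = 0 := mul_eq_zero.1 (by
    clear * - o3
    omega)
  have y4 : s = 0 ∨ s = σ * υ := by
    clear * - o4 hσ hυ
    rcases hσ with rfl | rfl <;> rcases hυ with rfl | rfl <;> omega
  have y5 : s = 0 ∨ s = τ := by
    clear * - o5 hτ
    omega
  have y6 : t = 0 ∨ t = τ * υ := by
    clear * - o6 hτ hυ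
    rcases hτ with rfl | rfl <;> rcases hυ with rfl | rfl <;> omega
  have y7 : t = 0 ∨ t = σ := by
    clear * - o7 hσ
    omega
  have y8 : u = 0 ∨ u = τ * υ := by
    clear * - o8 hτ hυ
    rcases hτ with rfl | rfl <;> rcases hυ with rfl | rfl <;> omega
  have y9 : u = 0 ∨ u = σ := by
    clear * - o9 hσ
    rcases hσ with rfl | rfl <;> omega
  clear o1 o2 o3 o4 o5 o6 o7 o8 o9 e
  by_cases s0 : s = 0
  · by_cases t0 : t = 0
    · by_cases u0 : u = 0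
      · subst s0 t0 u0
        rcases hσ with rfl | rfl <;> rcases hτ with rfl | rfl <;> rcases hυ with rfl | rfl <;>
        first
          | exact ⟨1, 0, 0, 0, 1, 0, 0, 0, 1, by decide, h1, h2, h3,
              Or.inl ⟨sg neg hs (by decide), sg neg ht (by decide), sg neg hu (by decide)⟩⟩
          | exact ⟨1, 0, 0, 0, -1, 0, 0, 0, 1, by decide, h1, sg neg h2 (by decide), h3,
              Or.inl ⟨sg neg hs (by decide), sg neg ht (by decide), sg neg hu (by decide)⟩⟩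
          | exact ⟨1, 0, 0, 0, 1, 0, 0, 0, -1, by decide, h1, h2, sg neg h3 (by decide),
              Or.inl ⟨sg neg hs (by decide), sg neg ht (by decide), sg neg hu (by decide)⟩⟩
          | exact ⟨1, 0, 0, 0, -1, 0, 0, 0, -1, by decide, h1, sg neg h2 (by decide),
              sg neg h3 (by decide),
              Or.inl ⟨sg neg hs (by decide), sg neg ht (by decide), sg neg hu (by decide)⟩⟩
          | exact ⟨1, 0, 0, 0, 1, 0, 0, 0, 1, by decide, h1, h2, h3,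
              Or.inr ⟨sg neg hs (by decide), sg neg ht (by decide), sg neg hu (by decide)⟩⟩
          | exact ⟨1, 0, 0, 0, -1, 0, 0, 0, 1, by decide, h1, sg neg h2 (by decide), h3,
              Or.inr ⟨sg neg hs (by decide), sg neg ht (by decide), sg neg hu (by decide)⟩⟩
          | exact ⟨1, 0, 0, 0, 1, 0, 0, 0, -1, by decide, h1, h2, sg neg h3 (by decide),
              Or.inr ⟨sg neg hs (by decide), sg neg ht (by decide), sg neg hu (by decide)⟩⟩
          | exact ⟨1, 0, 0, 0, -1, 0, 0, 0, -1, by decide, h1, sg neg h2 (by decide),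
              sg neg h3 (by decide),
              Or.inr ⟨sg neg hs (by decide), sg neg ht (by decide), sg neg hu (by decide)⟩⟩
      · subst s0 t0
        refine ⟨1, σ, 0, 1, 0, τ, -1, 0, 0, ?_, hs, ht, sg neg h1 (by decide),
          Or.inr ⟨sg neg hu ?_, sg neg h2 (by omega), sg neg h3 (by omega)⟩⟩ <;>
        rcases hσ with rfl | rfl <;> rcases hτ with rfl | rfl <;> rcases hυ with rfl | rfl <;>
        first | decide | omega
    · obtain rfl : u = 0 := by omega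
      subst s0
      refine ⟨σ, 1, 0, 0, 1, υ, 0, -1, 0, ?_, sg neg hs (by omega), hu, sg neg h2 (by decide),
        Or.inr ⟨sg neg ht ?_, sg neg h1 (by omega), sg neg h3 (by omega)⟩⟩ <;>
      rcases hσ with rfl | rfl <;> rcases hτ with rfl | rfl <;> rcases hυ with rfl | rfl <;>
      first | decide | omega
  · obtain rfl : t = 0 := by omega
    obtain rfl : u = 0 := by omega
    refine ⟨τ, 0, 1, 0, υ, 1, 0, 0, -1, ?_, sg neg ht (by omega), sg neg hu (by omega),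
      sg neg h3 (by decide),
      Or.inr ⟨sg neg hs ?_, sg neg h1 (by omega), sg neg h2 (by omega)⟩⟩ <;>
    rcases hσ with rfl | rfl <;> rcases hτ with rfl | rfl <;> rcases hυ with rfl | rfl <;>
    first | decide | omega

include neg odd h1 h2 h3 in
lemma comb1 {s1 s2 s3 t1 t2 t3 u1 u2 u3 : ℤ} (hs : C s1 s2 s3) (ht : C t1 t2 t3) (hu : C u1 u2 u3)
    (e1 : s1 % 2 = 1) (e2 : s2 % 2 = 1) (e3 : s3 % 2 = 0) (e4 : t1 % 2 = 1) (e5 : t2 % 2 = 0)
    (e6 : t3 % 2 = 1) (e7 : u1 % 2 = 0) (e8 : u2 % 2 = 1) (e9 : u3 % 2 = 1) : Goal C := by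
  have o1 := odd _ _ _ _ _ _ _ _ _ hs h2 h3
  have o2 := odd _ _ _ _ _ _ _ _ _ h1 hs h3
  have o3 := odd _ _ _ _ _ _ _ _ _ ht h2 h3
  have o4 := odd _ _ _ _ _ _ _ _ _ h1 h2 ht
  have o5 := odd _ _ _ _ _ _ _ _ _ h1 hu h3
  have o6 := odd _ _ _ _ _ _ _ _ _ h1 h2 hu
  simp only [idet] at o1 o2 o3 o4 o5 o6
  obtain ⟨σ, s, k1, k2⟩ : ∃ σ s, (σ = 1 ∨ σ = -1) ∧ C 1 σ (2 * s) := by
    rcases (by omega : s1 = 1 ∨ s1 = -1) with rfl | rfl
    · exact ⟨s2, s3 / 2, by omega, sg neg hs (by omega)⟩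
    · exact ⟨-s2, -s3 / 2, by omega, sg neg hs (by omega)⟩
  obtain ⟨τ, t, k3, k4⟩ : ∃ τ t, (τ = 1 ∨ τ = -1) ∧ C 1 (2 * t) τ := by
    rcases (by omega : t1 = 1 ∨ t1 = -1) with rfl | rfl
    · exact ⟨t3, t2 / 2, by omega, sg neg ht (by omega)⟩
    · exact ⟨-t3, -t2 / 2, by omega, sg neg ht (by omega)⟩
  obtain ⟨υ, u, k5, k6⟩ : ∃ υ u, (υ = 1 ∨ υ = -1) ∧ C (2 * u) 1 υ := by
    rcases (by omega : u2 = 1 ∨ u2 = -1) with rfl | rfl
    · exact ⟨u3, u1 / 2, by omega, sg neg hu (by omega)⟩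
    · exact ⟨-u3, -u1 / 2, by omega, sg neg hu (by omega)⟩
  exact comb2 neg odd h1 h2 h3 k1 k3 k5 k2 k4 k6

end comb

end Pool.Agent.P.MP_c4753b_co.Three
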