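import Mathlib

/-!
Translative and lattice packing densities of a set in Euclidean space.
-/

namespace Pool.Agent.P.MP_c4753b_co

open MeasureTheory
open scoped Pointwise ENNReal

/-- The translates `x + K`, `x ∈ X`, have pairwise disjoint interiors. -/
def IsPacking {d : ℕ} (K X : Set (EuclideanSpace ℝ (Fin d))) : Prop :=
  X.Pairwise fun x y => Disjoint (interior (x +ᵥ K)) (interior (y +ᵥ K))

/-- Upper density of the union of the translates `x + K`, `x ∈ X`, in balls about the origin. -/
noncomputable def density {d : ℕ} (K X : Set (EuclideanSpace ℝ (Fin d))) : ℝ≥0∞ :=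
  Filter.limsup (fun R : ℝ => volume (Metric.ball 0 R ∩ ⋃ x ∈ X, x +ᵥ K) /
    volume (Metric.ball (0 : EuclideanSpace ℝ (Fin d)) R)) Filter.atTop

/-- Translative packing density: the supremum of the densities of all translative packings. -/
noncomputable def deltaT {d : ℕ} (K : Set (EuclideanSpace ℝ (Fin d))) : ℝ≥0∞ :=
  ⨆ (X : Set (EuclideanSpace ℝ (Fin d))) (_ : IsPacking K X), density K X

/-- Lattice packing density: the supremum over the packings whose translation vectors form a
discrete subgroup of full rank. -/
noncomputable def deltaL {d : ℕ} (K : Set (EuclideanSpace ℝ (Fin d))) : ℝ≥0∞ :=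
  ⨆ (L : AddSubgroup (EuclideanSpace ℝ (Fin d))) (_ : DiscreteTopology L)
    (_ : Submodule.span ℝ (L : Set (EuclideanSpace ℝ (Fin d))) = ⊤) (_ : IsPacking K L),
    density K L

end Pool.Agent.P.MP_c4753b_co
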