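import Pool.Agent.P.MP_c4753b_co.Defs

/-!
Densities of lattice and periodic arrangements.
-/

namespace Pool.Agent.P.MP_c4753b_co

open MeasureTheory Set Filter Topology Module Submodule
open scoped Pointwise ENNReal

variable {d : ℕ}

/-- Determinant of a family of `d` vectors in standard coordinates. -/
noncomputable def cdet (v : Fin d → EuclideanSpace ℝ (Fin d)) : ℝ :=
  (Matrix.of fun i j => v i j).det

lemma volume_fund (b : Basis (Fin d) ℝ (EuclideanSpace ℝ (Fin d))) :
    volume (ZSpan.fundamentalDomain b) = ENNReal.ofReal |cdet b| := by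
  rw [ZSpan.measure_fundamentalDomain b volume (EuclideanSpace.basisFun (Fin d) ℝ).toBasis,
    measure_congr (ZSpan.fundamentalDomain_ae_parallelepiped _ volume),
    OrthonormalBasis.coe_toBasis, OrthonormalBasis.volume_parallelepiped, mul_one, cdet,
    ← Matrix.det_transpose, Basis.det_apply]
  rfl

lemma cdet_ne_zero (b : Basis (Fin d) ℝ (EuclideanSpace ℝ (Fin d))) : cdet b ≠ 0 := by
  intro h
  have := ZSpan.measure_fundamentalDomain_ne_zero b (μ := volume)
  rw [volume_fund, h] at this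
  simp at this

/-- Number of lattice points of norm at most `r`. -/
noncomputable def cnt (b : Basis (Fin d) ℝ (EuclideanSpace ℝ (Fin d))) (r : ℝ) : ℝ≥0∞ :=
  ∑' g : span ℤ (range b), if ‖(g : EuclideanSpace ℝ (Fin d))‖ ≤ r then 1 else 0

lemma cnt_bounds (b : Basis (Fin d) ℝ (EuclideanSpace ℝ (Fin d))) :
    ∃ ρ : ℝ, 0 ≤ ρ ∧ ∀ r : ℝ,
      cnt b r * ENNReal.ofReal |cdet b| ≤
        volume (Metric.closedBall (0 : EuclideanSpace ℝ (Fin d)) (r + ρ)) ∧
      volume (Metric.closedBall (0 : EuclideanSpace ℝ (Fin d)) (r - ρ)) ≤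
        cnt b r * ENNReal.ofReal |cdet b| := by
  obtain ⟨ρ, hρ0, hρ⟩ := (ZSpan.fundamentalDomain_isBounded b).exists_pos_norm_le
  have hF := ZSpan.isAddFundamentalDomain' b volume
  have : Countable (span ℤ (range b)).toAddSubgroup :=
    inferInstanceAs (Countable (span ℤ (range b)))
  refine ⟨ρ, hρ0.le, fun r => ⟨?_, ?_⟩⟩
  · rw [hF.measure_eq_tsum' (Metric.closedBall 0 (r + ρ)), cnt, ← ENNReal.tsum_mul_right]
    refine ENNReal.tsum_le_tsum fun g => ?_
    split_ifs with hg
    · rw [one_mul, ← volume_fund, ← measure_vadd (μ := volume)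
        (g : EuclideanSpace ℝ (Fin d)) (ZSpan.fundamentalDomain b)]
      refine measure_mono fun x hx => ⟨?_, hx⟩
      obtain ⟨y, hy, rfl⟩ := hx
      rw [mem_closedBall_zero_iff]
      exact (norm_add_le _ _).trans (add_le_add hg (hρ y hy))
    · simp
  · rw [hF.measure_eq_tsum' (Metric.closedBall 0 (r - ρ)), cnt, ← ENNReal.tsum_mul_right]
    refine ENNReal.tsum_le_tsum fun g => ?_
    split_ifs with hg
    · rw [one_mul, ← volume_fund, ← measure_vadd (μ := volume)
        (g : EuclideanSpace ℝ (Fin d)) (ZSpan.fundamentalDomain b)]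
      exact measure_mono inter_subset_right
    · rw [zero_mul]
      refine le_of_eq (measure_mono_null (t := ∅) ?_ measure_empty)
      rintro x ⟨h1, y, hy, rfl⟩
      apply hg
      rw [mem_closedBall_zero_iff] at h1
      have h2 : ‖(g : EuclideanSpace ℝ (Fin d))‖ ≤ ‖(g : EuclideanSpace ℝ (Fin d)) + y‖ + ‖y‖ := by
        simpa using norm_sub_le ((g : EuclideanSpace ℝ (Fin d)) + y) y
      have h3 := hρ y hy
      have h4 : ‖(g : EuclideanSpace ℝ (Fin d)) + y‖ ≤ r - ρ := h1
      linarith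

lemma tendsto_ratio (a : ℝ≥0∞) (c : ℝ) :
    Tendsto (fun R : ℝ => a * ENNReal.ofReal (((R + c) / R) ^ d)) atTop (𝓝 a) := by
  have h1 : Tendsto (fun R : ℝ => (R + c) / R) atTop (𝓝 1) := by
    have h2 : Tendsto (fun R : ℝ => 1 + c * R⁻¹) atTop (𝓝 (1 + c * 0)) :=
      (tendsto_inv_atTop_zero.const_mul c).const_add 1
    rw [mul_zero, add_zero] at h2
    refine h2.congr' ?_
    filter_upwards [eventually_gt_atTop 0] with R hR
    field_simp
  have h2 := ENNReal.tendsto_ofReal (h1.pow d)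
  rw [one_pow, ENNReal.ofReal_one] at h2
  simpa using ENNReal.Tendsto.const_mul (a := a) h2 (Or.inl one_ne_zero)

lemma vol_closedBall (R c : ℝ) (hR : 0 < R) (hc : 0 ≤ R + c) :
    volume (Metric.closedBall (0 : EuclideanSpace ℝ (Fin d)) (R + c)) =
      ENNReal.ofReal (((R + c) / R) ^ d) *
        volume (Metric.ball (0 : EuclideanSpace ℝ (Fin d)) R) := by
  rw [Measure.addHaar_closedBall _ _ hc, Measure.addHaar_ball_of_pos _ _ hR, ← mul_assoc,
    ← ENNReal.ofReal_mul (by positivity), finrank_euclideanSpace_fin, ← mul_pow,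
    div_mul_cancel₀ _ hR.ne']

/-- Upper bound for the density of a lattice arrangement. -/
lemma density_lattice_le (b : Basis (Fin d) ℝ (EuclideanSpace ℝ (Fin d)))
    {K : Set (EuclideanSpace ℝ (Fin d))} (hK : Bornology.IsBounded K) :
    density K (span ℤ (range b) : Submodule ℤ _) ≤ volume K / ENNReal.ofReal |cdet b| := by
  obtain ⟨ρ, hρ0, hρ⟩ := cnt_bounds b
  obtain ⟨r, hr0, hr⟩ := hK.exists_pos_norm_le
  have hV0 : ENNReal.ofReal |cdet b| ≠ 0 := by simpa using cdet_ne_zero b
  rw [← (tendsto_ratio (d := d) (volume K / ENNReal.ofReal |cdet b|) (r + ρ)).limsup_eq]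
  refine limsup_le_limsup ?_
  filter_upwards [eventually_gt_atTop 0] with R hR
  apply ENNReal.div_le_of_le_mul
  have h1 : volume (Metric.ball 0 R ∩ ⋃ x ∈ (span ℤ (range b) : Submodule ℤ _), x +ᵥ K) ≤
      cnt b (R + r) * volume K := by
    have e : (Metric.ball 0 R ∩ ⋃ x ∈ (span ℤ (range b) : Submodule ℤ _), x +ᵥ K) =
        ⋃ g : span ℤ (range b), Metric.ball 0 R ∩ ((g : EuclideanSpace ℝ (Fin d)) +ᵥ K) := by
      rw [← inter_iUnion]
      congr 1
      ext x
      simp only [mem_iUnion, exists_prop, Subtype.exists]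
    rw [e, cnt, ← ENNReal.tsum_mul_right]
    refine (measure_iUnion_le _).trans (ENNReal.tsum_le_tsum fun g => ?_)
    split_ifs with hg
    · rw [one_mul, ← measure_vadd (μ := volume) (g : EuclideanSpace ℝ (Fin d)) K]
      exact measure_mono inter_subset_right
    · rw [zero_mul]
      refine le_of_eq (measure_mono_null (t := ∅) ?_ measure_empty)
      rintro x ⟨h1, y, hy, rfl⟩
      apply hg
      rw [mem_ball_zero_iff] at h1
      have h2 : ‖(g : EuclideanSpace ℝ (Fin d))‖ ≤ ‖(g : EuclideanSpace ℝ (Fin d)) + y‖ + ‖y‖ := by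
        simpa using norm_sub_le ((g : EuclideanSpace ℝ (Fin d)) + y) y
      have h3 := hr y hy
      have h4 : ‖(g : EuclideanSpace ℝ (Fin d)) + y‖ < R := h1
      linarith
  refine le_trans h1 ?_
  have h2 := (hρ (R + r)).1
  rw [add_assoc, vol_closedBall R (r + ρ) hR (by linarith)] at h2
  rw [mul_assoc]
  refine le_trans (le_of_eq ?_) (mul_le_mul_right h2 _)
  rw [mul_comm (cnt b (R + r)) (ENNReal.ofReal _), ← mul_assoc,
    ENNReal.div_mul_cancel hV0 ENNReal.ofReal_ne_top, mul_comm]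

/-- Lower bound for the density of an arrangement that contains disjoint lattice translates of
a bounded measurable set `W`. -/
lemma le_density_periodic (b : Basis (Fin d) ℝ (EuclideanSpace ℝ (Fin d)))
    {K X W : Set (EuclideanSpace ℝ (Fin d))} (hW : Bornology.IsBounded W) (hWm : MeasurableSet W)
    (hdisj : Pairwise fun g g' : span ℤ (range b) =>
      Disjoint ((g : EuclideanSpace ℝ (Fin d)) +ᵥ W) ((g' : EuclideanSpace ℝ (Fin d)) +ᵥ W))
    (hsub : ∀ g : span ℤ (range b), (g : EuclideanSpace ℝ (Fin d)) +ᵥ W ⊆ ⋃ x ∈ X, x +ᵥ K) :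
    volume W / ENNReal.ofReal |cdet b| ≤ density K X := by
  obtain ⟨ρ, hρ0, hρ⟩ := cnt_bounds b
  obtain ⟨r, hr0, hr⟩ := hW.exists_pos_norm_le
  have hV0 : ENNReal.ofReal |cdet b| ≠ 0 := by simpa using cdet_ne_zero b
  rw [← (tendsto_ratio (d := d) (volume W / ENNReal.ofReal |cdet b|) (-(r + 1 + ρ))).limsup_eq]
  refine limsup_le_limsup ?_
  filter_upwards [eventually_gt_atTop (r + 1 + ρ)] with R hR
  have hR0 : 0 < R := by linarith
  rw [ENNReal.le_div_iff_mul_le (Or.inl (Metric.measure_ball_pos _ _ hR0).ne')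
    (Or.inl measure_ball_lt_top.ne)]
  have h1 : cnt b (R - r - 1) * volume W ≤ volume (Metric.ball 0 R ∩ ⋃ x ∈ X, x +ᵥ K) := by
    let s : span ℤ (range b) → Set (EuclideanSpace ℝ (Fin d)) := fun g =>
      if ‖(g : EuclideanSpace ℝ (Fin d))‖ ≤ R - r - 1 then (g : EuclideanSpace ℝ (Fin d)) +ᵥ W
      else ∅
    have hs : ∀ g, s g ⊆ (g : EuclideanSpace ℝ (Fin d)) +ᵥ W := fun g => by
      simp only [s]; split_ifs
      · exact subset_rfl
      · exact empty_subset _
    have h2 : volume (⋃ g, s g) = cnt b (R - r - 1) * volume W := by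
      rw [measure_iUnion (fun g g' h => (hdisj h).mono (hs g) (hs g')) fun g => ?_, cnt,
        ← ENNReal.tsum_mul_right]
      · refine tsum_congr fun g => ?_
        simp only [s]; split_ifs
        · rw [one_mul, measure_vadd]
        · simp
      · simp only [s]; split_ifs
        · exact hWm.const_vadd _
        · exact MeasurableSet.empty
    rw [← h2]
    refine measure_mono (iUnion_subset fun g x hx => ⟨?_, hsub g (hs g hx)⟩)
    simp only [s] at hx
    split_ifs at hx with hg
    · obtain ⟨y, hy, rfl⟩ := hx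
      rw [mem_ball_zero_iff]
      have h3 := hr y hy
      have h4 := norm_add_le (g : EuclideanSpace ℝ (Fin d)) y
      change ‖(g : EuclideanSpace ℝ (Fin d)) + y‖ < R
      linarith
    · exact hx.elim
  refine le_trans ?_ h1
  have h2 := (hρ (R - r - 1)).2
  rw [show R - r - 1 - ρ = R + -(r + 1 + ρ) by ring, vol_closedBall R _ hR0 (by linarith)] at h2
  rw [mul_assoc]
  refine le_trans (mul_le_mul_right h2 _) (le_of_eq ?_)
  rw [mul_comm (cnt b _) (ENNReal.ofReal _), ← mul_assoc,
    ENNReal.div_mul_cancel hV0 ENNReal.ofReal_ne_top, mul_comm]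

/-- A set whose lattice translates cover space has at least the covolume. -/
lemma cdet_le_of_cover (b : Basis (Fin d) ℝ (EuclideanSpace ℝ (Fin d)))
    {Q : Set (EuclideanSpace ℝ (Fin d))}
    (hQ : ∀ z, ∃ g ∈ span ℤ (range b), z - g ∈ Q) : ENNReal.ofReal |cdet b| ≤ volume Q := by
  have hF := ZSpan.isAddFundamentalDomain' b volume
  have : Countable (span ℤ (range b)).toAddSubgroup :=
    inferInstanceAs (Countable (span ℤ (range b)))
  rw [hF.measure_eq_tsum Q, ← volume_fund]
  refine le_trans (measure_mono fun z hz => ?_) (measure_iUnion_le _)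
  obtain ⟨g, hg, h⟩ := hQ z
  exact mem_iUnion.2 ⟨⟨g, hg⟩, ⟨z - g, h, add_sub_cancel g z⟩, hz⟩

/-- Blichfeldt's principle in difference form. -/
lemma blichfeldt (b : Basis (Fin d) ℝ (EuclideanSpace ℝ (Fin d)))
    {S : Set (EuclideanSpace ℝ (Fin d))} (hS : MeasurableSet S)
    (h : ENNReal.ofReal |cdet b| < volume S) :
    ∃ p ∈ S, ∃ q ∈ S, p ≠ q ∧ p - q ∈ span ℤ (range b) := by
  have hF := ZSpan.isAddFundamentalDomain' b volume
  rw [← volume_fund] at h
  have : Countable (span ℤ (range b)).toAddSubgroup :=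
    inferInstanceAs (Countable (span ℤ (range b)))
  obtain ⟨x, y, hxy, hd⟩ := exists_pair_mem_lattice_not_disjoint_vadd hF hS.nullMeasurableSet h
  obtain ⟨_, ⟨p, hp, rfl⟩, q, hq, hpq⟩ := Set.not_disjoint_iff.1 hd
  have e : (y : EuclideanSpace ℝ (Fin d)) + q = x + p := hpq
  have e2 : p - q = (y : EuclideanSpace ℝ (Fin d)) - x := by
    rw [sub_eq_sub_iff_add_eq_add, e, add_comm]
  refine ⟨p, hp, q, hq, fun hpq' => hxy ?_, e2 ▸ sub_mem y.2 x.2⟩
  rw [hpq', sub_self, eq_comm, sub_eq_zero] at e2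
  exact Subtype.ext e2.symm

/-- A discrete subgroup of full rank is spanned by a basis. -/
lemma exists_basis (L : AddSubgroup (EuclideanSpace ℝ (Fin d))) (h1 : DiscreteTopology L)
    (h2 : span ℝ (L : Set (EuclideanSpace ℝ (Fin d))) = ⊤) :
    ∃ b : Basis (Fin d) ℝ (EuclideanSpace ℝ (Fin d)),
      (L : Set (EuclideanSpace ℝ (Fin d))) = (span ℤ (range b) : Submodule ℤ _) := by
  let L' : Submodule ℤ (EuclideanSpace ℝ (Fin d)) := AddSubgroup.toIntSubmodule L
  have : DiscreteTopology L' := h1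
  have : IsZLattice ℝ L' := ⟨h2⟩
  have := ZLattice.module_finite ℝ L'
  have := ZLattice.module_free ℝ L'
  have hr : finrank ℤ L' = d := by rw [ZLattice.rank ℝ L', finrank_euclideanSpace_fin]
  refine ⟨(finBasisOfFinrankEq ℤ L' hr).ofZLatticeBasis ℝ L', ?_⟩
  rw [Basis.ofZLatticeBasis_span]
  rfl

/-- The determinant of `d` lattice vectors is an integer multiple of the lattice determinant. -/
lemma cdet_eq_int_mul (b : Basis (Fin d) ℝ (EuclideanSpace ℝ (Fin d)))
    (v : Fin d → EuclideanSpace ℝ (Fin d)) (hv : ∀ i, v i ∈ span ℤ (range b)) :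
    ∃ N : ℤ, cdet v = N * cdet b := by
  have h : ∀ i, ∃ c : Fin d → ℤ, ∑ k, c k • b k = v i := fun i =>
    (mem_span_range_iff_exists_fun ℤ).1 (hv i)
  choose c hc using h
  refine ⟨(Matrix.of c).det, ?_⟩
  have e : (Matrix.of fun i j => v i j) =
      (Matrix.of c).map (Int.castRingHom ℝ) * Matrix.of fun i j => b i j := by
    ext i j
    simp [Matrix.mul_apply, ← hc i]
  rw [cdet, e, Matrix.det_mul, ← RingHom.mapMatrix_apply, ← RingHom.map_det]
  rfl

end Pool.Agent.P.MP_c4753b_co
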