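import Pool.Agent.P.MP_c4753b_co.Alg

/-!
Determinant bounds for lattices close to a column tiling or to a layer tiling.
-/

namespace Pool.Agent.P.MP_c4753b_co

/-- No point of the column through `(x, y, z)` with slopes `s`, offset `w` and step `H` lies in
the open body. -/
def LineAdm (ε H s0 s1 s2 x y z w : ℝ) : Prop :=
  ∀ k : ℤ, ¬Lt ε 1 (x + s0 * (w + k * H)) (y + s1 * (w + k * H)) (z + s2 * (w + k * H)) (w + k * H)

/-- The seven neighbouring columns avoid the open body. -/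
def ColAdm (ε H s0 s1 s2 a0 a1 a2 wa b0 b1 b2 wb c0 c1 c2 wc : ℝ) : Prop :=
  LineAdm ε H s0 s1 s2 a0 a1 a2 wa ∧ LineAdm ε H s0 s1 s2 b0 b1 b2 wb ∧
    LineAdm ε H s0 s1 s2 c0 c1 c2 wc ∧
    LineAdm ε H s0 s1 s2 (-(a0 + b0 + c0)) (-(a1 + b1 + c1)) (-(a2 + b2 + c2)) (-(wa + wb + wc)) ∧
    LineAdm ε H s0 s1 s2 (a0 + b0) (a1 + b1) (a2 + b2) (wa + wb) ∧
    LineAdm ε H s0 s1 s2 (a0 + c0) (a1 + c1) (a2 + c2) (wa + wc) ∧
    LineAdm ε H s0 s1 s2 (-(b0 + c0)) (-(b1 + c1)) (-(b2 + c2)) (-(wb + wc))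

/-- The seven facet inequalities along the neighbouring columns. -/
def ColIneq (ε H s0 s1 s2 a0 a1 a2 wa b0 b1 b2 wb c0 c1 c2 wc : ℝ) : Prop :=
  (∀ k : ℤ, |wa + k * H| < 4 →
    3 - 2 * ε ≤ a0 + a1 + a2 + (s0 + s1 + s2) * (wa + k * H) + ε * |wa + k * H|) ∧
  (∀ k : ℤ, |wb + k * H| < 4 →
    3 - 2 * ε ≤ b0 - b1 - b2 + (s0 - s1 - s2) * (wb + k * H) + ε * |wb + k * H|) ∧
  (∀ k : ℤ, |wc + k * H| < 4 →
    3 - 4 * ε ≤ -c0 + c1 - c2 + (-s0 + s1 - s2) * (wc + k * H) + ε * (wc + k * H)) ∧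
  (∀ k : ℤ, |-(wa + wb + wc) + k * H| < 4 →
    3 - 4 * ε ≤ (a0 + b0 + c0) + (a1 + b1 + c1) - (a2 + b2 + c2) +
      (-s0 - s1 + s2) * (-(wa + wb + wc) + k * H) - ε * (-(wa + wb + wc) + k * H)) ∧
  (∀ k : ℤ, |wa + wb + k * H| < 4 → 2 ≤ a0 + b0 + s0 * (wa + wb + k * H) + ε * |wa + wb + k * H|) ∧
  (∀ k : ℤ, |wa + wc + k * H| < 4 → 2 ≤ a1 + c1 + s1 * (wa + wc + k * H) + ε * |wa + wc + k * H|) ∧
  (∀ k : ℤ, |-(wb + wc) + k * H| < 4 →
    2 ≤ -(b2 + c2) + s2 * (-(wb + wc) + k * H) + ε * |-(wb + wc) + k * H|)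

variable {κ δ ε H s0 s1 s2 a0 a1 a2 wa b0 b1 b2 wb c0 c1 c2 wc : ℝ}

lemma sh {s W δ : ℝ} (hs : |s| ≤ δ) (hW : |W| < 4) : -(4 * δ) ≤ s * W ∧ s * W ≤ 4 * δ := by
  have := prod2 hs hW.le
  constructor <;> linarith [this.1, this.2]

lemma colIneq_of_adm (hδ : δ ≤ 1 / 100) (hε0 : 0 ≤ ε) (hε : ε ≤ δ) (h0 : |s0| ≤ δ)
    (h1 : |s1| ≤ δ) (h2 : |s2| ≤ δ) (hn : Near δ a0 a1 a2 b0 b1 b2 c0 c1 c2)
    (h : ColAdm ε H s0 s1 s2 a0 a1 a2 wa b0 b1 b2 wb c0 c1 c2 wc) :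
    ColIneq ε H s0 s1 s2 a0 a1 a2 wa b0 b1 b2 wb c0 c1 c2 wc := by
  obtain ⟨n1, n2, n3, n4, n5, n6, n7, n8, n9⟩ := hn
  rw [abs_le] at n1 n2 n3 n4 n5 n6 n7 n8 n9
  obtain ⟨ha, hb, hc, hd, he0, he1, he2⟩ := h
  have hε1 : ε ≤ 1 / 100 := by linarith
  refine ⟨fun k hk => ?_, fun k hk => ?_, fun k hk => ?_, fun k hk => ?_, fun k hk => ?_,
    fun k hk => ?_, fun k hk => ?_⟩ <;>
  obtain ⟨p0, q0⟩ := sh h0 hk <;> obtain ⟨p1, q1⟩ := sh h1 hk <;> obtain ⟨p2, q2⟩ := sh h2 hk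
  · have := near_a hε0 hε1 hk (by rw [abs_le]; constructor <;> linarith)
      (by rw [abs_le]; constructor <;> linarith) (by rw [abs_le]; constructor <;> linarith) (ha k)
    linarith
  · have := near_b hε0 hε1 hk (by rw [abs_le]; constructor <;> linarith)
      (by rw [abs_le]; constructor <;> linarith) (by rw [abs_le]; constructor <;> linarith) (hb k)
    linarith
  · have := near_c hε0 hε1 hk (by rw [abs_le]; constructor <;> linarith)
      (by rw [abs_le]; constructor <;> linarith) (by rw [abs_le]; constructor <;> linarith) (hc k)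
    linarith
  · have := near_d hε0 hε1 hk (by rw [abs_le]; constructor <;> linarith)
      (by rw [abs_le]; constructor <;> linarith) (by rw [abs_le]; constructor <;> linarith) (hd k)
    linarith
  · exact near_e0 hε0 hε1 hk (by rw [abs_le]; constructor <;> linarith)
      (by rw [abs_le]; constructor <;> linarith) (by rw [abs_le]; constructor <;> linarith) (he0 k)
  · exact near_e1 hε0 hε1 hk (by rw [abs_le]; constructor <;> linarith)
      (by rw [abs_le]; constructor <;> linarith) (by rw [abs_le]; constructor <;> linarith) (he1 k)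
  · exact near_e2 hε0 hε1 hk (by rw [abs_le]; constructor <;> linarith)
      (by rw [abs_le]; constructor <;> linarith) (by rw [abs_le]; constructor <;> linarith) (he2 k)

/-- The quantity `θ (1 - θ)` for the fractional part `θ` of `x`. -/
noncomputable def qq (x : ℝ) : ℝ := Int.fract x * (1 - Int.fract x)

lemma qq_le (x : ℝ) : qq x ≤ 1 / 4 := by
  unfold qq; nlinarith [sq_nonneg (Int.fract x - 1 / 2)]

lemma line_q {p b c w : ℝ} (hε0 : 0 ≤ ε) (hε : ε ≤ δ) (hH : 4 ≤ H) (hH5 : H ≤ 5)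
    (hb : |b| ≤ 3 * δ)
    (h : ∀ k : ℤ, |w + k * H| < 4 → c ≤ p + b * (w + k * H) + ε * |w + k * H|) :
    c - 8 * (ε * qq (w / H)) - 5 * (δ * (H - 4)) ≤ p := by
  have h1 := line hε0 hH hH5 h
  have h2 : (|b| + ε) * (H - 4) ≤ 4 * δ * (H - 4) :=
    mul_le_mul_of_nonneg_right (by linarith) (by linarith)
  have h3 : ε * qq (w / H) ≤ δ * (1 / 4) := by
    have := mul_le_mul_of_nonneg_left (qq_le (w / H)) hε0
    linarith
  have h4 : ε * qq (w / H) * (H - 4) ≤ δ * (1 / 4) * (H - 4) :=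
    mul_le_mul_of_nonneg_right h3 (by linarith)
  have h5 : 0 ≤ δ * (H - 4) := mul_nonneg (by linarith) (by linarith)
  unfold qq at *
  nlinarith

lemma Near.mono {δ' : ℝ} (h : δ ≤ δ') (hn : Near δ a0 a1 a2 b0 b1 b2 c0 c1 c2) :
    Near δ' a0 a1 a2 b0 b1 b2 c0 c1 c2 := by
  obtain ⟨n1, n2, n3, n4, n5, n6, n7, n8, n9⟩ := hn
  exact ⟨n1.trans h, n2.trans h, n3.trans h, n4.trans h, n5.trans h, n6.trans h, n7.trans h,
    n8.trans h, n9.trans h⟩

lemma col_fin (hκ : κ ≤ 1) (hδ : δ ≤ κ / 2000) (hε0 : 0 < ε) (hε : ε ≤ δ) (hH : 4 ≤ H)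
    (hH' : H ≤ 4 + δ) (h0 : |s0| ≤ δ) (h1 : |s1| ≤ δ) (h2 : |s2| ≤ δ)
    (hn : Near δ a0 a1 a2 b0 b1 b2 c0 c1 c2)
    (h : ColIneq ε H s0 s1 s2 a0 a1 a2 wa b0 b1 b2 wb c0 c1 c2 wc)
    (hτ : qq ((wa + wb) / H) + qq ((wa + wc) / H) + qq (-(wb + wc) / H) ≤ 3 / 4 - κ / 4 ∨
      6 - 2 * ((3 - κ) * ε) ≤ (a0 + b0) + (a1 + c1) - (b2 + c2)) :
    16 * (1 - ε) ^ 3 + ε ^ 2 ≤ H * det3 a0 a1 a2 b0 b1 b2 c0 c1 c2 := by
  obtain ⟨ha, hb, hc, hd, he0, he1, he2⟩ := h
  have hδ0 : 0 < δ := by linarith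
  have hH5 : H ≤ 5 := by linarith
  have g0 := abs_le.1 h0
  have g1 := abs_le.1 h1
  have g2 := abs_le.1 h2
  have la := line_q hε0.le hε hH hH5 (by rw [abs_le]; constructor <;> linarith) ha
  have lb := line_q hε0.le hε hH hH5 (by rw [abs_le]; constructor <;> linarith) hb
  have lc := line_q (p := -c0 + c1 - c2) (b := -s0 + s1 - s2) (c := 3 - 4 * ε) (w := wc)
    hε0.le hε hH hH5 (by rw [abs_le]; constructor <;> linarith) fun k hk => by
      have := hc k hk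
      have := mul_le_mul_of_nonneg_left (le_abs_self (wc + k * H)) hε0.le
      linarith
  have ld := line_q (p := (a0 + b0 + c0) + (a1 + b1 + c1) - (a2 + b2 + c2)) (b := -s0 - s1 + s2)
    (c := 3 - 4 * ε) (w := -(wa + wb + wc))
    hε0.le hε hH hH5 (by rw [abs_le]; constructor <;> linarith) fun k hk => by
      have := hd k hk
      have := mul_le_mul_of_nonneg_left (neg_abs_le (-(wa + wb + wc) + k * H)) hε0.le
      linarith
  have l0 := line_q hε0.le hε hH hH5 (by linarith) he0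
  have l1 := line_q hε0.le hε hH hH5 (by linarith) he1
  have l2 := line_q hε0.le hε hH hH5 (by linarith) he2
  have q : ∀ x, ε * qq x ≤ ε / 4 := fun x => by
    have := mul_le_mul_of_nonneg_left (qq_le x) hε0.le
    linarith
  have hm : 0 ≤ δ * (H - 4) := mul_nonneg hδ0.le (by linarith)
  have hfin := final (κ := κ) (δ := 10 * δ) (ε := ε) (m := H - 4) hκ (by linarith) hε0
    (by linarith) (by linarith) (by linarith) (hn.mono (by linarith))
    (by linarith [q ((wa + wb) / H)]) (by linarith [q ((wa + wc) / H)])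
    (by linarith [q (-(wb + wc) / H)]) (by linarith [q (wa / H)]) (by linarith [q (wb / H)])
    (by linarith [q (wc / H)]) (by linarith [q (-(wa + wb + wc) / H)]) ?_
  · rwa [add_sub_cancel] at hfin
  · rcases hτ with hτ | hτ
    · have := mul_le_mul_of_nonneg_left hτ hε0.le
      linarith
    · linarith

lemma abs_err {W c e : ℝ} (hε0 : 0 ≤ ε) (h : |W - c| ≤ e) : ε * |W| ≤ ε * |c| + e * ε := by
  have h1 : |W| ≤ |c| + e := by
    have := abs_sub_abs_le_abs_sub W c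
    linarith
  nlinarith

lemma lt4 {W c e : ℝ} (h : |W - c| ≤ e) (hc : |c| ≤ 3) (he : e ≤ 1 / 2) : |W| < 4 := by
  have := abs_sub_abs_le_abs_sub W c
  linarith

lemma two_sided {p s W : ℝ} (hδ : δ ≤ 1 / 100) (hε0 : 0 ≤ ε) (hH : 4 ≤ H) (hH' : H ≤ 4 + δ)
    (hW : |W - 2| ≤ 2 * δ ∨ |W + 2| ≤ 2 * δ)
    (h : ∀ k : ℤ, |W + k * H| < 4 → 2 ≤ p + s * (W + k * H) + ε * |W + k * H|) :
    2 * |s| ≤ p - 2 + 2 * ε + 3 * (δ * |s|) + 3 * (δ * ε) := by
  have key : ∀ k k' : ℤ, |W + k * H - 2| ≤ 3 * δ → |W + k' * H - (-2)| ≤ 3 * δ →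
      2 * |s| ≤ p - 2 + 2 * ε + 3 * (δ * |s|) + 3 * (δ * ε) := by
    intro k k' e1 e2
    have u1 := h k (lt4 e1 (by norm_num) (by linarith))
    have u2 := h k' (lt4 e2 (by norm_num) (by linarith))
    have v1 := prod_err (b := s) e1
    have v2 := prod_err (b := s) e2
    have w1 := abs_err hε0 e1
    have w2 := abs_err hε0 e2
    norm_num at w1 w2
    cases abs_cases s <;> linarith
  rcases hW with hW | hW <;> rw [abs_le] at hW
  · refine key 0 (-1) ?_ ?_ <;> rw [abs_le] <;> push_cast <;> constructor <;> linarith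
  · refine key 1 0 ?_ ?_ <;> rw [abs_le] <;> push_cast <;> constructor <;> linarith

lemma col_special {σ : ℝ} (hσ : σ = 1 ∨ σ = -1) (hδ : δ ≤ 1 / 16000) (hε0 : 0 < ε) (hε : ε ≤ δ)
    (hH : 4 ≤ H) (hH' : H ≤ 4 + δ) (ta : |wa - σ| ≤ δ) (tb : |wb - σ| ≤ δ) (tc : |wc - σ| ≤ δ)
    (h : ColIneq ε H s0 s1 s2 a0 a1 a2 wa b0 b1 b2 wb c0 c1 c2 wc) :
    6 - 2 * ((3 - 1 / 8) * ε) ≤ (a0 + b0) + (a1 + c1) - (b2 + c2) := by
  obtain ⟨ha, hb, hc, hd, he0, he1, he2⟩ := h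
  have hδ0 : 0 < δ := by linarith
  have hδ1 : δ ≤ 1 / 100 := by linarith
  have n0 := abs_nonneg s0
  have n1 := abs_nonneg s1
  have n2 := abs_nonneg s2
  have m0 : δ * |s0| ≤ 1 / 16000 * |s0| := mul_le_mul_of_nonneg_right hδ n0
  have m1 : δ * |s1| ≤ 1 / 16000 * |s1| := mul_le_mul_of_nonneg_right hδ n1
  have m2 : δ * |s2| ≤ 1 / 16000 * |s2| := mul_le_mul_of_nonneg_right hδ n2
  have m3 : δ * ε ≤ 1 / 16000 * ε := mul_le_mul_of_nonneg_right hδ hε0.le
  have l0 := le_abs_self s0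
  have l1 := le_abs_self s1
  have l2 := le_abs_self s2
  have r0 := neg_abs_le s0
  have r1 := neg_abs_le s1
  have r2 := neg_abs_le s2
  have bd : ∀ t : ℝ, |t| ≤ |s0| + |s1| + |s2| → 4 * δ * |t| ≤ 1 / 4000 * (|s0| + |s1| + |s2|) :=
    fun t ht => mul_le_mul (by linarith) ht (abs_nonneg _) (by norm_num)
  have ba := bd (s0 + s1 + s2) (by rw [abs_le]; constructor <;> linarith)
  have bb := bd (s0 - s1 - s2) (by rw [abs_le]; constructor <;> linarith)
  have bc := bd (-s0 + s1 - s2) (by rw [abs_le]; constructor <;> linarith)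
  have be := bd (-s0 - s1 + s2) (by rw [abs_le]; constructor <;> linarith)
  have ta' := abs_le.1 ta
  have tb' := abs_le.1 tb
  have tc' := abs_le.1 tc
  rcases hσ with rfl | rfl
  · have u0 := two_sided hδ1 hε0.le hH hH' (Or.inl (by rw [abs_le]; constructor <;> linarith)) he0
    have u1 := two_sided hδ1 hε0.le hH hH' (Or.inl (by rw [abs_le]; constructor <;> linarith)) he1
    have u2 := two_sided hδ1 hε0.le hH hH' (Or.inr (by rw [abs_le]; constructor <;> linarith)) he2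
    have ea : |wa + ((0 : ℤ) : ℝ) * H - 1| ≤ 4 * δ := by
      rw [abs_le]; push_cast; constructor <;> linarith
    have eb : |wb + ((0 : ℤ) : ℝ) * H - 1| ≤ 4 * δ := by
      rw [abs_le]; push_cast; constructor <;> linarith
    have ec : |wc + ((-1 : ℤ) : ℝ) * H - (-3)| ≤ 4 * δ := by
      rw [abs_le]; push_cast; constructor <;> linarith
    have ed : |-(wa + wb + wc) + ((1 : ℤ) : ℝ) * H - 1| ≤ 4 * δ := by
      rw [abs_le]; push_cast; constructor <;> linarith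
    have va := ha 0 (lt4 ea (by norm_num) (by linarith))
    have vb := hb 0 (lt4 eb (by norm_num) (by linarith))
    have vc := hc (-1) (lt4 ec (by norm_num) (by linarith))
    have vd := hd 1 (lt4 ed (by norm_num) (by linarith))
    have pa := prod_err (b := s0 + s1 + s2) ea
    have pb := prod_err (b := s0 - s1 - s2) eb
    have pc := prod_err (b := -s0 + s1 - s2) ec
    have pd := prod_err (b := -s0 - s1 + s2) ed
    have xa := abs_err hε0.le ea
    have xb := abs_err hε0.le eb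
    have xc := prod_err (b := ε) ec
    have xd := prod_err (b := -ε) ed
    rw [abs_one] at xa xb
    rw [abs_of_pos hε0] at xc
    rw [abs_neg, abs_of_pos hε0] at xd
    linarith
  · have u0 := two_sided hδ1 hε0.le hH hH' (Or.inr (by rw [abs_le]; constructor <;> linarith)) he0
    have u1 := two_sided hδ1 hε0.le hH hH' (Or.inr (by rw [abs_le]; constructor <;> linarith)) he1
    have u2 := two_sided hδ1 hε0.le hH hH' (Or.inl (by rw [abs_le]; constructor <;> linarith)) he2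
    have ea : |wa + ((0 : ℤ) : ℝ) * H - (-1)| ≤ 4 * δ := by
      rw [abs_le]; push_cast; constructor <;> linarith
    have eb : |wb + ((0 : ℤ) : ℝ) * H - (-1)| ≤ 4 * δ := by
      rw [abs_le]; push_cast; constructor <;> linarith
    have ec : |wc + ((0 : ℤ) : ℝ) * H - (-1)| ≤ 4 * δ := by
      rw [abs_le]; push_cast; constructor <;> linarith
    have ed : |-(wa + wb + wc) + ((0 : ℤ) : ℝ) * H - 3| ≤ 4 * δ := by
      rw [abs_le]; push_cast; constructor <;> linarith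
    have va := ha 0 (lt4 ea (by norm_num) (by linarith))
    have vb := hb 0 (lt4 eb (by norm_num) (by linarith))
    have vc := hc 0 (lt4 ec (by norm_num) (by linarith))
    have vd := hd 0 (lt4 ed (by norm_num) (by linarith))
    have pa := prod_err (b := s0 + s1 + s2) ea
    have pb := prod_err (b := s0 - s1 - s2) eb
    have pc := prod_err (b := -s0 + s1 - s2) ec
    have pd := prod_err (b := -s0 - s1 + s2) ed
    have xa := abs_err hε0.le ea
    have xb := abs_err hε0.le eb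
    have xc := prod_err (b := ε) ec
    have xd := prod_err (b := -ε) ed
    rw [abs_neg, abs_one] at xa xb
    rw [abs_of_pos hε0] at xc
    rw [abs_neg, abs_of_pos hε0] at xd
    linarith

/-- Layer case: the three-dimensional determinant. -/
lemma layer_det (hδ : δ ≤ 1 / 2000) (hε0 : 0 < ε) (hε : ε ≤ δ)
    (hn : Near δ a0 a1 a2 b0 b1 b2 c0 c1 c2) (ta : |wa| ≤ δ) (tb : |wb| ≤ δ) (tc : |wc| ≤ δ)
    (ha : ¬Lt ε 1 a0 a1 a2 wa) (hb : ¬Lt ε 1 b0 b1 b2 wb) (hc : ¬Lt ε 1 c0 c1 c2 wc)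
    (hd : ¬Lt ε 1 (-(a0 + b0 + c0)) (-(a1 + b1 + c1)) (-(a2 + b2 + c2)) (-(wa + wb + wc)))
    (h0 : ¬Lt ε 1 (a0 + b0) (a1 + b1) (a2 + b2) (wa + wb))
    (h1 : ¬Lt ε 1 (a0 + c0) (a1 + c1) (a2 + c2) (wa + wc))
    (h2 : ¬Lt ε 1 (-(b0 + c0)) (-(b1 + c1)) (-(b2 + c2)) (-(wb + wc))) :
    16 * (1 - ε) ^ 3 + ε ^ 2 ≤ 4 * det3 a0 a1 a2 b0 b1 b2 c0 c1 c2 := by
  have hn' := hn
  obtain ⟨n1, n2, n3, n4, n5, n6, n7, n8, n9⟩ := hn'
  rw [abs_le] at n1 n2 n3 n4 n5 n6 n7 n8 n9 ta tb tc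
  have hε1 : ε ≤ 1 / 100 := by linarith
  have sm : ∀ W : ℝ, -(1 / 2) ≤ W → W ≤ 1 / 2 →
      |W| < 4 ∧ ε * |W| ≤ ε / 2 ∧ ε * W ≤ ε / 2 ∧ -(ε / 2) ≤ ε * W := by
    intro W a b
    have h : |W| ≤ 1 / 2 := abs_le.2 ⟨a, b⟩
    refine ⟨by linarith, by nlinarith, by nlinarith, by nlinarith⟩
  obtain ⟨p1, p2, -, -⟩ := sm wa (by linarith) (by linarith)
  obtain ⟨p3, p4, -, -⟩ := sm wb (by linarith) (by linarith)
  obtain ⟨p5, -, p6, -⟩ := sm wc (by linarith) (by linarith)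
  obtain ⟨p7, -, -, p8⟩ := sm (-(wa + wb + wc)) (by linarith) (by linarith)
  obtain ⟨p9, p10, -, -⟩ := sm (wa + wb) (by linarith) (by linarith)
  obtain ⟨p11, p12, -, -⟩ := sm (wa + wc) (by linarith) (by linarith)
  obtain ⟨p13, p14, -, -⟩ := sm (-(wb + wc)) (by linarith) (by linarith)
  have la := near_a hε0.le hε1 p1 (by rw [abs_le]; constructor <;> linarith)
    (by rw [abs_le]; constructor <;> linarith) (by rw [abs_le]; constructor <;> linarith) ha
  have lb := near_b hε0.le hε1 p3 (by rw [abs_le]; constructor <;> linarith)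
    (by rw [abs_le]; constructor <;> linarith) (by rw [abs_le]; constructor <;> linarith) hb
  have lc := near_c hε0.le hε1 p5 (by rw [abs_le]; constructor <;> linarith)
    (by rw [abs_le]; constructor <;> linarith) (by rw [abs_le]; constructor <;> linarith) hc
  have ld := near_d hε0.le hε1 p7 (by rw [abs_le]; constructor <;> linarith)
    (by rw [abs_le]; constructor <;> linarith) (by rw [abs_le]; constructor <;> linarith) hd
  have l0 := near_e0 hε0.le hε1 p9 (by rw [abs_le]; constructor <;> linarith)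
    (by rw [abs_le]; constructor <;> linarith) (by rw [abs_le]; constructor <;> linarith) h0
  have l1 := near_e1 hε0.le hε1 p11 (by rw [abs_le]; constructor <;> linarith)
    (by rw [abs_le]; constructor <;> linarith) (by rw [abs_le]; constructor <;> linarith) h1
  have l2 := near_e2 hε0.le hε1 p13 (by rw [abs_le]; constructor <;> linarith)
    (by rw [abs_le]; constructor <;> linarith) (by rw [abs_le]; constructor <;> linarith) h2
  have hfin := final (κ := 1) (δ := δ) (ε := ε) (m := 0) le_rfl (by linarith) hε0 hε le_rfl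
    (by linarith) hn (by linarith) (by linarith) (by linarith) (by linarith) (by linarith)
    (by linarith) (by linarith) (by linarith)
  rwa [add_zero] at hfin

/-- Layer case: reduction of a fourth vector modulo the layer. -/
lemma layer_reduce {x0 x1 x2 : ℝ} (hn : Near (1 / 10) a0 a1 a2 b0 b1 b2 c0 c1 c2)
    (hd : det3 a0 a1 a2 b0 b1 b2 c0 c1 c2 ≠ 0) (g0 : |x0| ≤ 2) (g1 : |x1| ≤ 2) (g2 : |x2| ≤ 2) :
    ∃ (i j l : ℤ) (α β γ : ℝ), |(i : ℝ)| ≤ 10 ∧ |(j : ℝ)| ≤ 10 ∧ |(l : ℝ)| ≤ 10 ∧ Spread α β γ ∧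
      x0 - i * a0 - j * b0 - l * c0 = α * a0 + β * b0 + γ * c0 ∧
      x1 - i * a1 - j * b1 - l * c1 = α * a1 + β * b1 + γ * c1 ∧
      x2 - i * a2 - j * b2 - l * c2 = α * a2 + β * b2 + γ * c2 ∧
      α * wa + β * wb + γ * wc ≤ 0 := by
  obtain ⟨f0, f1, f2, e0, e1, e2⟩ : ∃ f0 f1 f2 : ℝ, x0 = f0 * a0 + f1 * b0 + f2 * c0 ∧
      x1 = f0 * a1 + f1 * b1 + f2 * c1 ∧ x2 = f0 * a2 + f1 * b2 + f2 * c2 := by
    refine ⟨det3 x0 x1 x2 b0 b1 b2 c0 c1 c2 / det3 a0 a1 a2 b0 b1 b2 c0 c1 c2,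
      det3 a0 a1 a2 x0 x1 x2 c0 c1 c2 / det3 a0 a1 a2 b0 b1 b2 c0 c1 c2,
      det3 a0 a1 a2 b0 b1 b2 x0 x1 x2 / det3 a0 a1 a2 b0 b1 b2 c0 c1 c2, ?_, ?_, ?_⟩ <;>
    · field_simp
      simp only [det3]; ring
  obtain ⟨n1, n2, n3, n4, n5, n6, n7, n8, n9⟩ := hn
  rw [abs_le] at n1 n2 n3 n4 n5 n6 n7 n8 n9 g0 g1 g2
  have pe : ∀ f W c : ℝ, |W - c| ≤ 1 / 5 →
      f * W ≤ f * c + 1 / 5 * |f| ∧ f * c - 1 / 5 * |f| ≤ f * W := fun f W c h => by
    have h1 := prod_err (b := f) h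
    have h2 := prod_err (b := -f) h
    rw [abs_neg] at h2
    constructor <;> linarith
  have s1 := pe f0 (a0 + a1) 2 (by rw [abs_le]; constructor <;> linarith)
  have s2 := pe f1 (b0 + b1) 0 (by rw [abs_le]; constructor <;> linarith)
  have s3 := pe f2 (c0 + c1) 0 (by rw [abs_le]; constructor <;> linarith)
  have s4 := pe f0 (a0 - a2) 0 (by rw [abs_le]; constructor <;> linarith)
  have s5 := pe f1 (b0 - b2) 2 (by rw [abs_le]; constructor <;> linarith)
  have s6 := pe f2 (c0 - c2) 0 (by rw [abs_le]; constructor <;> linarith)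
  have s7 := pe f0 (a1 - a2) 0 (by rw [abs_le]; constructor <;> linarith)
  have s8 := pe f1 (b1 - b2) 0 (by rw [abs_le]; constructor <;> linarith)
  have s9 := pe f2 (c1 - c2) 2 (by rw [abs_le]; constructor <;> linarith)
  have k0 : 2 * |f0| ≤ 4 + 1 / 5 * (|f0| + |f1| + |f2|) := by
    cases abs_cases f0 <;> linarith [s1.1, s1.2, s2.1, s2.2, s3.1, s3.2]
  have k1 : 2 * |f1| ≤ 4 + 1 / 5 * (|f0| + |f1| + |f2|) := by
    cases abs_cases f1 <;> linarith [s4.1, s4.2, s5.1, s5.2, s6.1, s6.2]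
  have k2 : 2 * |f2| ≤ 4 + 1 / 5 * (|f0| + |f1| + |f2|) := by
    cases abs_cases f2 <;> linarith [s7.1, s7.2, s8.1, s8.2, s9.1, s9.2]
  have z0 := abs_nonneg f0
  have z1 := abs_nonneg f1
  have z2 := abs_nonneg f2
  obtain ⟨i, j, l, hs, hw⟩ := kuhn f0 f1 f2 wa wb wc
  have hs' := hs
  obtain ⟨u1, u2, u3, u4, u5, u6, -⟩ := hs'
  refine ⟨i, j, l, f0 - i, f1 - j, f2 - l, ?_, ?_, ?_, hs, by rw [e0]; ring, by rw [e1]; ring,
    by rw [e2]; ring, hw⟩
  · rw [abs_le]; constructor <;> linarith [le_abs_self f0, neg_abs_le f0]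
  · rw [abs_le]; constructor <;> linarith [le_abs_self f1, neg_abs_le f1]
  · rw [abs_le]; constructor <;> linarith [le_abs_self f2, neg_abs_le f2]

end Pool.Agent.P.MP_c4753b_co
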