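import Mathlib

/-!
The polytope `D`, given by nine pairs of parallel facets.
-/

namespace Pool.Agent.P.MP_c4753b_co.Three

/-- Euclidean three-space. -/
abbrev E3 := EuclideanSpace ℝ (Fin 3)

/-- Coordinates of the facet normals. -/
def nn (j k : ℕ) : ℤ :=
  (([[4, 4, 30], [14, 25, 1], [25, 14, 1],
    [18, 18, 28], [16, 16, -16], [-15, 23, -26],
    [23, -15, -26], [-12, 16, 22], [16, -12, 22],
    [-4, -4, -30], [-14, -25, -1], [-25, -14, -1],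
    [-18, -18, -28], [-16, -16, 16], [15, -23, 26],
    [-23, 15, 26], [12, -16, -22], [-16, 12, -22]] :
    List (List ℤ)).getD j []).getD k 0

/-- Right hand sides of the facet inequalities. -/
def hh (j : ℕ) : ℕ := ([5400, 4500, 4500, 5516, 4144, 5782, 5782, 4546, 4546] : List ℕ).getD (j % 9) 0

/-- The facet functionals. -/
def ell (j : ℕ) : E3 →ₗ[ℝ] ℝ where
  toFun x := nn j 0 * x 0 + nn j 1 * x 1 + nn j 2 * x 2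
  map_add' x y := by simp only [PiLp.add_apply]; ring
  map_smul' c x := by simp only [PiLp.smul_apply, smul_eq_mul, RingHom.id_apply]; ring

lemma ell_apply (j : ℕ) (x : E3) : ell j x = nn j 0 * x 0 + nn j 1 * x 1 + nn j 2 * x 2 := rfl

/-- The closed polytope. -/
def InD (x : E3) : Prop := ∀ j < 18, ell j x ≤ hh j

/-- The complement of the open polytope. -/
def Out (x : E3) : Prop := ∃ j < 18, (hh j : ℝ) ≤ ell j x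

lemma ell_opp {j : ℕ} (hj : j < 18) (x : E3) : ell ((j + 9) % 18) x = -ell j x := by
  have h : ∀ j < 18, ∀ k < 3, nn ((j + 9) % 18) k = -nn j k := by decide
  simp only [ell_apply, h j hj 0 (by norm_num), h j hj 1 (by norm_num), h j hj 2 (by norm_num)]
  push_cast
  ring

lemma hh_opp (j : ℕ) : hh ((j + 9) % 18) = hh j := by
  unfold hh
  rw [show (j + 9) % 18 % 9 = j % 9 by omega]

lemma InD.ge {x : E3} (h : InD x) {j : ℕ} (hj : j < 18) : -(hh j : ℝ) ≤ ell j x := by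
  have := h ((j + 9) % 18) (Nat.mod_lt _ (by norm_num))
  rw [ell_opp hj, hh_opp] at this
  linarith

lemma InD.neg {x : E3} (h : InD x) : InD (-x) := fun j hj => by
  rw [map_neg]
  linarith [h.ge hj]

lemma Out.neg {x : E3} (h : Out x) : Out (-x) := by
  obtain ⟨j, hj, h⟩ := h
  refine ⟨(j + 9) % 18, Nat.mod_lt _ (by norm_num), ?_⟩
  rwa [ell_opp hj, hh_opp, map_neg, neg_neg]

lemma hh_ge {j : ℕ} : (4144 : ℝ) ≤ hh j := by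
  have h : ∀ i < 9, 4144 ≤ hh i := by decide
  have := h (j % 9) (Nat.mod_lt _ (by norm_num))
  unfold hh at this ⊢
  rw [Nat.mod_mod] at this
  exact_mod_cast this

lemma ell0 (x : E3) : ell 0 x = 4 * x 0 + 4 * x 1 + 30 * x 2 := by
  change ((4 : ℤ) : ℝ) * x 0 + ((4 : ℤ) : ℝ) * x 1 + ((30 : ℤ) : ℝ) * x 2 = _
  norm_num

lemma hh0 : (hh 0 : ℝ) = 5400 := by
  change ((5400 : ℕ) : ℝ) = _
  norm_num

lemma ell1 (x : E3) : ell 1 x = 14 * x 0 + 25 * x 1 + 1 * x 2 := by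
  change ((14 : ℤ) : ℝ) * x 0 + ((25 : ℤ) : ℝ) * x 1 + ((1 : ℤ) : ℝ) * x 2 = _
  norm_num

lemma hh1 : (hh 1 : ℝ) = 4500 := by
  change ((4500 : ℕ) : ℝ) = _
  norm_num

lemma ell2 (x : E3) : ell 2 x = 25 * x 0 + 14 * x 1 + 1 * x 2 := by
  change ((25 : ℤ) : ℝ) * x 0 + ((14 : ℤ) : ℝ) * x 1 + ((1 : ℤ) : ℝ) * x 2 = _
  norm_num

lemma hh2 : (hh 2 : ℝ) = 4500 := by
  change ((4500 : ℕ) : ℝ) = _
  norm_num

lemma ell3 (x : E3) : ell 3 x = 18 * x 0 + 18 * x 1 + 28 * x 2 := by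
  change ((18 : ℤ) : ℝ) * x 0 + ((18 : ℤ) : ℝ) * x 1 + ((28 : ℤ) : ℝ) * x 2 = _
  norm_num

lemma hh3 : (hh 3 : ℝ) = 5516 := by
  change ((5516 : ℕ) : ℝ) = _
  norm_num

lemma ell4 (x : E3) : ell 4 x = 16 * x 0 + 16 * x 1 + (-16) * x 2 := by
  change ((16 : ℤ) : ℝ) * x 0 + ((16 : ℤ) : ℝ) * x 1 + ((-16 : ℤ) : ℝ) * x 2 = _
  norm_num

lemma hh4 : (hh 4 : ℝ) = 4144 := by
  change ((4144 : ℕ) : ℝ) = _
  norm_num

lemma ell5 (x : E3) : ell 5 x = (-15) * x 0 + 23 * x 1 + (-26) * x 2 := by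
  change ((-15 : ℤ) : ℝ) * x 0 + ((23 : ℤ) : ℝ) * x 1 + ((-26 : ℤ) : ℝ) * x 2 = _
  norm_num

lemma hh5 : (hh 5 : ℝ) = 5782 := by
  change ((5782 : ℕ) : ℝ) = _
  norm_num

lemma ell6 (x : E3) : ell 6 x = 23 * x 0 + (-15) * x 1 + (-26) * x 2 := by
  change ((23 : ℤ) : ℝ) * x 0 + ((-15 : ℤ) : ℝ) * x 1 + ((-26 : ℤ) : ℝ) * x 2 = _
  norm_num

lemma hh6 : (hh 6 : ℝ) = 5782 := by
  change ((5782 : ℕ) : ℝ) = _
  norm_num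

lemma ell7 (x : E3) : ell 7 x = (-12) * x 0 + 16 * x 1 + 22 * x 2 := by
  change ((-12 : ℤ) : ℝ) * x 0 + ((16 : ℤ) : ℝ) * x 1 + ((22 : ℤ) : ℝ) * x 2 = _
  norm_num

lemma hh7 : (hh 7 : ℝ) = 4546 := by
  change ((4546 : ℕ) : ℝ) = _
  norm_num

lemma ell8 (x : E3) : ell 8 x = 16 * x 0 + (-12) * x 1 + 22 * x 2 := by
  change ((16 : ℤ) : ℝ) * x 0 + ((-12 : ℤ) : ℝ) * x 1 + ((22 : ℤ) : ℝ) * x 2 = _
  norm_num

lemma hh8 : (hh 8 : ℝ) = 4546 := by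
  change ((4546 : ℕ) : ℝ) = _
  norm_num

lemma ell9 (x : E3) : ell 9 x = (-4) * x 0 + (-4) * x 1 + (-30) * x 2 := by
  change ((-4 : ℤ) : ℝ) * x 0 + ((-4 : ℤ) : ℝ) * x 1 + ((-30 : ℤ) : ℝ) * x 2 = _
  norm_num

lemma hh9 : (hh 9 : ℝ) = 5400 := by
  change ((5400 : ℕ) : ℝ) = _
  norm_num

lemma ell10 (x : E3) : ell 10 x = (-14) * x 0 + (-25) * x 1 + (-1) * x 2 := by
  change ((-14 : ℤ) : ℝ) * x 0 + ((-25 : ℤ) : ℝ) * x 1 + ((-1 : ℤ) : ℝ) * x 2 = _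
  norm_num

lemma hh10 : (hh 10 : ℝ) = 4500 := by
  change ((4500 : ℕ) : ℝ) = _
  norm_num

lemma ell11 (x : E3) : ell 11 x = (-25) * x 0 + (-14) * x 1 + (-1) * x 2 := by
  change ((-25 : ℤ) : ℝ) * x 0 + ((-14 : ℤ) : ℝ) * x 1 + ((-1 : ℤ) : ℝ) * x 2 = _
  norm_num

lemma hh11 : (hh 11 : ℝ) = 4500 := by
  change ((4500 : ℕ) : ℝ) = _
  norm_num

lemma ell12 (x : E3) : ell 12 x = (-18) * x 0 + (-18) * x 1 + (-28) * x 2 := by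
  change ((-18 : ℤ) : ℝ) * x 0 + ((-18 : ℤ) : ℝ) * x 1 + ((-28 : ℤ) : ℝ) * x 2 = _
  norm_num

lemma hh12 : (hh 12 : ℝ) = 5516 := by
  change ((5516 : ℕ) : ℝ) = _
  norm_num

lemma ell13 (x : E3) : ell 13 x = (-16) * x 0 + (-16) * x 1 + 16 * x 2 := by
  change ((-16 : ℤ) : ℝ) * x 0 + ((-16 : ℤ) : ℝ) * x 1 + ((16 : ℤ) : ℝ) * x 2 = _
  norm_num

lemma hh13 : (hh 13 : ℝ) = 4144 := by
  change ((4144 : ℕ) : ℝ) = _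
  norm_num

lemma ell14 (x : E3) : ell 14 x = 15 * x 0 + (-23) * x 1 + 26 * x 2 := by
  change ((15 : ℤ) : ℝ) * x 0 + ((-23 : ℤ) : ℝ) * x 1 + ((26 : ℤ) : ℝ) * x 2 = _
  norm_num

lemma hh14 : (hh 14 : ℝ) = 5782 := by
  change ((5782 : ℕ) : ℝ) = _
  norm_num

lemma ell15 (x : E3) : ell 15 x = (-23) * x 0 + 15 * x 1 + 26 * x 2 := by
  change ((-23 : ℤ) : ℝ) * x 0 + ((15 : ℤ) : ℝ) * x 1 + ((26 : ℤ) : ℝ) * x 2 = _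
  norm_num

lemma hh15 : (hh 15 : ℝ) = 5782 := by
  change ((5782 : ℕ) : ℝ) = _
  norm_num

lemma ell16 (x : E3) : ell 16 x = 12 * x 0 + (-16) * x 1 + (-22) * x 2 := by
  change ((12 : ℤ) : ℝ) * x 0 + ((-16 : ℤ) : ℝ) * x 1 + ((-22 : ℤ) : ℝ) * x 2 = _
  norm_num

lemma hh16 : (hh 16 : ℝ) = 4546 := by
  change ((4546 : ℕ) : ℝ) = _
  norm_num

lemma ell17 (x : E3) : ell 17 x = (-16) * x 0 + 12 * x 1 + (-22) * x 2 := by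
  change ((-16 : ℤ) : ℝ) * x 0 + ((12 : ℤ) : ℝ) * x 1 + ((-22 : ℤ) : ℝ) * x 2 = _
  norm_num

lemma hh17 : (hh 17 : ℝ) = 4546 := by
  change ((4546 : ℕ) : ℝ) = _
  norm_num

lemma InD.lin {x : E3} (h : InD x) :
    4 * x 0 + 4 * x 1 + 30 * x 2 ≤ 5400 ∧
    14 * x 0 + 25 * x 1 + 1 * x 2 ≤ 4500 ∧
    25 * x 0 + 14 * x 1 + 1 * x 2 ≤ 4500 ∧
    18 * x 0 + 18 * x 1 + 28 * x 2 ≤ 5516 ∧
    16 * x 0 + 16 * x 1 + (-16) * x 2 ≤ 4144 ∧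
    (-15) * x 0 + 23 * x 1 + (-26) * x 2 ≤ 5782 ∧
    23 * x 0 + (-15) * x 1 + (-26) * x 2 ≤ 5782 ∧
    (-12) * x 0 + 16 * x 1 + 22 * x 2 ≤ 4546 ∧
    16 * x 0 + (-12) * x 1 + 22 * x 2 ≤ 4546 ∧
    (-4) * x 0 + (-4) * x 1 + (-30) * x 2 ≤ 5400 ∧
    (-14) * x 0 + (-25) * x 1 + (-1) * x 2 ≤ 4500 ∧
    (-25) * x 0 + (-14) * x 1 + (-1) * x 2 ≤ 4500 ∧
    (-18) * x 0 + (-18) * x 1 + (-28) * x 2 ≤ 5516 ∧
    (-16) * x 0 + (-16) * x 1 + 16 * x 2 ≤ 4144 ∧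
    15 * x 0 + (-23) * x 1 + 26 * x 2 ≤ 5782 ∧
    (-23) * x 0 + 15 * x 1 + 26 * x 2 ≤ 5782 ∧
    12 * x 0 + (-16) * x 1 + (-22) * x 2 ≤ 4546 ∧
    (-16) * x 0 + 12 * x 1 + (-22) * x 2 ≤ 4546 :=
  ⟨ell0 x ▸ hh0 ▸ h 0 (by norm_num),
   ell1 x ▸ hh1 ▸ h 1 (by norm_num),
   ell2 x ▸ hh2 ▸ h 2 (by norm_num),
   ell3 x ▸ hh3 ▸ h 3 (by norm_num),
   ell4 x ▸ hh4 ▸ h 4 (by norm_num),
   ell5 x ▸ hh5 ▸ h 5 (by norm_num),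
   ell6 x ▸ hh6 ▸ h 6 (by norm_num),
   ell7 x ▸ hh7 ▸ h 7 (by norm_num),
   ell8 x ▸ hh8 ▸ h 8 (by norm_num),
   ell9 x ▸ hh9 ▸ h 9 (by norm_num),
   ell10 x ▸ hh10 ▸ h 10 (by norm_num),
   ell11 x ▸ hh11 ▸ h 11 (by norm_num),
   ell12 x ▸ hh12 ▸ h 12 (by norm_num),
   ell13 x ▸ hh13 ▸ h 13 (by norm_num),
   ell14 x ▸ hh14 ▸ h 14 (by norm_num),
   ell15 x ▸ hh15 ▸ h 15 (by norm_num),
   ell16 x ▸ hh16 ▸ h 16 (by norm_num),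
   ell17 x ▸ hh17 ▸ h 17 (by norm_num)⟩

end Pool.Agent.P.MP_c4753b_co.Three
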