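import Pool.Agent.P.MP_c4753b_co.Dom

/-!
Widths of the facets of `D`.
-/

namespace Pool.Agent.P.MP_c4753b_co.Three

/-- Upper bounds for the facet functionals on the facets. -/
def wt (f i : ℕ) : ℤ :=
  (([[5400, 1069, 1069, 5516, -2274, -3593, -3593, 4546, 4546,
      -5400, 1339, 1339, -4045, 4144, 5782, 5782, -3311, -3311],
    [3181, 4500, 4500, 5516, 4144, 5782, 1627, 4546, 1564,
      1400, -4500, -1342, -1367, -1542, 396, 5128, 127, 3537],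
    [3181, 4500, 4500, 5516, 4144, 1627, 5782, 1564, 4546,
      1400, -1342, -4500, -1367, -1542, 5128, 396, 3537, 127],
    [5400, 4500, 4500, 5516, 2847, 1809, 1809, 4546, 4546,
      -2421, -583, -583, -5516, 2275, 5269, 5269, 216, 216],
    [123, 4500, 4500, 3427, 4144, 5782, 5782, 1136, 1136,
      5400, -1001, -1001, 4046, -4144, 559, 559, 4454, 4454],
    [909, 4500, 2665, 2978, 4144, 5782, 4619, 4546, -3492,
      5400, -631, 2717, 4335, 719, -5782, 5782, 3597, 4546],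
    [909, 2665, 4500, 2978, 4144, 4619, 5782, -3492, 4546,
      5400, 2717, -631, 4335, 719, 5782, -5782, 4546, 3597],
    [5400, 4500, 2630, 5516, 2223, 5782, -4653, 4546, 3467,
      -456, 566, 991, -1183, 3778, 4317, 5782, -4546, 3975],
    [5400, 2630, 4500, 5516, 2223, -4653, 5782, 3467, 4546,
      -456, 991, 566, -1183, 3778, 5782, 4317, 3975, -4546],
    [-5400, 1339, 1339, -4045, 4144, 5782, 5782, -3311, -3311,
      5400, 1069, 1069, 5516, -2274, -3593, -3593, 4546, 4546],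
    [1400, -4500, -1342, -1367, -1542, 396, 5128, 127, 3537,
      3181, 4500, 4500, 5516, 4144, 5782, 1627, 4546, 1564],
    [1400, -1342, -4500, -1367, -1542, 5128, 396, 3537, 127,
      3181, 4500, 4500, 5516, 4144, 1627, 5782, 1564, 4546],
    [-2421, -583, -583, -5516, 2275, 5269, 5269, 216, 216,
      5400, 4500, 4500, 5516, 2847, 1809, 1809, 4546, 4546],
    [5400, -1001, -1001, 4046, -4144, 559, 559, 4454, 4454,
      123, 4500, 4500, 3427, 4144, 5782, 5782, 1136, 1136],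
    [5400, -631, 2717, 4335, 719, -5782, 5782, 3597, 4546,
      909, 4500, 2665, 2978, 4144, 5782, 4619, 4546, -3492],
    [5400, 2717, -631, 4335, 719, 5782, -5782, 4546, 3597,
      909, 2665, 4500, 2978, 4144, 4619, 5782, -3492, 4546],
    [-456, 566, 991, -1183, 3778, 4317, 5782, -4546, 3975,
      5400, 4500, 2630, 5516, 2223, 5782, -4653, 4546, 3467],
    [-456, 991, 566, -1183, 3778, 5782, 4317, 3975, -4546,
      5400, 2630, 4500, 5516, 2223, -4653, 5782, 3467, 4546]] :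
    List (List ℤ)).getD f []).getD i 0

lemma wt0 {x : E3} (h : InD x) (e : (hh 0 : ℝ) ≤ ell 0 x) {i : ℕ} (hi : i < 18) :
    ell i x ≤ wt 0 i := by
  obtain ⟨h0, h1, h2, h3, h4, h5, h6, h7, h8, h9, h10, h11, h12, h13, h14, h15, h16, h17⟩ := h.lin
  rw [ell0, hh0] at e
  interval_cases i
  · rw [ell0]; change _ ≤ ((5400 : ℤ) : ℝ); push_cast; linarith
  · rw [ell1]; change _ ≤ ((1069 : ℤ) : ℝ); push_cast; linarith
  · rw [ell2]; change _ ≤ ((1069 : ℤ) : ℝ); push_cast; linarith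
  · rw [ell3]; change _ ≤ ((5516 : ℤ) : ℝ); push_cast; linarith
  · rw [ell4]; change _ ≤ ((-2274 : ℤ) : ℝ); push_cast; linarith
  · rw [ell5]; change _ ≤ ((-3593 : ℤ) : ℝ); push_cast; linarith
  · rw [ell6]; change _ ≤ ((-3593 : ℤ) : ℝ); push_cast; linarith
  · rw [ell7]; change _ ≤ ((4546 : ℤ) : ℝ); push_cast; linarith
  · rw [ell8]; change _ ≤ ((4546 : ℤ) : ℝ); push_cast; linarith
  · rw [ell9]; change _ ≤ ((-5400 : ℤ) : ℝ); push_cast; linarith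
  · rw [ell10]; change _ ≤ ((1339 : ℤ) : ℝ); push_cast; linarith
  · rw [ell11]; change _ ≤ ((1339 : ℤ) : ℝ); push_cast; linarith
  · rw [ell12]; change _ ≤ ((-4045 : ℤ) : ℝ); push_cast; linarith
  · rw [ell13]; change _ ≤ ((4144 : ℤ) : ℝ); push_cast; linarith
  · rw [ell14]; change _ ≤ ((5782 : ℤ) : ℝ); push_cast; linarith
  · rw [ell15]; change _ ≤ ((5782 : ℤ) : ℝ); push_cast; linarith
  · rw [ell16]; change _ ≤ ((-3311 : ℤ) : ℝ); push_cast; linarith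
  · rw [ell17]; change _ ≤ ((-3311 : ℤ) : ℝ); push_cast; linarith

lemma wt1 {x : E3} (h : InD x) (e : (hh 1 : ℝ) ≤ ell 1 x) {i : ℕ} (hi : i < 18) :
    ell i x ≤ wt 1 i := by
  obtain ⟨h0, h1, h2, h3, h4, h5, h6, h7, h8, h9, h10, h11, h12, h13, h14, h15, h16, h17⟩ := h.lin
  rw [ell1, hh1] at e
  interval_cases i
  · rw [ell0]; change _ ≤ ((3181 : ℤ) : ℝ); push_cast; linarith
  · rw [ell1]; change _ ≤ ((4500 : ℤ) : ℝ); push_cast; linarith
  · rw [ell2]; change _ ≤ ((4500 : ℤ) : ℝ); push_cast; linarith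
  · rw [ell3]; change _ ≤ ((5516 : ℤ) : ℝ); push_cast; linarith
  · rw [ell4]; change _ ≤ ((4144 : ℤ) : ℝ); push_cast; linarith
  · rw [ell5]; change _ ≤ ((5782 : ℤ) : ℝ); push_cast; linarith
  · rw [ell6]; change _ ≤ ((1627 : ℤ) : ℝ); push_cast; linarith
  · rw [ell7]; change _ ≤ ((4546 : ℤ) : ℝ); push_cast; linarith
  · rw [ell8]; change _ ≤ ((1564 : ℤ) : ℝ); push_cast; linarith
  · rw [ell9]; change _ ≤ ((1400 : ℤ) : ℝ); push_cast; linarith
  · rw [ell10]; change _ ≤ ((-4500 : ℤ) : ℝ); push_cast; linarith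
  · rw [ell11]; change _ ≤ ((-1342 : ℤ) : ℝ); push_cast; linarith
  · rw [ell12]; change _ ≤ ((-1367 : ℤ) : ℝ); push_cast; linarith
  · rw [ell13]; change _ ≤ ((-1542 : ℤ) : ℝ); push_cast; linarith
  · rw [ell14]; change _ ≤ ((396 : ℤ) : ℝ); push_cast; linarith
  · rw [ell15]; change _ ≤ ((5128 : ℤ) : ℝ); push_cast; linarith
  · rw [ell16]; change _ ≤ ((127 : ℤ) : ℝ); push_cast; linarith
  · rw [ell17]; change _ ≤ ((3537 : ℤ) : ℝ); push_cast; linarith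

lemma wt2 {x : E3} (h : InD x) (e : (hh 2 : ℝ) ≤ ell 2 x) {i : ℕ} (hi : i < 18) :
    ell i x ≤ wt 2 i := by
  obtain ⟨h0, h1, h2, h3, h4, h5, h6, h7, h8, h9, h10, h11, h12, h13, h14, h15, h16, h17⟩ := h.lin
  rw [ell2, hh2] at e
  interval_cases i
  · rw [ell0]; change _ ≤ ((3181 : ℤ) : ℝ); push_cast; linarith
  · rw [ell1]; change _ ≤ ((4500 : ℤ) : ℝ); push_cast; linarith
  · rw [ell2]; change _ ≤ ((4500 : ℤ) : ℝ); push_cast; linarith
  · rw [ell3]; change _ ≤ ((5516 : ℤ) : ℝ); push_cast; linarith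
  · rw [ell4]; change _ ≤ ((4144 : ℤ) : ℝ); push_cast; linarith
  · rw [ell5]; change _ ≤ ((1627 : ℤ) : ℝ); push_cast; linarith
  · rw [ell6]; change _ ≤ ((5782 : ℤ) : ℝ); push_cast; linarith
  · rw [ell7]; change _ ≤ ((1564 : ℤ) : ℝ); push_cast; linarith
  · rw [ell8]; change _ ≤ ((4546 : ℤ) : ℝ); push_cast; linarith
  · rw [ell9]; change _ ≤ ((1400 : ℤ) : ℝ); push_cast; linarith
  · rw [ell10]; change _ ≤ ((-1342 : ℤ) : ℝ); push_cast; linarith
  · rw [ell11]; change _ ≤ ((-4500 : ℤ) : ℝ); push_cast; linarith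
  · rw [ell12]; change _ ≤ ((-1367 : ℤ) : ℝ); push_cast; linarith
  · rw [ell13]; change _ ≤ ((-1542 : ℤ) : ℝ); push_cast; linarith
  · rw [ell14]; change _ ≤ ((5128 : ℤ) : ℝ); push_cast; linarith
  · rw [ell15]; change _ ≤ ((396 : ℤ) : ℝ); push_cast; linarith
  · rw [ell16]; change _ ≤ ((3537 : ℤ) : ℝ); push_cast; linarith
  · rw [ell17]; change _ ≤ ((127 : ℤ) : ℝ); push_cast; linarith

lemma wt3 {x : E3} (h : InD x) (e : (hh 3 : ℝ) ≤ ell 3 x) {i : ℕ} (hi : i < 18) :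
    ell i x ≤ wt 3 i := by
  obtain ⟨h0, h1, h2, h3, h4, h5, h6, h7, h8, h9, h10, h11, h12, h13, h14, h15, h16, h17⟩ := h.lin
  rw [ell3, hh3] at e
  interval_cases i
  · rw [ell0]; change _ ≤ ((5400 : ℤ) : ℝ); push_cast; linarith
  · rw [ell1]; change _ ≤ ((4500 : ℤ) : ℝ); push_cast; linarith
  · rw [ell2]; change _ ≤ ((4500 : ℤ) : ℝ); push_cast; linarith
  · rw [ell3]; change _ ≤ ((5516 : ℤ) : ℝ); push_cast; linarith
  · rw [ell4]; change _ ≤ ((2847 : ℤ) : ℝ); push_cast; linarith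
  · rw [ell5]; change _ ≤ ((1809 : ℤ) : ℝ); push_cast; linarith
  · rw [ell6]; change _ ≤ ((1809 : ℤ) : ℝ); push_cast; linarith
  · rw [ell7]; change _ ≤ ((4546 : ℤ) : ℝ); push_cast; linarith
  · rw [ell8]; change _ ≤ ((4546 : ℤ) : ℝ); push_cast; linarith
  · rw [ell9]; change _ ≤ ((-2421 : ℤ) : ℝ); push_cast; linarith
  · rw [ell10]; change _ ≤ ((-583 : ℤ) : ℝ); push_cast; linarith
  · rw [ell11]; change _ ≤ ((-583 : ℤ) : ℝ); push_cast; linarith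
  · rw [ell12]; change _ ≤ ((-5516 : ℤ) : ℝ); push_cast; linarith
  · rw [ell13]; change _ ≤ ((2275 : ℤ) : ℝ); push_cast; linarith
  · rw [ell14]; change _ ≤ ((5269 : ℤ) : ℝ); push_cast; linarith
  · rw [ell15]; change _ ≤ ((5269 : ℤ) : ℝ); push_cast; linarith
  · rw [ell16]; change _ ≤ ((216 : ℤ) : ℝ); push_cast; linarith
  · rw [ell17]; change _ ≤ ((216 : ℤ) : ℝ); push_cast; linarith

lemma wt4 {x : E3} (h : InD x) (e : (hh 4 : ℝ) ≤ ell 4 x) {i : ℕ} (hi : i < 18) :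
    ell i x ≤ wt 4 i := by
  obtain ⟨h0, h1, h2, h3, h4, h5, h6, h7, h8, h9, h10, h11, h12, h13, h14, h15, h16, h17⟩ := h.lin
  rw [ell4, hh4] at e
  interval_cases i
  · rw [ell0]; change _ ≤ ((123 : ℤ) : ℝ); push_cast; linarith
  · rw [ell1]; change _ ≤ ((4500 : ℤ) : ℝ); push_cast; linarith
  · rw [ell2]; change _ ≤ ((4500 : ℤ) : ℝ); push_cast; linarith
  · rw [ell3]; change _ ≤ ((3427 : ℤ) : ℝ); push_cast; linarith
  · rw [ell4]; change _ ≤ ((4144 : ℤ) : ℝ); push_cast; linarith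
  · rw [ell5]; change _ ≤ ((5782 : ℤ) : ℝ); push_cast; linarith
  · rw [ell6]; change _ ≤ ((5782 : ℤ) : ℝ); push_cast; linarith
  · rw [ell7]; change _ ≤ ((1136 : ℤ) : ℝ); push_cast; linarith
  · rw [ell8]; change _ ≤ ((1136 : ℤ) : ℝ); push_cast; linarith
  · rw [ell9]; change _ ≤ ((5400 : ℤ) : ℝ); push_cast; linarith
  · rw [ell10]; change _ ≤ ((-1001 : ℤ) : ℝ); push_cast; linarith
  · rw [ell11]; change _ ≤ ((-1001 : ℤ) : ℝ); push_cast; linarith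
  · rw [ell12]; change _ ≤ ((4046 : ℤ) : ℝ); push_cast; linarith
  · rw [ell13]; change _ ≤ ((-4144 : ℤ) : ℝ); push_cast; linarith
  · rw [ell14]; change _ ≤ ((559 : ℤ) : ℝ); push_cast; linarith
  · rw [ell15]; change _ ≤ ((559 : ℤ) : ℝ); push_cast; linarith
  · rw [ell16]; change _ ≤ ((4454 : ℤ) : ℝ); push_cast; linarith
  · rw [ell17]; change _ ≤ ((4454 : ℤ) : ℝ); push_cast; linarith

lemma wt5 {x : E3} (h : InD x) (e : (hh 5 : ℝ) ≤ ell 5 x) {i : ℕ} (hi : i < 18) :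
    ell i x ≤ wt 5 i := by
  obtain ⟨h0, h1, h2, h3, h4, h5, h6, h7, h8, h9, h10, h11, h12, h13, h14, h15, h16, h17⟩ := h.lin
  rw [ell5, hh5] at e
  interval_cases i
  · rw [ell0]; change _ ≤ ((909 : ℤ) : ℝ); push_cast; linarith
  · rw [ell1]; change _ ≤ ((4500 : ℤ) : ℝ); push_cast; linarith
  · rw [ell2]; change _ ≤ ((2665 : ℤ) : ℝ); push_cast; linarith
  · rw [ell3]; change _ ≤ ((2978 : ℤ) : ℝ); push_cast; linarith
  · rw [ell4]; change _ ≤ ((4144 : ℤ) : ℝ); push_cast; linarith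
  · rw [ell5]; change _ ≤ ((5782 : ℤ) : ℝ); push_cast; linarith
  · rw [ell6]; change _ ≤ ((4619 : ℤ) : ℝ); push_cast; linarith
  · rw [ell7]; change _ ≤ ((4546 : ℤ) : ℝ); push_cast; linarith
  · rw [ell8]; change _ ≤ ((-3492 : ℤ) : ℝ); push_cast; linarith
  · rw [ell9]; change _ ≤ ((5400 : ℤ) : ℝ); push_cast; linarith
  · rw [ell10]; change _ ≤ ((-631 : ℤ) : ℝ); push_cast; linarith
  · rw [ell11]; change _ ≤ ((2717 : ℤ) : ℝ); push_cast; linarith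
  · rw [ell12]; change _ ≤ ((4335 : ℤ) : ℝ); push_cast; linarith
  · rw [ell13]; change _ ≤ ((719 : ℤ) : ℝ); push_cast; linarith
  · rw [ell14]; change _ ≤ ((-5782 : ℤ) : ℝ); push_cast; linarith
  · rw [ell15]; change _ ≤ ((5782 : ℤ) : ℝ); push_cast; linarith
  · rw [ell16]; change _ ≤ ((3597 : ℤ) : ℝ); push_cast; linarith
  · rw [ell17]; change _ ≤ ((4546 : ℤ) : ℝ); push_cast; linarith

lemma wt6 {x : E3} (h : InD x) (e : (hh 6 : ℝ) ≤ ell 6 x) {i : ℕ} (hi : i < 18) :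
    ell i x ≤ wt 6 i := by
  obtain ⟨h0, h1, h2, h3, h4, h5, h6, h7, h8, h9, h10, h11, h12, h13, h14, h15, h16, h17⟩ := h.lin
  rw [ell6, hh6] at e
  interval_cases i
  · rw [ell0]; change _ ≤ ((909 : ℤ) : ℝ); push_cast; linarith
  · rw [ell1]; change _ ≤ ((2665 : ℤ) : ℝ); push_cast; linarith
  · rw [ell2]; change _ ≤ ((4500 : ℤ) : ℝ); push_cast; linarith
  · rw [ell3]; change _ ≤ ((2978 : ℤ) : ℝ); push_cast; linarith
  · rw [ell4]; change _ ≤ ((4144 : ℤ) : ℝ); push_cast; linarith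
  · rw [ell5]; change _ ≤ ((4619 : ℤ) : ℝ); push_cast; linarith
  · rw [ell6]; change _ ≤ ((5782 : ℤ) : ℝ); push_cast; linarith
  · rw [ell7]; change _ ≤ ((-3492 : ℤ) : ℝ); push_cast; linarith
  · rw [ell8]; change _ ≤ ((4546 : ℤ) : ℝ); push_cast; linarith
  · rw [ell9]; change _ ≤ ((5400 : ℤ) : ℝ); push_cast; linarith
  · rw [ell10]; change _ ≤ ((2717 : ℤ) : ℝ); push_cast; linarith
  · rw [ell11]; change _ ≤ ((-631 : ℤ) : ℝ); push_cast; linarith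
  · rw [ell12]; change _ ≤ ((4335 : ℤ) : ℝ); push_cast; linarith
  · rw [ell13]; change _ ≤ ((719 : ℤ) : ℝ); push_cast; linarith
  · rw [ell14]; change _ ≤ ((5782 : ℤ) : ℝ); push_cast; linarith
  · rw [ell15]; change _ ≤ ((-5782 : ℤ) : ℝ); push_cast; linarith
  · rw [ell16]; change _ ≤ ((4546 : ℤ) : ℝ); push_cast; linarith
  · rw [ell17]; change _ ≤ ((3597 : ℤ) : ℝ); push_cast; linarith

lemma wt7 {x : E3} (h : InD x) (e : (hh 7 : ℝ) ≤ ell 7 x) {i : ℕ} (hi : i < 18) :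
    ell i x ≤ wt 7 i := by
  obtain ⟨h0, h1, h2, h3, h4, h5, h6, h7, h8, h9, h10, h11, h12, h13, h14, h15, h16, h17⟩ := h.lin
  rw [ell7, hh7] at e
  interval_cases i
  · rw [ell0]; change _ ≤ ((5400 : ℤ) : ℝ); push_cast; linarith
  · rw [ell1]; change _ ≤ ((4500 : ℤ) : ℝ); push_cast; linarith
  · rw [ell2]; change _ ≤ ((2630 : ℤ) : ℝ); push_cast; linarith
  · rw [ell3]; change _ ≤ ((5516 : ℤ) : ℝ); push_cast; linarith
  · rw [ell4]; change _ ≤ ((2223 : ℤ) : ℝ); push_cast; linarith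
  · rw [ell5]; change _ ≤ ((5782 : ℤ) : ℝ); push_cast; linarith
  · rw [ell6]; change _ ≤ ((-4653 : ℤ) : ℝ); push_cast; linarith
  · rw [ell7]; change _ ≤ ((4546 : ℤ) : ℝ); push_cast; linarith
  · rw [ell8]; change _ ≤ ((3467 : ℤ) : ℝ); push_cast; linarith
  · rw [ell9]; change _ ≤ ((-456 : ℤ) : ℝ); push_cast; linarith
  · rw [ell10]; change _ ≤ ((566 : ℤ) : ℝ); push_cast; linarith
  · rw [ell11]; change _ ≤ ((991 : ℤ) : ℝ); push_cast; linarith
  · rw [ell12]; change _ ≤ ((-1183 : ℤ) : ℝ); push_cast; linarith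
  · rw [ell13]; change _ ≤ ((3778 : ℤ) : ℝ); push_cast; linarith
  · rw [ell14]; change _ ≤ ((4317 : ℤ) : ℝ); push_cast; linarith
  · rw [ell15]; change _ ≤ ((5782 : ℤ) : ℝ); push_cast; linarith
  · rw [ell16]; change _ ≤ ((-4546 : ℤ) : ℝ); push_cast; linarith
  · rw [ell17]; change _ ≤ ((3975 : ℤ) : ℝ); push_cast; linarith

lemma wt8 {x : E3} (h : InD x) (e : (hh 8 : ℝ) ≤ ell 8 x) {i : ℕ} (hi : i < 18) :
    ell i x ≤ wt 8 i := by
  obtain ⟨h0, h1, h2, h3, h4, h5, h6, h7, h8, h9, h10, h11, h12, h13, h14, h15, h16, h17⟩ := h.lin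
  rw [ell8, hh8] at e
  interval_cases i
  · rw [ell0]; change _ ≤ ((5400 : ℤ) : ℝ); push_cast; linarith
  · rw [ell1]; change _ ≤ ((2630 : ℤ) : ℝ); push_cast; linarith
  · rw [ell2]; change _ ≤ ((4500 : ℤ) : ℝ); push_cast; linarith
  · rw [ell3]; change _ ≤ ((5516 : ℤ) : ℝ); push_cast; linarith
  · rw [ell4]; change _ ≤ ((2223 : ℤ) : ℝ); push_cast; linarith
  · rw [ell5]; change _ ≤ ((-4653 : ℤ) : ℝ); push_cast; linarith
  · rw [ell6]; change _ ≤ ((5782 : ℤ) : ℝ); push_cast; linarith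
  · rw [ell7]; change _ ≤ ((3467 : ℤ) : ℝ); push_cast; linarith
  · rw [ell8]; change _ ≤ ((4546 : ℤ) : ℝ); push_cast; linarith
  · rw [ell9]; change _ ≤ ((-456 : ℤ) : ℝ); push_cast; linarith
  · rw [ell10]; change _ ≤ ((991 : ℤ) : ℝ); push_cast; linarith
  · rw [ell11]; change _ ≤ ((566 : ℤ) : ℝ); push_cast; linarith
  · rw [ell12]; change _ ≤ ((-1183 : ℤ) : ℝ); push_cast; linarith
  · rw [ell13]; change _ ≤ ((3778 : ℤ) : ℝ); push_cast; linarith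
  · rw [ell14]; change _ ≤ ((5782 : ℤ) : ℝ); push_cast; linarith
  · rw [ell15]; change _ ≤ ((4317 : ℤ) : ℝ); push_cast; linarith
  · rw [ell16]; change _ ≤ ((3975 : ℤ) : ℝ); push_cast; linarith
  · rw [ell17]; change _ ≤ ((-4546 : ℤ) : ℝ); push_cast; linarith

lemma wt9 {x : E3} (h : InD x) (e : (hh 9 : ℝ) ≤ ell 9 x) {i : ℕ} (hi : i < 18) :
    ell i x ≤ wt 9 i := by
  obtain ⟨h0, h1, h2, h3, h4, h5, h6, h7, h8, h9, h10, h11, h12, h13, h14, h15, h16, h17⟩ := h.lin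
  rw [ell9, hh9] at e
  interval_cases i
  · rw [ell0]; change _ ≤ ((-5400 : ℤ) : ℝ); push_cast; linarith
  · rw [ell1]; change _ ≤ ((1339 : ℤ) : ℝ); push_cast; linarith
  · rw [ell2]; change _ ≤ ((1339 : ℤ) : ℝ); push_cast; linarith
  · rw [ell3]; change _ ≤ ((-4045 : ℤ) : ℝ); push_cast; linarith
  · rw [ell4]; change _ ≤ ((4144 : ℤ) : ℝ); push_cast; linarith
  · rw [ell5]; change _ ≤ ((5782 : ℤ) : ℝ); push_cast; linarith
  · rw [ell6]; change _ ≤ ((5782 : ℤ) : ℝ); push_cast; linarith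
  · rw [ell7]; change _ ≤ ((-3311 : ℤ) : ℝ); push_cast; linarith
  · rw [ell8]; change _ ≤ ((-3311 : ℤ) : ℝ); push_cast; linarith
  · rw [ell9]; change _ ≤ ((5400 : ℤ) : ℝ); push_cast; linarith
  · rw [ell10]; change _ ≤ ((1069 : ℤ) : ℝ); push_cast; linarith
  · rw [ell11]; change _ ≤ ((1069 : ℤ) : ℝ); push_cast; linarith
  · rw [ell12]; change _ ≤ ((5516 : ℤ) : ℝ); push_cast; linarith
  · rw [ell13]; change _ ≤ ((-2274 : ℤ) : ℝ); push_cast; linarith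
  · rw [ell14]; change _ ≤ ((-3593 : ℤ) : ℝ); push_cast; linarith
  · rw [ell15]; change _ ≤ ((-3593 : ℤ) : ℝ); push_cast; linarith
  · rw [ell16]; change _ ≤ ((4546 : ℤ) : ℝ); push_cast; linarith
  · rw [ell17]; change _ ≤ ((4546 : ℤ) : ℝ); push_cast; linarith

lemma wt10 {x : E3} (h : InD x) (e : (hh 10 : ℝ) ≤ ell 10 x) {i : ℕ} (hi : i < 18) :
    ell i x ≤ wt 10 i := by
  obtain ⟨h0, h1, h2, h3, h4, h5, h6, h7, h8, h9, h10, h11, h12, h13, h14, h15, h16, h17⟩ := h.lin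
  rw [ell10, hh10] at e
  interval_cases i
  · rw [ell0]; change _ ≤ ((1400 : ℤ) : ℝ); push_cast; linarith
  · rw [ell1]; change _ ≤ ((-4500 : ℤ) : ℝ); push_cast; linarith
  · rw [ell2]; change _ ≤ ((-1342 : ℤ) : ℝ); push_cast; linarith
  · rw [ell3]; change _ ≤ ((-1367 : ℤ) : ℝ); push_cast; linarith
  · rw [ell4]; change _ ≤ ((-1542 : ℤ) : ℝ); push_cast; linarith
  · rw [ell5]; change _ ≤ ((396 : ℤ) : ℝ); push_cast; linarith
  · rw [ell6]; change _ ≤ ((5128 : ℤ) : ℝ); push_cast; linarith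
  · rw [ell7]; change _ ≤ ((127 : ℤ) : ℝ); push_cast; linarith
  · rw [ell8]; change _ ≤ ((3537 : ℤ) : ℝ); push_cast; linarith
  · rw [ell9]; change _ ≤ ((3181 : ℤ) : ℝ); push_cast; linarith
  · rw [ell10]; change _ ≤ ((4500 : ℤ) : ℝ); push_cast; linarith
  · rw [ell11]; change _ ≤ ((4500 : ℤ) : ℝ); push_cast; linarith
  · rw [ell12]; change _ ≤ ((5516 : ℤ) : ℝ); push_cast; linarith
  · rw [ell13]; change _ ≤ ((4144 : ℤ) : ℝ); push_cast; linarith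
  · rw [ell14]; change _ ≤ ((5782 : ℤ) : ℝ); push_cast; linarith
  · rw [ell15]; change _ ≤ ((1627 : ℤ) : ℝ); push_cast; linarith
  · rw [ell16]; change _ ≤ ((4546 : ℤ) : ℝ); push_cast; linarith
  · rw [ell17]; change _ ≤ ((1564 : ℤ) : ℝ); push_cast; linarith

lemma wt11 {x : E3} (h : InD x) (e : (hh 11 : ℝ) ≤ ell 11 x) {i : ℕ} (hi : i < 18) :
    ell i x ≤ wt 11 i := by
  obtain ⟨h0, h1, h2, h3, h4, h5, h6, h7, h8, h9, h10, h11, h12, h13, h14, h15, h16, h17⟩ := h.lin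
  rw [ell11, hh11] at e
  interval_cases i
  · rw [ell0]; change _ ≤ ((1400 : ℤ) : ℝ); push_cast; linarith
  · rw [ell1]; change _ ≤ ((-1342 : ℤ) : ℝ); push_cast; linarith
  · rw [ell2]; change _ ≤ ((-4500 : ℤ) : ℝ); push_cast; linarith
  · rw [ell3]; change _ ≤ ((-1367 : ℤ) : ℝ); push_cast; linarith
  · rw [ell4]; change _ ≤ ((-1542 : ℤ) : ℝ); push_cast; linarith
  · rw [ell5]; change _ ≤ ((5128 : ℤ) : ℝ); push_cast; linarith
  · rw [ell6]; change _ ≤ ((396 : ℤ) : ℝ); push_cast; linarith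
  · rw [ell7]; change _ ≤ ((3537 : ℤ) : ℝ); push_cast; linarith
  · rw [ell8]; change _ ≤ ((127 : ℤ) : ℝ); push_cast; linarith
  · rw [ell9]; change _ ≤ ((3181 : ℤ) : ℝ); push_cast; linarith
  · rw [ell10]; change _ ≤ ((4500 : ℤ) : ℝ); push_cast; linarith
  · rw [ell11]; change _ ≤ ((4500 : ℤ) : ℝ); push_cast; linarith
  · rw [ell12]; change _ ≤ ((5516 : ℤ) : ℝ); push_cast; linarith
  · rw [ell13]; change _ ≤ ((4144 : ℤ) : ℝ); push_cast; linarith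
  · rw [ell14]; change _ ≤ ((1627 : ℤ) : ℝ); push_cast; linarith
  · rw [ell15]; change _ ≤ ((5782 : ℤ) : ℝ); push_cast; linarith
  · rw [ell16]; change _ ≤ ((1564 : ℤ) : ℝ); push_cast; linarith
  · rw [ell17]; change _ ≤ ((4546 : ℤ) : ℝ); push_cast; linarith

lemma wt12 {x : E3} (h : InD x) (e : (hh 12 : ℝ) ≤ ell 12 x) {i : ℕ} (hi : i < 18) :
    ell i x ≤ wt 12 i := by
  obtain ⟨h0, h1, h2, h3, h4, h5, h6, h7, h8, h9, h10, h11, h12, h13, h14, h15, h16, h17⟩ := h.lin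
  rw [ell12, hh12] at e
  interval_cases i
  · rw [ell0]; change _ ≤ ((-2421 : ℤ) : ℝ); push_cast; linarith
  · rw [ell1]; change _ ≤ ((-583 : ℤ) : ℝ); push_cast; linarith
  · rw [ell2]; change _ ≤ ((-583 : ℤ) : ℝ); push_cast; linarith
  · rw [ell3]; change _ ≤ ((-5516 : ℤ) : ℝ); push_cast; linarith
  · rw [ell4]; change _ ≤ ((2275 : ℤ) : ℝ); push_cast; linarith
  · rw [ell5]; change _ ≤ ((5269 : ℤ) : ℝ); push_cast; linarith
  · rw [ell6]; change _ ≤ ((5269 : ℤ) : ℝ); push_cast; linarith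
  · rw [ell7]; change _ ≤ ((216 : ℤ) : ℝ); push_cast; linarith
  · rw [ell8]; change _ ≤ ((216 : ℤ) : ℝ); push_cast; linarith
  · rw [ell9]; change _ ≤ ((5400 : ℤ) : ℝ); push_cast; linarith
  · rw [ell10]; change _ ≤ ((4500 : ℤ) : ℝ); push_cast; linarith
  · rw [ell11]; change _ ≤ ((4500 : ℤ) : ℝ); push_cast; linarith
  · rw [ell12]; change _ ≤ ((5516 : ℤ) : ℝ); push_cast; linarith
  · rw [ell13]; change _ ≤ ((2847 : ℤ) : ℝ); push_cast; linarith
  · rw [ell14]; change _ ≤ ((1809 : ℤ) : ℝ); push_cast; linarith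
  · rw [ell15]; change _ ≤ ((1809 : ℤ) : ℝ); push_cast; linarith
  · rw [ell16]; change _ ≤ ((4546 : ℤ) : ℝ); push_cast; linarith
  · rw [ell17]; change _ ≤ ((4546 : ℤ) : ℝ); push_cast; linarith

lemma wt13 {x : E3} (h : InD x) (e : (hh 13 : ℝ) ≤ ell 13 x) {i : ℕ} (hi : i < 18) :
    ell i x ≤ wt 13 i := by
  obtain ⟨h0, h1, h2, h3, h4, h5, h6, h7, h8, h9, h10, h11, h12, h13, h14, h15, h16, h17⟩ := h.lin
  rw [ell13, hh13] at e
  interval_cases i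
  · rw [ell0]; change _ ≤ ((5400 : ℤ) : ℝ); push_cast; linarith
  · rw [ell1]; change _ ≤ ((-1001 : ℤ) : ℝ); push_cast; linarith
  · rw [ell2]; change _ ≤ ((-1001 : ℤ) : ℝ); push_cast; linarith
  · rw [ell3]; change _ ≤ ((4046 : ℤ) : ℝ); push_cast; linarith
  · rw [ell4]; change _ ≤ ((-4144 : ℤ) : ℝ); push_cast; linarith
  · rw [ell5]; change _ ≤ ((559 : ℤ) : ℝ); push_cast; linarith
  · rw [ell6]; change _ ≤ ((559 : ℤ) : ℝ); push_cast; linarith
  · rw [ell7]; change _ ≤ ((4454 : ℤ) : ℝ); push_cast; linarith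
  · rw [ell8]; change _ ≤ ((4454 : ℤ) : ℝ); push_cast; linarith
  · rw [ell9]; change _ ≤ ((123 : ℤ) : ℝ); push_cast; linarith
  · rw [ell10]; change _ ≤ ((4500 : ℤ) : ℝ); push_cast; linarith
  · rw [ell11]; change _ ≤ ((4500 : ℤ) : ℝ); push_cast; linarith
  · rw [ell12]; change _ ≤ ((3427 : ℤ) : ℝ); push_cast; linarith
  · rw [ell13]; change _ ≤ ((4144 : ℤ) : ℝ); push_cast; linarith
  · rw [ell14]; change _ ≤ ((5782 : ℤ) : ℝ); push_cast; linarith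
  · rw [ell15]; change _ ≤ ((5782 : ℤ) : ℝ); push_cast; linarith
  · rw [ell16]; change _ ≤ ((1136 : ℤ) : ℝ); push_cast; linarith
  · rw [ell17]; change _ ≤ ((1136 : ℤ) : ℝ); push_cast; linarith

lemma wt14 {x : E3} (h : InD x) (e : (hh 14 : ℝ) ≤ ell 14 x) {i : ℕ} (hi : i < 18) :
    ell i x ≤ wt 14 i := by
  obtain ⟨h0, h1, h2, h3, h4, h5, h6, h7, h8, h9, h10, h11, h12, h13, h14, h15, h16, h17⟩ := h.lin
  rw [ell14, hh14] at e
  interval_cases i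
  · rw [ell0]; change _ ≤ ((5400 : ℤ) : ℝ); push_cast; linarith
  · rw [ell1]; change _ ≤ ((-631 : ℤ) : ℝ); push_cast; linarith
  · rw [ell2]; change _ ≤ ((2717 : ℤ) : ℝ); push_cast; linarith
  · rw [ell3]; change _ ≤ ((4335 : ℤ) : ℝ); push_cast; linarith
  · rw [ell4]; change _ ≤ ((719 : ℤ) : ℝ); push_cast; linarith
  · rw [ell5]; change _ ≤ ((-5782 : ℤ) : ℝ); push_cast; linarith
  · rw [ell6]; change _ ≤ ((5782 : ℤ) : ℝ); push_cast; linarith
  · rw [ell7]; change _ ≤ ((3597 : ℤ) : ℝ); push_cast; linarith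
  · rw [ell8]; change _ ≤ ((4546 : ℤ) : ℝ); push_cast; linarith
  · rw [ell9]; change _ ≤ ((909 : ℤ) : ℝ); push_cast; linarith
  · rw [ell10]; change _ ≤ ((4500 : ℤ) : ℝ); push_cast; linarith
  · rw [ell11]; change _ ≤ ((2665 : ℤ) : ℝ); push_cast; linarith
  · rw [ell12]; change _ ≤ ((2978 : ℤ) : ℝ); push_cast; linarith
  · rw [ell13]; change _ ≤ ((4144 : ℤ) : ℝ); push_cast; linarith
  · rw [ell14]; change _ ≤ ((5782 : ℤ) : ℝ); push_cast; linarith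
  · rw [ell15]; change _ ≤ ((4619 : ℤ) : ℝ); push_cast; linarith
  · rw [ell16]; change _ ≤ ((4546 : ℤ) : ℝ); push_cast; linarith
  · rw [ell17]; change _ ≤ ((-3492 : ℤ) : ℝ); push_cast; linarith

lemma wt15 {x : E3} (h : InD x) (e : (hh 15 : ℝ) ≤ ell 15 x) {i : ℕ} (hi : i < 18) :
    ell i x ≤ wt 15 i := by
  obtain ⟨h0, h1, h2, h3, h4, h5, h6, h7, h8, h9, h10, h11, h12, h13, h14, h15, h16, h17⟩ := h.lin
  rw [ell15, hh15] at e
  interval_cases i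
  · rw [ell0]; change _ ≤ ((5400 : ℤ) : ℝ); push_cast; linarith
  · rw [ell1]; change _ ≤ ((2717 : ℤ) : ℝ); push_cast; linarith
  · rw [ell2]; change _ ≤ ((-631 : ℤ) : ℝ); push_cast; linarith
  · rw [ell3]; change _ ≤ ((4335 : ℤ) : ℝ); push_cast; linarith
  · rw [ell4]; change _ ≤ ((719 : ℤ) : ℝ); push_cast; linarith
  · rw [ell5]; change _ ≤ ((5782 : ℤ) : ℝ); push_cast; linarith
  · rw [ell6]; change _ ≤ ((-5782 : ℤ) : ℝ); push_cast; linarith
  · rw [ell7]; change _ ≤ ((4546 : ℤ) : ℝ); push_cast; linarith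
  · rw [ell8]; change _ ≤ ((3597 : ℤ) : ℝ); push_cast; linarith
  · rw [ell9]; change _ ≤ ((909 : ℤ) : ℝ); push_cast; linarith
  · rw [ell10]; change _ ≤ ((2665 : ℤ) : ℝ); push_cast; linarith
  · rw [ell11]; change _ ≤ ((4500 : ℤ) : ℝ); push_cast; linarith
  · rw [ell12]; change _ ≤ ((2978 : ℤ) : ℝ); push_cast; linarith
  · rw [ell13]; change _ ≤ ((4144 : ℤ) : ℝ); push_cast; linarith
  · rw [ell14]; change _ ≤ ((4619 : ℤ) : ℝ); push_cast; linarith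
  · rw [ell15]; change _ ≤ ((5782 : ℤ) : ℝ); push_cast; linarith
  · rw [ell16]; change _ ≤ ((-3492 : ℤ) : ℝ); push_cast; linarith
  · rw [ell17]; change _ ≤ ((4546 : ℤ) : ℝ); push_cast; linarith

lemma wt16 {x : E3} (h : InD x) (e : (hh 16 : ℝ) ≤ ell 16 x) {i : ℕ} (hi : i < 18) :
    ell i x ≤ wt 16 i := by
  obtain ⟨h0, h1, h2, h3, h4, h5, h6, h7, h8, h9, h10, h11, h12, h13, h14, h15, h16, h17⟩ := h.lin
  rw [ell16, hh16] at e
  interval_cases i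
  · rw [ell0]; change _ ≤ ((-456 : ℤ) : ℝ); push_cast; linarith
  · rw [ell1]; change _ ≤ ((566 : ℤ) : ℝ); push_cast; linarith
  · rw [ell2]; change _ ≤ ((991 : ℤ) : ℝ); push_cast; linarith
  · rw [ell3]; change _ ≤ ((-1183 : ℤ) : ℝ); push_cast; linarith
  · rw [ell4]; change _ ≤ ((3778 : ℤ) : ℝ); push_cast; linarith
  · rw [ell5]; change _ ≤ ((4317 : ℤ) : ℝ); push_cast; linarith
  · rw [ell6]; change _ ≤ ((5782 : ℤ) : ℝ); push_cast; linarith
  · rw [ell7]; change _ ≤ ((-4546 : ℤ) : ℝ); push_cast; linarith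
  · rw [ell8]; change _ ≤ ((3975 : ℤ) : ℝ); push_cast; linarith
  · rw [ell9]; change _ ≤ ((5400 : ℤ) : ℝ); push_cast; linarith
  · rw [ell10]; change _ ≤ ((4500 : ℤ) : ℝ); push_cast; linarith
  · rw [ell11]; change _ ≤ ((2630 : ℤ) : ℝ); push_cast; linarith
  · rw [ell12]; change _ ≤ ((5516 : ℤ) : ℝ); push_cast; linarith
  · rw [ell13]; change _ ≤ ((2223 : ℤ) : ℝ); push_cast; linarith
  · rw [ell14]; change _ ≤ ((5782 : ℤ) : ℝ); push_cast; linarith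
  · rw [ell15]; change _ ≤ ((-4653 : ℤ) : ℝ); push_cast; linarith
  · rw [ell16]; change _ ≤ ((4546 : ℤ) : ℝ); push_cast; linarith
  · rw [ell17]; change _ ≤ ((3467 : ℤ) : ℝ); push_cast; linarith

lemma wt17 {x : E3} (h : InD x) (e : (hh 17 : ℝ) ≤ ell 17 x) {i : ℕ} (hi : i < 18) :
    ell i x ≤ wt 17 i := by
  obtain ⟨h0, h1, h2, h3, h4, h5, h6, h7, h8, h9, h10, h11, h12, h13, h14, h15, h16, h17⟩ := h.lin
  rw [ell17, hh17] at e
  interval_cases i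
  · rw [ell0]; change _ ≤ ((-456 : ℤ) : ℝ); push_cast; linarith
  · rw [ell1]; change _ ≤ ((991 : ℤ) : ℝ); push_cast; linarith
  · rw [ell2]; change _ ≤ ((566 : ℤ) : ℝ); push_cast; linarith
  · rw [ell3]; change _ ≤ ((-1183 : ℤ) : ℝ); push_cast; linarith
  · rw [ell4]; change _ ≤ ((3778 : ℤ) : ℝ); push_cast; linarith
  · rw [ell5]; change _ ≤ ((5782 : ℤ) : ℝ); push_cast; linarith
  · rw [ell6]; change _ ≤ ((4317 : ℤ) : ℝ); push_cast; linarith
  · rw [ell7]; change _ ≤ ((3975 : ℤ) : ℝ); push_cast; linarith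
  · rw [ell8]; change _ ≤ ((-4546 : ℤ) : ℝ); push_cast; linarith
  · rw [ell9]; change _ ≤ ((5400 : ℤ) : ℝ); push_cast; linarith
  · rw [ell10]; change _ ≤ ((2630 : ℤ) : ℝ); push_cast; linarith
  · rw [ell11]; change _ ≤ ((4500 : ℤ) : ℝ); push_cast; linarith
  · rw [ell12]; change _ ≤ ((5516 : ℤ) : ℝ); push_cast; linarith
  · rw [ell13]; change _ ≤ ((2223 : ℤ) : ℝ); push_cast; linarith
  · rw [ell14]; change _ ≤ ((-4653 : ℤ) : ℝ); push_cast; linarith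
  · rw [ell15]; change _ ≤ ((5782 : ℤ) : ℝ); push_cast; linarith
  · rw [ell16]; change _ ≤ ((3467 : ℤ) : ℝ); push_cast; linarith
  · rw [ell17]; change _ ≤ ((4546 : ℤ) : ℝ); push_cast; linarith

lemma wt_ge {f : ℕ} (hf : f < 18) {x : E3} (h : InD x) (e : (hh f : ℝ) ≤ ell f x) {i : ℕ}
    (hi : i < 18) : ell i x ≤ wt f i := by
  interval_cases f
  exacts [wt0 h e hi, wt1 h e hi, wt2 h e hi, wt3 h e hi, wt4 h e hi, wt5 h e hi,
    wt6 h e hi, wt7 h e hi, wt8 h e hi, wt9 h e hi, wt10 h e hi, wt11 h e hi,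
    wt12 h e hi, wt13 h e hi, wt14 h e hi, wt15 h e hi, wt16 h e hi, wt17 h e hi]

lemma wt_sub {f : ℕ} (hf : f < 18) {x y : E3} (hx : InD x) (ex : (hh f : ℝ) ≤ ell f x)
    (hy : InD y) (ey : (hh f : ℝ) ≤ ell f y) {i : ℕ} (hi : i < 18) :
    ell i x - ell i y ≤ wt f i + wt f ((i + 9) % 18) := by
  have h1 := wt_ge hf hx ex hi
  have h2 := wt_ge hf hy ey (i := (i + 9) % 18) (Nat.mod_lt _ (by norm_num))
  rw [ell_opp hi] at h2
  linarith

/-- Every facet has width less than two. -/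
lemma width_two {f : ℕ} (hf : f < 18) {x y : E3} (hx : InD x) (ex : (hh f : ℝ) ≤ ell f x)
    (hy : InD y) (ey : (hh f : ℝ) ≤ ell f y) {i : ℕ} (hi : i < 18) :
    ell i x - ell i y < 2 * hh i := by
  have h : ∀ f < 18, ∀ i < 18, wt f i + wt f ((i + 9) % 18) < 2 * hh i := by decide +kernel
  exact (wt_sub hf hx ex hy ey hi).trans_lt (by exact_mod_cast h f hf i hi)

/-- Every facet has width less than three halves in all but two directions. -/
lemma width_half {f : ℕ} (hf : f < 18) : ∃ m n : ℕ, ∀ x y : E3, InD x → (hh f : ℝ) ≤ ell f x →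
    InD y → (hh f : ℝ) ≤ ell f y → ∀ i < 18,
    2 * (ell i x - ell i y) < 3 * hh i ∨ i % 9 = m ∨ i % 9 = n := by
  have h : ∀ f < 18, ∃ m < 9, ∃ n < 9, ∀ i < 18,
      2 * (wt f i + wt f ((i + 9) % 18)) < 3 * hh i ∨ i % 9 = m ∨ i % 9 = n := by decide +kernel
  obtain ⟨m, -, n, -, h⟩ := h f hf
  refine ⟨m, n, fun x y hx ex hy ey i hi => (h i hi).imp_left fun k => ?_⟩
  have k1 : 2 * ((wt f i : ℝ) + wt f ((i + 9) % 18)) < 3 * hh i := by exact_mod_cast k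
  linarith [wt_sub hf hx ex hy ey hi]

end Pool.Agent.P.MP_c4753b_co.Three
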