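import Pool.Agent.P.MP_c4753b_co.Red
import Pool.Agent.P.MP_c4753b_co.Width

/-!
The index of three independent contact vectors in an admissible lattice.
-/

namespace Pool.Agent.P.MP_c4753b_co.Three

lemma InD.mul_le {p : E3} (h : InD p) {j : ℕ} (hj : j < 18) (α : ℝ) :
    α * ell j p ≤ |α| * hh j := by
  refine (le_abs_self _).trans ?_
  rw [abs_mul]
  exact mul_le_mul_of_nonneg_left (abs_le.2 ⟨h.ge hj, h j hj⟩) (abs_nonneg _)

lemma small {p q r : E3} (hp : InD p) (hq : InD q) (hr : InD r) {α β γ : ℝ}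
    (h : |α| + |β| + |γ| < 1) : ¬Out (α • p + β • q + γ • r) := by
  rintro ⟨j, hj, k⟩
  simp only [map_add, map_smul, smul_eq_mul] at k
  have k1 := hp.mul_le hj α
  have k2 := hq.mul_le hj β
  have k3 := hr.mul_le hj γ
  have k4 := mul_lt_mul_of_pos_right h (show (0 : ℝ) < hh j by linarith [hh_ge (j := j)])
  linarith

lemma mid {p q : E3} (hp : InD p) (hq : InD q) (h1 : Out ((1 / 2 : ℝ) • p + (1 / 2 : ℝ) • q))
    (h2 : Out ((1 / 2 : ℝ) • p - (1 / 2 : ℝ) • q)) : False := by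
  obtain ⟨f, hf, k1⟩ := h1
  obtain ⟨i, hi, k2⟩ := h2
  simp only [map_add, map_sub, map_smul, smul_eq_mul] at k1 k2
  have k3 := hp f hf
  have k4 := hq f hf
  linarith [width_two hf hp (by linarith) hq (by linarith) hi]

lemma third {p q r s : E3} (hp : InD p) (hq : InD q) (hr : InD r)
    (hs : s = (1 / 3 : ℝ) • p + (1 / 3 : ℝ) • q + (1 / 3 : ℝ) • r) (h : Out s) (h1 : Out (s - p))
    (h2 : Out (s - q)) (h3 : Out (s - r)) : False := by
  have e : ∀ i, ell i s = (ell i p + ell i q + ell i r) / 3 := fun i => by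
    simp only [hs, map_add, map_smul, smul_eq_mul]; ring
  obtain ⟨f, hf, k⟩ := h
  have ep : (hh f : ℝ) ≤ ell f p := by linarith [e f, hq f hf, hr f hf]
  have eq : (hh f : ℝ) ≤ ell f q := by linarith [e f, hp f hf, hr f hf]
  have er : (hh f : ℝ) ≤ ell f r := by linarith [e f, hp f hf, hq f hf]
  obtain ⟨m, n, w⟩ := width_half hf
  have one : ∀ x y z : E3, InD x → (hh f : ℝ) ≤ ell f x → InD y → (hh f : ℝ) ≤ ell f y → InD z →
      (hh f : ℝ) ≤ ell f z → ∀ i < 18, (hh i : ℝ) ≤ (ell i x + ell i y + ell i z) / 3 - ell i x →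
      i % 9 = m ∨ i % 9 = n := fun x y z hx ex hy ey hz ez i hi k => by
    rcases w y x hy ey hx ex i hi with k1 | k1
    · rcases w z x hz ez hx ex i hi with k2 | k2
      · linarith
      · exact k2
    · exact k1
  have two : ∀ x y z : E3, InD x → (hh f : ℝ) ≤ ell f x → InD y → (hh f : ℝ) ≤ ell f y → InD z →
      (hh f : ℝ) ≤ ell f z → ∀ i < 18, ∀ j < 18, i % 9 = j % 9 →
      (hh i : ℝ) ≤ (ell i x + ell i y + ell i z) / 3 - ell i x →
      (hh j : ℝ) ≤ (ell j x + ell j y + ell j z) / 3 - ell j y → False :=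
    fun x y z hx ex hy ey hz ez i hi j hj hij k1 k2 => by
      rcases (by omega : j = i ∨ j = (i + 9) % 18) with rfl | rfl
      · linarith [width_two hf hz ez hx ex hi, width_two hf hz ez hy ey hi, hh_ge (j := j)]
      · simp only [ell_opp hi, hh_opp] at k2
        linarith [width_two hf hy ey hx ex hi]
  obtain ⟨i, hi, k1⟩ := h1
  obtain ⟨j, hj, k2⟩ := h2
  obtain ⟨l, hl, k3⟩ := h3
  rw [map_sub, e] at k1 k2 k3
  have m1 := one p q r hp ep hq eq hr er i hi k1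
  have m2 := one q p r hq eq hp ep hr er j hj (by linarith)
  have m3 := one r p q hr er hp ep hq eq l hl (by linarith)
  rcases (by omega : i % 9 = j % 9 ∨ i % 9 = l % 9 ∨ j % 9 = l % 9) with h | h | h
  · exact two p q r hp ep hq eq hr er i hi j hj h k1 k2
  · exact two p r q hp ep hr er hq eq i hi l hl h (by linarith) (by linarith)
  · exact two q r p hq eq hr er hp ep j hj l hl h (by linarith) (by linarith)

/-- Three independent contact vectors of an admissible lattice. -/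
structure Tr (L : AddSubgroup E3) (p q r : E3) : Prop where
  adm : ∀ x ∈ L, x ≠ 0 → Out x
  mp : p ∈ L
  mq : q ∈ L
  mr : r ∈ L
  dp : InD p
  dq : InD q
  dr : InD r
  ind : ∀ x y z : ℝ, x • p + y • q + z • r = 0 → x = 0 ∧ y = 0 ∧ z = 0

namespace Tr

variable {L : AddSubgroup E3} {p q r : E3} {α β γ : ℝ}

lemma rot (h : Tr L p q r) : Tr L q r p :=
  ⟨h.adm, h.mq, h.mr, h.mp, h.dq, h.dr, h.dp, fun x y z k => by
    have := h.ind z x y (by rw [← k]; module)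
    tauto⟩

lemma neg (h : Tr L p q r) : Tr L (-p) q r :=
  ⟨h.adm, neg_mem h.mp, h.mq, h.mr, h.dp.neg, h.dq, h.dr, fun x y z k => by
    have := h.ind (-x) y z (by rw [← k]; module)
    simpa using this⟩

lemma mrot (k : α • p + β • q + γ • r ∈ L) : β • q + γ • r + α • p ∈ L := by
  rwa [add_rotate] at k

lemma shift (h : Tr L p q r) (k : α • p + β • q + γ • r ∈ L) (m i j l : ℤ) :
    (m * α + i) • p + (m * β + j) • q + (m * γ + l) • r ∈ L := by
  have := add_mem (add_mem (add_mem (zsmul_mem k m) (zsmul_mem h.mp i)) (zsmul_mem h.mq j))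
    (zsmul_mem h.mr l)
  convert this using 1
  simp only [← Int.cast_smul_eq_zsmul ℝ]
  module

lemma out (h : Tr L p q r) (k : α • p + β • q + γ • r ∈ L) (h0 : ¬(α = 0 ∧ β = 0 ∧ γ = 0)) :
    Out (α • p + β • q + γ • r) := h.adm _ k fun k => h0 (h.ind _ _ _ k)

lemma zero (h : Tr L p q r) (k : α • p + β • q + γ • r ∈ L) (h1 : |α| + |β| + |γ| < 1) :
    α = 0 ∧ β = 0 ∧ γ = 0 := by
  by_contra h0
  exact small h.dp h.dq h.dr h1 (h.out k h0)

lemma quarter (h : Tr L p q r) (k : α • p + β • q + γ • r ∈ L) (h0 : 0 ≤ α) (h1 : β ≤ 1 / 2)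
    (h2 : γ ≤ 1 / 2) (hs : α + β + γ = 1) : 1 / 4 ≤ α := by
  by_contra hc
  have k1 := h.zero (h.shift k (-2) 0 1 1) (by
    push_cast
    rw [abs_of_nonpos (by linarith), abs_of_nonneg (by linarith), abs_of_nonneg (by linarith)]
    linarith)
  push_cast at k1
  obtain rfl : α = 0 := by linarith [k1.1]
  obtain rfl : β = 1 / 2 := by linarith [k1.2.1]
  obtain rfl : γ = 1 / 2 := by linarith [k1.2.2]
  refine mid h.dq h.dr ?_ ?_
  · simpa using h.out k (by norm_num)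
  · have := h.out (h.shift k 1 0 0 (-1)) (by norm_num)
    convert this using 1
    push_cast
    module

lemma iter (h : Tr L p q r) (n : ℕ) : ∀ {α β γ : ℝ}, α • p + β • q + γ • r ∈ L → α ≤ 1 / 2 →
    β ≤ 1 / 2 → γ ≤ 1 / 2 → α + β + γ = 1 → 2 ^ n * |3 * α - 1| ≤ 1 := by
  induction n with
  | zero =>
    intro α β γ _ h1 h2 h3 hs
    rw [pow_zero, one_mul, abs_le]
    constructor <;> linarith
  | succ n ih =>
    intro α β γ k h1 h2 h3 hs
    have k1 := h.quarter k (by linarith) h2 h3 hs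
    have k2 := h.rot.quarter (mrot k) (by linarith) h3 h1 (by linarith)
    have k3 := h.rot.rot.quarter (mrot (mrot k)) (by linarith) h1 h2 (by linarith)
    have k4 := h.shift k (-2) 1 1 1
    push_cast at k4
    have k5 := ih k4 (by linarith) (by linarith) (by linarith) (by linarith)
    rw [show 3 * (-2 * α + 1) - 1 = -2 * (3 * α - 1) by ring, abs_mul, abs_neg, abs_two] at k5
    rw [pow_succ]
    linarith

lemma eq_third (h : Tr L p q r) (k : α • p + β • q + γ • r ∈ L) (h1 : α ≤ 1 / 2)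
    (h2 : β ≤ 1 / 2) (h3 : γ ≤ 1 / 2) (hs : α + β + γ = 1) : α = 1 / 3 := by
  by_contra hc
  have h0 : 0 < |3 * α - 1| := abs_pos.2 fun h => hc (by linarith)
  obtain ⟨n, hn⟩ := pow_unbounded_of_one_lt (1 / |3 * α - 1|) (by norm_num : (1 : ℝ) < 2)
  rw [div_lt_iff₀ h0] at hn
  linarith [h.iter n k h1 h2 h3 hs]

lemma nonneg (h : Tr L p q r) (k : α • p + β • q + γ • r ∈ L) (a0 : 0 ≤ α) (b0 : 0 ≤ β)
    (c0 : 0 ≤ γ) (h1 : α ≤ 1 / 2) (h2 : β ≤ 1 / 2) (h3 : γ ≤ 1 / 2) : α = 0 ∨ α = 1 / 2 := by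
  rcases lt_trichotomy (α + β + γ) 1 with hs | hs | hs
  · exact Or.inl (h.zero k (by rwa [abs_of_nonneg a0, abs_of_nonneg b0, abs_of_nonneg c0])).1
  · exfalso
    obtain rfl := h.eq_third k h1 h2 h3 hs
    obtain rfl := h.rot.eq_third (mrot k) h2 h3 h1 (by linarith)
    obtain rfl : γ = 1 / 3 := by linarith
    refine third h.dp h.dq h.dr rfl (h.out k (by norm_num)) ?_ ?_ ?_
    · convert h.out (h.shift k 1 (-1) 0 0) (by norm_num) using 1
      push_cast
      module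
    · convert h.out (h.shift k 1 0 (-1) 0) (by norm_num) using 1
      push_cast
      module
    · convert h.out (h.shift k 1 0 0 (-1)) (by norm_num) using 1
      push_cast
      module
  · have k1 := h.zero (h.shift k (-2) 1 1 1) (by
      push_cast
      rw [abs_of_nonneg (by linarith), abs_of_nonneg (by linarith), abs_of_nonneg (by linarith)]
      linarith)
    push_cast at k1
    exact Or.inr (by linarith [k1.1])

lemma sign (h : Tr L p q r) (α : ℝ) : ∃ p', Tr L p' q r ∧ α • p = |α| • p' := by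
  rcases le_total 0 α with h0 | h0
  · exact ⟨p, h, by rw [abs_of_nonneg h0]⟩
  · exact ⟨-p, h.neg, by rw [abs_of_nonpos h0, neg_smul_neg]⟩

lemma half (h : Tr L p q r) (k : α • p + β • q + γ • r ∈ L) : ∃ i : ℤ, 2 * α = i := by
  have k1 := h.shift k 1 (-round α) (-round β) (-round γ)
  push_cast at k1
  simp only [one_mul, ← sub_eq_add_neg] at k1
  obtain ⟨p', h1, e1⟩ := h.sign (α - round α)
  obtain ⟨q', h2, e2⟩ := h1.rot.sign (β - round β)
  obtain ⟨r', h3, e3⟩ := h2.rot.sign (γ - round γ)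
  rw [e1, e2, e3] at k1
  rcases h3.rot.nonneg k1 (abs_nonneg _) (abs_nonneg _) (abs_nonneg _) (abs_sub_round α)
    (abs_sub_round β) (abs_sub_round γ) with h4 | h4
  · exact ⟨2 * round α, by push_cast; linarith [abs_eq_zero.1 h4]⟩
  · rcases (abs_eq (by norm_num)).1 h4 with h5 | h5
    · exact ⟨2 * round α + 1, by push_cast; linarith⟩
    · exact ⟨2 * round α - 1, by push_cast; linarith⟩

end Tr

/-- The lattice generated by three vectors. -/
def lat (a b c : E3) : AddSubgroup E3 where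
  carrier := {x | ∃ i j k, x = lv a b c i j k}
  add_mem' := by
    rintro _ _ ⟨i, j, k, rfl⟩ ⟨i', j', k', rfl⟩
    exact ⟨i + i', j + j', k + k', by simp only [lv]; push_cast; module⟩
  zero_mem' := ⟨0, 0, 0, by simp [lv]⟩
  neg_mem' := by
    rintro _ ⟨i, j, k, rfl⟩
    exact ⟨-i, -j, -k, by simp only [lv]; push_cast; module⟩

lemma indep {p q r : E3} (h : det3 p q r ≠ 0) (x y z : ℝ) (k : x • p + y • q + z • r = 0) :
    x = 0 ∧ y = 0 ∧ z = 0 := by
  have k0 : x * p 0 + y * q 0 + z * r 0 = 0 := congrArg (· 0) k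
  have k1 : x * p 1 + y * q 1 + z * r 1 = 0 := congrArg (· 1) k
  have k2 : x * p 2 + y * q 2 + z * r 2 = 0 := congrArg (· 2) k
  refine ⟨?_, ?_, ?_⟩ <;> refine mul_left_cancel₀ h ?_ <;> simp only [det3]
  · linear_combination (q 1 * r 2 - q 2 * r 1) * k0 + (q 2 * r 0 - q 0 * r 2) * k1 +
      (q 0 * r 1 - q 1 * r 0) * k2
  · linear_combination (r 1 * p 2 - r 2 * p 1) * k0 + (r 2 * p 0 - r 0 * p 2) * k1 +
      (r 0 * p 1 - r 1 * p 0) * k2
  · linear_combination (p 1 * q 2 - p 2 * q 1) * k0 + (p 2 * q 0 - p 0 * q 2) * k1 +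
      (p 0 * q 1 - p 1 * q 0) * k2

lemma cramer (a b c : E3) (p1 p2 p3 q1 q2 q3 r1 r2 r3 i j k : ℤ) :
    (idet i j k q1 q2 q3 r1 r2 r3 : ℝ) • lv a b c p1 p2 p3 +
      (idet p1 p2 p3 i j k r1 r2 r3 : ℝ) • lv a b c q1 q2 q3 +
      (idet p1 p2 p3 q1 q2 q3 i j k : ℝ) • lv a b c r1 r2 r3 =
      (idet p1 p2 p3 q1 q2 q3 r1 r2 r3 : ℝ) • lv a b c i j k := by
  simp only [lv, idet]
  push_cast
  module

/-- Three contact vectors with odd determinant form a basis. -/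
theorem odd_det {a b c : E3} (h : Adm a b c) {p1 p2 p3 q1 q2 q3 r1 r2 r3 : ℤ}
    (hp : InD (lv a b c p1 p2 p3)) (hq : InD (lv a b c q1 q2 q3)) (hr : InD (lv a b c r1 r2 r3))
    (ho : idet p1 p2 p3 q1 q2 q3 r1 r2 r3 % 2 = 1) :
    idet p1 p2 p3 q1 q2 q3 r1 r2 r3 = 1 ∨ idet p1 p2 p3 q1 q2 q3 r1 r2 r3 = -1 := by
  obtain ⟨N, hN⟩ : ∃ N, N = idet p1 p2 p3 q1 q2 q3 r1 r2 r3 := ⟨_, rfl⟩
  have hN0 : (N : ℝ) ≠ 0 := by exact_mod_cast (by omega : N ≠ 0)
  have T : Tr (lat a b c) (lv a b c p1 p2 p3) (lv a b c q1 q2 q3) (lv a b c r1 r2 r3) :=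
    ⟨by
      rintro _ ⟨i, j, k, rfl⟩ h0
      refine h i j k fun ⟨e1, e2, e3⟩ => h0 ?_
      simp [lv, e1, e2, e3], ⟨_, _, _, rfl⟩, ⟨_, _, _, rfl⟩, ⟨_, _, _, rfl⟩, hp, hq, hr,
      indep (by rw [det_lv, ← hN]; exact mul_ne_zero hN0 h.reduce.1)⟩
  have dv : ∀ (x : ℤ), (∃ i : ℤ, 2 * ((x : ℝ) / N) = i) → ∃ y, x = N * y := by
    rintro x ⟨i, hi⟩
    have h1 : (2 * x : ℝ) = N * i := by rw [← hi]; field_simp
    have h2 : 2 * x = N * i := by exact_mod_cast h1
    obtain ⟨m, hm⟩ : ∃ m, N = 2 * m + 1 := ⟨N / 2, by omega⟩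
    exact ⟨x - m * i, by linear_combination (-m) * h2 - x * hm⟩
  have key : ∀ i j k : ℤ, (∃ y, idet i j k q1 q2 q3 r1 r2 r3 = N * y) ∧
      (∃ y, idet p1 p2 p3 i j k r1 r2 r3 = N * y) ∧
      (∃ y, idet p1 p2 p3 q1 q2 q3 i j k = N * y) := fun i j k => by
    have m : ((idet i j k q1 q2 q3 r1 r2 r3 : ℝ) / N) • lv a b c p1 p2 p3 +
        ((idet p1 p2 p3 i j k r1 r2 r3 : ℝ) / N) • lv a b c q1 q2 q3 +
        ((idet p1 p2 p3 q1 q2 q3 i j k : ℝ) / N) • lv a b c r1 r2 r3 ∈ lat a b c := by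
      refine ⟨i, j, k, smul_right_injective _ hN0 ?_⟩
      simp only [smul_add, smul_smul, mul_div_cancel₀ _ hN0]
      rw [cramer, hN]
    exact ⟨dv _ (T.half m), dv _ (T.rot.half (Tr.mrot m)),
      dv _ (T.rot.rot.half (Tr.mrot (Tr.mrot m)))⟩
  obtain ⟨⟨x1, e1⟩, ⟨y1, f1⟩, z1, g1⟩ := key 1 0 0
  obtain ⟨⟨x2, e2⟩, ⟨y2, f2⟩, z2, g2⟩ := key 0 1 0
  obtain ⟨⟨x3, e3⟩, ⟨y3, f3⟩, z3, g3⟩ := key 0 0 1
  have k1 : idet (N * x1) (N * x2) (N * x3) (N * y1) (N * y2) (N * y3) (N * z1) (N * z2) (N * z3) =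
      N ^ 2 := by
    rw [← e1, ← e2, ← e3, ← f1, ← f2, ← f3, ← g1, ← g2, ← g3, hN]
    simp only [idet]
    ring
  have k2 : N * idet x1 x2 x3 y1 y2 y3 z1 z2 z3 = 1 :=
    mul_left_cancel₀ (pow_ne_zero 2 (by omega : N ≠ 0)) (by
      simp only [idet] at k1 ⊢
      linear_combination k1)
  exact hN ▸ Int.eq_one_or_neg_one_of_mul_eq_one k2

end Pool.Agent.P.MP_c4753b_co.Three
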