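import Pool.Agent.P.MP_c4753b_co.Plane2

/-!
Every inner point of a saturated packing gets two Delaunay triangles.
-/

namespace Pool.Agent.P.MP_c4753b_co.Plane

open Set

section
variable {V : Type*} [AddCommGroup V] [Module ℝ V] (N : Seminorm ℝ V) (ξ η : V →ₗ[ℝ] ℝ)

lemma cramer (hinj : ∀ v, ξ v = 0 → η v = 0 → v = 0) {u v : V} (h : dt ξ η u v ≠ 0) (w : V) :
    w = (dt ξ η w v / dt ξ η u v) • u + (dt ξ η u w / dt ξ η u v) • v := by
  refine sub_eq_zero.1 (hinj _ ?_ ?_)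
  · simp only [map_sub, map_add, map_smul, smul_eq_mul]
    field_simp
    simp only [dt]; ring
  · simp only [map_sub, map_add, map_smul, smul_eq_mul]
    field_simp
    simp only [dt]; ring

lemma not_col (hs : ∀ x y, N (x + y) = N x + N y → N y • x = N x • y)
    (h0 : ∀ x, N x = 0 → x = 0) (hinj : ∀ v, ξ v = 0 → η v = 0 → v = 0) {p q r c : V} {ρ : ℝ}
    (hp : N (p - c) = ρ) (hq : N (q - c) = ρ) (hr : N (r - c) = ρ) (h1 : ξ p < ξ q)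
    (h2 : ξ q < ξ r) : dt ξ η (q - p) (r - p) ≠ 0 := by
  intro h
  obtain ⟨t, ht⟩ : ∃ t, t = (ξ q - ξ p) / (ξ r - ξ p) := ⟨_, rfl⟩
  have t0 : 0 < t := ht ▸ div_pos (by linarith) (by linarith)
  have t1 : t < 1 := ht ▸ (div_lt_one (by linarith)).2 (by linarith)
  have hrp : ξ r - ξ p ≠ 0 := by linarith
  rw [eq_div_iff hrp] at ht
  have e : q - c = (1 - t) • (p - c) + t • (r - c) := by
    refine sub_eq_zero.1 (hinj _ ?_ ?_)
    · simp only [map_sub, map_add, map_smul, smul_eq_mul]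
      linear_combination (-1) * ht
    · simp only [dt, map_sub, map_add, map_smul, smul_eq_mul] at h ⊢
      refine mul_left_cancel₀ hrp ?_
      linear_combination (-1) * h - (η r - η p) * ht
  have h3 : N ((1 - t) • (p - c)) = (1 - t) * ρ := by rw [sm N (by linarith), hp]
  have h4 : N (t • (r - c)) = t * ρ := by rw [sm N t0.le, hr]
  have h5 := hs ((1 - t) • (p - c)) (t • (r - c)) (by rw [← e, hq, h3, h4]; ring)
  have hρ : ρ ≠ 0 := by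
    rintro rfl
    rw [(sub_eq_zero.1 (h0 _ hp)).trans (sub_eq_zero.1 (h0 _ hq)).symm] at h1
    exact lt_irrefl _ h1
  rw [h3, h4, smul_smul, smul_smul, show (1 - t) * ρ * t = t * ρ * (1 - t) by ring] at h5
  have h7 : t * ρ * (1 - t) ≠ 0 := mul_ne_zero (mul_ne_zero t0.ne' hρ) (by linarith)
  rw [sub_left_injective (smul_right_injective V h7 h5)] at hrp
  exact hrp (sub_self _)

lemma next_slope {ι : Type*} (A : Finset ι) (s : ι → ℝ) {m : ι} (hm : m ∈ A) (x : ι) :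
    ∃ y, s x ≠ s m → y ∈ A ∧ ((s x < s y ∧ s y ≤ s m ∧ ∀ w ∈ A, s x < s w → s y ≤ s w) ∨
      (s y < s x ∧ s m ≤ s y ∧ ∀ w ∈ A, s w < s x → s w ≤ s y)) := by
  rcases lt_trichotomy (s x) (s m) with h | h | h
  · obtain ⟨y, hy, h1⟩ := Finset.exists_min_image (A.filter fun w => s x < s w) s
      ⟨m, Finset.mem_filter.2 ⟨hm, h⟩⟩
    rw [Finset.mem_filter] at hy
    exact ⟨y, fun _ => ⟨hy.1, Or.inl ⟨hy.2, h1 m (Finset.mem_filter.2 ⟨hm, h⟩),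
      fun w hw hw' => h1 w (Finset.mem_filter.2 ⟨hw, hw'⟩)⟩⟩⟩
  · exact ⟨m, fun h' => absurd h h'⟩
  · obtain ⟨y, hy, h1⟩ := Finset.exists_max_image (A.filter fun w => s w < s x) s
      ⟨m, Finset.mem_filter.2 ⟨hm, h⟩⟩
    rw [Finset.mem_filter] at hy
    exact ⟨y, fun _ => ⟨hy.1, Or.inr ⟨hy.2, h1 m (Finset.mem_filter.2 ⟨hm, h⟩),
      fun w hw hw' => h1 w (Finset.mem_filter.2 ⟨hw, hw'⟩)⟩⟩⟩

lemma slope_btw {v x y z : V} (hx : ξ v < ξ x) (hy : ξ v < ξ y) (hz : z ∈ otri v x y) :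
    (η (x - v) / ξ (x - v) < η (y - v) / ξ (y - v) →
      η (x - v) / ξ (x - v) < η (z - v) / ξ (z - v) ∧
        η (z - v) / ξ (z - v) < η (y - v) / ξ (y - v)) ∧
    (η (y - v) / ξ (y - v) < η (x - v) / ξ (x - v) →
      η (y - v) / ξ (y - v) < η (z - v) / ξ (z - v) ∧
        η (z - v) / ξ (z - v) < η (x - v) / ξ (x - v)) := by
  obtain ⟨α, β, hα, hβ, -, e⟩ := hz
  have e' : z - v = α • (x - v) + β • (y - v) := by rw [e]; abel
  have h1 : 0 < ξ (x - v) := by rw [map_sub]; linarith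
  have h2 : 0 < ξ (y - v) := by rw [map_sub]; linarith
  rw [e', map_add, map_add, map_smul, map_smul, map_smul, map_smul]
  simp only [smul_eq_mul]
  have h3 : 0 < α * ξ (x - v) + β * ξ (y - v) := by positivity
  rw [div_lt_div_iff₀ h1 h2, div_lt_div_iff₀ h2 h1, div_lt_div_iff₀ h1 h3, div_lt_div_iff₀ h3 h2,
    div_lt_div_iff₀ h2 h3, div_lt_div_iff₀ h3 h1]
  exact ⟨fun h => ⟨by nlinarith, by nlinarith⟩, fun h => ⟨by nlinarith, by nlinarith⟩⟩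

/-- Fan triangulation of a finite set in convex position. -/
lemma fan (S : Finset V) (hξ : InjOn ξ S)
    (hnc : ∀ p ∈ S, ∀ q ∈ S, ∀ r ∈ S, ξ p < ξ q → ξ q < ξ r → dt ξ η (q - p) (r - p) ≠ 0) :
    ∃ T : V → Fin 3 → V, ∀ x ∈ S, (∃ y ∈ S, ξ y < ξ x) → (∃ y ∈ S, ξ x < ξ y) →
      (∀ i, T x i ∈ S) ∧ dt ξ η (T x 1 - T x 0) (T x 2 - T x 0) ≠ 0 ∧
      ∀ x' ∈ S, (∃ y ∈ S, ξ y < ξ x') → (∃ y ∈ S, ξ x' < ξ y) → x ≠ x' →
        Disjoint (otri (T x 0) (T x 1) (T x 2)) (otri (T x' 0) (T x' 1) (T x' 2)) := by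
  classical
  rcases S.eq_empty_or_nonempty with rfl | hS
  · exact ⟨fun _ _ => 0, fun x hx => absurd hx (Finset.notMem_empty x)⟩
  obtain ⟨v, hv, hmin⟩ := Finset.exists_min_image S ξ hS
  obtain ⟨m, hm, hmax⟩ := Finset.exists_max_image S ξ hS
  by_cases hvm : ¬ ξ v < ξ m
  · refine ⟨fun _ _ => 0, fun x hx ⟨y, hy, h⟩ => absurd ?_ hvm⟩
    linarith [hmin y hy, hmax x hx]
  push Not at hvm
  let A := S.filter fun y => ξ v < ξ y
  let s : V → ℝ := fun y => η (y - v) / ξ (y - v)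
  have hdt : ∀ x ∈ A, ∀ y ∈ A, (dt ξ η (x - v) (y - v) = 0 ↔ s x = s y) := by
    intro x hx y hy
    have h1 : ξ (x - v) ≠ 0 := by rw [map_sub]; linarith [(Finset.mem_filter.1 hx).2]
    have h2 : ξ (y - v) ≠ 0 := by rw [map_sub]; linarith [(Finset.mem_filter.1 hy).2]
    simp only [s, dt]
    rw [div_eq_div_iff h1 h2]
    constructor <;> intro h <;> linarith
  have hinj : ∀ x ∈ A, ∀ y ∈ A, x ≠ y → s x ≠ s y := by
    intro x hx y hy hxy h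
    have hx' := Finset.mem_filter.1 hx
    have hy' := Finset.mem_filter.1 hy
    rcases lt_trichotomy (ξ x) (ξ y) with h1 | h1 | h1
    · exact hnc v hv x hx'.1 y hy'.1 hx'.2 h1 ((hdt x hx y hy).2 h)
    · exact hxy (hξ hx'.1 hy'.1 h1)
    · exact hnc v hv y hy'.1 x hx'.1 hy'.2 h1 ((hdt y hy x hx).2 h.symm)
  have hmA : m ∈ A := Finset.mem_filter.2 ⟨hm, hvm⟩
  choose nx hnx using next_slope A s hmA
  have good : ∀ x ∈ S, (∃ y ∈ S, ξ y < ξ x) → (∃ y ∈ S, ξ x < ξ y) → x ∈ A ∧ s x ≠ s m := by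
    rintro x hx ⟨y, hy, h⟩ ⟨y', hy', h'⟩
    have hxA : x ∈ A := Finset.mem_filter.2 ⟨hx, (hmin y hy).trans_lt h⟩
    refine ⟨hxA, hinj x hxA m hmA ?_⟩
    rintro rfl
    linarith [hmax y' hy']
  refine ⟨fun x => ![v, x, nx x], fun x hx hl hr => ?_⟩
  obtain ⟨hxA, hxm⟩ := good x hx hl hr
  obtain ⟨hn, hc⟩ := hnx x hxm
  refine ⟨fun i => ?_, fun h => ?_, fun x' hx' hl' hr' hne => ?_⟩
  · fin_cases i
    · exact hv
    · exact hx
    · exact (Finset.mem_filter.1 hn).1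
  · have h1 := (hdt x hxA _ hn).1 h
    rcases hc with h2 | h2 <;> linarith [h2.1]
  · obtain ⟨hxA', hxm'⟩ := good x' hx' hl' hr'
    obtain ⟨hn', hc'⟩ := hnx x' hxm'
    rw [Set.disjoint_left]
    intro z hz hz'
    have b : (s x < s (nx x) → s x < s z ∧ s z < s (nx x)) ∧
        (s (nx x) < s x → s (nx x) < s z ∧ s z < s x) :=
      slope_btw ξ η (Finset.mem_filter.1 hxA).2 (Finset.mem_filter.1 hn).2 hz
    have b' : (s x' < s (nx x') → s x' < s z ∧ s z < s (nx x')) ∧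
        (s (nx x') < s x' → s (nx x') < s z ∧ s z < s x') :=
      slope_btw ξ η (Finset.mem_filter.1 hxA').2 (Finset.mem_filter.1 hn').2 hz'
    have hs := hinj x hxA x' hxA' hne
    rcases hc with ⟨c1, c2, c3⟩ | ⟨c1, c2, c3⟩ <;> rcases hc' with ⟨d1, d2, d3⟩ | ⟨d1, d2, d3⟩
    · rcases lt_or_gt_of_ne hs with h | h
      · linarith [c3 x' hxA' h, (b.1 c1).2, (b'.1 d1).1]
      · linarith [d3 x hxA h, (b.1 c1).1, (b'.1 d1).2]
    · linarith [(b.1 c1).2, (b'.2 d1).1]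
    · linarith [(b.2 c1).1, (b'.1 d1).2]
    · rcases lt_or_gt_of_ne hs with h | h
      · linarith [d3 x hxA h, (b.2 c1).2, (b'.2 d1).1]
      · linarith [c3 x' hxA' h, (b.2 c1).1, (b'.2 d1).2]

end

variable {V : Type*} [NormedAddCommGroup V] [NormedSpace ℝ V] (N : Seminorm ℝ V)
  (ξ η : V →ₗ[ℝ] ℝ)

/-- An empty ball through `x` with further points on both sides, its centre on a given side. -/
lemma exists_ball (hN : Continuous N) (hs : ∀ x y, N (x + y) = N x + N y → N y • x = N x • y)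
    (h0 : ∀ x, N x = 0 → x = 0) (Y : Finset V) (hξ : InjOn ξ Y) {e f x : V}
    (he : N e = 1) (hmax : ∀ v, ξ v ≤ N v * ξ e) (hef : dt ξ η e f ≠ 0) (hx : x ∈ Y)
    (hcov : ∀ c, N (x - c) ≤ 1 → ∃ y ∈ Y, N (y - c) < 1) :
    ∃ c : V, ∃ ρ : ℝ, ρ < 1 ∧ N (x - c) = ρ ∧ (∀ y ∈ Y, ρ ≤ N (y - c)) ∧
      (∃ y ∈ Y, N (y - c) = ρ ∧ ξ y < ξ x) ∧ (∃ y ∈ Y, N (y - c) = ρ ∧ ξ x < ξ y) ∧
      0 < dt ξ η e (c - x) * dt ξ η e f := by
  let w : ℝ → V := fun τ => τ • e + (1 - |τ|) • f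
  have hw : ∀ τ, dt ξ η e (w τ) = (1 - |τ|) * dt ξ η e f := fun τ => by
    simp only [w, dt, map_add, map_smul, smul_eq_mul]; ring
  have hw0 : ∀ τ, 0 < N (w τ) := by
    intro τ
    refine (apply_nonneg N _).lt_of_ne' fun h => ?_
    have h1 := hw τ
    rw [h0 _ h] at h1
    have h2 : 1 - |τ| = 0 := by
      refine (mul_eq_zero.1 (h1.symm.trans ?_)).resolve_right hef
      simp [dt]
    simp only [w, h2, zero_smul, add_zero, map_smul_eq_mul, he, Real.norm_eq_abs] at h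
    linarith
  let u : ℝ → V := fun τ => (N (w τ))⁻¹ • w τ
  have hu : ∀ τ, N (u τ) = 1 := fun τ => by
    rw [sm N (inv_pos.2 (hw0 τ)).le, inv_mul_cancel₀ (hw0 τ).ne']
  have hwc : Continuous w := by fun_prop
  have huc : Continuous u := ((hN.comp hwc).inv₀ fun τ => (hw0 τ).ne').smul hwc
  have hxc : ∀ τ ρ, 0 ≤ ρ → N (x - (x + ρ • u τ)) = ρ := fun τ ρ hρ => by
    rw [sub_add_cancel_left, map_neg_eq_map, sm N hρ, hu, mul_one]
  have hcont : ∀ y, Continuous fun p : ℝ × ℝ => N (y - (x + p.2 • u p.1)) := fun y =>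
    hN.comp (by fun_prop)
  let A : (V → Prop) → Set ℝ := fun P => Prod.fst '' ((Icc (-1) 1 ×ˢ Icc 0 1) ∩
    ((⋂ y ∈ Y, {p : ℝ × ℝ | p.2 ≤ N (y - (x + p.2 • u p.1))}) ∩
      ⋃ y ∈ {y | y ∈ Y ∧ P y}, {p : ℝ × ℝ | N (y - (x + p.2 • u p.1)) = p.2}))
  have hA : ∀ P, IsClosed (A P) := fun P =>
    (((isCompact_Icc.prod isCompact_Icc).inter_right ((isClosed_biInter fun y _ =>
      isClosed_le continuous_snd (hcont y)).inter ((Y.finite_toSet.subset fun y hy =>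
        hy.1).isClosed_biUnion fun y _ => isClosed_eq (hcont y) continuous_snd))).image
      continuous_fst).isClosed
  have mA : ∀ P τ, τ ∈ A P ↔ τ ∈ Icc (-1 : ℝ) 1 ∧ ∃ ρ ∈ Icc (0 : ℝ) 1,
      (∀ y ∈ Y, ρ ≤ N (y - (x + ρ • u τ))) ∧ ∃ y ∈ Y, P y ∧ N (y - (x + ρ • u τ)) = ρ := by
    intro P τ
    simp only [A, mem_image, mem_inter_iff, mem_prod, mem_iInter, mem_iUnion, mem_ofPred_eq,
      Prod.exists, exists_prop]
    constructor
    · rintro ⟨a, b, ⟨⟨h1, h2⟩, h3, y, ⟨h4, h5⟩, h6⟩, rfl⟩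
      exact ⟨h1, b, h2, h3, y, h4, h5, h6⟩
    · rintro ⟨h1, b, h2, h3, y, h4, h5, h6⟩
      exact ⟨τ, b, ⟨⟨h1, h2⟩, h3, y, ⟨h4, h5⟩, h6⟩, rfl⟩
  have cover : Icc (-1 : ℝ) 1 ⊆ A (fun y => ξ y < ξ x) ∪ A (fun y => ξ x < ξ y) := by
    intro τ hτ
    have hc : ∀ y, Continuous fun ρ : ℝ => N (y - (x + ρ • u τ)) := fun y =>
      hN.comp (by fun_prop)
    obtain ⟨ρ, hρ, h1, h2⟩ := isPreconnected_closed_iff.1 (isPreconnected_Icc (a := (0 : ℝ))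
      (b := 1)) (⋂ y ∈ {y | y ∈ Y ∧ y ≠ x}, {ρ | ρ ≤ N (y - (x + ρ • u τ))})
      (⋃ y ∈ {y | y ∈ Y ∧ y ≠ x}, {ρ | N (y - (x + ρ • u τ)) ≤ ρ})
      (isClosed_biInter fun y _ => isClosed_le continuous_id (hc y))
      ((Y.finite_toSet.subset fun y hy => hy.1).isClosed_biUnion fun y _ =>
        isClosed_le (hc y) continuous_id)
      (fun ρ _ => by
        by_contra h
        simp only [mem_union, mem_iInter, mem_iUnion, mem_ofPred_eq, not_or, not_forall,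
          not_exists, not_le] at h
        obtain ⟨⟨y, hy, h1⟩, h2⟩ := h
        linarith [h2 y hy])
      ⟨0, ⟨le_rfl, zero_le_one⟩, mem_iInter₂.2 fun y _ => apply_nonneg N _⟩
      (by
        obtain ⟨y, hy, h⟩ := hcov (x + (1 : ℝ) • u τ) (hxc τ 1 zero_le_one).le
        refine ⟨1, ⟨zero_le_one, le_rfl⟩, mem_iUnion₂.2 ⟨y, ⟨hy, ?_⟩, h.le⟩⟩
        rintro rfl
        exact h.ne (hxc τ 1 zero_le_one))
    obtain ⟨y, ⟨hy, hyx⟩, h3⟩ := mem_iUnion₂.1 h2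
    have h4 : ∀ y ∈ Y, ρ ≤ N (y - (x + ρ • u τ)) := fun y hy => by
      by_cases h : y = x
      · rw [h, hxc τ ρ hρ.1]
      · exact mem_iInter₂.1 h1 y ⟨hy, h⟩
    rcases lt_or_gt_of_ne (fun h => hyx (hξ hy hx h)) with h | h
    · exact Or.inl ((mA _ _).2 ⟨hτ, ρ, hρ, h4, y, hy, h, le_antisymm h3 (h4 y hy)⟩)
    · exact Or.inr ((mA _ _).2 ⟨hτ, ρ, hρ, h4, y, hy, h, le_antisymm h3 (h4 y hy)⟩)
  have nR : (-1 : ℝ) ∉ A (fun y => ξ x < ξ y) := by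
    rw [mA]
    rintro ⟨-, ρ, -, -, y, -, h1, h2⟩
    have h3 := hmax (y - (x + ρ • u (-1)))
    rw [h2] at h3
    simp [u, w, he] at h3
    linarith
  have nL : (1 : ℝ) ∉ A (fun y => ξ y < ξ x) := by
    rw [mA]
    rintro ⟨-, ρ, -, -, y, -, h1, h2⟩
    have h3 := hmax (-(y - (x + ρ • u 1)))
    rw [map_neg_eq_map N, h2] at h3
    simp [u, w, he] at h3
    linarith
  have m1 : (-1 : ℝ) ∈ Icc (-1 : ℝ) 1 := ⟨le_rfl, by norm_num⟩
  have m2 : (1 : ℝ) ∈ Icc (-1 : ℝ) 1 := ⟨by norm_num, le_rfl⟩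
  obtain ⟨τ, hτ, hL, hR⟩ := isPreconnected_closed_iff.1 isPreconnected_Icc _ _ (hA _) (hA _) cover
    ⟨-1, m1, (cover m1).resolve_right nR⟩ ⟨1, m2, (cover m2).resolve_left nL⟩
  have ht : 0 < 1 - |τ| := by
    rw [sub_pos, abs_lt]
    exact ⟨hτ.1.lt_of_ne fun h => nR (h ▸ hR), hτ.2.lt_of_ne fun h => nL (h ▸ hL)⟩
  obtain ⟨-, ρ, hρ, h1, y, hy, h2, h3⟩ := (mA _ _).1 hL
  obtain ⟨-, ρ', hρ', h1', y', hy', h2', h3'⟩ := (mA _ _).1 hR
  have same : ∀ {r r' : ℝ} {y : V}, y ≠ x → N (y - (x + r • u τ)) = r →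
      r' ≤ N (y - (x + r' • u τ)) → r' ≤ r := by
    intro r r' y hyx a1 a2
    by_contra h
    push Not at h
    have a3 : N (-((r' - r) • u τ)) = r' - r := by
      rw [map_neg_eq_map, sm N (by linarith), hu, mul_one]
    have e : y - (x + r • u τ) + -((r' - r) • u τ) = y - (x + r' • u τ) := by module
    have a4 := map_add_le_add N (y - (x + r • u τ)) (-((r' - r) • u τ))
    have a5 := hs (y - (x + r • u τ)) (-((r' - r) • u τ))
    rw [e, a1, a3] at a4 a5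
    have a6 := a5 (by linarith)
    have a7 : (r' - r) • (y - x) =
        (r' - r) • (y - (x + r • u τ)) - r • -((r' - r) • u τ) := by module
    rw [a6, sub_self, smul_eq_zero] at a7
    exact hyx (sub_eq_zero.1 (a7.resolve_left (by linarith)))
  have hyx : y ≠ x := fun h => by rw [h] at h2; exact lt_irrefl _ h2
  have hyx' : y' ≠ x := fun h => by rw [h] at h2'; exact lt_irrefl _ h2'
  obtain rfl : ρ = ρ' := le_antisymm (same hyx' h3' (h1 y' hy')) (same hyx h3 (h1' y hy))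
  have hρ0 : 0 < ρ := by
    refine hρ.1.lt_of_ne fun h => ?_
    rw [← h, zero_smul, add_zero] at h3
    exact hyx (sub_eq_zero.1 (h0 _ h3))
  obtain ⟨y₀, hy₀, h4⟩ := hcov (x + ρ • u τ) ((hxc τ ρ hρ.1).trans_le hρ.2)
  refine ⟨x + ρ • u τ, ρ, (h1 y₀ hy₀).trans_lt h4, hxc τ ρ hρ.1, h1, ⟨y, hy, h3, h2⟩,
    ⟨y', hy', h3', h2'⟩, ?_⟩
  have h5 : dt ξ η e (x + ρ • u τ - x) = ρ * (N (w τ))⁻¹ * dt ξ η e (w τ) := by
    simp only [u, dt, add_sub_cancel_left, map_smul, smul_eq_mul]; ring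
  rw [h5, hw, mul_assoc, mul_assoc (1 - |τ|)]
  exact mul_pos (mul_pos hρ0 (inv_pos.2 (hw0 τ))) (mul_pos ht (mul_self_pos.2 hef))

/-- Two triangles for each inner point, pairwise without overlap, each spanning an admissible
lattice. -/
theorem exists_triangles (hN : Continuous N)
    (hs : ∀ x y, N (x + y) = N x + N y → N y • x = N x • y) (h0 : ∀ x, N x = 0 → x = 0)
    (hinj : ∀ v, ξ v = 0 → η v = 0 → v = 0) (Y : Finset V)
    (hsep : ∀ x ∈ Y, ∀ y ∈ Y, x ≠ y → 1 ≤ N (x - y)) (hξ : InjOn ξ Y) {e f : V} (he : N e = 1)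
    (hmax : ∀ v, ξ v ≤ N v * ξ e) (hef : dt ξ η e f ≠ 0) (Y₀ : Set V) (hsub : Y₀ ⊆ Y)
    (hcov : ∀ x ∈ Y₀, ∀ c, N (x - c) ≤ 1 → ∃ y ∈ Y, N (y - c) < 1) :
    ∃ T : V × Bool → Fin 3 → V, ∀ i, i.1 ∈ Y₀ → (∀ k, N (T i k - i.1) ≤ 2) ∧
      dt ξ η (T i 1 - T i 0) (T i 2 - T i 0) ≠ 0 ∧
      (∀ a b : ℤ, a ≠ 0 ∨ b ≠ 0 → 1 ≤ N ((a : ℝ) • (T i 1 - T i 0) + (b : ℝ) • (T i 2 - T i 0))) ∧
      ∀ j, j.1 ∈ Y₀ → i ≠ j →
        Disjoint (otri (T i 0) (T i 1) (T i 2)) (otri (T j 0) (T j 1) (T j 2)) := by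
  classical
  have hb : ∀ i : V × Bool, ∃ B : V × ℝ, i.1 ∈ Y₀ → B.2 < 1 ∧ N (i.1 - B.1) = B.2 ∧
      (∀ y ∈ Y, B.2 ≤ N (y - B.1)) ∧ (∃ y ∈ Y, N (y - B.1) = B.2 ∧ ξ y < ξ i.1) ∧
      (∃ y ∈ Y, N (y - B.1) = B.2 ∧ ξ i.1 < ξ y) ∧
      0 < dt ξ η e (B.1 - i.1) * dt ξ η e (cond i.2 f (-f)) := by
    intro i
    by_cases hi : i.1 ∈ Y₀
    · obtain ⟨c, ρ, h⟩ := exists_ball N ξ η hN hs h0 Y hξ (f := cond i.2 f (-f)) he hmax
        (by cases i.2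
            · simp only [dt, cond_false, map_neg] at hef ⊢
              intro h; apply hef; linarith
            · exact hef) (hsub hi) (hcov _ hi)
      exact ⟨(c, ρ), fun _ => h⟩
    · exact ⟨(0, 0), fun h => absurd h hi⟩
  choose B hB using hb
  let S : V × ℝ → Finset V := fun b => Y.filter fun y => N (y - b.1) = b.2
  have mS : ∀ {b y}, y ∈ S b → y ∈ Y ∧ N (y - b.1) = b.2 := fun h => Finset.mem_filter.1 h
  choose T hT using fun b : V × ℝ => fan ξ η (S b)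
    (hξ.mono fun y hy => (mS hy).1) fun p hp q hq r hr h1 h2 =>
      not_col N ξ η hs h0 hinj (mS hp).2 (mS hq).2 (mS hr).2 h1 h2
  have pre : ∀ i : V × Bool, i.1 ∈ Y₀ → i.1 ∈ S (B i) ∧ (∃ y ∈ S (B i), ξ y < ξ i.1) ∧
      ∃ y ∈ S (B i), ξ i.1 < ξ y := by
    intro i hi
    obtain ⟨-, h2, -, ⟨y, hy, a1, a2⟩, ⟨y', hy', b1, b2⟩, -⟩ := hB i hi
    exact ⟨Finset.mem_filter.2 ⟨hsub hi, h2⟩, ⟨y, Finset.mem_filter.2 ⟨hy, a1⟩, a2⟩,
      ⟨y', Finset.mem_filter.2 ⟨hy', b1⟩, b2⟩⟩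
  refine ⟨fun i => T (B i) i.1, fun i hi => ?_⟩
  obtain ⟨p1, p2, p3⟩ := pre i hi
  obtain ⟨t1, t2, t3⟩ := hT (B i) i.1 p1 p2 p3
  obtain ⟨h1, h2, h3, -, -, h6⟩ := hB i hi
  refine ⟨fun k => ?_, t2, fun a b hab => ?_, fun j hj hij => ?_⟩
  · have h7 := map_sub_le_add N (T (B i) i.1 k - (B i).1) (i.1 - (B i).1)
    rw [sub_sub_sub_cancel_right, (mS (t1 k)).2, h2] at h7
    linarith
  · refine adm_triangle N h1 (mS (t1 0)).2 (mS (t1 1)).2 (mS (t1 2)).2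
      (hsep _ (mS (t1 1)).1 _ (mS (t1 0)).1 fun h => t2 ?_)
      (hsep _ (mS (t1 2)).1 _ (mS (t1 0)).1 fun h => t2 ?_)
      (hsep _ (mS (t1 2)).1 _ (mS (t1 1)).1 fun h => t2 ?_) (cramer ξ η hinj t2 _) a b hab
    · simp [dt, h]
    · simp [dt, h]
    · simp [dt, h, mul_comm]
  · obtain ⟨q1, q2, q3⟩ := pre j hj
    obtain ⟨s1, s2, -⟩ := hT (B j) j.1 q1 q2 q3
    obtain ⟨-, -, g3, -, -, g6⟩ := hB j hj
    by_cases hBB : B i = B j
    · have hne : i.1 ≠ j.1 := by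
        intro h
        have h7 : i.2 ≠ j.2 := fun h' => hij (Prod.ext h h')
        rw [← hBB, ← h] at g6
        revert h6 g6 h7
        cases i.2 <;> cases j.2 <;> simp only [dt, cond_false, cond_true, map_neg] <;>
          intro h6 g6 h7
        · exact h7 rfl
        · linarith
        · linarith
        · exact h7 rfl
      rw [← hBB] at q1 q2 q3
      simp only [← hBB]
      exact t3 j.1 q1 q2 q3 hne
    · exact disjoint_otri N ξ η hs h0 hinj hBB _ _ (fun k => (mS (t1 k)).2)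
        (fun k => g3 _ (mS (t1 k)).1) (fun k => (mS (s1 k)).2) (fun k => h3 _ (mS (s1 k)).1) t2 s2

end Pool.Agent.P.MP_c4753b_co.Plane
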