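import Pool.Agent.P.MP_c4753b_co.Density
import Pool.Agent.P.MP_c4753b_co.Plane3

/-!
The norm of the difference body, admissible lattices, and dimensions zero and one.
-/

namespace Pool.Agent.P.MP_c4753b_co.Plane

open MeasureTheory Set Filter Topology Module Submodule
open scoped Pointwise ENNReal

variable {d : ℕ}

lemma exists_norm {K : Set (EuclideanSpace ℝ (Fin d))} (hK : IsCompact K) (hc : Convex ℝ K)
    (hi : (interior K).Nonempty) :
    ∃ (N : Seminorm ℝ (EuclideanSpace ℝ (Fin d))) (C : ℝ), Continuous N ∧ 0 < C ∧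
      (∀ v, ‖v‖ ≤ C * N v) ∧ (∀ v, N v ≤ 1 → v ∈ K - K) ∧
      ∀ X, IsPacking K X ↔ X.Pairwise fun x y => 1 ≤ N (x - y) := by
  obtain ⟨k₀, hk₀⟩ := hi
  have hD : Convex ℝ (K - K) := hc.sub hc
  have hDc : IsCompact (K - K) := by
    rw [sub_eq_add_neg]; exact hK.add hK.neg
  have hsub : interior K - K ⊆ interior (K - K) :=
    interior_maximal (sub_subset_sub_right interior_subset) isOpen_interior.sub_right
  have hn : K - K ∈ 𝓝 (0 : EuclideanSpace ℝ (Fin d)) :=
    mem_interior_iff_mem_nhds.1 (hsub ⟨k₀, hk₀, k₀, interior_subset hk₀, sub_self _⟩)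
  have ha := absorbent_nhds_zero (𝕜 := ℝ) hn
  have hb : Balanced ℝ (K - K) := (balanced_iff_neg_mem hD).2 <| by
    rintro _ ⟨a, ha, b, hb, rfl⟩
    exact ⟨b, hb, a, ha, (neg_sub a b).symm⟩
  obtain ⟨C, hC0, hC⟩ := hDc.isBounded.exists_pos_norm_le
  refine ⟨gaugeSeminorm hb hD ha, C, continuous_gauge hD hn, hC0, fun v => ?_, fun v hv => ?_,
    fun X => ⟨fun h x hx y hy hxy => ?_, fun h x hx y hy hxy => ?_⟩⟩
  · have h1 := le_gauge_of_subset_closedBall (x := v) ha hC0.le fun w hw =>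
      mem_closedBall_zero_iff.2 (hC w hw)
    rw [div_le_iff₀' hC0] at h1
    exact h1
  · exact hDc.isClosed.closure_eq ▸ (gauge_le_one_iff_mem_closure hD hn).1 hv
  · by_contra h1
    obtain ⟨t, ht0, ht1, _, ⟨a, ha', b, hb', rfl⟩, e⟩ := exists_lt_of_gauge_lt ha (not_le.1 h1)
    have e' : t • (a - b) = x - y := e
    refine Set.not_disjoint_iff.2 ⟨x + (t • b + (1 - t) • k₀), ?_, ?_⟩ (h hx hy hxy)
    · rw [interior_vadd]
      exact ⟨_, hc.combo_self_interior_mem_interior hb' hk₀ ht0.le (by linarith) (by ring), rfl⟩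
    · rw [interior_vadd]
      refine ⟨_, hc.combo_self_interior_mem_interior ha' hk₀ ht0.le (b := 1 - t) (by linarith)
        (by ring), ?_⟩
      change y + _ = _
      rw [show x = y + t • (a - b) by rw [e']; abel]
      module
  · simp only [Set.disjoint_left, interior_vadd]
    rintro _ ⟨a, ha', rfl⟩ ⟨b, hb', e⟩
    have e' : y + b = x + a := e
    have h1 : x - y ∈ interior (K - K) :=
      hsub ⟨b, hb', a, interior_subset ha', by
        change b - a = _
        rw [sub_eq_sub_iff_add_eq_add, add_comm, e']⟩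
    exact absurd (h hx hy hxy) (not_le.2 (interior_subset_gauge_lt_one _ h1))

lemma basis_of_cdet (v : Fin d → EuclideanSpace ℝ (Fin d)) (h : cdet v ≠ 0) :
    ∃ b : Basis (Fin d) ℝ (EuclideanSpace ℝ (Fin d)), ⇑b = v := by
  have h1 : IsUnit ((EuclideanSpace.basisFun (Fin d) ℝ).toBasis.det v) := by
    rw [isUnit_iff_ne_zero, Basis.det_apply]
    rwa [cdet, ← Matrix.det_transpose] at h
  obtain ⟨h2, h3⟩ := (Basis.is_basis_iff_det _).2 h1
  exact ⟨Basis.mk h2 h3.ge, Basis.coe_mk _ _⟩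

lemma le_deltaL {K : Set (EuclideanSpace ℝ (Fin d))} (hK : IsCompact K) (hc : Convex ℝ K)
    (b : Basis (Fin d) ℝ (EuclideanSpace ℝ (Fin d)))
    (h : IsPacking K (span ℤ (range b) : Submodule ℤ _)) :
    volume K / ENNReal.ofReal |cdet b| ≤ deltaL K := by
  rw [← measure_interior_of_null_frontier (hc.addHaar_frontier volume)]
  refine (le_density_periodic b (K := K) (X := (span ℤ (range b) : Submodule ℤ _))
    (hK.isBounded.subset interior_subset) isOpen_interior.measurableSet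
    (fun g g' hg => ?_) fun g => ?_).trans ?_
  · have h1 := h g.2 g'.2 fun e => hg (Subtype.ext e)
    simp only [interior_vadd] at h1
    exact h1
  · exact (vadd_set_mono interior_subset).trans
      (subset_iUnion₂ (s := fun x (_ : x ∈ (span ℤ (range b) : Submodule ℤ _)) => x +ᵥ K) g.1 g.2)
  · exact le_iSup_of_le (span ℤ (range b)).toAddSubgroup (le_iSup_of_le inferInstance
      (le_iSup_of_le (ZSpan.span_top b) (le_iSup_of_le h le_rfl)))

/-- The volume of the body is bounded through the determinant of any admissible lattice. -/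
lemma volume_le {K : Set (EuclideanSpace ℝ (Fin d))} (hK : IsCompact K) (hc : Convex ℝ K)
    {N : Seminorm ℝ (EuclideanSpace ℝ (Fin d))}
    (hN : ∀ X, IsPacking K X ↔ X.Pairwise fun x y => 1 ≤ N (x - y))
    (v : Fin d → EuclideanSpace ℝ (Fin d)) (hv : cdet v ≠ 0)
    (h : ∀ n : Fin d → ℤ, n ≠ 0 → 1 ≤ N (∑ i, (n i : ℝ) • v i)) :
    volume K ≤ deltaL K * ENNReal.ofReal |cdet v| := by
  obtain ⟨b, rfl⟩ := basis_of_cdet v hv
  refine (ENNReal.div_le_iff (by simpa using hv) ENNReal.ofReal_ne_top).1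
    (le_deltaL hK hc b ((hN _).2 fun x hx y hy hxy => ?_))
  obtain ⟨n, hn⟩ := (mem_span_range_iff_exists_fun ℤ).1 (sub_mem hx hy)
  have h1 := h n (by
    rintro rfl
    exact hxy (sub_eq_zero.1 (by simpa using hn.symm)))
  simp only [Int.cast_smul_eq_zsmul] at h1
  rwa [hn] at h1

lemma deltaT_le_one (K : Set (EuclideanSpace ℝ (Fin d))) : deltaT K ≤ 1 :=
  iSup₂_le fun _ _ => limsup_le_of_le (h := Eventually.of_forall fun _ =>
    ENNReal.div_le_of_le_mul (by simpa using measure_mono inter_subset_left))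

lemma one_le_deltaL {K : Set (EuclideanSpace ℝ (Fin d))} (hK : IsCompact K) (hc : Convex ℝ K)
    {N : Seminorm ℝ (EuclideanSpace ℝ (Fin d))}
    (hN : ∀ X, IsPacking K X ↔ X.Pairwise fun x y => 1 ≤ N (x - y))
    (v : Fin d → EuclideanSpace ℝ (Fin d)) (hv : cdet v ≠ 0)
    (h : ∀ n : Fin d → ℤ, n ≠ 0 → 1 ≤ N (∑ i, (n i : ℝ) • v i))
    (hcov : ∀ z, ∃ g ∈ span ℤ (range v), z - g ∈ K) : 1 ≤ deltaL K := by
  have h1 := volume_le hK hc hN v hv h
  obtain ⟨b, rfl⟩ := basis_of_cdet v hv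
  have h2 := (cdet_le_of_cover b hcov).trans h1
  rwa [← ENNReal.div_le_iff (by simpa using hv) ENNReal.ofReal_ne_top,
    ENNReal.div_self (by simpa using hv) ENNReal.ofReal_ne_top] at h2

lemma dim_zero {K : Set (EuclideanSpace ℝ (Fin 0))} (hK : IsCompact K) (hc : Convex ℝ K)
    (hi : (interior K).Nonempty) : deltaT K ≤ deltaL K := by
  obtain ⟨N, C, -, -, -, -, hN⟩ := exists_norm hK hc hi
  obtain ⟨k, hk⟩ := hi
  refine (deltaT_le_one K).trans (one_le_deltaL hK hc hN (fun _ => 0) (by simp [cdet])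
    (fun n hn => absurd (Subsingleton.elim _ _) hn) fun z => ⟨0, zero_mem _, ?_⟩)
  rw [Subsingleton.elim (z - 0) k]
  exact interior_subset hk

lemma dim_one {K : Set (EuclideanSpace ℝ (Fin 1))} (hK : IsCompact K) (hc : Convex ℝ K)
    (hi : (interior K).Nonempty) : deltaT K ≤ deltaL K := by
  obtain ⟨N, C, -, hC, hb, hm, hN⟩ := exists_norm hK hc hi
  let e : EuclideanSpace ℝ (Fin 1) := EuclideanSpace.single 0 1
  have he : 0 < N e := by
    have h1 := hb e
    rw [show ‖e‖ = 1 by simp [e]] at h1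
    by_contra h
    nlinarith
  obtain ⟨u, hu⟩ : ∃ u, u = (N e)⁻¹ • e := ⟨_, rfl⟩
  have hu1 : N u = 1 := by rw [hu, sm N (inv_pos.2 he).le, inv_mul_cancel₀ he.ne']
  have hu0 : u 0 ≠ 0 := by simp [hu, e, he.ne']
  obtain ⟨a, ha, b, hb', hab⟩ := hm u hu1.le
  have hab' : a - b = u := hab
  refine (deltaT_le_one K).trans (one_le_deltaL hK hc hN (fun _ => u) (by simpa [cdet] using hu0)
    (fun n hn => ?_) fun z => ?_)
  · have h1 : n 0 ≠ 0 := fun h => hn (funext fun i => by rw [Subsingleton.elim i 0, h]; rfl)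
    rw [Fin.sum_univ_one, map_smul_eq_mul, hu1, mul_one, Real.norm_eq_abs]
    exact_mod_cast Int.one_le_abs h1
  · obtain ⟨t, ht⟩ : ∃ t : ℝ, z - b = t • u := ⟨(z - b) 0 / u 0, by
      ext i
      rw [Subsingleton.elim i 0, PiLp.smul_apply, smul_eq_mul, div_mul_cancel₀ _ hu0]⟩
    refine ⟨⌊t⌋ • u, smul_mem _ _ (subset_span ⟨0, rfl⟩), ?_⟩
    have h1 := hc ha hb' (Int.fract_nonneg t) (sub_nonneg.2 (Int.fract_lt_one t).le)
      (add_sub_cancel _ _)
    refine (congrArg (· ∈ K) ?_).mp h1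
    rw [eq_sub_iff_add_eq, ← Int.cast_smul_eq_zsmul ℝ, sub_eq_iff_eq_add.1 ht, ← hab', Int.fract]
    module

end Pool.Agent.P.MP_c4753b_co.Plane
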