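import Pool.Agent.P.MP_c4753b_co.Low1

/-!
The planar theorem: no translative packing of a planar convex body beats the best lattice packing.
-/

namespace Pool.Agent.P.MP_c4753b_co.Plane

open MeasureTheory Set Filter Topology Module Submodule
open scoped Pointwise ENNReal

lemma convex_otri {V : Type*} [AddCommGroup V] [Module ℝ V] (p q r : V) :
    Convex ℝ (otri p q r) := by
  rintro _ ⟨α, β, h1, h2, h3, rfl⟩ _ ⟨α', β', g1, g2, g3, rfl⟩ a b ha hb hab
  have pos : ∀ {s t : ℝ}, 0 < s → 0 < t → 0 < a * s + b * t := fun {s t} hs ht => by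
    rcases ha.eq_or_lt with rfl | h
    · rw [zero_add] at hab
      simpa [hab] using ht
    · positivity
  refine ⟨a * α + b * α', a * β + b * β', pos h1 g1, pos h2 g2, ?_, ?_⟩
  · have := pos (sub_pos.2 h3) (sub_pos.2 g3)
    linarith
  · rw [show b = 1 - a by linarith]; module

lemma volume_std : volume {w : EuclideanSpace ℝ (Fin 2) | 0 < w 0 ∧ 0 < w 1 ∧ w 0 + w 1 < 1} =
    ENNReal.ofReal (1 / 2) := by
  have h := ((volume_preserving_finTwoArrow ℝ).comp
    (PiLp.volume_preserving_ofLp (Fin 2))).measure_preimage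
    (s := regionBetween (fun _ : ℝ => (0 : ℝ)) (fun x => 1 - x) (Ioo 0 1))
    (measurableSet_regionBetween measurable_const (by fun_prop)
      measurableSet_Ioo).nullMeasurableSet
  have h2 : ∫ y in Ioo (0 : ℝ) 1, ((fun x : ℝ => 1 - x) - fun _ : ℝ => (0 : ℝ)) y = 1 / 2 := by
    rw [← integral_Ioc_eq_integral_Ioo, ← intervalIntegral.integral_of_le zero_le_one]
    simp only [Pi.sub_apply, sub_zero]
    rw [intervalIntegral.integral_sub (by simp) (by simp)]
    norm_num [integral_id]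
  rw [Measure.volume_eq_prod, volume_regionBetween_eq_integral (by simp)
    ((by fun_prop : Continuous fun x : ℝ => 1 - x).integrableOn_Icc.mono_set Ioo_subset_Icc_self)
    measurableSet_Ioo fun x hx => by linarith [hx.2], h2] at h
  rw [← h]
  congr 1
  ext w
  simp only [regionBetween, mem_ofPred_eq, mem_preimage, Function.comp, mem_Ioo,
    MeasurableEquiv.finTwoArrow_apply]
  exact ⟨fun ⟨a, b, c⟩ => ⟨⟨a, by linarith⟩, b, by linarith⟩,
    fun ⟨⟨a, _⟩, b, c⟩ => ⟨a, b, by linarith⟩⟩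

lemma cdet_two (u v : EuclideanSpace ℝ (Fin 2)) : cdet ![u, v] = u 0 * v 1 - u 1 * v 0 := by
  simp [cdet, Matrix.det_fin_two]

lemma volume_otri (p q r : EuclideanSpace ℝ (Fin 2)) :
    ENNReal.ofReal |cdet ![q - p, r - p]| = 2 * volume (otri p q r) := by
  let L : EuclideanSpace ℝ (Fin 2) →ₗ[ℝ] EuclideanSpace ℝ (Fin 2) :=
    (EuclideanSpace.projₗ (𝕜 := ℝ) (0 : Fin 2)).smulRight (q - p) +
      (EuclideanSpace.projₗ (𝕜 := ℝ) (1 : Fin 2)).smulRight (r - p)
  have e : otri p q r = p +ᵥ L '' {w | 0 < w 0 ∧ 0 < w 1 ∧ w 0 + w 1 < 1} := by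
    ext z
    constructor
    · rintro ⟨α, β, h1, h2, h3, rfl⟩
      exact ⟨_, ⟨!₂[α, β], ⟨h1, h2, h3⟩, rfl⟩, by simp [L, add_assoc]⟩
    · rintro ⟨_, ⟨w, ⟨h1, h2, h3⟩, rfl⟩, rfl⟩
      exact ⟨w 0, w 1, h1, h2, h3, by simp [L, add_assoc]⟩
  have hd : LinearMap.det L = cdet ![q - p, r - p] := by
    rw [← LinearMap.det_toMatrix (EuclideanSpace.basisFun (Fin 2) ℝ).toBasis, Matrix.det_fin_two,
      cdet_two]
    simp [L, LinearMap.toMatrix_apply]
    ring
  rw [e, measure_vadd, Measure.addHaar_image_linearMap, volume_std, hd, mul_left_comm,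
    show (2 : ℝ≥0∞) * ENNReal.ofReal (1 / 2) = 1 by
      rw [← ENNReal.ofReal_ofNat, ← ENNReal.ofReal_mul (by norm_num)]; norm_num, mul_one]

lemma finite_sep {V : Type*} [NormedAddCommGroup V] [NormedSpace ℝ V] [ProperSpace V]
    {N : Seminorm ℝ V} (hN : Continuous N) {X : Set V}
    (hX : X.Pairwise fun x y => 1 ≤ N (x - y)) (R : ℝ) : (X ∩ Metric.closedBall 0 R).Finite := by
  obtain ⟨δ, hδ, h⟩ := Metric.continuousAt_iff.1 (hN.continuousAt (x := 0)) 1 one_pos
  obtain ⟨t, ht, hc⟩ := Metric.totallyBounded_iff.1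
    (isCompact_closedBall (0 : V) R).totallyBounded (δ / 2) (by linarith)
  refine (ht.biUnion fun y _ => Set.Subsingleton.finite
    (s := X ∩ Metric.ball y (δ / 2)) fun a ha b hb => ?_).subset fun x hx => ?_
  · by_contra hab
    have h1 := h (x := a - b) (by
      rw [dist_zero_right, ← dist_eq_norm]
      linarith [dist_triangle_right a b y, Metric.mem_ball.1 ha.2, Metric.mem_ball.1 hb.2])
    rw [map_zero, dist_zero_right, Real.norm_of_nonneg (apply_nonneg N _)] at h1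
    exact absurd (hX ha.1 hb.1 hab) (not_le.2 h1)
  · obtain ⟨y, hy, h1⟩ := mem_iUnion₂.1 (hc hx.2)
    exact mem_iUnion₂.2 ⟨y, hy, hx.1, h1⟩

lemma saturate {V : Type*} [AddCommGroup V] [Module ℝ V] (N : Seminorm ℝ V) {X : Set V}
    (hX : X.Pairwise fun x y => 1 ≤ N (x - y)) :
    ∃ Z, X ⊆ Z ∧ (Z.Pairwise fun x y => 1 ≤ N (x - y)) ∧ ∀ c, ∃ y ∈ Z, N (y - c) < 1 := by
  obtain ⟨Z, h1, h2⟩ := zorn_subset_nonempty {Z : Set V | Z.Pairwise fun x y => 1 ≤ N (x - y)}
    (fun c hc hch _ => ⟨⋃₀ c, (Set.pairwise_sUnion hch.directedOn).2 hc,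
      fun s hs => subset_sUnion_of_mem hs⟩) X hX
  refine ⟨Z, h1, h2.prop, fun c => ?_⟩
  by_contra h
  push Not at h
  have h3 : insert c Z ⊆ Z := h2.le_of_ge (y := insert c Z)
    (pairwise_insert.2 ⟨h2.prop, fun y hy _ => ⟨by rw [map_sub_rev]; exact h y hy, h y hy⟩⟩)
    (subset_insert _ _)
  have h4 := h c (h3 (mem_insert _ _))
  rw [sub_self, map_zero] at h4
  linarith

lemma exists_slope (Y : Finset (EuclideanSpace ℝ (Fin 2))) :
    ∃ κ : ℝ, InjOn (fun z : EuclideanSpace ℝ (Fin 2) => z 0 + κ * z 1) Y := by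
  obtain ⟨κ, hκ⟩ := Infinite.exists_notMem_finset
    ((Y ×ˢ Y).image fun p => (p.2 0 - p.1 0) / (p.1 1 - p.2 1))
  refine ⟨κ, fun x hx y hy h => ?_⟩
  simp only at h
  have h1 : x 1 = y 1 := by
    by_contra h1
    refine hκ (Finset.mem_image.2 ⟨(x, y), Finset.mem_product.2 ⟨hx, hy⟩, ?_⟩)
    rw [div_eq_iff (sub_ne_zero.2 h1)]
    linarith
  ext i
  fin_cases i
  · change x 0 = y 0
    rw [h1] at h
    linarith
  · exact h1

/-- Counting the points of a saturated packing through their triangles. -/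
lemma count {N : Seminorm ℝ (EuclideanSpace ℝ (Fin 2))} {C : ℝ} (hN : Continuous N) (hC : 0 < C)
    (hb : ∀ v, ‖v‖ ≤ C * N v) (hs : ∀ x y, N (x + y) = N x + N y → N y • x = N x • y)
    {Z : Set (EuclideanSpace ℝ (Fin 2))} (hZ : Z.Pairwise fun x y => 1 ≤ N (x - y))
    (hcov : ∀ c, ∃ y ∈ Z, N (y - c) < 1) {m a : ℝ≥0∞}
    (hm : ∀ u v, cdet ![u, v] ≠ 0 →
      (∀ i j : ℤ, i ≠ 0 ∨ j ≠ 0 → 1 ≤ N ((i : ℝ) • u + (j : ℝ) • v)) →
        m ≤ a * ENNReal.ofReal |cdet ![u, v]|) (R : ℝ) :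
    ∑ _x ∈ (finite_sep hN hZ R).toFinset, m ≤
      a * volume (Metric.closedBall (0 : EuclideanSpace ℝ (Fin 2)) (R + 2 * C)) := by
  have h0 : ∀ x, N x = 0 → x = 0 := fun x h => by
    have := hb x
    rw [h, mul_zero] at this
    exact norm_le_zero_iff.1 this
  obtain ⟨κ, hκ⟩ := exists_slope (finite_sep hN hZ (R + 2 * C)).toFinset
  let ξ : EuclideanSpace ℝ (Fin 2) →ₗ[ℝ] ℝ :=
    EuclideanSpace.projₗ (𝕜 := ℝ) (0 : Fin 2) + κ • EuclideanSpace.projₗ (𝕜 := ℝ) (1 : Fin 2)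
  let η : EuclideanSpace ℝ (Fin 2) →ₗ[ℝ] ℝ := EuclideanSpace.projₗ (𝕜 := ℝ) (1 : Fin 2)
  have hξ : ∀ z, ξ z = z 0 + κ * z 1 := fun z => rfl
  have hη : ∀ z, η z = z 1 := fun z => rfl
  have hdt : ∀ u v, dt ξ η u v = cdet ![u, v] := fun u v => by
    rw [cdet_two, dt, hξ, hξ, hη, hη]; ring
  have unit : ∀ v, v ≠ 0 → 0 < N v ∧ N ((N v)⁻¹ • v) = 1 := fun v hv => by
    have h1 : 0 < N v := (apply_nonneg N v).lt_of_ne' fun h => hv (h0 v h)
    exact ⟨h1, by rw [sm N (inv_pos.2 h1).le, inv_mul_cancel₀ h1.ne']⟩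
  have hc : IsCompact {v | N v = 1} :=
    (isCompact_closedBall 0 C).of_isClosed_subset (isClosed_eq hN continuous_const) fun v hv => by
      have := hb v
      rw [hv, mul_one] at this
      exact mem_closedBall_zero_iff.2 this
  have h1 : (!₂[1, 0] : EuclideanSpace ℝ (Fin 2)) ≠ 0 := fun h => by
    simpa using congrArg (· 0) h
  obtain ⟨e, he, hmax⟩ := hc.exists_isMaxOn ⟨_, (unit _ h1).2⟩
    ξ.continuous_of_finiteDimensional.continuousOn
  have hmax' : ∀ v, ξ v ≤ N v * ξ e := fun v => by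
    by_cases hv : v = 0
    · simp [hv]
    · have h2 : ξ ((N v)⁻¹ • v) ≤ ξ e := hmax (unit v hv).2
      rwa [map_smul, smul_eq_mul, inv_mul_le_iff₀ (unit v hv).1] at h2
  have hef : dt ξ η e !₂[-κ, 1] ≠ 0 := by
    have h2 := hmax' !₂[1, 0]
    intro h
    have h3 : ξ e = 0 := by simpa [dt, hξ, hη] using h
    rw [h3, hξ] at h2
    norm_num at h2
  obtain ⟨T, hT⟩ := exists_triangles N ξ η hN hs h0 (fun v a1 a2 => by
      rw [hξ, ← hη, a2, mul_zero, add_zero] at a1
      ext i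
      fin_cases i
      · exact a1
      · exact a2) (finite_sep hN hZ (R + 2 * C)).toFinset
    (fun x hx y hy hxy => hZ ((Finite.mem_toFinset _).1 hx).1 ((Finite.mem_toFinset _).1 hy).1 hxy)
    hκ he hmax' hef (Z ∩ Metric.closedBall 0 R)
    (fun x hx => by
      rw [Finite.coe_toFinset]
      exact ⟨hx.1, Metric.closedBall_subset_closedBall (by linarith) hx.2⟩)
    (fun x hx c hxc => by
      obtain ⟨y, hy, h2⟩ := hcov c
      refine ⟨y, (Finite.mem_toFinset _).2 ⟨hy, mem_closedBall_zero_iff.2 ?_⟩, h2⟩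
      have h3 := map_sub_le_add N (y - c) (x - c)
      rw [sub_sub_sub_cancel_right] at h3
      have h4 := norm_add_le x (y - x)
      rw [add_sub_cancel] at h4
      nlinarith [hb (y - x), mem_closedBall_zero_iff.1 hx.2])
  let I := (finite_sep hN hZ R).toFinset ×ˢ (Finset.univ : Finset Bool)
  have mI : ∀ i ∈ I, i.1 ∈ Z ∩ Metric.closedBall 0 R := fun i hi =>
    (Finite.mem_toFinset _).1 (Finset.mem_product.1 hi).1
  have h2 : ∑ i ∈ I, volume (otri (T i 0) (T i 1) (T i 2)) ≤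
      volume (Metric.closedBall (0 : EuclideanSpace ℝ (Fin 2)) (R + 2 * C)) := by
    rw [← measure_biUnion_finset₀
      (fun i hi j hj hij => ((hT i (mI i hi)).2.2.2 j (mI j hj) hij).aedisjoint)
      fun i _ => (convex_otri _ _ _).nullMeasurableSet _]
    refine measure_mono (iUnion₂_subset fun i hi => ?_)
    have h3 : ∀ k, ‖T i k‖ ≤ R + 2 * C := fun k => by
      have h4 := norm_add_le i.1 (T i k - i.1)
      rw [add_sub_cancel] at h4
      nlinarith [hb (T i k - i.1), mem_closedBall_zero_iff.1 (mI i hi).2, (hT i (mI i hi)).1 k]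
    rintro _ ⟨α, β, a1, a2, a3, rfl⟩
    have h4 := le3 (normSeminorm ℝ _) (sub_pos.2 a3).le a1.le a2.le (T i 0) (T i 1) (T i 2)
    rw [mem_closedBall_zero_iff, show T i 0 + α • (T i 1 - T i 0) + β • (T i 2 - T i 0) =
      (1 - (α + β)) • T i 0 + α • T i 1 + β • T i 2 by module]
    simp only [coe_normSeminorm] at h4
    nlinarith [h3 0, h3 1, h3 2]
  have h3 : ∑ _i ∈ I, m ≤ ∑ i ∈ I, a * (2 * volume (otri (T i 0) (T i 1) (T i 2))) :=
    Finset.sum_le_sum fun i hi => by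
      rw [← volume_otri]
      exact hm _ _ (hdt _ _ ▸ (hT i (mI i hi)).2.1) (hT i (mI i hi)).2.2.1
  rw [← Finset.mul_sum, ← Finset.mul_sum, Finset.sum_product_right, Fintype.sum_bool, ← two_mul,
    mul_left_comm, ENNReal.mul_le_mul_iff_right two_ne_zero ENNReal.ofNat_ne_top] at h3
  exact h3.trans (mul_le_mul_right h2 _)

lemma density_le {K : Set (EuclideanSpace ℝ (Fin 2))} (hK : IsCompact K) (hc : Convex ℝ K)
    (hi : (interior K).Nonempty) {X : Set (EuclideanSpace ℝ (Fin 2))} (hX : IsPacking K X)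
    {t : ℝ} (ht : 1 < t) : density K X ≤ deltaL K * ENNReal.ofReal (t ^ 2) := by
  obtain ⟨N₀, C, hN₀, hC, hb, -, hP⟩ := exists_norm hK hc hi
  obtain ⟨ε, hε⟩ : ∃ ε : NNReal, (ε : ℝ) = (t - 1) / C :=
    ⟨⟨_, div_nonneg (by linarith) hC.le⟩, rfl⟩
  have hε0 : (0 : ℝ) < ε := hε ▸ div_pos (by linarith) hC
  rw [eq_div_iff hC.ne'] at hε
  let N : Seminorm ℝ (EuclideanSpace ℝ (Fin 2)) := N₀ + ε • normSeminorm ℝ _
  have hNv : ∀ v, N v = N₀ v + ε * ‖v‖ := fun v => rfl
  have hle : ∀ v, N₀ v ≤ N v := fun v => by rw [hNv]; nlinarith [norm_nonneg v]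
  have hge : ∀ v, N v ≤ t * N₀ v := fun v => by
    have h1 := mul_le_mul_of_nonneg_left (hb v) hε0.le
    rw [← mul_assoc, hε] at h1
    rw [hNv]; linarith
  have hN : Continuous N := by
    rw [show (N : _ → ℝ) = fun v => N₀ v + ε * ‖v‖ from funext hNv]
    fun_prop
  have hs : ∀ x y, N (x + y) = N x + N y → N y • x = N x • y := by
    intro x y h
    rw [hNv, hNv, hNv] at h
    have h1 : ‖x + y‖ = ‖x‖ + ‖y‖ := le_antisymm (norm_add_le _ _) (by
      nlinarith [map_add_le_add N₀ x y])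
    rcases sameRay_iff_norm_add.2 h1 with rfl | rfl | ⟨a, b, ha, hb, e⟩
    · simp
    · simp
    · have h2 := congrArg N e
      rw [sm N ha.le, sm N hb.le] at h2
      refine smul_right_injective _ ha.ne' ?_
      simp only
      rw [smul_comm, e, smul_smul, smul_smul, h2, mul_comm]
  obtain ⟨Z, hXZ, hZ, hcov⟩ := saturate N (X := X) fun x hx y hy hxy =>
    ((hP X).1 hX hx hy hxy).trans (hle _)
  obtain ⟨r, hr0, hr⟩ := hK.isBounded.exists_pos_norm_le
  have key := count hN hC (fun v => (hb v).trans (mul_le_mul_of_nonneg_left (hle v) hC.le)) hs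
    hZ hcov (m := volume K) (a := deltaL K * ENNReal.ofReal (t ^ 2)) fun u v huv h => by
      have e : cdet ![t • u, t • v] = t ^ 2 * cdet ![u, v] := by
        simp only [cdet_two, PiLp.smul_apply, smul_eq_mul]; ring
      have h1 := volume_le hK hc hP ![t • u, t • v]
        (by rw [e]; exact mul_ne_zero (by positivity) huv) fun n hn => by
          have h2 := (h (n 0) (n 1) (by
            by_contra h3
            push Not at h3
            exact hn (funext fun i => by fin_cases i; exacts [h3.1, h3.2]))).trans (hge _)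
          rw [← sm N₀ (by linarith)] at h2
          refine h2.trans (le_of_eq (congrArg N₀ ?_))
          simp only [Fin.sum_univ_two, Matrix.cons_val_zero, Matrix.cons_val_one]
          module
      rwa [e, abs_mul, abs_of_nonneg (sq_nonneg t), ENNReal.ofReal_mul (sq_nonneg t),
        ← mul_assoc] at h1
  rw [← (tendsto_ratio (d := 2) (deltaL K * ENNReal.ofReal (t ^ 2)) (r + 2 * C)).limsup_eq]
  refine limsup_le_limsup ?_
  filter_upwards [eventually_gt_atTop 0] with R hR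
  apply ENNReal.div_le_of_le_mul
  rw [mul_assoc, ← vol_closedBall R (r + 2 * C) hR (by linarith), ← add_assoc]
  refine le_trans ?_ (key (R + r))
  refine (measure_mono (t := ⋃ x ∈ (finite_sep hN hZ (R + r)).toFinset, x +ᵥ K) ?_).trans
    ((measure_biUnion_finset_le _ _).trans (Finset.sum_le_sum fun x _ => (measure_vadd _ _ _).le))
  rintro z ⟨h1, h2⟩
  obtain ⟨x, hx, y, hy, rfl⟩ := mem_iUnion₂.1 h2
  refine mem_iUnion₂.2 ⟨x, (Finite.mem_toFinset _).2 ⟨hXZ hx, ?_⟩, y, hy, rfl⟩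
  rw [mem_ball_zero_iff] at h1
  have h3 : ‖x‖ ≤ ‖x + y‖ + ‖y‖ := by simpa using norm_sub_le (x + y) y
  have h4 : ‖x + y‖ < R := h1
  rw [mem_closedBall_zero_iff]
  linarith [hr y hy]

/-- The planar theorem. -/
theorem dim_two {K : Set (EuclideanSpace ℝ (Fin 2))} (hK : IsCompact K) (hc : Convex ℝ K)
    (hi : (interior K).Nonempty) : deltaT K ≤ deltaL K := by
  refine iSup₂_le fun X hX => ge_of_tendsto (tendsto_ratio (d := 2) (deltaL K) 1) ?_
  filter_upwards [eventually_gt_atTop 0] with R hR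
  exact density_le hK hc hi hX ((one_lt_div hR).2 (by linarith))

end Pool.Agent.P.MP_c4753b_co.Plane
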