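import Pool.Agent.P.MP_c4753b_co.Body

/-!
The two-periodic packing and the comparison of the densities.
-/

namespace Pool.Agent.P.MP_c4753b_co

open MeasureTheory Set Filter Topology Module Submodule
open scoped Pointwise ENNReal

variable {ε : ℝ}

lemma Lt.lin {x y z w : ℝ} (h : Lt ε 1 x y z w) : |w| < 4 ∧ x + ε * |w| < 2 ∧
    -x + ε * |w| < 2 ∧ y + ε * |w| < 2 ∧ -y + ε * |w| < 2 ∧ z + ε * |w| < 2 ∧ -z + ε * |w| < 2 ∧
    x + y + z + ε * |w| < 3 - 2 * ε ∧ -(x + y + z) + ε * |w| < 3 - 2 * ε ∧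
    x - y - z + ε * |w| < 3 - 2 * ε ∧ -(x - y - z) + ε * |w| < 3 - 2 * ε ∧
    -x + y - z + ε * w < 3 - 4 * ε ∧ -(-x + y - z + ε * w) < 3 - 4 * ε ∧
    -x - y + z - ε * w < 3 - 4 * ε ∧ -(-x - y + z - ε * w) < 3 - 4 * ε := by
  obtain ⟨h1, h2, h3, h4, h5, h6, h7, h8⟩ := h
  have k : ∀ u : ℝ, u ≤ |u| ∧ -u ≤ |u| := fun u => ⟨le_abs_self u, neg_le_abs u⟩
  refine ⟨by linarith, by linarith [k x], by linarith [k x], by linarith [k y], by linarith [k y],
    by linarith [k z], by linarith [k z], by linarith [k (x + y + z)],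
    by linarith [k (x + y + z)], by linarith [k (x - y - z)], by linarith [k (x - y - z)],
    by linarith [k (-x + y - z + ε * w)], by linarith [k (-x + y - z + ε * w)],
    by linarith [k (-x - y + z - ε * w)], by linarith [k (-x - y + z - ε * w)]⟩

lemma small_int (ε : ℝ) {m : ℤ} (h : |2 * (m : ℝ)| < 4) :
    (m = -1 ∧ ε * |2 * (m : ℝ)| = 2 * ε ∧ ε * (2 * m) = -(2 * ε)) ∨
    (m = 0 ∧ ε * |2 * (m : ℝ)| = 0 ∧ ε * (2 * m) = 0) ∨
    (m = 1 ∧ ε * |2 * (m : ℝ)| = 2 * ε ∧ ε * (2 * m) = 2 * ε) := by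
  rw [abs_lt] at h
  have h1 : (-2 : ℤ) < m := by exact_mod_cast (by linarith : (-2 : ℝ) < m)
  have h2 : m < (2 : ℤ) := by exact_mod_cast (by linarith : (m : ℝ) < 2)
  obtain rfl | rfl | rfl : m = -1 ∨ m = 0 ∨ m = 1 := by omega
  · left; norm_num [mul_comm]
  · right; left; norm_num
  · right; right; norm_num [mul_comm]

lemma sepAA (hε0 : 0 < ε) (hε : ε ≤ 1 / 100) {n0 n1 n2 n3 m : ℤ} (hm : m = n0 + n1 + n2 + 2 * n3)
    (h : Lt ε 1 (2 * (1 - ε) * n0) (2 * (1 - ε) * n1) (2 * (1 - ε) * n2) (2 * m)) :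
    n0 = 0 ∧ n1 = 0 ∧ n2 = 0 ∧ n3 = 0 := by
  obtain ⟨h0, h1, h2, h3, h4, h5, h6, h7, h8, h9, h10, h11, h12, h13, h14⟩ := h.lin
  have e0 : 0 ≤ ε * |2 * (m : ℝ)| := by positivity
  have bd : ∀ n : ℤ, 2 * (1 - ε) * n < 2 → -(2 * (1 - ε) * n) < 2 → n = -1 ∨ n = 0 ∨ n = 1 := by
    intro n a b
    have h1 : (-2 : ℤ) < n := by exact_mod_cast (by nlinarith : (-2 : ℝ) < n)
    have h2 : n < (2 : ℤ) := by exact_mod_cast (by nlinarith : (n : ℝ) < 2)
    omega
  rcases bd n0 (by linarith) (by linarith) with rfl | rfl | rfl <;>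
  rcases bd n1 (by linarith) (by linarith) with rfl | rfl | rfl <;>
  rcases bd n2 (by linarith) (by linarith) with rfl | rfl | rfl <;>
  rcases small_int ε h0 with ⟨m1, m2, m3⟩ | ⟨m1, m2, m3⟩ | ⟨m1, m2, m3⟩ <;>
  first
    | omega
    | (exfalso; push_cast at h1 h2 h3 h4 h5 h6 h7 h8 h9 h10 h11 h12 h13 h14; linarith)

lemma sepAB (hε0 : 0 < ε) (hε : ε ≤ 1 / 100) {n0 n1 n2 n3 m : ℤ}
    (hm : m = n0 + n1 + n2 + 2 * n3 + 1) :
    ¬Lt ε 1 (2 * (1 - ε) * n0 + (1 - 2 * ε)) (2 * (1 - ε) * n1 + (1 - ε))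
      (2 * (1 - ε) * n2 + (1 - ε)) (2 * m) := by
  intro h
  obtain ⟨h0, h1, h2, h3, h4, h5, h6, h7, h8, h9, h10, h11, h12, h13, h14⟩ := h.lin
  have e0 : 0 ≤ ε * |2 * (m : ℝ)| := by positivity
  have bd : ∀ n : ℤ, 2 * (1 - ε) * n < 3 / 2 → -(2 * (1 - ε) * n) < 3 → n = -1 ∨ n = 0 := by
    intro n a b
    have h1 : (-2 : ℤ) < n := by exact_mod_cast (by nlinarith : (-2 : ℝ) < n)
    have h2 : n < (1 : ℤ) := by exact_mod_cast (by nlinarith : (n : ℝ) < 1)
    omega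
  rcases bd n0 (by linarith) (by linarith) with rfl | rfl <;>
  rcases bd n1 (by linarith) (by linarith) with rfl | rfl <;>
  rcases bd n2 (by linarith) (by linarith) with rfl | rfl <;>
  rcases small_int ε h0 with ⟨m1, m2, m3⟩ | ⟨m1, m2, m3⟩ | ⟨m1, m2, m3⟩ <;>
  first
    | omega
    | (push_cast at h1 h2 h3 h4 h5 h6 h7 h8 h9 h10 h11 h12 h13 h14; linarith)

/-- Generators of the period lattice. -/
def gen (ε : ℝ) : Fin 4 → EuclideanSpace ℝ (Fin 4) :=
  ![vec (2 * (1 - ε)) 0 0 2, vec 0 (2 * (1 - ε)) 0 2, vec 0 0 (2 * (1 - ε)) 2, vec 0 0 0 4]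

/-- The translation vector of the second coset. -/
def shift (ε : ℝ) : EuclideanSpace ℝ (Fin 4) := vec (1 - 2 * ε) (1 - ε) (1 - ε) 2

lemma gen_adm (hε0 : 0 < ε) (hε : ε ≤ 1 / 100) {g : EuclideanSpace ℝ (Fin 4)}
    (hg : g ∈ span ℤ (range (gen ε))) : (g ∈ op ε 1 → g = 0) ∧ g + shift ε ∉ op ε 1 := by
  obtain ⟨n0, n1, n2, n3, rfl⟩ := (mem_span4 _ _ _ _ _).1 hg
  refine ⟨fun h => ?_, fun h => sepAB hε0 hε (n0 := n0) (n1 := n1) (n2 := n2) (n3 := n3) rfl ?_⟩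
  · obtain ⟨rfl, rfl, rfl, rfl⟩ := sepAA hε0 hε (n0 := n0) (n1 := n1) (n2 := n2) (n3 := n3) rfl (by
      change Lt _ _ _ _ _ _ at h
      convert h using 1 <;> simp <;> ring)
    simp
  · change Lt _ _ _ _ _ _ at h
    convert h using 1 <;> simp [shift] <;> ring

lemma disj_of_sep (hε0 : 0 ≤ ε) {x y : EuclideanSpace ℝ (Fin 4)} (h : x - y ∉ op ε 1) :
    Disjoint (x +ᵥ op ε (1 / 2)) (y +ᵥ op ε (1 / 2)) := by
  rw [Set.disjoint_left]
  rintro _ ⟨p, hp, rfl⟩ ⟨q, hq, e⟩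
  apply h
  have e' : y + q = x + p := e
  rw [show x - y = q - p by rw [sub_eq_sub_iff_add_eq_add, add_comm q y, e']]
  exact lt_sub hε0 hq hp

lemma le_deltaT (hε0 : 0 < ε) (hε : ε ≤ 1 / 100) :
    volume (cl ε (1 / 2)) / ENNReal.ofReal (16 * (1 - ε) ^ 3) ≤ deltaT (cl ε (1 / 2)) := by
  have hd : cdet (gen ε) = 2 * (16 * (1 - ε) ^ 3) := by
    rw [gen, cdet4]; simp [det4, det3]; ring
  have hp : 0 < 16 * (1 - ε) ^ 3 := by have : 0 < 1 - ε := by linarith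
                                       positivity
  obtain ⟨b, hb⟩ := exists_basis_eq _ (hd.trans_ne (by positivity))
  let X : Set (EuclideanSpace ℝ (Fin 4)) :=
    {p | p ∈ span ℤ (range b) ∨ p - shift ε ∈ span ℤ (range b)}
  have AA : ∀ g ∈ span ℤ (range b), ∀ g' ∈ span ℤ (range b), g ≠ g' → g - g' ∉ op ε 1 :=
    fun g hg g' hg' hne h =>
      hne (sub_eq_zero.1 ((gen_adm hε0 hε (hb ▸ sub_mem hg hg')).1 h))
  have AB : ∀ g ∈ span ℤ (range b), ∀ g' ∈ span ℤ (range b), g + shift ε - g' ∉ op ε 1 :=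
    fun g hg g' hg' => by
      rw [add_sub_right_comm]
      exact (gen_adm hε0 hε (hb ▸ sub_mem hg hg')).2
  have hX : IsPacking (cl ε (1 / 2)) X := by
    intro x hx y hy hne
    rw [interior_vadd, interior_vadd, interior_cl (by linarith) (by norm_num)]
    rcases hx with hx | hx <;> rcases hy with hy | hy
    · exact disj_of_sep hε0.le (AA x hx y hy hne)
    · exact (disj_of_sep hε0.le (by simpa using AB _ hy x hx)).symm
    · exact disj_of_sep hε0.le (by simpa using AB _ hx y hy)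
    · exact disj_of_sep hε0.le (by simpa using AA _ hx _ hy (by simpa using hne))
  have hm : MeasurableSet (op ε (1 / 2)) := isOpen_op.measurableSet
  have hbd : Bornology.IsBounded (op ε (1 / 2)) := (isBounded_cl hε0.le).subset op_subset
  have h1 := le_density_periodic b (K := cl ε (1 / 2)) (X := X)
    (W := op ε (1 / 2) ∪ (shift ε +ᵥ op ε (1 / 2))) (hbd.union (hbd.vadd _))
    (hm.union (hm.const_vadd _)) (by
      intro g g' hne
      have hne' : (g : EuclideanSpace ℝ (Fin 4)) ≠ g' := fun h => hne (Subtype.ext h)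
      simp only [vadd_set_union, ← add_vadd, disjoint_union_left, disjoint_union_right]
      exact ⟨⟨disj_of_sep hε0.le (AA _ g.2 _ g'.2 hne'),
        disj_of_sep hε0.le (AB _ g.2 _ g'.2)⟩, (disj_of_sep hε0.le (AB _ g'.2 _ g.2)).symm,
        disj_of_sep hε0.le (by simpa using AA _ g.2 _ g'.2 hne')⟩) (by
      intro g
      rw [vadd_set_union, ← add_vadd]
      refine union_subset ?_ ?_
      · exact (vadd_set_mono op_subset).trans
          (subset_biUnion_of_mem (u := fun x => x +ᵥ cl ε (1 / 2)) (Or.inl g.2))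
      · exact (vadd_set_mono op_subset).trans
          (subset_biUnion_of_mem (u := fun x => x +ᵥ cl ε (1 / 2)) (Or.inr (by simp))))
  have h2 : Disjoint (op ε (1 / 2)) (shift ε +ᵥ op ε (1 / 2)) := by
    have := disj_of_sep hε0.le (AB 0 (zero_mem _) 0 (zero_mem _))
    simpa using this.symm
  rw [measure_union h2 (hm.const_vadd _), measure_vadd, volume_op hε0.le (by linarith)
    (by norm_num), hb, hd, abs_of_pos (by positivity), ENNReal.ofReal_mul (by norm_num),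
    ← two_mul, ENNReal.ofReal_ofNat,
    ENNReal.mul_div_mul_left _ _ (by norm_num) (by norm_num)] at h1
  exact h1.trans (le_iSup₂_of_le (f := fun X (_ : IsPacking (cl ε (1 / 2)) X) =>
    density (cl ε (1 / 2)) X) X hX le_rfl)

lemma deltaL_le (hε0 : 0 < ε) (hε : ε ≤ 1 / 100) {B : ℝ}
    (h : ∀ b : Basis (Fin 4) ℝ (EuclideanSpace ℝ (Fin 4)),
      (∀ v ∈ span ℤ (range b), v ∈ op ε 1 → v = 0) → B ≤ |cdet b|) :
    deltaL (cl ε (1 / 2)) ≤ volume (cl ε (1 / 2)) / ENNReal.ofReal B := by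
  refine iSup_le fun L => iSup_le fun h1 => iSup_le fun h2 => iSup_le fun h3 => ?_
  obtain ⟨b, hb⟩ := exists_basis L h1 h2
  rw [hb] at h3 ⊢
  refine (density_lattice_le b (isBounded_cl hε0.le)).trans
    (ENNReal.div_le_div_left (ENNReal.ofReal_le_ofReal (h b fun v hv hv' => ?_)) _)
  by_contra hne
  have h4 := h3 hv (zero_mem _) hne
  beta_reduce at h4
  rw [interior_vadd, interior_vadd, interior_cl (by linarith) (by norm_num),
    Set.disjoint_left] at h4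
  have h5 : (1 / 2 : ℝ) • v ∈ op ε (1 / 2) := by
    obtain ⟨k1, k2, k3, k4, k5, k6, k7, k8⟩ := hv'
    have e : ∀ u : ℝ, |1 / 2 * u| = 1 / 2 * |u| := fun u => by
      rw [abs_mul, abs_of_pos (by norm_num : (0 : ℝ) < 1 / 2)]
    change Lt ε (1 / 2) (1 / 2 * v 0) (1 / 2 * v 1) (1 / 2 * v 2) (1 / 2 * v 3)
    unfold Lt
    rw [show 1 / 2 * v 0 + 1 / 2 * v 1 + 1 / 2 * v 2 = 1 / 2 * (v 0 + v 1 + v 2) by ring,
      show 1 / 2 * v 0 - 1 / 2 * v 1 - 1 / 2 * v 2 = 1 / 2 * (v 0 - v 1 - v 2) by ring,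
      show -(1 / 2 * v 0) + 1 / 2 * v 1 - 1 / 2 * v 2 + ε * (1 / 2 * v 3) =
        1 / 2 * (-v 0 + v 1 - v 2 + ε * v 3) by ring,
      show -(1 / 2 * v 0) - 1 / 2 * v 1 + 1 / 2 * v 2 - ε * (1 / 2 * v 3) =
        1 / 2 * (-v 0 - v 1 + v 2 - ε * v 3) by ring]
    simp only [e]
    refine ⟨?_, ?_, ?_, ?_, ?_, ?_, ?_, ?_⟩ <;> linarith
  refine h4 (a := (1 / 2 : ℝ) • v) ⟨-((1 / 2 : ℝ) • v), Lt.neg h5, ?_⟩ (by simpa using h5)
  change v + -((1 / 2 : ℝ) • v) = _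
  module

theorem main : ∃ K : Set (EuclideanSpace ℝ (Fin 4)), IsCompact K ∧ Convex ℝ K ∧
    (interior K).Nonempty ∧ deltaL K < deltaT K := by
  obtain ⟨ε, hε0, hε, h⟩ := exists_eps
  have hne : (interior (cl ε (1 / 2))).Nonempty := by
    rw [interior_cl (by linarith) (by norm_num)]
    refine ⟨0, ?_⟩
    simp only [op, Lt, mem_ofPred_eq, PiLp.zero_apply]
    norm_num
    constructor <;> linarith
  refine ⟨cl ε (1 / 2), isCompact_cl hε0.le, convex_cl hε0.le, hne,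
    (deltaL_le hε0 hε h).trans_lt (lt_of_lt_of_le ?_ (le_deltaT hε0 hε))⟩
  have hp : 0 < 16 * (1 - ε) ^ 3 := by have : 0 < 1 - ε := by linarith
                                       positivity
  refine ENNReal.div_lt_div_left (Measure.measure_pos_of_nonempty_interior _ hne).ne'
    (isCompact_cl hε0.le).measure_lt_top.ne ?_
  rw [ENNReal.ofReal_lt_ofReal_iff (by positivity)]
  linarith [pow_pos hε0 2]

end Pool.Agent.P.MP_c4753b_co
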