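import Pool.Agent.P.MP_c4753b_co.Bound
import Pool.Agent.P.MP_c4753b_co.Density

/-!
The body `K = D / 2`, its two-periodic packing and the comparison of the densities.
-/

namespace Pool.Agent.P.MP_c4753b_co.Three

open MeasureTheory Set Filter Topology Module Submodule
open scoped Pointwise ENNReal

lemma int_lin {x : E3} {u v w : ℤ} (h : ¬Out x) (e0 : x 0 = u) (e1 : x 1 = v) (e2 : x 2 = w) :
    4 * u + 4 * v + 30 * w < 5400 ∧
    14 * u + 25 * v + 1 * w < 4500 ∧
    25 * u + 14 * v + 1 * w < 4500 ∧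
    18 * u + 18 * v + 28 * w < 5516 ∧
    16 * u + 16 * v + (-16) * w < 4144 ∧
    (-15) * u + 23 * v + (-26) * w < 5782 ∧
    23 * u + (-15) * v + (-26) * w < 5782 ∧
    (-12) * u + 16 * v + 22 * w < 4546 ∧
    16 * u + (-12) * v + 22 * w < 4546 ∧
    (-4) * u + (-4) * v + (-30) * w < 5400 ∧
    (-14) * u + (-25) * v + (-1) * w < 4500 ∧
    (-25) * u + (-14) * v + (-1) * w < 4500 ∧
    (-18) * u + (-18) * v + (-28) * w < 5516 ∧
    (-16) * u + (-16) * v + 16 * w < 4144 ∧
    15 * u + (-23) * v + 26 * w < 5782 ∧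
    (-23) * u + 15 * v + 26 * w < 5782 ∧
    12 * u + (-16) * v + (-22) * w < 4546 ∧
    (-16) * u + 12 * v + (-22) * w < 4546 := by
  have k : ∀ j < 18, nn j 0 * u + nn j 1 * v + nn j 2 * w < hh j := fun j hj => by
    have : ell j x < hh j := lt_of_not_ge fun k => h ⟨j, hj, k⟩
    rw [ell_apply, e0, e1, e2] at this
    exact_mod_cast this
  exact ⟨k 0 (by norm_num), k 1 (by norm_num), k 2 (by norm_num),
    k 3 (by norm_num), k 4 (by norm_num), k 5 (by norm_num),
    k 6 (by norm_num), k 7 (by norm_num), k 8 (by norm_num),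
    k 9 (by norm_num), k 10 (by norm_num), k 11 (by norm_num),
    k 12 (by norm_num), k 13 (by norm_num), k 14 (by norm_num),
    k 15 (by norm_num), k 16 (by norm_num), k 17 (by norm_num)⟩

/-- The point with the given coordinates. -/
def vec3 (x y z : ℝ) : E3 := !₂[x, y, z]

/-- Generators of the period lattice. -/
def gen3 : Fin 3 → E3 := ![vec3 180 0 0, vec3 0 180 0, vec3 0 0 180]

/-- The translation vector of the second coset. -/
def shift3 : E3 := vec3 96 96 91

lemma mem_span3 (v : Fin 3 → E3) (g : E3) :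
    g ∈ span ℤ (range v) ↔ ∃ i j k : ℤ, g = lv (v 0) (v 1) (v 2) i j k := by
  rw [mem_span_range_iff_exists_fun]
  constructor
  · rintro ⟨n, rfl⟩
    exact ⟨n 0, n 1, n 2, by simp [Fin.sum_univ_three, lv, Int.cast_smul_eq_zsmul]⟩
  · rintro ⟨i, j, k, rfl⟩
    exact ⟨![i, j, k], by simp [Fin.sum_univ_three, lv, Int.cast_smul_eq_zsmul]⟩

lemma cdet3 (v : Fin 3 → E3) : cdet v = det3 (v 0) (v 1) (v 2) := by
  simp only [cdet, det3, Matrix.det_fin_three, Matrix.of_apply]
  ring

lemma gen_adm {g : E3} (hg : g ∈ span ℤ (range gen3)) : (g ≠ 0 → Out g) ∧ Out (g + shift3) := by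
  obtain ⟨i, j, k, rfl⟩ := (mem_span3 _ _).1 hg
  constructor
  · intro hz
    by_contra h
    obtain ⟨h0, h1, h2, h3, h4, h5, h6, h7, h8, h9, h10, h11, h12, h13, h14, h15, h16, h17⟩ :=
      int_lin h (u := 180 * i) (v := 180 * j) (w := 180 * k) (by simp [lv, gen3, vec3, mul_comm])
        (by simp [lv, gen3, vec3, mul_comm]) (by simp [lv, gen3, vec3, mul_comm])
    have hi : i = -1 ∨ i = 0 ∨ i = 1 := by omega
    have hj : j = -1 ∨ j = 0 ∨ j = 1 := by omega
    obtain ⟨rfl, rfl, rfl⟩ : i = 0 ∧ j = 0 ∧ k = 0 := by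
      rcases hi with rfl | rfl | rfl <;> rcases hj with rfl | rfl | rfl <;> omega
    exact hz (by simp [lv])
  · by_contra h
    obtain ⟨h0, h1, h2, h3, h4, h5, h6, h7, h8, h9, h10, h11, h12, h13, h14, h15, h16, h17⟩ :=
      int_lin h (u := 180 * i + 96) (v := 180 * j + 96) (w := 180 * k + 91)
        (by simp [lv, gen3, vec3, shift3, mul_comm]) (by simp [lv, gen3, vec3, shift3, mul_comm])
        (by simp [lv, gen3, vec3, shift3, mul_comm])
    have hi : i = -1 ∨ i = 0 := by omega
    have hj : j = -1 ∨ j = 0 := by omega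
    rcases hi with rfl | rfl <;> rcases hj with rfl | rfl <;> omega

/-- The closed body. -/
def cl3 : Set E3 := {x | ∀ j < 18, 2 * ell j x ≤ hh j}

/-- The open body. -/
def op3 : Set E3 := {x | ∀ j < 18, 2 * ell j x < hh j}

lemma isClosed_cl3 : IsClosed cl3 := by
  simp only [cl3, Set.ofPred_forall]
  exact isClosed_iInter fun j => isClosed_iInter fun _ =>
    isClosed_le (continuous_const.mul (continuous_ell j)) continuous_const

lemma isOpen_op3 : IsOpen op3 := by
  have : op3 = ⋂ j ∈ Set.Iio 18, {x | 2 * ell j x < hh j} := by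
    ext x
    simp [op3]
  rw [this]
  exact (Set.finite_Iio 18).isOpen_biInter fun j _ =>
    isOpen_lt (continuous_const.mul (continuous_ell j)) continuous_const

lemma op3_subset : op3 ⊆ cl3 := fun _ h j hj => (h j hj).le

lemma isBounded_cl3 : Bornology.IsBounded cl3 :=
  (Metric.isBounded_closedBall (x := 0) (r := 400)).subset fun _ hp =>
    mem_closedBall_zero_iff.2 (InD.norm_le fun j hj => by linarith [hp j hj, hh_ge (j := j)])

lemma isCompact_cl3 : IsCompact cl3 :=
  Metric.isCompact_of_isClosed_isBounded isClosed_cl3 isBounded_cl3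

lemma convex_cl3 : Convex ℝ cl3 := by
  intro p hp q hq a b ha hb hab j hj
  have h1 := mul_le_mul_of_nonneg_left (hp j hj) ha
  have h2 := mul_le_mul_of_nonneg_left (hq j hj) hb
  have h3 : (a + b) * (hh j : ℝ) = hh j := by rw [hab, one_mul]
  simp only [map_add, map_smul, smul_eq_mul]
  linarith

lemma interior_cl3 : interior cl3 = op3 := by
  refine Subset.antisymm (fun p hp => ?_) (interior_maximal op3_subset isOpen_op3)
  have h1 : Tendsto (fun c : ℝ => c • p) (𝓝[>] 1) (𝓝 p) := by
    have : Tendsto (fun c : ℝ => c • p) (𝓝 1) (𝓝 ((1 : ℝ) • p)) :=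
      (by fun_prop : Continuous fun c : ℝ => c • p).tendsto 1
    rw [one_smul] at this
    exact this.mono_left nhdsWithin_le_nhds
  obtain ⟨c, hc, hc1⟩ := ((h1.eventually (mem_interior_iff_mem_nhds.1 hp)).and
    self_mem_nhdsWithin).exists
  have hc1 : 1 < c := hc1
  intro j hj
  have h2 := hc j hj
  rw [map_smul, smul_eq_mul] at h2
  have h3 := hh_ge (j := j)
  by_contra h4
  nlinarith

lemma volume_op3 : volume op3 = volume cl3 := by
  rw [← interior_cl3]
  exact measure_interior_of_null_frontier (convex_cl3.addHaar_frontier _)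

lemma exists_basis3 (v : Fin 3 → E3) (h : cdet v ≠ 0) : ∃ b : Basis (Fin 3) ℝ E3, ⇑b = v := by
  have h1 : IsUnit ((EuclideanSpace.basisFun (Fin 3) ℝ).toBasis.det v) := by
    rw [isUnit_iff_ne_zero, Basis.det_apply]
    rwa [cdet, ← Matrix.det_transpose] at h
  obtain ⟨h2, h3⟩ := (Basis.is_basis_iff_det _).2 h1
  exact ⟨Basis.mk h2 h3.ge, Basis.coe_mk _ _⟩

lemma disj_of_out {x y : E3} (h : Out (x - y)) : Disjoint (x +ᵥ op3) (y +ᵥ op3) := by
  rw [Set.disjoint_left]
  rintro _ ⟨p, hp, rfl⟩ ⟨q, hq, e⟩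
  have e' : y + q = x + p := e
  rw [show x - y = q - p by rw [sub_eq_sub_iff_add_eq_add, add_comm q y, e']] at h
  obtain ⟨j, hj, h⟩ := h
  have h1 := hq j hj
  have h2 := hp ((j + 9) % 18) (Nat.mod_lt _ (by norm_num))
  rw [ell_opp hj, hh_opp] at h2
  rw [map_sub] at h
  linarith

lemma le_deltaT3 : volume cl3 / ENNReal.ofReal 2916000 ≤ deltaT cl3 := by
  have hd : cdet gen3 = 2 * 2916000 := by
    rw [cdet3]; simp [det3, gen3, vec3]; norm_num
  obtain ⟨b, hb⟩ := exists_basis3 _ (hd.trans_ne (by norm_num))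
  let X : Set E3 := {p | p ∈ span ℤ (range b) ∨ p - shift3 ∈ span ℤ (range b)}
  have AA : ∀ g ∈ span ℤ (range b), ∀ g' ∈ span ℤ (range b), g ≠ g' → Out (g - g') :=
    fun g hg g' hg' hne => (gen_adm (hb ▸ sub_mem hg hg')).1 (sub_ne_zero.2 hne)
  have AB : ∀ g ∈ span ℤ (range b), ∀ g' ∈ span ℤ (range b), Out (g + shift3 - g') :=
    fun g hg g' hg' => by
      rw [add_sub_right_comm]
      exact (gen_adm (hb ▸ sub_mem hg hg')).2
  have hX : IsPacking cl3 X := by
    intro x hx y hy hne
    rw [interior_vadd, interior_vadd, interior_cl3]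
    rcases hx with hx | hx <;> rcases hy with hy | hy
    · exact disj_of_out (AA x hx y hy hne)
    · exact (disj_of_out (by simpa using AB _ hy x hx)).symm
    · exact disj_of_out (by simpa using AB _ hx y hy)
    · exact disj_of_out (by simpa using AA _ hx _ hy (by simpa using hne))
  have hm : MeasurableSet op3 := isOpen_op3.measurableSet
  have hbd : Bornology.IsBounded op3 := isBounded_cl3.subset op3_subset
  have h1 := le_density_periodic b (K := cl3) (X := X) (W := op3 ∪ (shift3 +ᵥ op3))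
    (hbd.union (hbd.vadd _)) (hm.union (hm.const_vadd _)) (by
      intro g g' hne
      have hne' : (g : E3) ≠ g' := fun h => hne (Subtype.ext h)
      simp only [vadd_set_union, ← add_vadd, disjoint_union_left, disjoint_union_right]
      exact ⟨⟨disj_of_out (AA _ g.2 _ g'.2 hne'), disj_of_out (AB _ g.2 _ g'.2)⟩,
        (disj_of_out (AB _ g'.2 _ g.2)).symm,
        disj_of_out (by simpa using AA _ g.2 _ g'.2 hne')⟩) (by
      intro g
      rw [vadd_set_union, ← add_vadd]
      refine union_subset ?_ ?_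
      · exact (vadd_set_mono op3_subset).trans
          (subset_biUnion_of_mem (u := fun x => x +ᵥ cl3) (Or.inl g.2))
      · exact (vadd_set_mono op3_subset).trans
          (subset_biUnion_of_mem (u := fun x => x +ᵥ cl3) (Or.inr (by simp))))
  have h2 : Disjoint op3 (shift3 +ᵥ op3) := by
    have := disj_of_out (AB 0 (zero_mem _) 0 (zero_mem _))
    simpa using this.symm
  rw [measure_union h2 (hm.const_vadd _), measure_vadd, volume_op3, hb, hd,
    abs_of_pos (by positivity), ENNReal.ofReal_mul (by norm_num), ← two_mul, ENNReal.ofReal_ofNat 2,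
    ENNReal.mul_div_mul_left _ _ (by norm_num) (by norm_num)] at h1
  exact h1.trans (le_iSup₂_of_le (f := fun X (_ : IsPacking cl3 X) => density cl3 X) X hX le_rfl)

lemma deltaL3_le {B : ℝ} (h : ∀ a b c, Adm a b c → B ≤ |det3 a b c|) :
    deltaL cl3 ≤ volume cl3 / ENNReal.ofReal B := by
  refine iSup_le fun L => iSup_le fun h1 => iSup_le fun h2 => iSup_le fun h3 => ?_
  obtain ⟨b, hb⟩ := exists_basis L h1 h2
  rw [hb] at h3 ⊢
  refine (density_lattice_le b isBounded_cl3).trans
    (ENNReal.div_le_div_left (ENNReal.ofReal_le_ofReal ?_) _)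
  rw [cdet3]
  refine h _ _ _ fun i j k hn => ?_
  by_contra hc
  have hne : lv (b 0) (b 1) (b 2) i j k ≠ 0 := fun h0 => hn (by
    exact_mod_cast indep (cdet3 b ▸ cdet_ne_zero b) _ _ _ h0)
  have h4 := h3 ((mem_span3 b _).2 ⟨i, j, k, rfl⟩) (zero_mem _) hne
  beta_reduce at h4
  rw [interior_vadd, interior_vadd, interior_cl3, Set.disjoint_left] at h4
  generalize lv (b 0) (b 1) (b 2) i j k = v at hc h4
  have h5 : ∀ w : E3, ¬Out w → (1 / 2 : ℝ) • w ∈ op3 := fun w hw j hj => by
    have : ell j w < hh j := lt_of_not_ge fun k => hw ⟨j, hj, k⟩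
    rw [map_smul, smul_eq_mul]
    linarith
  refine h4 (a := (1 / 2 : ℝ) • v) ⟨(1 / 2 : ℝ) • (-v), h5 _ fun k => hc (by simpa using k.neg), ?_⟩
    (by simpa using h5 v hc)
  change v + (1 / 2 : ℝ) • (-v) = _
  module

theorem main3 : ∃ K : Set (EuclideanSpace ℝ (Fin 3)), IsCompact K ∧ Convex ℝ K ∧
    (interior K).Nonempty ∧ deltaL K < deltaT K := by
  obtain ⟨B, hB, h⟩ := lattice_bound
  have hne : (interior cl3).Nonempty := by
    rw [interior_cl3]
    exact ⟨0, fun j _ => by rw [map_zero]; linarith [hh_ge (j := j)]⟩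
  refine ⟨cl3, isCompact_cl3, convex_cl3, hne,
    (deltaL3_le h).trans_lt (lt_of_lt_of_le ?_ le_deltaT3)⟩
  refine ENNReal.div_lt_div_left (Measure.measure_pos_of_nonempty_interior _ hne).ne'
    isCompact_cl3.measure_lt_top.ne ?_
  rwa [ENNReal.ofReal_lt_ofReal_iff (by linarith)]

end Pool.Agent.P.MP_c4753b_co.Three
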