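import Pool.Agent.P.MP_c4753b_co.Index

/-!
An admissible lattice of least determinant has at least six pairs of contact vectors.
-/

namespace Pool.Agent.P.MP_c4753b_co.Three

open Filter Topology

/-- The symmetric linear map with the given six entries. -/
def sym (e : Fin 6 → ℝ) : E3 →ₗ[ℝ] E3 where
  toFun x := !₂[e 0 * x 0 + e 3 * x 1 + e 4 * x 2, e 3 * x 0 + e 1 * x 1 + e 5 * x 2,
    e 4 * x 0 + e 5 * x 1 + e 2 * x 2]
  map_add' x y := by ext i; fin_cases i <;> simp <;> ring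
  map_smul' c x := by ext i; fin_cases i <;> simp <;> ring

lemma sym0 (e : Fin 6 → ℝ) (x : E3) : sym e x 0 = e 0 * x 0 + e 3 * x 1 + e 4 * x 2 := rfl
lemma sym1 (e : Fin 6 → ℝ) (x : E3) : sym e x 1 = e 3 * x 0 + e 1 * x 1 + e 5 * x 2 := rfl
lemma sym2 (e : Fin 6 → ℝ) (x : E3) : sym e x 2 = e 4 * x 0 + e 5 * x 1 + e 2 * x 2 := rfl

lemma exists_sym {ι : Type} [Fintype ι] (hc : Fintype.card ι ≤ 5) (f : ι → ℕ) (x : ι → E3) :
    ∃ e : Fin 6 → ℝ, e ≠ 0 ∧ e 0 + e 1 + e 2 ≤ 0 ∧ ∀ i, ell (f i) (sym e (x i)) = 0 := by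
  let M : Matrix ι (Fin 6) ℝ := fun i => ![nn (f i) 0 * x i 0, nn (f i) 1 * x i 1,
    nn (f i) 2 * x i 2, nn (f i) 0 * x i 1 + nn (f i) 1 * x i 0,
    nn (f i) 0 * x i 2 + nn (f i) 2 * x i 0, nn (f i) 1 * x i 2 + nn (f i) 2 * x i 1]
  have hk : LinearMap.ker M.mulVecLin ≠ ⊥ := LinearMap.ker_ne_bot_of_finrank_lt (by
    simp only [Module.finrank_fintype_fun_eq_card, Fintype.card_fin]
    omega)
  obtain ⟨e, he, he0⟩ := Submodule.exists_mem_ne_zero_of_ne_bot hk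
  have h : ∀ i, ell (f i) (sym e (x i)) = 0 := fun i => by
    have := congrFun (LinearMap.mem_ker.1 he) i
    simp only [Matrix.mulVecLin_apply, Matrix.mulVec, dotProduct, Fin.sum_univ_six, M,
      Pi.zero_apply] at this
    rw [ell_apply, sym0, sym1, sym2, ← this]
    simp
    ring
  rcases le_total (e 0 + e 1 + e 2) 0 with h1 | h1
  · exact ⟨e, he0, h1, h⟩
  · refine ⟨-e, neg_ne_zero.2 he0, by simp only [Pi.neg_apply]; linarith, fun i => ?_⟩
    have := h i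
    simp only [ell_apply, sym0, sym1, sym2, Pi.neg_apply] at this ⊢
    linarith

/-- The determinant of the perturbed identity. -/
def dl (e : Fin 6 → ℝ) (t : ℝ) : ℝ := 1 + t * (e 0 + e 1 + e 2 +
  t * (e 0 * e 1 + e 0 * e 2 + e 1 * e 2 - e 3 ^ 2 - e 4 ^ 2 - e 5 ^ 2 +
  t * (e 0 * e 1 * e 2 + 2 * e 3 * e 4 * e 5 - e 0 * e 5 ^ 2 - e 1 * e 4 ^ 2 - e 2 * e 3 ^ 2)))

lemma det_pert (e : Fin 6 → ℝ) (t : ℝ) (a b c : E3) :
    det3 (a + t • sym e a) (b + t • sym e b) (c + t • sym e c) = dl e t * det3 a b c := by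
  simp only [det3, dl, PiLp.add_apply, PiLp.smul_apply, smul_eq_mul, sym0, sym1, sym2]
  ring

lemma ev_lt {f : ℝ → ℝ} {u : ℝ} (hf : Continuous f) (h : f 0 < u) : ∀ᶠ t in 𝓝[>] 0, f t < u :=
  ((hf.tendsto 0).eventually (gt_mem_nhds h)).filter_mono nhdsWithin_le_nhds

lemma dl_lt {e : Fin 6 → ℝ} (h0 : e ≠ 0) (h1 : e 0 + e 1 + e 2 ≤ 0) :
    ∀ᶠ t in 𝓝[>] 0, dl e t ^ 2 < 1 := by
  have k1 : ∀ᶠ t in 𝓝[>] 0, -dl e t < 0 :=
    ev_lt (f := fun t => -dl e t) (by unfold dl; fun_prop) (by simp [dl])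
  have k2 : ∀ᶠ t in 𝓝[>] 0, dl e t < 1 := by
    rcases h1.lt_or_eq with h1 | h1
    · filter_upwards [self_mem_nhdsWithin, ev_lt (f := fun t => e 0 + e 1 + e 2 +
        t * (e 0 * e 1 + e 0 * e 2 + e 1 * e 2 - e 3 ^ 2 - e 4 ^ 2 - e 5 ^ 2 +
        t * (e 0 * e 1 * e 2 + 2 * e 3 * e 4 * e 5 - e 0 * e 5 ^ 2 - e 1 * e 4 ^ 2 -
          e 2 * e 3 ^ 2))) (u := 0) (by fun_prop) (by simpa using h1)] with t ht h
      have := mul_neg_of_pos_of_neg ht h
      unfold dl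
      linarith
    · have hs : e 0 * e 1 + e 0 * e 2 + e 1 * e 2 - e 3 ^ 2 - e 4 ^ 2 - e 5 ^ 2 < 0 := by
        by_contra hc
        have h2 : e 0 ^ 2 + e 1 ^ 2 + e 2 ^ 2 + 2 * (e 3 ^ 2 + e 4 ^ 2 + e 5 ^ 2) ≤ 0 := by
          have : (e 0 + e 1 + e 2) ^ 2 = 0 := by rw [h1]; ring
          nlinarith
        have := sq_nonneg (e 0)
        have := sq_nonneg (e 1)
        have := sq_nonneg (e 2)
        have := sq_nonneg (e 3)
        have := sq_nonneg (e 4)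
        have := sq_nonneg (e 5)
        refine h0 (funext fun i => pow_eq_zero_iff (n := 2) (by norm_num) |>.1 ?_)
        fin_cases i <;> simp only [Fin.reduceFinMk, Fin.zero_eta, Fin.mk_one, Fin.isValue] <;>
          linarith
      filter_upwards [self_mem_nhdsWithin, ev_lt (f := fun t =>
        e 0 * e 1 + e 0 * e 2 + e 1 * e 2 - e 3 ^ 2 - e 4 ^ 2 - e 5 ^ 2 +
        t * (e 0 * e 1 * e 2 + 2 * e 3 * e 4 * e 5 - e 0 * e 5 ^ 2 - e 1 * e 4 ^ 2 -
          e 2 * e 3 ^ 2)) (u := 0) (by fun_prop) (by simpa using hs)] with t ht h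
      have := mul_neg_of_pos_of_neg ht (mul_neg_of_pos_of_neg ht h)
      unfold dl
      rw [h1]
      linarith
  filter_upwards [k1, k2] with t h1 h2
  nlinarith

lemma InD.norm_le {x : E3} (h : InD x) : ‖x‖ ≤ 400 := by
  obtain ⟨h0, h1, h2, h3, h4, h5, h6, h7, h8, h9, h10, h11, h12, h13, h14, h15, h16, h17⟩ := h.lin
  have k0 : x 0 ^ 2 ≤ 219 ^ 2 := sq_le_sq' (by linarith) (by linarith)
  have k1 : x 1 ^ 2 ≤ 219 ^ 2 := sq_le_sq' (by linarith) (by linarith)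
  have k2 : x 2 ^ 2 ≤ 219 ^ 2 := sq_le_sq' (by linarith) (by linarith)
  refine le_of_sq_le_sq ?_ (by norm_num)
  rw [norm_sq_eq, ip]
  linarith

lemma InD.of_not_out {x : E3} (h : ¬Out x) : InD x := fun j hj =>
  le_of_not_ge fun k => h ⟨j, hj, k⟩

lemma finite_lv {a b c : E3} (h : det3 a b c ≠ 0) (r : ℝ) :
    {z : ℤ × ℤ × ℤ | ‖lv a b c z.1 z.2.1 z.2.2‖ ≤ r}.Finite := by
  obtain ⟨C, hC⟩ := (isCompact_closedBall (0 : E3) r).exists_bound_of_continuousOn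
    (f := fun x => (det3 x b c / det3 a b c, det3 a x c / det3 a b c, det3 a b x / det3 a b c))
    (by simp only [det3]; fun_prop)
  have hI := Set.finite_Icc (-⌈C⌉) ⌈C⌉
  refine (hI.prod (hI.prod hI)).subset fun z hz => ?_
  have h1 := hC _ (mem_closedBall_zero_iff.2 hz)
  have e1 : det3 (lv a b c z.1 z.2.1 z.2.2) b c = z.1 * det3 a b c := by
    simp only [det3, lv, PiLp.add_apply, PiLp.smul_apply, smul_eq_mul]; ring
  have e2 : det3 a (lv a b c z.1 z.2.1 z.2.2) c = z.2.1 * det3 a b c := by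
    simp only [det3, lv, PiLp.add_apply, PiLp.smul_apply, smul_eq_mul]; ring
  have e3 : det3 a b (lv a b c z.1 z.2.1 z.2.2) = z.2.2 * det3 a b c := by
    simp only [det3, lv, PiLp.add_apply, PiLp.smul_apply, smul_eq_mul]; ring
  simp only [e1, e2, e3, mul_div_cancel_right₀ _ h, Prod.norm_mk, max_le_iff,
    Real.norm_eq_abs] at h1
  have k : ∀ i : ℤ, |(i : ℝ)| ≤ C → i ∈ Set.Icc (-⌈C⌉) ⌈C⌉ := fun i hi => by
    have : |i| ≤ ⌈C⌉ := by exact_mod_cast hi.trans (Int.le_ceil C)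
    exact abs_le.1 this
  exact ⟨k _ h1.1, k _ h1.2.1, k _ h1.2.2⟩

lemma lv_neg (a b c : E3) (i j k : ℤ) : lv a b c (-i) (-j) (-k) = -lv a b c i j k := by
  simp only [lv]
  push_cast
  module

theorem perturb {a b c : E3} (h : Adm a b c) (W : Finset (ℤ × ℤ × ℤ)) (hW : W.card ≤ 5)
    (ho : ∀ w ∈ W, Out (lv a b c w.1 w.2.1 w.2.2))
    (hc : ∀ i j k : ℤ, ¬(i = 0 ∧ j = 0 ∧ k = 0) → InD (lv a b c i j k) →
      (i, j, k) ∈ W ∨ (-i, -j, -k) ∈ W) :
    ∃ a' b' c', Adm a' b' c' ∧ det3 a' b' c' ^ 2 < det3 a b c ^ 2 := by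
  have hd := h.reduce.1
  choose f hf hf' using fun w : W => ho w w.2
  obtain ⟨e, e0, e1, e2⟩ := exists_sym (ι := W) (by simpa using hW) f
    fun w => lv a b c w.1.1 w.1.2.1 w.1.2.2
  obtain ⟨K, hK⟩ : ∃ K : ℝ, ∀ x, ‖sym e x‖ ≤ K * ‖x‖ :=
    ⟨_, (LinearMap.toContinuousLinearMap (sym e)).le_opNorm⟩
  have l1 : ∀ (t : ℝ) (i j k : ℤ), lv (a + t • sym e a) (b + t • sym e b) (c + t • sym e c) i j k =
      lv a b c i j k + t • sym e (lv a b c i j k) := fun t i j k => by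
    simp only [lv, map_add, map_smul]
    module
  have w1 : ∀ (t : ℝ), ∀ w ∈ W,
      Out (lv a b c w.1 w.2.1 w.2.2 + t • sym e (lv a b c w.1 w.2.1 w.2.2)) := fun t w hw =>
    ⟨f ⟨w, hw⟩, hf _, by rw [map_add, map_smul, e2 ⟨w, hw⟩, smul_zero, add_zero]; exact hf' _⟩
  have v1 : ∀ᶠ t in 𝓝[>] (0 : ℝ), ∀ z ∈ {z : ℤ × ℤ × ℤ | ‖lv a b c z.1 z.2.1 z.2.2‖ ≤ 800},
      ¬InD (lv a b c z.1 z.2.1 z.2.2) →
      Out (lv a b c z.1 z.2.1 z.2.2 + t • sym e (lv a b c z.1 z.2.1 z.2.2)) := by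
    refine (eventually_all_finite (finite_lv hd 800)).2 fun z _ => ?_
    by_cases hz : InD (lv a b c z.1 z.2.1 z.2.2)
    · exact Eventually.of_forall fun t k => absurd hz k
    · simp only [InD, not_forall, not_le] at hz
      obtain ⟨j, hj, hz⟩ := hz
      filter_upwards [ev_lt (f := fun t => -(ell j (lv a b c z.1 z.2.1 z.2.2) +
        t * ell j (sym e (lv a b c z.1 z.2.1 z.2.2)))) (u := -hh j) (by fun_prop)
        (by simpa using hz)] with t ht _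
      exact ⟨j, hj, by rw [map_add, map_smul, smul_eq_mul]; linarith⟩
  have v2 : ∀ᶠ t in 𝓝[>] (0 : ℝ), t * K < 1 / 2 := ev_lt (by fun_prop) (by simp)
  obtain ⟨t, ⟨⟨t1, t2⟩, t3⟩, t0⟩ :=
    (((v1.and v2).and (dl_lt e0 e1)).and self_mem_nhdsWithin).exists
  have t0 : 0 < t := t0
  refine ⟨a + t • sym e a, b + t • sym e b, c + t • sym e c, fun i j k hn => ?_, ?_⟩
  · rw [l1]
    by_cases hD : InD (lv a b c i j k)
    · rcases hc i j k hn hD with hw | hw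
      · exact w1 t (i, j, k) hw
      · have k1 : Out (-(lv a b c (-i) (-j) (-k) + t • sym e (lv a b c (-i) (-j) (-k)))) :=
          (w1 t (-i, -j, -k) hw).neg
        have k2 : -(lv a b c (-i) (-j) (-k) + t • sym e (lv a b c (-i) (-j) (-k))) =
            lv a b c i j k + t • sym e (lv a b c i j k) := by
          simp only [lv_neg, map_neg]
          module
        exact k2 ▸ k1
    · by_cases hr : ‖lv a b c i j k‖ ≤ 800
      · exact t1 (i, j, k) hr hD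
      · by_contra hc
        have k1 := (InD.of_not_out hc).norm_le
        have k2 := norm_sub_le (lv a b c i j k + t • sym e (lv a b c i j k))
          (t • sym e (lv a b c i j k))
        rw [add_sub_cancel_right, norm_smul, Real.norm_eq_abs, abs_of_pos t0] at k2
        have k3 := mul_le_mul_of_nonneg_left (hK (lv a b c i j k)) t0.le
        nlinarith
  · rw [det_pert, mul_pow]
    exact mul_lt_of_lt_one_left (by positivity) t3

end Pool.Agent.P.MP_c4753b_co.Three
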