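import Mathlib

/-!
Triangles inscribed in a small ball of a normed plane generate admissible lattices.
-/

namespace Pool.Agent.P.MP_c4753b_co.Plane

variable {V : Type*} [AddCommGroup V] [Module ℝ V] (N : Seminorm ℝ V)

lemma sm {a : ℝ} (ha : 0 ≤ a) (x : V) : N (a • x) = a * N x := by
  rw [map_smul_eq_mul, Real.norm_of_nonneg ha]

lemma le2 {a b : ℝ} (ha : 0 ≤ a) (hb : 0 ≤ b) (x y : V) :
    N (a • x + b • y) ≤ a * N x + b * N y := by
  rw [← sm N ha, ← sm N hb]
  exact map_add_le_add N _ _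

lemma le3 {a b c : ℝ} (ha : 0 ≤ a) (hb : 0 ≤ b) (hc : 0 ≤ c) (x y z : V) :
    N (a • x + b • y + c • z) ≤ a * N x + b * N y + c * N z := by
  rw [← sm N hc]
  exact (map_add_le_add N _ _).trans (add_le_add_left (le2 N ha hb x y) _)

lemma median_aux {u v : V} {x y ρ : ℝ} (hB : N (x • u + y • v + v) ≤ ρ) (hu : 1 ≤ N u)
    (hw : N (u + v) < 1) (hρ : 0 ≤ ρ) (hx : ρ < -x) : y < -1 := by
  by_contra hy
  push Not at hy
  have e : (1 + y - x) • u = (1 + y) • (u + v) + (1 : ℝ) • (-(x • u + y • v + v)) := by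
    module
  have h1 := le2 N (a := 1 + y) (b := 1) (by linarith) zero_le_one (u + v) (-(x • u + y • v + v))
  rw [← e, sm N (by linarith), map_neg_eq_map] at h1
  nlinarith

/-- The median lemma. -/
lemma median {u v : V} {x y ρ : ℝ} (hρ : ρ < 1) (hp : N (x • u + y • v) = ρ)
    (hA : N (x • u + y • v + u) ≤ ρ) (hB : N (x • u + y • v + v) ≤ ρ) (hu : 1 ≤ N u)
    (hv : 1 ≤ N v) : 1 ≤ N (u + v) := by
  by_contra hw
  push Not at hw
  have hρ0 : 0 < ρ := by
    have h1 := map_sub_le_add N (x • u + y • v + u) (x • u + y • v)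
    rw [add_sub_cancel_left] at h1
    linarith
  have hw0 := apply_nonneg N (u + v)
  have key : ∀ μ : ℝ, 0 ≤ μ → 0 ≤ x + μ → 0 ≤ y + μ → ρ < μ := by
    intro μ h0 h1 h2
    have e : (1 + (x + y + 2 * μ)) • (x • u + y • v) = (x + μ) • (x • u + y • v + u) +
        (y + μ) • (x • u + y • v + v) + μ • (-(u + v)) := by module
    have h3 := le3 N h1 h2 h0 (x • u + y • v + u) (x • u + y • v + v) (-(u + v))
    rw [← e, sm N (by linarith), hp, map_neg_eq_map] at h3
    have h4 : ρ ≤ μ * N (u + v) := by nlinarith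
    by_contra h5
    push Not at h5
    nlinarith
  have hA' : N (y • v + x • u + u) ≤ ρ := by rwa [add_comm (y • v)]
  have hw' : N (v + u) < 1 := by rwa [add_comm]
  have hxy : x < -1 ∧ y < -1 := by
    by_cases h : ρ < -x
    · have h1 := median_aux N hB hu hw hρ0.le h
      exact ⟨median_aux N hA' hv hw' hρ0.le (by linarith), h1⟩
    · by_cases h' : ρ < -y
      · have h1 := median_aux N hA' hv hw' hρ0.le h'
        exact ⟨h1, median_aux N hB hu hw hρ0.le (by linarith)⟩
      · exact absurd (key ρ hρ0.le (by linarith) (by linarith)) (lt_irrefl _)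
  obtain ⟨hx, hy⟩ := hxy
  have e1 : (-1 - x - y) • u = (-y) • (-(x • u + y • v + v)) +
      (-1 - y) • (x • u + y • v + u) := by module
  have e2 : (-1 - x - y) • v = (-x) • (-(x • u + y • v + u)) +
      (-1 - x) • (x • u + y • v + v) := by module
  have h1 := le2 N (a := -y) (b := -1 - y) (by linarith) (by linarith)
    (-(x • u + y • v + v)) (x • u + y • v + u)
  have h2 := le2 N (a := -x) (b := -1 - x) (by linarith) (by linarith)
    (-(x • u + y • v + u)) (x • u + y • v + v)
  rw [← e1, sm N (by linarith), map_neg_eq_map] at h1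
  rw [← e2, sm N (by linarith), map_neg_eq_map] at h2
  nlinarith

lemma adm_lt {f g : V} (hf : 1 ≤ N f) (hd : N (g - f) ≤ 2) {a b : ℝ} (hb : 0 ≤ b)
    (hab : b + 1 ≤ a) : 1 ≤ N (a • f + b • g) := by
  have e : (a + b) • f = (1 : ℝ) • (a • f + b • g) + b • (-(g - f)) := by module
  have h1 := le2 N zero_le_one hb (a • f + b • g) (-(g - f))
  rw [← e, sm N (by linarith), map_neg_eq_map] at h1
  nlinarith

lemma adm_pair {f g : V} (hf : 1 ≤ N f) (hg : 1 ≤ N g) (hd : N (g - f) ≤ 2)
    (hm : 1 ≤ N (f + g)) {a b : ℤ} (ha : 0 ≤ a) (hb : 0 ≤ b) (hab : a ≠ 0 ∨ b ≠ 0) :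
    1 ≤ N ((a : ℝ) • f + (b : ℝ) • g) := by
  rcases lt_trichotomy a b with h | h | h
  · rw [add_comm]
    refine adm_lt N hg (by rwa [map_sub_rev]) (by exact_mod_cast ha) ?_
    exact_mod_cast h
  · subst h
    have h1 : (1 : ℝ) ≤ a := by exact_mod_cast (show (1 : ℤ) ≤ a by omega)
    rw [← smul_add, sm N (by linarith)]
    nlinarith
  · refine adm_lt N hf hd (by exact_mod_cast hb) ?_
    exact_mod_cast h

/-- A triangle with side lengths in `[1, 2]` and medians at least `1 / 2` generates an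
admissible lattice. -/
lemma adm_lattice {u v : V} (hu : 1 ≤ N u) (hv : 1 ≤ N v) (hw : 1 ≤ N (v - u)) (hu2 : N u ≤ 2)
    (hv2 : N v ≤ 2) (hw2 : N (v - u) ≤ 2) (m0 : 1 ≤ N (u + v)) (m1 : 1 ≤ N (v + (v - u)))
    (m2 : 1 ≤ N ((v - u) + -u)) (i j : ℤ) (hij : i ≠ 0 ∨ j ≠ 0) :
    1 ≤ N ((i : ℝ) • u + (j : ℝ) • v) := by
  have main : ∀ i j : ℤ, 0 ≤ j → (i ≠ 0 ∨ j ≠ 0) → 1 ≤ N ((i : ℝ) • u + (j : ℝ) • v) := by
    intro i j hj hij
    by_cases hi : 0 ≤ i
    · exact adm_pair N hu hv hw2 m0 hi hj hij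
    by_cases h : -i ≤ j
    · have h1 := adm_pair N hv hw (by rw [sub_sub_cancel_left, map_neg_eq_map]; exact hu2) m1
        (a := j + i) (b := -i) (by omega) (by omega) (by omega)
      refine h1.trans (le_of_eq (congrArg N ?_))
      push_cast
      module
    · have h1 := adm_pair N hw (g := -u) (by rwa [map_neg_eq_map])
        (by rw [show -u - (v - u) = -v by abel, map_neg_eq_map]; exact hv2) m2
        (a := j) (b := -i - j) hj (by omega) (by omega)
      refine h1.trans (le_of_eq (congrArg N ?_))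
      push_cast
      module
  by_cases hj : 0 ≤ j
  · exact main i j hj hij
  · have h1 := main (-i) (-j) (by omega) (by omega)
    rw [← map_neg_eq_map] at h1
    refine h1.trans (le_of_eq (congrArg N ?_))
    push_cast
    module

/-- Three points on a sphere of radius less than one, at mutual distance at least one, which
affinely span the space, generate an admissible lattice. -/
lemma adm_triangle {c p q r : V} {ρ : ℝ} (hρ : ρ < 1) (hp : N (p - c) = ρ) (hq : N (q - c) = ρ)
    (hr : N (r - c) = ρ) (hpq : 1 ≤ N (q - p)) (hpr : 1 ≤ N (r - p)) (hqr : 1 ≤ N (r - q))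
    {x y : ℝ} (hc : p - c = x • (q - p) + y • (r - p)) (i j : ℤ) (hij : i ≠ 0 ∨ j ≠ 0) :
    1 ≤ N ((i : ℝ) • (q - p) + (j : ℝ) • (r - p)) := by
  have two : ∀ a b : V, N (a - c) = ρ → N (b - c) = ρ → N (a - b) ≤ 2 := by
    intro a b ha hb
    have h1 := map_sub_le_add N (a - c) (b - c)
    rw [sub_sub_sub_cancel_right] at h1
    linarith
  have e : r - p - (q - p) = r - q := by abel
  have hc1 : q - c = (y) • (r - q) + (-1 - x - y) • (p - q) := by
    rw [show q - c = (p - c) + (q - p) by abel, hc]; module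
  have hc2 : r - c = (-1 - x - y) • (p - r) + x • (q - r) := by
    rw [show r - c = (p - c) + (r - p) by abel, hc]; module
  refine adm_lattice N hpq hpr (e ▸ hqr) (two _ _ hq hp) (two _ _ hr hp) (e ▸ two _ _ hr hq)
    ?_ ?_ ?_ i j hij
  · refine median N hρ (hc ▸ hp) ?_ ?_ hpq hpr
    · rw [← hc, show p - c + (q - p) = q - c by abel, hq]
    · rw [← hc, show p - c + (r - p) = r - c by abel, hr]
  · rw [← map_neg_eq_map, show -(r - p + (r - p - (q - p))) = (p - r) + (q - r) by abel]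
    refine median N hρ (hc2 ▸ hr) ?_ ?_ (by rwa [map_sub_rev]) (by rwa [map_sub_rev])
    · rw [← hc2, show r - c + (p - r) = p - c by abel, hp]
    · rw [← hc2, show r - c + (q - r) = q - c by abel, hq]
  · rw [show r - p - (q - p) + -(q - p) = (r - q) + (p - q) by abel]
    refine median N hρ (hc1 ▸ hq) ?_ ?_ hqr (by rwa [map_sub_rev])
    · rw [← hc1, show q - c + (r - q) = r - c by abel, hr]
    · rw [← hc1, show q - c + (p - q) = p - c by abel, hp]

end Pool.Agent.P.MP_c4753b_co.Plane
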