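import Pool.Agent.P.MP_c4753b_co.Plane1

/-!
Triangles inscribed in two different empty balls of a strictly convex plane do not overlap.
-/

namespace Pool.Agent.P.MP_c4753b_co.Plane

variable {V : Type*} [AddCommGroup V] [Module ℝ V] (N : Seminorm ℝ V)

lemma far_out {a c₁ c₂ : V} {ρ₁ ρ₂ s : ℝ} (h1 : N (a - c₁) ≤ ρ₁) (h2 : ρ₂ ≤ N (a - c₂))
    (hs : 0 ≤ s) : ρ₂ + s * (ρ₂ - ρ₁) ≤ N (a - c₂ - s • (c₂ - c₁)) := by
  have e : (1 + s) • (a - c₂) = s • (a - c₁) + (1 : ℝ) • (a - c₂ - s • (c₂ - c₁)) := by module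
  have h3 := le2 N hs zero_le_one (a - c₁) (a - c₂ - s • (c₂ - c₁))
  rw [← e, sm N (by linarith)] at h3
  nlinarith

lemma key_pos {a b z c₁ c₂ : V} {ρ₁ ρ₂ α β : ℝ} (h1 : N (a - c₁) ≤ ρ₁) (h2 : ρ₂ ≤ N (a - c₂))
    (hb : N (b - c₂) ≤ ρ₂) (hz : N (z - c₂) < ρ₂) (hα : 0 ≤ α) (hβ : 0 ≤ β)
    (hμ : 0 < 1 - β + α * (ρ₂ - ρ₁))
    (e : a - z = β • (b - z) + α • (ρ₂ • (z - c₁) - ρ₁ • (z - c₂))) : False := by
  have hρ : 0 ≤ ρ₂ := (apply_nonneg N _).trans hb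
  have h3 := far_out N h1 h2 (mul_nonneg hα hρ)
  have e2 : a - c₂ - (α * ρ₂) • (c₂ - c₁) =
      (1 - β + α * (ρ₂ - ρ₁)) • (z - c₂) + β • (b - c₂) := by
    rw [show a - c₂ = (a - z) + (z - c₂) by abel, e]; module
  have h4 := le2 N hμ.le hβ (z - c₂) (b - c₂)
  rw [← e2] at h4
  nlinarith [mul_lt_mul_of_pos_left hz hμ, mul_le_mul_of_nonneg_left hb hβ]

lemma key (hs : ∀ x y, N (x + y) = N x + N y → N y • x = N x • y)
    {a b z c₁ c₂ : V} {ρ₁ ρ₂ α β : ℝ} (h1 : N (a - c₁) = ρ₁) (h2 : ρ₂ ≤ N (a - c₂))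
    (hb : N (b - c₂) = ρ₂) (hb' : ρ₁ ≤ N (b - c₁)) (hz1 : N (z - c₁) < ρ₁)
    (hz : N (z - c₂) < ρ₂) (hα : 0 < α) (hβ : 0 < β)
    (e : a - z = β • (b - z) + α • (ρ₂ • (z - c₁) - ρ₁ • (z - c₂))) :
    ρ₂ • (z - c₁) - ρ₁ • (z - c₂) = (ρ₂ - ρ₁) • (z - a) := by
  have hρ : 0 < ρ₂ := (apply_nonneg N _).trans_lt hz
  rcases lt_trichotomy 0 (1 - β + α * (ρ₂ - ρ₁)) with hμ | hμ | hμ
  · exact (key_pos N h1.le h2 hb.le hz hα.le hβ.le hμ e).elim
  · have hs0 : 0 < α * ρ₂ := mul_pos hα hρ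
    have hβ' : β = 1 + α * (ρ₂ - ρ₁) := by linarith
    have e2 : a - c₂ - (α * ρ₂) • (c₂ - c₁) = β • (b - c₂) := by
      rw [show a - c₂ = (a - z) + (z - c₂) by abel, e, hβ']; module
    have e3 : (α * ρ₂) • (a - c₁) + β • (b - c₂) = (1 + α * ρ₂) • (a - c₂) := by
      rw [← e2]; module
    have h3 := map_add_le_add N ((α * ρ₂) • (a - c₁)) (β • (b - c₂))
    have h4 : N ((α * ρ₂) • (a - c₁)) = α * ρ₂ * ρ₁ := by rw [sm N hs0.le, h1]
    have h5 : N (β • (b - c₂)) = β * ρ₂ := by rw [sm N hβ.le, hb]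
    have h6 : N ((α * ρ₂) • (a - c₁)) + N (β • (b - c₂)) ≤
        N ((α * ρ₂) • (a - c₁) + β • (b - c₂)) := by
      rw [e3, sm N (a := 1 + α * ρ₂) (by linarith), h4, h5, hβ']
      nlinarith
    have h7 := hs _ _ (le_antisymm h3 h6)
    rw [h4, h5, ← e2] at h7
    have h8 : (α * ρ₂ * (α * ρ₂ + 1)) • (ρ₂ • (z - c₁) - ρ₁ • (z - c₂) - (ρ₂ - ρ₁) • (z - a))
        = (β * ρ₂) • (α * ρ₂) • (a - c₁) -
          (α * ρ₂ * ρ₁) • (a - c₂ - (α * ρ₂) • (c₂ - c₁)) := by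
      rw [hβ']; module
    rw [h7, sub_self, smul_eq_zero] at h8
    exact sub_eq_zero.1 (h8.resolve_left (by positivity))
  · refine (key_pos N (α := α / β) (β := 1 / β) hb.le hb' h1.le hz1 (by positivity)
      (by positivity) ?_ ?_).elim
    · have : 1 - 1 / β + α / β * (ρ₁ - ρ₂) = -(1 - β + α * (ρ₂ - ρ₁)) / β := by
        field_simp; ring
      rw [this]
      exact div_pos (by linarith) hβ
    · rw [e, smul_add, smul_smul, smul_smul, one_div_mul_cancel hβ.ne']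
      module

lemma key_zero {a z c₁ c₂ : V} {ρ₁ ρ₂ α : ℝ} (h1 : N (a - c₁) ≤ ρ₁) (h2 : ρ₂ ≤ N (a - c₂))
    (hz1 : N (z - c₁) < ρ₁) (hz : N (z - c₂) < ρ₂) (hd : ρ₁ - ρ₂ < N (c₂ - c₁)) (hα : 0 < α)
    (e : a - z = α • (ρ₂ • (z - c₁) - ρ₁ • (z - c₂))) : False := by
  have hρ : 0 < ρ₁ := (apply_nonneg N _).trans_lt hz1
  by_cases hμ : 0 < 1 - 0 + α * (ρ₂ - ρ₁)
  · exact key_pos N h1 h2 hz.le hz hα.le le_rfl hμ (by rw [e]; simp)
  · have e2 : (α * ρ₁) • (c₂ - c₁) =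
        (1 : ℝ) • (a - c₁) + (-1 - α * (ρ₂ - ρ₁)) • (z - c₁) := by
      rw [show a - c₁ = (a - z) + (z - c₁) by abel, e]; module
    have h3 := le2 N zero_le_one (b := -1 - α * (ρ₂ - ρ₁)) (by linarith) (a - c₁) (z - c₁)
    rw [← e2, sm N (by positivity)] at h3
    nlinarith [mul_lt_mul_of_pos_left hd (mul_pos hα hρ),
      mul_le_mul_of_nonneg_left hz1.le (show 0 ≤ -1 - α * (ρ₂ - ρ₁) by linarith)]

lemma not_nested (hs : ∀ x y, N (x + y) = N x + N y → N y • x = N x • y)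
    (h0 : ∀ x, N x = 0 → x = 0) {a a' c₁ c₂ : V} {ρ₁ ρ₂ : ℝ} (hne : (c₁, ρ₁) ≠ (c₂, ρ₂))
    (haa : a ≠ a') (h1 : N (a - c₁) = ρ₁) (h2 : ρ₂ ≤ N (a - c₂)) (h1' : N (a' - c₁) = ρ₁)
    (h2' : ρ₂ ≤ N (a' - c₂)) : ρ₂ - ρ₁ < N (c₁ - c₂) := by
  by_contra h
  push Not at h
  have main : ∀ p, N (p - c₁) = ρ₁ → ρ₂ ≤ N (p - c₂) →
      N (c₁ - c₂) = ρ₂ - ρ₁ ∧ N (c₁ - c₂) • (p - c₁) = ρ₁ • (c₁ - c₂) := by
    intro p hp hp'
    have h3 := map_add_le_add N (p - c₁) (c₁ - c₂)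
    have h4 := hs (p - c₁) (c₁ - c₂)
    rw [sub_add_sub_cancel, hp] at h3 h4
    exact ⟨by linarith, h4 (by linarith)⟩
  obtain ⟨h3, h4⟩ := main a h1 h2
  by_cases h5 : N (c₁ - c₂) = 0
  · exact hne (Prod.ext (sub_eq_zero.1 (h0 _ h5)) (by simp only; linarith))
  · exact haa (sub_left_injective (smul_right_injective V h5 (h4.trans (main a' h1' h2').2.symm)))

lemma comb_aux {s t l : Fin 3 → ℝ} (hl : ∀ i, 0 < l i) (h1 : ∑ i, l i * s i = 0)
    (h2 : ∑ i, l i * t i = 0) (nd : (s 1 - s 0) * (t 2 - t 0) ≠ (t 1 - t 0) * (s 2 - s 0))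
    {p q : ℝ} (hpq : p ≠ 0 ∨ q ≠ 0) (h : ∀ i, p * t i ≤ q * s i) : False := by
  rw [Fin.sum_univ_three] at h1 h2
  have a0 := mul_nonneg (hl 0).le (sub_nonneg.2 (h 0))
  have a1 := mul_nonneg (hl 1).le (sub_nonneg.2 (h 1))
  have a2 := mul_nonneg (hl 2).le (sub_nonneg.2 (h 2))
  have sum : l 0 * (q * s 0 - p * t 0) + l 1 * (q * s 1 - p * t 1) + l 2 * (q * s 2 - p * t 2)
      = 0 := by linear_combination q * h1 - p * h2
  have b0 := (mul_eq_zero.1 (show l 0 * (q * s 0 - p * t 0) = 0 by linarith)).resolve_left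
    (hl 0).ne'
  have b1 := (mul_eq_zero.1 (show l 1 * (q * s 1 - p * t 1) = 0 by linarith)).resolve_left
    (hl 1).ne'
  have b2 := (mul_eq_zero.1 (show l 2 * (q * s 2 - p * t 2) = 0 by linarith)).resolve_left
    (hl 2).ne'
  apply nd
  rcases hpq with hp | hq
  · refine mul_left_cancel₀ hp ?_
    linear_combination (s 2 - s 0) * (b1 - b0) - (s 1 - s 0) * (b2 - b0)
  · refine mul_left_cancel₀ hq ?_
    linear_combination (t 2 - t 0) * (b1 - b0) - (t 1 - t 0) * (b2 - b0)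

lemma comb {s t l s' t' l' : Fin 3 → ℝ} (hl : ∀ i, 0 < l i) (h1 : ∑ i, l i * s i = 0)
    (h2 : ∑ i, l i * t i = 0) (nd : (s 1 - s 0) * (t 2 - t 0) ≠ (t 1 - t 0) * (s 2 - s 0))
    (hl' : ∀ i, 0 < l' i) (h1' : ∑ i, l' i * s' i = 0) (h2' : ∑ i, l' i * t' i = 0)
    (nd' : (s' 1 - s' 0) * (t' 2 - t' 0) ≠ (t' 1 - t' 0) * (s' 2 - s' 0))
    (K : ∀ i j, 0 < s i * s' j → t i ≤ s i / s' j * t' j) (K0 : ∀ i, s i = 0 → t i ≤ 0)
    (K0' : ∀ j, s' j = 0 → 0 ≤ t' j) : False := by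
  have hex : (Finset.univ.filter fun i => 0 < s i).Nonempty := by
    by_contra h
    refine comb_aux hl h1 h2 nd (p := 0) (q := -1) (by norm_num) fun i => ?_
    by_contra h3
    exact h ⟨i, Finset.mem_filter.2 ⟨Finset.mem_univ _, by linarith⟩⟩
  obtain ⟨i₀, hi₀, hmax⟩ := Finset.exists_max_image _ (fun i => t i / s i) hex
  have hp := (Finset.mem_filter.1 hi₀).2
  obtain ⟨i₁, hi₁⟩ : ∃ i, ¬ (1 * t i ≤ t i₀ / s i₀ * s i) := by
    by_contra h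
    push Not at h
    exact comb_aux hl h1 h2 nd (Or.inl one_ne_zero) h
  have hn : s i₁ < 0 := by
    rcases lt_trichotomy (s i₁) 0 with h | h | h
    · exact h
    · exact absurd (by rw [h]; simpa using K0 i₁ h) hi₁
    · have h3 := hmax i₁ (Finset.mem_filter.2 ⟨Finset.mem_univ _, h⟩)
      rw [div_le_iff₀ h] at h3
      exact absurd (by simpa using h3) hi₁
  push Not at hi₁
  refine comb_aux hl' h1' h2' nd' (p := -1) (q := -(t i₀ / s i₀)) (by norm_num) fun j => ?_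
  rcases lt_trichotomy (s' j) 0 with h | h | h
  · have h3 := K i₁ j (mul_pos_of_neg_of_neg hn h)
    have h4 : 0 < s i₁ / s' j := div_pos_of_neg_of_neg hn h
    have h5 : s i₁ / s' j * (-(t i₀ / s i₀) * s' j) = -(t i₀ / s i₀ * s i₁) := by
      have := h.ne
      field_simp
    refine le_of_mul_le_mul_left ?_ h4
    rw [h5]
    linarith
  · have := K0' j h
    rw [h]; linarith
  · have h3 := K i₀ j (mul_pos hp h)
    have h4 : 0 < s i₀ / s' j := div_pos hp h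
    have h5 : s i₀ / s' j * (t i₀ / s i₀ * s' j) = t i₀ := by field_simp
    refine le_of_mul_le_mul_left ?_ h4
    nlinarith

/-- The open triangle with vertices `p`, `q`, `r`. -/
def otri (p q r : V) : Set V :=
  {z | ∃ α β : ℝ, 0 < α ∧ 0 < β ∧ α + β < 1 ∧ z = p + α • (q - p) + β • (r - p)}

variable (ξ η : V →ₗ[ℝ] ℝ)

/-- The determinant in the coordinates `ξ`, `η`. -/
def dt (u v : V) : ℝ := ξ u * η v - η u * ξ v

lemma otri_in (hs : ∀ x y, N (x + y) = N x + N y → N y • x = N x • y) {p q r c z : V} {ρ : ℝ}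
    (hp : N (p - c) = ρ) (hq : N (q - c) = ρ) (hr : N (r - c) = ρ) (hpq : p ≠ q)
    (h0 : ∀ x, N x = 0 → x = 0) (hz : z ∈ otri p q r) : N (z - c) < ρ := by
  obtain ⟨α, β, hα, hβ, hαβ, rfl⟩ := hz
  have hρ : ρ ≠ 0 := by
    rintro rfl
    exact hpq ((sub_eq_zero.1 (h0 _ hp)).trans (sub_eq_zero.1 (h0 _ hq)).symm)
  have e : p + α • (q - p) + β • (r - p) - c =
      ((1 - α - β) • (p - c) + α • (q - c)) + β • (r - c) := by module
  have h1 := map_add_le_add N ((1 - α - β) • (p - c) + α • (q - c)) (β • (r - c))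
  have h2 := map_add_le_add N ((1 - α - β) • (p - c)) (α • (q - c))
  have h3 : N ((1 - α - β) • (p - c)) = (1 - α - β) * ρ := by rw [sm N (by linarith), hp]
  have h4 : N (α • (q - c)) = α * ρ := by rw [sm N hα.le, hq]
  have h5 : N (β • (r - c)) = β * ρ := by rw [sm N hβ.le, hr]
  rw [e]
  refine lt_of_le_of_lt h1 ?_
  rcases h2.lt_or_eq with h | h
  · rw [h3, h4] at h
    rw [h5]; linarith
  · have h6 := hs _ _ h
    rw [h3, h4, smul_smul, smul_smul, show (1 - α - β) * ρ * α = α * ρ * (1 - α - β) by ring]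
      at h6
    have h7 : α * ρ * (1 - α - β) ≠ 0 :=
      mul_ne_zero (mul_ne_zero hα.ne' hρ) (by linarith)
    exact absurd (sub_left_injective (smul_right_injective V h7 h6)) hpq

/-- Triangles inscribed in two different balls, with no vertex inside the other ball, have
disjoint interiors. -/
lemma disjoint_otri (hs : ∀ x y, N (x + y) = N x + N y → N y • x = N x • y)
    (h0 : ∀ x, N x = 0 → x = 0) (hinj : ∀ v, ξ v = 0 → η v = 0 → v = 0)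
    {c₁ c₂ : V} {ρ₁ ρ₂ : ℝ} (hne : (c₁, ρ₁) ≠ (c₂, ρ₂)) (a b : Fin 3 → V)
    (ha : ∀ i, N (a i - c₁) = ρ₁) (ha' : ∀ i, ρ₂ ≤ N (a i - c₂))
    (hb : ∀ i, N (b i - c₂) = ρ₂) (hb' : ∀ i, ρ₁ ≤ N (b i - c₁))
    (nda : dt ξ η (a 1 - a 0) (a 2 - a 0) ≠ 0) (ndb : dt ξ η (b 1 - b 0) (b 2 - b 0) ≠ 0) :
    Disjoint (otri (a 0) (a 1) (a 2)) (otri (b 0) (b 1) (b 2)) := by
  rw [Set.disjoint_left]
  intro z hza hzb
  have na : a 0 ≠ a 1 := fun h => nda (by simp [dt, h])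
  have nb : b 0 ≠ b 1 := fun h => ndb (by simp [dt, h])
  have hz1 := otri_in N hs (ha 0) (ha 1) (ha 2) na h0 hza
  have hz2 := otri_in N hs (hb 0) (hb 1) (hb 2) nb h0 hzb
  have hd1 := not_nested N hs h0 hne na (ha 0) (ha' 0) (ha 1) (ha' 1)
  have hd2 := not_nested N hs h0 hne.symm nb (hb 0) (hb' 0) (hb 1) (hb' 1)
  obtain ⟨r, hr⟩ : ∃ r, r = ρ₂ • (z - c₁) - ρ₁ • (z - c₂) := ⟨_, rfl⟩
  have hr0 : r ≠ 0 := by
    intro h
    have hρ : 0 < ρ₁ := (apply_nonneg N _).trans_lt hz1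
    have e : ρ₁ • (c₂ - c₁) = r + (ρ₁ - ρ₂) • (z - c₁) := by rw [hr]; module
    have h3 := congrArg N e
    rw [h, zero_add, sm N hρ.le, map_smul_eq_mul, Real.norm_eq_abs] at h3
    rw [map_sub_rev] at hd1
    have h4 : |ρ₁ - ρ₂| < N (c₂ - c₁) := abs_lt.2 ⟨by linarith, hd2⟩
    nlinarith [abs_nonneg (ρ₁ - ρ₂), apply_nonneg N (z - c₁)]
  have hn : 0 < ξ r ^ 2 + η r ^ 2 := by
    by_contra h
    exact hr0 (hinj r (by nlinarith) (by nlinarith))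
  have par : ∀ w : V, dt ξ η r w = 0 →
      w = ((ξ r * ξ w + η r * η w) / (ξ r ^ 2 + η r ^ 2)) • r := by
    intro w hw
    rw [dt] at hw
    refine sub_eq_zero.1 (hinj _ ?_ ?_)
    · rw [map_sub, map_smul, smul_eq_mul]
      field_simp
      linear_combination (-η r) * hw
    · rw [map_sub, map_smul, smul_eq_mul]
      field_simp
      linear_combination (ξ r) * hw
  have tri : ∀ p : Fin 3 → V, z ∈ otri (p 0) (p 1) (p 2) → dt ξ η (p 1 - p 0) (p 2 - p 0) ≠ 0 →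
      ∃ l : Fin 3 → ℝ, (∀ i, 0 < l i) ∧ ∑ i, l i * dt ξ η r (p i - z) = 0 ∧
        ∑ i, l i * (ξ r * ξ (p i - z) + η r * η (p i - z)) = 0 ∧
        (dt ξ η r (p 1 - z) - dt ξ η r (p 0 - z)) * ((ξ r * ξ (p 2 - z) + η r * η (p 2 - z)) -
          (ξ r * ξ (p 0 - z) + η r * η (p 0 - z))) ≠
        ((ξ r * ξ (p 1 - z) + η r * η (p 1 - z)) - (ξ r * ξ (p 0 - z) + η r * η (p 0 - z))) *
          (dt ξ η r (p 2 - z) - dt ξ η r (p 0 - z)) := by
    rintro p ⟨α, β, hα, hβ, hαβ, e⟩ nd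
    refine ⟨![1 - α - β, α, β], fun i => ?_, ?_, ?_, fun h => nd ?_⟩
    · fin_cases i
      · simpa using (by linarith : 0 < 1 - α - β)
      · simpa using hα
      · simpa using hβ
    · simp [Fin.sum_univ_three, dt, e]; ring
    · simp [Fin.sum_univ_three, e]; ring
    · refine mul_left_cancel₀ hn.ne' ?_
      simp only [dt, map_sub] at h ⊢
      linear_combination (-1) * h
  obtain ⟨l, hl, h1, h2, nd⟩ := tri a hza nda
  obtain ⟨l', hl', h1', h2', nd'⟩ := tri b hzb ndb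
  refine comb hl h1 h2 nd hl' h1' h2' nd' (fun i j h => ?_) (fun i h => ?_) (fun j h => ?_)
  · by_contra h3
    push Not at h3
    have hj : dt ξ η r (b j - z) ≠ 0 := right_ne_zero_of_mul h.ne'
    have hβ : 0 < dt ξ η r (a i - z) / dt ξ η r (b j - z) := div_pos_iff.2 (mul_pos_iff.1 h)
    obtain ⟨β, hβe⟩ : ∃ β, β = dt ξ η r (a i - z) / dt ξ η r (b j - z) := ⟨_, rfl⟩
    rw [← hβe] at h3 hβ
    rw [eq_div_iff hj] at hβe
    have h4 := par (a i - z - β • (b j - z)) (by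
      simp only [dt, map_sub, map_smul, smul_eq_mul] at hβe ⊢
      linear_combination (-1) * hβe)
    have h5 := key N hs (ha i) (ha' i) (hb j) (hb' j) hz1 hz2 (div_pos ?_ hn) hβ
      (by rw [← hr, ← h4]; abel)
    · rw [← hr] at h5
      refine left_ne_zero_of_mul h.ne' ?_
      rw [h5]
      simp only [dt, map_sub, map_smul, smul_eq_mul]
      ring
    · simp only [map_sub, map_smul, smul_eq_mul] at h3 ⊢
      linarith
  · by_contra h3
    push Not at h3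
    exact key_zero N (ha i).le (ha' i) hz1 hz2 hd2 (div_pos h3 hn) (by rw [← hr, ← par _ h])
  · by_contra h3
    push Not at h3
    refine key_zero N (hb j).le (hb' j) hz2 hz1 hd1 (neg_pos.2 (div_neg_of_neg_of_pos h3 hn)) ?_
    rw [show ρ₁ • (z - c₂) - ρ₂ • (z - c₁) = -r by rw [hr]; abel, neg_smul_neg, ← par _ h]

end Pool.Agent.P.MP_c4753b_co.Plane
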