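import Pool.Agent.P.MP_c4753b_co.Top

/-!
Admissible bases, their reduction, and the existence of a basis of least determinant.
-/

namespace Pool.Agent.P.MP_c4753b_co.Three

/-- No nontrivial integer combination of `a, b, c` lies in the open polytope. -/
def Adm (a b c : E3) : Prop :=
  ∀ i j k : ℤ, ¬(i = 0 ∧ j = 0 ∧ k = 0) → Out (lv a b c i j k)

/-- Determinant of an integer matrix. -/
def idet (p1 p2 p3 q1 q2 q3 r1 r2 r3 : ℤ) : ℤ :=
  p1 * (q2 * r3 - q3 * r2) + p2 * (q3 * r1 - q1 * r3) + p3 * (q1 * r2 - q2 * r1)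

lemma lv_lv (a b c : E3) (p1 p2 p3 q1 q2 q3 r1 r2 r3 i j k : ℤ) :
    lv (lv a b c p1 p2 p3) (lv a b c q1 q2 q3) (lv a b c r1 r2 r3) i j k =
      lv a b c (i * p1 + j * q1 + k * r1) (i * p2 + j * q2 + k * r2)
        (i * p3 + j * q3 + k * r3) := by
  simp only [lv]
  push_cast
  module

lemma det_lv (a b c : E3) (p1 p2 p3 q1 q2 q3 r1 r2 r3 : ℤ) :
    det3 (lv a b c p1 p2 p3) (lv a b c q1 q2 q3) (lv a b c r1 r2 r3) =
      idet p1 p2 p3 q1 q2 q3 r1 r2 r3 * det3 a b c := by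
  simp only [lv, det3, idet, PiLp.add_apply, PiLp.smul_apply, smul_eq_mul]
  push_cast
  ring

lemma Adm.change {a b c : E3} (h : Adm a b c) {p1 p2 p3 q1 q2 q3 r1 r2 r3 : ℤ}
    (hd : idet p1 p2 p3 q1 q2 q3 r1 r2 r3 ≠ 0) :
    Adm (lv a b c p1 p2 p3) (lv a b c q1 q2 q3) (lv a b c r1 r2 r3) := by
  intro i j k hijk
  rw [lv_lv]
  refine h _ _ _ fun ⟨h1, h2, h3⟩ => hijk ⟨?_, ?_, ?_⟩ <;> refine mul_left_cancel₀ hd ?_ <;>
    simp only [idet]
  · linear_combination (q2 * r3 - q3 * r2) * h1 + (q3 * r1 - q1 * r3) * h2 +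
      (q1 * r2 - q2 * r1) * h3
  · linear_combination (r2 * p3 - r3 * p2) * h1 + (r3 * p1 - r1 * p3) * h2 +
      (r1 * p2 - r2 * p1) * h3
  · linear_combination (p2 * q3 - p3 * q2) * h1 + (p3 * q1 - p1 * q3) * h2 +
      (p1 * q2 - p2 * q1) * h3

lemma Adm.rot {a b c : E3} (h : Adm a b c) : Adm b c a := fun i j k hn => by
  have := h k i j (by tauto)
  rwa [show lv a b c k i j = lv b c a i j k by simp only [lv]; module] at this

lemma Adm.swap {a b c : E3} (h : Adm a b c) : Adm b a c := fun i j k hn => by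
  have := h j i k (by tauto)
  rwa [show lv a b c j i k = lv b a c i j k by simp only [lv]; module] at this

lemma Adm.out {a b c : E3} (h : Adm a b c) : Out a := by
  simpa [lv] using h 1 0 0 (by norm_num)

/-- Scalar product. -/
def ip (x y : E3) : ℝ := x 0 * y 0 + x 1 * y 1 + x 2 * y 2

lemma Out.ip_ge {x : E3} (h : Out x) : 10000 ≤ ip x x := by
  obtain ⟨j, hj, h⟩ := h
  have h1 : ∀ j < 18, nn j 0 ^ 2 + nn j 1 ^ 2 + nn j 2 ^ 2 ≤ 1432 := by decide
  have h2 : (nn j 0 : ℝ) ^ 2 + (nn j 1 : ℝ) ^ 2 + (nn j 2 : ℝ) ^ 2 ≤ 1432 := by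
    exact_mod_cast h1 j hj
  have h3 := hh_ge.trans h
  have h4 : ell j x ^ 2 ≤ ((nn j 0 : ℝ) ^ 2 + (nn j 1 : ℝ) ^ 2 + (nn j 2 : ℝ) ^ 2) * ip x x := by
    rw [ell_apply, ip]
    nlinarith [sq_nonneg (nn j 0 * x 1 - nn j 1 * x 0), sq_nonneg (nn j 0 * x 2 - nn j 2 * x 0),
      sq_nonneg (nn j 1 * x 2 - nn j 2 * x 1)]
  have h5 : 0 ≤ ip x x := by rw [ip]; nlinarith
  nlinarith

lemma red_real {x y z u v w D : ℝ} (hx : 10000 ≤ x) (hy : 10000 ≤ y) (h1 : |2 * u| ≤ x + 1000)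
    (h2 : |2 * u| ≤ y + 1000)
    (hD : D ^ 2 = x * y * z + 2 * u * v * w - x * w ^ 2 - y * v ^ 2 - z * u ^ 2)
    (h : ∀ i j : ℤ, 0 ≤ -2 * i * v - 2 * j * w + i ^ 2 * x + 2 * i * j * u + j ^ 2 * y + 1000) :
    69000000 * (z - 3 / 8 * (x + y) - 1250) ≤ D ^ 2 := by
  have hG : 69000000 ≤ x * y - u ^ 2 := by
    have k1 : |2 * u| * |2 * u| ≤ (11 / 10 * x) * (11 / 10 * y) :=
      mul_le_mul (by linarith) (by linarith) (abs_nonneg _) (by linarith)
    rw [abs_mul_abs_self] at k1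
    nlinarith
  have hG0 : x * y - u ^ 2 ≠ 0 := by linarith
  obtain ⟨α, hα⟩ : ∃ α, (x * y - u ^ 2) * α = y * v - u * w := ⟨_, mul_div_cancel₀ _ hG0⟩
  obtain ⟨β, hβ⟩ : ∃ β, (x * y - u ^ 2) * β = x * w - u * v := ⟨_, mul_div_cancel₀ _ hG0⟩
  have hv : v = α * x + β * u :=
    mul_left_cancel₀ hG0 (by linear_combination (-x) * hα - u * hβ)
  have hw : w = α * u + β * y :=
    mul_left_cancel₀ hG0 (by linear_combination (-u) * hα - y * hβ)
  have hk : D ^ 2 = (x * y - u ^ 2) * (z - (α * v + β * w)) := by rw [hD, hv, hw]; ring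
  have k1 := h (round α) (round β)
  have k2 := abs_sub_round α
  have k3 := abs_sub_round β
  generalize (round α : ℝ) = i at k1 k2
  generalize (round β : ℝ) = j at k1 k3
  have k4 : (α - i) ^ 2 ≤ 1 / 4 := by nlinarith [abs_le.1 k2]
  have k5 : (β - j) ^ 2 ≤ 1 / 4 := by nlinarith [abs_le.1 k3]
  have k6 : (α - i) * (β - j) * (2 * u) ≤ 1 / 4 * |2 * u| := by
    refine (le_abs_self _).trans ?_
    rw [abs_mul, abs_mul]
    refine mul_le_mul_of_nonneg_right ?_ (abs_nonneg _)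
    nlinarith [abs_nonneg (α - i), abs_nonneg (β - j)]
  have k7 : α * v + β * w ≤ 3 / 8 * (x + y) + 1250 := by
    have e : -2 * i * v - 2 * j * w + i ^ 2 * x + 2 * i * j * u + j ^ 2 * y + (α * v + β * w) =
        (α - i) ^ 2 * x + (α - i) * (β - j) * (2 * u) + (β - j) ^ 2 * y := by
      rw [hv, hw]; ring
    nlinarith
  rcases le_total 0 (z - (α * v + β * w)) with k8 | k8
  · nlinarith
  · nlinarith [sq_nonneg D]

/-- The sum of the squared lengths. -/
def len (a b c : E3) : ℝ := ip a a + ip b b + ip c c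

/-- Almost shortest admissible basis among those with the same determinant. -/
def Near (a b c : E3) : Prop := Adm a b c ∧ ∀ a' b' c', Adm a' b' c' →
  det3 a' b' c' ^ 2 = det3 a b c ^ 2 → len a b c ≤ len a' b' c' + 1000

lemma det_rot (a b c : E3) : det3 b c a = det3 a b c := by simp only [det3]; ring

lemma det_swap (a b c : E3) : det3 b a c = -det3 a b c := by simp only [det3]; ring

lemma Near.rot {a b c : E3} (h : Near a b c) : Near b c a :=
  ⟨h.1.rot, fun a' b' c' h1 h2 => by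
    have := h.2 a' b' c' h1 (by rw [h2, det_rot])
    simp only [len] at this ⊢
    linarith⟩

lemma Near.move {a b c : E3} (h : Near a b c) (i j : ℤ) : 0 ≤ -2 * i * ip a c - 2 * j * ip b c +
    i ^ 2 * ip a a + 2 * i * j * ip a b + j ^ 2 * ip b b + 1000 := by
  have := h.2 _ _ _ (h.1.change (p1 := 1) (p2 := 0) (p3 := 0) (q1 := 0) (q2 := 1) (q3 := 0)
    (r1 := -i) (r2 := -j) (r3 := 1) (by simp [idet])) (by rw [det_lv]; simp [idet])
  simp only [len, ip, lv, PiLp.add_apply, PiLp.smul_apply, smul_eq_mul] at this ⊢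
  push_cast at this
  linarith

lemma Near.bound {a b c : E3} (h : Near a b c) :
    69000000 * (ip c c - 3 / 8 * (ip a a + ip b b) - 1250) ≤ det3 a b c ^ 2 := by
  have e : ip b a = ip a b := by simp only [ip]; ring
  refine red_real (u := ip a b) (v := ip a c) (w := ip b c) h.1.out.ip_ge h.1.rot.out.ip_ge
    ?_ ?_ (by simp only [det3, ip]; ring) h.move
  · have k1 := h.rot.rot.move 0 1
    have k2 := h.rot.rot.move 0 (-1)
    push_cast at k1 k2
    rw [abs_le]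
    constructor <;> linarith
  · have k1 := h.rot.move 1 0
    have k2 := h.rot.move (-1) 0
    push_cast at k1 k2
    rw [abs_le]
    constructor <;> linarith

lemma Adm.reduce {a b c : E3} (h : Adm a b c) : det3 a b c ≠ 0 ∧ ∃ a' b' c', Adm a' b' c' ∧
    det3 a' b' c' ^ 2 = det3 a b c ^ 2 ∧ len a' b' c' ≤ det3 a b c ^ 2 + 15000 := by
  let S : Set ℝ := {s | ∃ a' b' c', Adm a' b' c' ∧ det3 a' b' c' ^ 2 = det3 a b c ^ 2 ∧
    s = len a' b' c'}
  have hl : ∀ {a' b' c'}, Adm a' b' c' → 30000 ≤ len a' b' c' := fun h => by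
    simp only [len]
    linarith [h.out.ip_ge, h.rot.out.ip_ge, h.rot.rot.out.ip_ge]
  have hb : BddBelow S := ⟨30000, by rintro _ ⟨a', b', c', h1, -, rfl⟩; exact hl h1⟩
  obtain ⟨_, ⟨a', b', c', h1, h2, rfl⟩, h3⟩ :=
    Real.lt_sInf_add_pos (s := S) ⟨_, a, b, c, h, rfl, rfl⟩ (by norm_num : (0 : ℝ) < 1000)
  have hn : Near a' b' c' := ⟨h1, fun a'' b'' c'' k1 k2 => by
    have := csInf_le hb (⟨a'', b'', c'', k1, k2.trans h2, rfl⟩ : len a'' b'' c'' ∈ S)
    linarith⟩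
  have k1 := hn.bound
  have k2 := hn.rot.bound
  have k3 := hn.rot.rot.bound
  rw [det_rot] at k2
  rw [det_rot, det_rot] at k3
  have k4 := hl h1
  rw [h2] at k1 k2 k3
  simp only [len] at k4 ⊢
  refine ⟨fun h0 => ?_, a', b', c', h1, h2, ?_⟩
  · rw [h0] at k1 k2 k3
    linarith
  · nlinarith [sq_nonneg (det3 a b c)]

lemma continuous_ell (j : ℕ) : Continuous (ell j) := (ell j).continuous_of_finiteDimensional

lemma isClosed_out : IsClosed {x : E3 | Out x} := by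
  have : {x : E3 | Out x} = ⋃ j ∈ Set.Iio 18, {x | (hh j : ℝ) ≤ ell j x} := by
    ext x
    simp [Out]
  rw [this]
  exact (Set.finite_Iio 18).isClosed_biUnion fun j _ =>
    isClosed_le continuous_const (continuous_ell j)

lemma norm_sq_eq (x : E3) : ‖x‖ ^ 2 = ip x x := by
  rw [EuclideanSpace.real_norm_sq_eq, Fin.sum_univ_three, ip]
  ring

theorem exists_min {a0 b0 c0 : E3} (h0 : Adm a0 b0 c0) : ∃ a b c, Adm a b c ∧
    ∀ a' b' c', Adm a' b' c' → det3 a b c ^ 2 ≤ det3 a' b' c' ^ 2 := by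
  let R := det3 a0 b0 c0 ^ 2 + 15000
  let K : Set (E3 × E3 × E3) := {p | Adm p.1 p.2.1 p.2.2 ∧ len p.1 p.2.1 p.2.2 ≤ R}
  have hc : IsClosed K := by
    refine IsClosed.inter (s₁ := {p : E3 × E3 × E3 | Adm p.1 p.2.1 p.2.2}) ?_
      (isClosed_le (f := fun p : E3 × E3 × E3 => len p.1 p.2.1 p.2.2)
        (by simp only [len, ip]; fun_prop) continuous_const)
    simp only [Adm, Set.ofPred_forall]
    refine isClosed_iInter fun i => isClosed_iInter fun j => isClosed_iInter fun k =>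
      isClosed_iInter fun _ => isClosed_out.preimage (f := fun p : E3 × E3 × E3 =>
        lv p.1 p.2.1 p.2.2 i j k) ?_
    simp only [lv]
    fun_prop
  have hB := isCompact_closedBall (0 : E3) (√R)
  have hK : IsCompact K := by
    refine (hB.prod (hB.prod hB)).of_isClosed_subset hc fun p hp => ?_
    have k : ∀ x : E3, ip x x ≤ R → x ∈ Metric.closedBall (0 : E3) (√R) := fun x hx => by
      rw [mem_closedBall_zero_iff]
      exact Real.le_sqrt_of_sq_le (by rwa [norm_sq_eq])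
    have k1 := hp.1.out.ip_ge
    have k2 := hp.1.rot.out.ip_ge
    have k3 := hp.1.rot.rot.out.ip_ge
    have k4 := hp.2
    simp only [len] at k4
    exact ⟨k _ (by linarith), k _ (by linarith), k _ (by linarith)⟩
  obtain ⟨-, a1, b1, c1, h1, h2, h3⟩ := h0.reduce
  obtain ⟨p, hp, hm⟩ := hK.exists_isMinOn ⟨(a1, b1, c1), h1, h3⟩
    (f := fun p => det3 p.1 p.2.1 p.2.2 ^ 2) (by simp only [det3]; fun_prop)
  refine ⟨_, _, _, hp.1, fun a' b' c' h' => ?_⟩
  rcases le_total (det3 a0 b0 c0 ^ 2) (det3 a' b' c' ^ 2) with h | h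
  · exact (le_of_le_of_eq (hm (a := (a1, b1, c1)) ⟨h1, h3⟩) h2).trans h
  · obtain ⟨-, a2, b2, c2, k1, k2, k3⟩ := h'.reduce
    exact le_of_le_of_eq (hm (a := (a2, b2, c2)) ⟨k1, k3.trans (by simp only [R]; linarith)⟩) k2

end Pool.Agent.P.MP_c4753b_co.Three
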