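import Mathlib
import Pool.Agent.P.MP_c4753b_co.Chk

/-!
Soundness of the certificate checker.
-/

namespace Pool.Agent.P.MP_c4753b_co.Chk

lemma frc_eq (n : ℕ) (k : ℕ → Bool) : frc n k = k n := id rfl

lemma band_eq (a b : Bool) : band a b = true ↔ a = true ∧ b = true := by
  cases a <;> simp [band]

lemma bif_eq (c a b : Bool) :
    bif' c a b = true ↔ (c = true ∧ a = true) ∨ (¬c = true ∧ b = true) := by
  cases c <;> simp [bif']

/-- A point in homogeneous real coordinates. -/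
structure RP where
  x : ℝ
  y : ℝ
  z : ℝ
  w : ℝ

/-- The real point of a natural point. -/
def Pt.re (p : Pt) : RP := ⟨p.x, p.y, p.z, p.w⟩

/-- Linear combination of three points. -/
def cmb (α β γ : ℝ) (p q r : RP) : RP :=
  ⟨α * p.x + β * q.x + γ * r.x, α * p.y + β * q.y + γ * r.y, α * p.z + β * q.z + γ * r.z,
    α * p.w + β * q.w + γ * r.w⟩

/-- Membership in a triangle. -/
def In (T : Tri) (X : RP) : Prop :=
  ∃ α β γ : ℝ, 0 ≤ α ∧ 0 ≤ β ∧ 0 ≤ γ ∧ α + β + γ = 1 ∧ X = cmb α β γ T.p.re T.q.re T.r.re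

/-- Affine functions. -/
def Aff (f : RP → ℝ) : Prop :=
  ∀ α β γ p q r, α + β + γ = 1 → f (cmb α β γ p q r) = α * f p + β * f q + γ * f r

lemma In.pos {f : RP → ℝ} (hf : Aff f) {T : Tri} {X : RP} (h : In T X) (hp : 0 < f T.p.re)
    (hq : 0 < f T.q.re) (hr : 0 < f T.r.re) : 0 < f X := by
  obtain ⟨α, β, γ, h1, h2, h3, h4, rfl⟩ := h
  rw [hf _ _ _ _ _ _ h4]
  have k1 := mul_le_mul_of_nonneg_left (min_le_left (f T.p.re) (min (f T.q.re) (f T.r.re))) h1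
  have k2 := mul_le_mul_of_nonneg_left ((min_le_right (f T.p.re) _).trans
    (min_le_left (f T.q.re) (f T.r.re))) h2
  have k3 := mul_le_mul_of_nonneg_left ((min_le_right (f T.p.re) _).trans
    (min_le_right (f T.q.re) (f T.r.re))) h3
  have k4 := lt_min hp (lt_min hq hr)
  have k5 : (α + β + γ) * min (f T.p.re) (min (f T.q.re) (f T.r.re)) > 0 := by rwa [h4, one_mul]
  linarith

lemma In.le {f : RP → ℝ} (hf : Aff f) {T : Tri} {X : RP} (h : In T X) {m : ℝ} (hp : f T.p.re ≤ m)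
    (hq : f T.q.re ≤ m) (hr : f T.r.re ≤ m) : f X ≤ m := by
  obtain ⟨α, β, γ, h1, h2, h3, h4, rfl⟩ := h
  rw [hf _ _ _ _ _ _ h4]
  have k1 := mul_le_mul_of_nonneg_left hp h1
  have k2 := mul_le_mul_of_nonneg_left hq h2
  have k3 := mul_le_mul_of_nonneg_left hr h3
  have k5 : (α + β + γ) * m = m := by rw [h4, one_mul]
  linarith

/-- Real scalar product. -/
def rd (a b c e : ℝ) (X : RP) : ℝ := a * X.x + b * X.y + c * X.z + e * X.w

lemma dot_cast (a b c e : ℕ) (p : Pt) : (dot a b c e p : ℝ) = rd a b c e p.re := by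
  cases p
  simp only [dot, rd, Pt.re, Nat.add_eq, Nat.mul_eq]
  push_cast
  ring

lemma aff_rd (a b c e : ℝ) : Aff (rd a b c e) := by
  intro α β γ p q r _
  simp only [rd, cmb]
  ring

lemma dot_ge {a b c e : ℕ} {a' b' c' e' : ℝ} (ha : a' ≤ a) (hb : b' ≤ b) (hc : c' ≤ c)
    (he : e' ≤ e) (p : Pt) : rd a' b' c' e' p.re ≤ dot a b c e p := by
  rw [dot_cast]
  simp only [rd, Pt.re]
  gcongr

lemma sub_ge (a b : ℕ) : (a : ℝ) - b ≤ (Nat.sub a b : ℕ) := by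
  rcases le_total a b with h | h
  · have : (a : ℝ) ≤ b := by exact_mod_cast h
    linarith [Nat.cast_nonneg (α := ℝ) (Nat.sub a b)]
  · exact (Nat.cast_sub h).ge

/-- The determinant in homogeneous coordinates. -/
def Dt (a b c : RP) : ℝ :=
  (b.y * c.z + b.z * c.w + b.w * c.y - (b.z * c.y + b.w * c.z + b.y * c.w)) * a.x +
  (b.z * c.x + b.x * c.w + b.w * c.z - (b.x * c.z + b.w * c.x + b.z * c.w)) * a.y +
  (b.x * c.y + b.y * c.w + b.w * c.x - (b.y * c.x + b.w * c.y + b.x * c.w)) * a.z +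
  (b.x * c.z + b.z * c.y + b.y * c.x - (b.z * c.x + b.y * c.z + b.x * c.y)) * a.w

/-- The auxiliary trilinear expression. -/
def Ex (a b c : RP) : ℝ := 1152921504606846976 * (a.x + a.y + a.z + a.w) - Dt a b c

lemma one_sound {p q r : Pt} {a0 a1 a2 t : ℕ} {B C : Pt} {s : ℕ}
    (h : one p q r a0 a1 a2 t B C s = true) : (a0 + s + Ex p.re B.re C.re < t) ∧
      (a1 + s + Ex q.re B.re C.re < t) ∧ (a2 + s + Ex r.re B.re C.re < t) := by
  obtain ⟨b0, b1, b2, b3⟩ := B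
  obtain ⟨c0, c1, c2, c3⟩ := C
  simp only [one, frc_eq, band_eq, Nat.blt_eq] at h
  obtain ⟨h1, h2, h3⟩ := h
  have key : ∀ (n0 n1 n2 n3 m0 m1 m2 m3 a : ℕ) (p : Pt),
      Nat.add a (Nat.add s (dot (Nat.sub n0 m0) (Nat.sub n1 m1) (Nat.sub n2 m2) (Nat.sub n3 m3) p))
        < t → a + s + rd (n0 - m0) (n1 - m1) (n2 - m2) (n3 - m3) p.re < t :=
    fun n0 n1 n2 n3 m0 m1 m2 m3 a p h => by
      have k1 := (Nat.cast_lt (α := ℝ)).2 h
      have k2 := dot_ge (sub_ge n0 m0) (sub_ge n1 m1) (sub_ge n2 m2) (sub_ge n3 m3) p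
      simp only [Nat.add_eq, Nat.cast_add] at k1
      linarith
  have k1 := key _ _ _ _ _ _ _ _ _ _ h1
  have k2 := key _ _ _ _ _ _ _ _ _ _ h2
  have k3 := key _ _ _ _ _ _ _ _ _ _ h3
  simp only [rd, Nat.add_eq, Nat.mul_eq, Nat.cast_add, Nat.cast_mul, Nat.cast_ofNat, Pt.re] at k1 k2 k3
  simp only [Ex, Dt, Pt.re]
  refine ⟨?_, ?_, ?_⟩ <;> linarith

lemma nine_sound {A B C : Tri} {a0 a1 a2 b0 b1 b2 c0 c1 c2 t : ℕ} {f g k : RP → ℝ}
    (hf : Aff f) (hg : Aff g) (hk : Aff k)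
    (f0 : (a0 : ℝ) = f A.p.re) (f1 : (a1 : ℝ) = f A.q.re) (f2 : (a2 : ℝ) = f A.r.re)
    (g0 : (b0 : ℝ) = g B.p.re) (g1 : (b1 : ℝ) = g B.q.re) (g2 : (b2 : ℝ) = g B.r.re)
    (k0 : (c0 : ℝ) = k C.p.re) (k1 : (c1 : ℝ) = k C.q.re) (k2 : (c2 : ℝ) = k C.r.re)
    (h : nine A B C a0 a1 a2 b0 b1 b2 c0 c1 c2 t = true) {a b c : RP} (ha : In A a) (hb : In B b)
    (hc : In C c) (hs : a.x + a.y + a.z + a.w = 536870912) (ht : t ≤ f a + g b + k c) :
    52529986053649465344000 < Dt a b c := by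
  obtain ⟨A0, A1, A2⟩ := A
  obtain ⟨B0, B1, B2⟩ := B
  obtain ⟨C0, C1, C2⟩ := C
  simp only [nine, frc_eq, band_eq] at h
  let G : RP → RP → RP → ℝ := fun a b c =>
    t + 618970019642690137449562112 - 52529986053649465344000 - f a - g b - k c - Ex a b c
  have e : ∀ {α β γ : ℝ}, α + β + γ = 1 → γ = 1 - α - β := fun h => by linarith
  have G1 : ∀ b c, Aff fun a => G a b c := fun b c α β γ p q r h => by
    simp only [G, hf _ _ _ _ _ _ h]
    obtain rfl := e h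
    simp only [Ex, Dt, cmb]
    ring
  have G2 : ∀ a c, Aff fun b => G a b c := fun a c α β γ p q r h => by
    simp only [G, hg _ _ _ _ _ _ h]
    obtain rfl := e h
    simp only [Ex, Dt, cmb]
    ring
  have G3 : ∀ a b, Aff fun c => G a b c := fun a b α β γ p q r h => by
    simp only [G, hk _ _ _ _ _ _ h]
    obtain rfl := e h
    simp only [Ex, Dt, cmb]
    ring
  have s1 : ∀ (X Y : Pt) (u v : ℕ), (u : ℝ) = g X.re → (v : ℝ) = k Y.re →
      one A0 A1 A2 (Nat.add a0 52529986053649465344000) (Nat.add a1 52529986053649465344000)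
        (Nat.add a2 52529986053649465344000) (Nat.add t 618970019642690137449562112) X Y
        (Nat.add u v) = true → 0 < G a X.re Y.re := fun X Y u v hu hv h => by
    obtain ⟨m1, m2, m3⟩ := one_sound h
    simp only [Nat.add_eq] at m1 m2 m3
    push_cast at m1 m2 m3
    refine ha.pos (G1 _ _) ?_ ?_ ?_ <;> simp only [G] <;> linarith
  obtain ⟨h1, h2, h3, h4, h5, h6, h7, h8, h9⟩ := h
  have := hc.pos (G3 a b)
    (hb.pos (G2 a _) (s1 _ _ _ _ g0 k0 h1) (s1 _ _ _ _ g1 k0 h4) (s1 _ _ _ _ g2 k0 h7))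
    (hb.pos (G2 a _) (s1 _ _ _ _ g0 k1 h2) (s1 _ _ _ _ g1 k1 h5) (s1 _ _ _ _ g2 k1 h8))
    (hb.pos (G2 a _) (s1 _ _ _ _ g0 k2 h3) (s1 _ _ _ _ g1 k2 h6) (s1 _ _ _ _ g2 k2 h9))
  simp only [G, Ex, hs] at this
  linarith

lemma mx_ge (a b c : ℕ) : (a : ℝ) ≤ mx a b c ∧ (b : ℝ) ≤ mx a b c ∧ (c : ℝ) ≤ mx a b c := by
  simp only [mx, Nat.cast_le, Nat.add_eq, Nat.sub_eq]
  omega

/-- A valid linear inequality for the three points. -/
def Inv (a b c : RP) (u0 u1 u2 u3 u4 u5 u6 u7 u8 u9 u10 u11 t : ℕ) : Prop :=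
  (t : ℝ) ≤ rd u0 u1 u2 u3 a + rd u4 u5 u6 u7 b + rd u8 u9 u10 u11 c

lemma fin_sound {A B C : Tri} {d u0 u1 u2 u3 u4 u5 u6 u7 u8 u9 u10 u11 t : ℕ}
    (h : fin A B C d u0 u1 u2 u3 u4 u5 u6 u7 u8 u9 u10 u11 t = true) {a b c : RP} (ha : In A a)
    (hb : In B b) (hc : In C c) (hs : a.x + a.y + a.z + a.w = 536870912)
    (ht : Inv a b c u0 u1 u2 u3 u4 u5 u6 u7 u8 u9 u10 u11 t) :
    52529986053649465344000 < |Dt a b c| := by
  obtain ⟨A0, A1, A2⟩ := A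
  obtain ⟨B0, B1, B2⟩ := B
  obtain ⟨C0, C1, C2⟩ := C
  unfold Inv at ht
  simp only [fin, frc_eq, bif_eq] at h
  rcases h with ⟨-, ⟨-, h⟩ | ⟨-, h⟩⟩ | ⟨-, h⟩
  · have := nine_sound (aff_rd _ _ _ _) (aff_rd _ _ _ _) (aff_rd _ _ _ _) (dot_cast ..)
      (dot_cast ..) (dot_cast ..) (dot_cast ..) (dot_cast ..) (dot_cast ..) (dot_cast ..)
      (dot_cast ..) (dot_cast ..) h ha hc hb hs (by linarith)
    refine lt_abs.2 (Or.inr (this.trans_eq ?_))
    simp only [Dt]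
    ring
  · exact lt_abs.2 (Or.inl (nine_sound (aff_rd _ _ _ _) (aff_rd _ _ _ _) (aff_rd _ _ _ _)
      (dot_cast ..) (dot_cast ..) (dot_cast ..) (dot_cast ..) (dot_cast ..) (dot_cast ..)
      (dot_cast ..) (dot_cast ..) (dot_cast ..) h ha hb hc hs ht))
  · exfalso
    rw [Nat.blt_eq] at h
    have key : ∀ (u v w z : ℕ) (p q r : Pt) (X : RP), In ⟨p, q, r⟩ X →
        rd u v w z X ≤ mx (dot u v w z p) (dot u v w z q) (dot u v w z r) :=
      fun u v w z p q r X hX => by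
        obtain ⟨m1, m2, m3⟩ := mx_ge (dot u v w z p) (dot u v w z q) (dot u v w z r)
        exact hX.le (aff_rd _ _ _ _) ((dot_cast ..).ge.trans m1) ((dot_cast ..).ge.trans m2)
          ((dot_cast ..).ge.trans m3)
    have k1 := key u0 u1 u2 u3 _ _ _ _ ha
    have k2 := key u4 u5 u6 u7 _ _ _ _ hb
    have k3 := key u8 u9 u10 u11 _ _ _ _ hc
    have k4 := (Nat.cast_lt (α := ℝ)).2 h
    simp only [Nat.add_eq] at k4
    push_cast at k4
    linarith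

/-- The constraint number `i` holds. -/
def Val (a b c : RP) (i : ℕ) : Prop :=
  Inv a b c (Nat.land (word i) 255) (Nat.land (Nat.shiftRight (word i) 8) 255)
    (Nat.land (Nat.shiftRight (word i) 16) 255) (Nat.land (Nat.shiftRight (word i) 24) 255)
    (Nat.land (Nat.shiftRight (word i) 32) 255) (Nat.land (Nat.shiftRight (word i) 40) 255)
    (Nat.land (Nat.shiftRight (word i) 48) 255) (Nat.land (Nat.shiftRight (word i) 56) 255)
    (Nat.land (Nat.shiftRight (word i) 64) 255) (Nat.land (Nat.shiftRight (word i) 72) 255)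
    (Nat.land (Nat.shiftRight (word i) 80) 255) (Nat.land (Nat.shiftRight (word i) 88) 255) (thr i)

/-- All constraints of the mask hold. -/
def Msk (a b c : RP) (m : ℕ) : Prop := ∀ i, m.testBit (i + 64) = true → Val a b c i

lemma bit_eq (m k : ℕ) :
    Nat.land (Nat.shiftRight m k) 1 = if m.testBit k = true then 1 else 0 := by
  change (m >>> k) &&& 1 = _
  rw [Nat.and_one_is_mod, Nat.testBit_eq_decide_div_mod_eq, Nat.shiftRight_eq_div_pow]
  simp only [decide_eq_true_eq]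
  split_ifs with h
  · exact h
  · omega

lemma Inv.step {a b c : RP} {u0 u1 u2 u3 u4 u5 u6 u7 u8 u9 u10 u11 t : ℕ}
    {v0 v1 v2 v3 v4 v5 v6 v7 v8 v9 v10 v11 s y : ℕ}
    (h : Inv a b c u0 u1 u2 u3 u4 u5 u6 u7 u8 u9 u10 u11 t)
    (h' : y = 0 ∨ Inv a b c v0 v1 v2 v3 v4 v5 v6 v7 v8 v9 v10 v11 s) :
    Inv a b c (Nat.add u0 (Nat.mul y v0)) (Nat.add u1 (Nat.mul y v1)) (Nat.add u2 (Nat.mul y v2))
      (Nat.add u3 (Nat.mul y v3)) (Nat.add u4 (Nat.mul y v4)) (Nat.add u5 (Nat.mul y v5))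
      (Nat.add u6 (Nat.mul y v6)) (Nat.add u7 (Nat.mul y v7)) (Nat.add u8 (Nat.mul y v8))
      (Nat.add u9 (Nat.mul y v9)) (Nat.add u10 (Nat.mul y v10)) (Nat.add u11 (Nat.mul y v11))
      (Nat.add t (Nat.mul y s)) := by
  rcases h' with rfl | h'
  · simpa using h
  · have := mul_le_mul_of_nonneg_left h' (Nat.cast_nonneg (α := ℝ) y)
    simp only [Inv, rd, Nat.add_eq, Nat.mul_eq] at h this ⊢
    push_cast
    linarith

lemma acc_sound {a b c : RP} {m wm w9 sh : ℕ}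
    {k : ℕ → ℕ → ℕ → ℕ → ℕ → ℕ → ℕ → ℕ → ℕ → ℕ → ℕ → ℕ → ℕ → Bool} {P : Prop}
    (hk : ∀ u0 u1 u2 u3 u4 u5 u6 u7 u8 u9 u10 u11 t,
      k u0 u1 u2 u3 u4 u5 u6 u7 u8 u9 u10 u11 t = true →
      Inv a b c u0 u1 u2 u3 u4 u5 u6 u7 u8 u9 u10 u11 t → P) (hm : Msk a b c m) (n : ℕ) :
    ∀ d u0 u1 u2 u3 u4 u5 u6 u7 u8 u9 u10 u11 t,
      acc m wm w9 sh k n d u0 u1 u2 u3 u4 u5 u6 u7 u8 u9 u10 u11 t = true →
      Inv a b c u0 u1 u2 u3 u4 u5 u6 u7 u8 u9 u10 u11 t → P := by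
  induction n with
  | zero => exact fun _ => hk
  | succ n ih =>
    intro d u0 u1 u2 u3 u4 u5 u6 u7 u8 u9 u10 u11 t h hi
    refine ih _ _ _ _ _ _ _ _ _ _ _ _ _ _ h (hi.step ?_)
    rw [bit_eq]
    split_ifs with hb
    · exact Or.inr (hm _ hb)
    · exact Or.inl (Nat.zero_mul _)

lemma leaf_sound {A B C : Tri} {m d : ℕ} (h : leaf A B C m d = true) {a b c : RP} (ha : In A a)
    (hb : In B b) (hc : In C c) (hs : a.x + a.y + a.z + a.w = 536870912) (hm : Msk a b c m) :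
    52529986053649465344000 < |Dt a b c| :=
  acc_sound (fun _ _ _ _ _ _ _ _ _ _ _ _ _ h hi => fin_sound h ha hb hc hs hi) hm _ _ _ _ _ _ _ _
    _ _ _ _ _ _ _ h (by simp [Inv, rd])

lemma bis_sound {p q r : Pt} {f : Tri → Tri → Bool} (h : bis p q r f = true) {X : RP}
    (hX : In ⟨p, q, r⟩ X) : ∃ T1 T2, f T1 T2 = true ∧ (In T1 X ∨ In T2 X) := by
  obtain ⟨x1, y1, z1, w1⟩ := p
  obtain ⟨x2, y2, z2, w2⟩ := q
  simp only [bis, frc_eq, band_eq, Nat.beq_eq] at h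
  obtain ⟨h1, h2⟩ := h
  refine ⟨_, _, h2, ?_⟩
  have half : ∀ u v : ℕ, Nat.mod (Nat.add u v) 2 = 0 →
      ((Nat.div (Nat.add u v) 2 : ℕ) : ℝ) = (u + v) / 2 := fun u v h => by
    have h1 : (u + v) % 2 = 0 := h
    have h2 : 2 * ((u + v) / 2) = u + v := by omega
    have h3 : (2 * ((u + v) / 2 : ℕ) : ℝ) = u + v := by exact_mod_cast h2
    change (((u + v) / 2 : ℕ) : ℝ) = _
    linarith
  obtain ⟨e12, e34⟩ := Nat.add_eq_zero_iff.1 h1
  obtain ⟨e1, e2⟩ := Nat.add_eq_zero_iff.1 e12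
  obtain ⟨e3, e4⟩ := Nat.add_eq_zero_iff.1 e34
  obtain ⟨α, β, γ, k1, k2, k3, k4, rfl⟩ := hX
  rcases le_total α β with hab | hab
  · refine Or.inl ⟨2 * α, β - α, γ, by linarith, by linarith, k3, by linarith, ?_⟩
    simp only [cmb, Pt.re, half _ _ e1, half _ _ e2, half _ _ e3, half _ _ e4, RP.mk.injEq]
    refine ⟨?_, ?_, ?_, ?_⟩ <;> ring
  · refine Or.inr ⟨α - β, 2 * β, γ, by linarith, by linarith, k3, by linarith, ?_⟩
    simp only [cmb, Pt.re, half _ _ e1, half _ _ e2, half _ _ e3, half _ _ e4, RP.mk.injEq]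
    refine ⟨?_, ?_, ?_, ?_⟩ <;> ring

lemma In.rot {p q r : Pt} {X : RP} (h : In ⟨p, q, r⟩ X) : In ⟨q, r, p⟩ X := by
  obtain ⟨α, β, γ, k1, k2, k3, k4, rfl⟩ := h
  refine ⟨β, γ, α, k2, k3, k1, by linarith, ?_⟩
  simp only [cmb, RP.mk.injEq]
  refine ⟨?_, ?_, ?_, ?_⟩ <;> ring

lemma spl_sound {T : Tri} {k : ℕ} {f : Tri → Tri → Bool} (h : spl T k f = true) {X : RP}
    (hX : In T X) : ∃ T1 T2, f T1 T2 = true ∧ (In T1 X ∨ In T2 X) := by
  obtain ⟨p, q, r⟩ := T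
  simp only [spl, bif_eq] at h
  rcases h with ⟨-, h⟩ | ⟨-, ⟨-, h⟩ | ⟨-, h⟩⟩
  · exact bis_sound h hX.rot
  · exact bis_sound h hX.rot.rot
  · exact bis_sound h hX

lemma split_sound {g : Tri → Tri → Tri → ℕ → ℕ → Bool} {A B C : Tri} {m d : ℕ}
    (h : split g A B C m d = true) {a b c : RP} (ha : In A a) (hb : In B b) (hc : In C c) :
    ∃ A' B' C' d', g A' B' C' m d' = true ∧ In A' a ∧ In B' b ∧ In C' c := by
  simp only [split, frc_eq, bif_eq] at h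
  rcases h with ⟨-, h⟩ | ⟨-, ⟨-, h⟩ | ⟨-, h⟩⟩
  · obtain ⟨T1, T2, h, k⟩ := spl_sound h ha
    rw [band_eq] at h
    exact k.elim (fun k => ⟨_, _, _, _, h.1, k, hb, hc⟩) fun k => ⟨_, _, _, _, h.2, k, hb, hc⟩
  · obtain ⟨T1, T2, h, k⟩ := spl_sound h hb
    rw [band_eq] at h
    exact k.elim (fun k => ⟨_, _, _, _, h.1, ha, k, hc⟩) fun k => ⟨_, _, _, _, h.2, ha, k, hc⟩
  · obtain ⟨T1, T2, h, k⟩ := spl_sound h hc
    rw [band_eq] at h
    exact k.elim (fun k => ⟨_, _, _, _, h.1, ha, hb, k⟩) fun k => ⟨_, _, _, _, h.2, ha, hb, k⟩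

lemma Msk.insert {a b c : RP} {m e j : ℕ} (hm : Msk a b c m) (h : Val a b c (36 * e + 2 * j + 1)) :
    Msk a b c (ins m e j) := by
  intro i hi
  have e1 : ins m e j = m ||| 2 ^ (36 * e + 2 * j + 65) ||| 2 ^ ((18 * e + j) % 64) := by
    rw [← Nat.one_shiftLeft, ← Nat.one_shiftLeft]
    rfl
  rw [e1, Nat.testBit_or, Nat.testBit_or, Nat.testBit_two_pow, Nat.testBit_two_pow] at hi
  simp only [Bool.or_eq_true, decide_eq_true_eq] at hi
  rcases hi with (hi | hi) | hi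
  · exact hm i hi
  · rwa [show i = 36 * e + 2 * j + 1 by omega]
  · omega

lemma brn_sound {g : ℕ → ℕ → Bool} {m e lo : ℕ} (n : ℕ) : ∀ d, brn g m e lo n d = true →
    ∀ k < n, lo ≤ (17 - k) % 9 → ∃ d', g (ins m e (17 - k)) d' = true := by
  induction n with
  | zero => exact fun _ _ k hk => absurd hk (Nat.not_lt_zero k)
  | succ n ih =>
    intro d h k hk hlo
    have h' : bif' _ _ _ = true := h
    simp only [bif_eq, frc_eq, band_eq, Nat.ble_eq] at h'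
    rcases Nat.lt_succ_iff_lt_or_eq.1 hk with hk | rfl
    · rcases h' with ⟨-, -, h'⟩ | ⟨-, h'⟩ <;> exact ih _ h' k hk hlo
    · rcases h' with ⟨-, h', -⟩ | ⟨h', -⟩
      · exact ⟨_, h'⟩
      · exact absurd hlo h'

/-- The branching disjunctions hold. -/
def Brs (a b c : RP) (low : ℕ) : Prop :=
  ∀ e ≤ 15, Nat.land (Nat.shiftRight low (Nat.mul 4 e)) 15 < 9 →
    ∃ j < 18, Nat.land (Nat.shiftRight low (Nat.mul 4 e)) 15 ≤ j % 9 ∧
      Val a b c (36 * e + 2 * j + 1)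

lemma chk_sound {a b c : RP} {low : ℕ} (hs : a.x + a.y + a.z + a.w = 536870912)
    (hl : Brs a b c low) (n : ℕ) : ∀ A B C m d, chk low n A B C m d = true → In A a → In B b →
      In C c → Msk a b c m → 52529986053649465344000 < |Dt a b c| := by
  induction n with
  | zero => exact fun _ _ _ _ _ h => absurd h Bool.false_ne_true
  | succ n ih =>
    intro A B C m d h ha hb hc hm
    have h' : bif' _ _ _ = true := h
    simp only [bif_eq] at h'
    rcases h' with ⟨-, h'⟩ | ⟨-, ⟨-, h'⟩ | ⟨-, h'⟩⟩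
    · exact leaf_sound h' ha hb hc hs hm
    · simp only [branch, frc_eq, band_eq, Nat.blt_eq] at h'
      obtain ⟨j, j1, j2, j3⟩ := hl _ Nat.and_le_right h'.1
      obtain ⟨d', hd⟩ := brn_sound _ _ h'.2 (17 - j) (by omega)
        (by rwa [show 17 - (17 - j) = j by omega])
      rw [show 17 - (17 - j) = j by omega] at hd
      exact ih _ _ _ _ _ hd ha hb hc (hm.insert j3)
    · obtain ⟨A', B', C', d', k1, k2, k3, k4⟩ := split_sound h' ha hb hc
      exact ih _ _ _ _ _ k1 k2 k3 k4 hm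

lemma top_eq (ty a b c d : ℕ) :
    top ty a b c d = chk (low ty a b) 40 (root a) (root b) (root c) (up ty) d := by
  simp only [top, frc_eq]

lemma rng_sound {lo : ℕ} (n : ℕ) : ∀ d, rng lo n d = true → ∀ i, lo ≤ i → i < lo + n →
    i / 324 % 9 ≤ i / 18 % 18 % 9 → i / 18 % 18 % 9 ≤ i % 18 % 9 →
    ∃ d', top (i / 2916) (i / 324 % 9) (i / 18 % 18) (i % 18) d' = true := by
  induction n with
  | zero => exact fun _ _ i h1 h2 => by omega
  | succ n ih =>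
    intro d h i h1 h2 h3 h4
    have h' : bif' _ _ _ = true := h
    simp only [bif_eq, frc_eq, band_eq, Nat.ble_eq] at h'
    rcases (by omega : i < lo + n ∨ i = lo + n) with hi | rfl
    · rcases h' with ⟨-, -, h'⟩ | ⟨-, h'⟩ <;> exact ih _ h' i h1 hi h3 h4
    · rcases h' with ⟨-, h', -⟩ | ⟨h', -⟩
      · exact ⟨_, h'⟩
      · exact absurd ⟨h3, h4⟩ h'

end Pool.Agent.P.MP_c4753b_co.Chk
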