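import Pool.Agent.P.MP_c4753b_co.Dom
import Pool.Agent.P.MP_c4753b_co.Sound
import Pool.Agent.P.MP_c4753b_co.Cert1
import Pool.Agent.P.MP_c4753b_co.Cert2
import Pool.Agent.P.MP_c4753b_co.Cert3
import Pool.Agent.P.MP_c4753b_co.Cert4
import Pool.Agent.P.MP_c4753b_co.Cert5
import Pool.Agent.P.MP_c4753b_co.Cert6
import Pool.Agent.P.MP_c4753b_co.Cert7

/-!
The computational part: three points on facets of `D`, whose sums or differences are placed as in
the two Minkowski types, have a large determinant.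
-/

namespace Pool.Agent.P.MP_c4753b_co.Three

open Chk

/-- Homogeneous coordinates of a point. -/
noncomputable def hom (x : E3) : RP :=
  ⟨262144 * x 0 + (134217728 - 65536 * (x 0 + x 1 + x 2)),
    262144 * x 1 + (134217728 - 65536 * (x 0 + x 1 + x 2)),
    262144 * x 2 + (134217728 - 65536 * (x 0 + x 1 + x 2)),
    134217728 - 65536 * (x 0 + x 1 + x 2)⟩

/-- The determinant of three vectors. -/
def det3 (a b c : E3) : ℝ :=
  a 0 * (b 1 * c 2 - b 2 * c 1) + a 1 * (b 2 * c 0 - b 0 * c 2) + a 2 * (b 0 * c 1 - b 1 * c 0)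

lemma Dt_hom (a b c : E3) : Dt (hom a) (hom b) (hom c) = 18014398509481984 * det3 a b c := by
  simp only [Dt, hom, det3]
  ring

/-- Integer combination of three vectors. -/
def lv (a b c : E3) (i j k : ℤ) : E3 := (i : ℝ) • a + (j : ℝ) • b + (k : ℝ) • c

/-- Coefficients of the thirteen short lattice vectors. -/
def ze (e v : ℕ) : ℤ :=
  (([[1, 0, 0], [0, 1, 0], [0, 0, 1], [1, -1, 0], [1, 0, -1], [0, 1, -1], [1, 1, -1],
    [1, -1, 1], [-1, 1, 1], [1, 1, 0], [1, 0, 1], [0, 1, 1], [1, 1, 1]] :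
    List (List ℤ)).getD e []).getD v 0

/-- The thirteen short lattice vectors. -/
def edge (a b c : E3) (e : ℕ) : E3 := lv a b c (ze e 0) (ze e 1) (ze e 2)

set_option synthInstance.maxSize 4000 in
lemma tab_ok : ∀ e < 13, ∀ j < 18, ∀ s < 2,
    ((Nat.land (word (36 * e + 2 * j + s)) 255 : ℕ) : ℤ) =
      64 + ze e 0 * nn j 0 ∧
    ((Nat.land (Nat.shiftRight (word (36 * e + 2 * j + s)) 8) 255 : ℕ) : ℤ) =
      64 + ze e 0 * nn j 1 ∧
    ((Nat.land (Nat.shiftRight (word (36 * e + 2 * j + s)) 16) 255 : ℕ) : ℤ) =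
      64 + ze e 0 * nn j 2 ∧
    ((Nat.land (Nat.shiftRight (word (36 * e + 2 * j + s)) 24) 255 : ℕ) : ℤ) =
      64 - ze e 0 * (nn j 0 + nn j 1 + nn j 2) ∧
    ((Nat.land (Nat.shiftRight (word (36 * e + 2 * j + s)) 32) 255 : ℕ) : ℤ) =
      64 + ze e 1 * nn j 0 ∧
    ((Nat.land (Nat.shiftRight (word (36 * e + 2 * j + s)) 40) 255 : ℕ) : ℤ) =
      64 + ze e 1 * nn j 1 ∧
    ((Nat.land (Nat.shiftRight (word (36 * e + 2 * j + s)) 48) 255 : ℕ) : ℤ) =
      64 + ze e 1 * nn j 2 ∧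
    ((Nat.land (Nat.shiftRight (word (36 * e + 2 * j + s)) 56) 255 : ℕ) : ℤ) =
      64 - ze e 1 * (nn j 0 + nn j 1 + nn j 2) ∧
    ((Nat.land (Nat.shiftRight (word (36 * e + 2 * j + s)) 64) 255 : ℕ) : ℤ) =
      64 + ze e 2 * nn j 0 ∧
    ((Nat.land (Nat.shiftRight (word (36 * e + 2 * j + s)) 72) 255 : ℕ) : ℤ) =
      64 + ze e 2 * nn j 1 ∧
    ((Nat.land (Nat.shiftRight (word (36 * e + 2 * j + s)) 80) 255 : ℕ) : ℤ) =
      64 + ze e 2 * nn j 2 ∧
    ((Nat.land (Nat.shiftRight (word (36 * e + 2 * j + s)) 88) 255 : ℕ) : ℤ) =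
      64 - ze e 2 * (nn j 0 + nn j 1 + nn j 2) ∧
    ((thr (36 * e + 2 * j + s) : ℕ) : ℤ) = 103079215104 + (2 * s - 1) * hh j * 262144 := by
  decide +kernel

lemma val_of {a b c : E3} {e j s : ℕ} (he : e < 13) (hj : j < 18) (hs : s < 2)
    (h : (2 * s - 1) * (hh j : ℝ) ≤ ell j (edge a b c e)) :
    Val (hom a) (hom b) (hom c) (36 * e + 2 * j + s) := by
  obtain ⟨h0, h1, h2, h3, h4, h5, h6, h7, h8, h9, h10, h11, h12⟩ := tab_ok e he j hj s hs
  have k : ∀ {n : ℕ} {z : ℤ}, (n : ℤ) = z → (n : ℝ) = z := fun h => by rw [← h, Int.cast_natCast]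
  simp only [edge, lv, ell_apply, PiLp.add_apply, PiLp.smul_apply, smul_eq_mul] at h
  simp only [Val, Chk.Inv, rd, hom, k h0, k h1, k h2, k h3, k h4, k h5, k h6, k h7, k h8, k h9, k h10,
    k h11, k h12]
  push_cast
  linarith

set_option exponentiation.threshold 600 in
lemma msk_of {a b c : E3} {ty : ℕ} {U : ℕ → Prop} (h1 : up ty < 2 ^ 532)
    (h2 : ∀ i < 468, (up ty).testBit (i + 64) = true → i % 2 = 0 ∧ U (i / 36))
    (h3 : ∀ e, U e → InD (edge a b c e)) : Msk (hom a) (hom b) (hom c) (up ty) := by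
  intro i hi
  have h4 : i < 468 := by
    by_contra hc
    rw [Nat.testBit_lt_two_pow (h1.trans_le (Nat.pow_le_pow_right (by norm_num) (by omega)))] at hi
    exact Bool.false_ne_true hi
  obtain ⟨h5, h6⟩ := h2 i h4 hi
  rw [show i = 36 * (i / 36) + 2 * (i % 36 / 2) + 0 by omega]
  refine val_of (by omega) (by omega) (by norm_num) ?_
  simpa using (h3 _ h6).ge (j := i % 36 / 2) (by omega)

lemma root0 {x : E3} (h : InD x) (e : (hh 0 : ℝ) ≤ ell 0 x) : In (root 0) (hom x) := by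
  have hr : root 0 = ⟨⟨110493696, 112066560, 183369728, 130940928⟩,
      ⟨116457472, 135069696, 165478400, 119865344⟩,
      ⟨134873088, 114425856, 166854656, 120717312⟩⟩ := rfl
  obtain ⟨h0, h1, h2, h3, h4, h5, h6, h7, h8, h9, h10, h11, h12, h13, h14, h15, h16, h17⟩ := h.lin
  rw [ell0, hh0] at e
  refine ⟨((-14384) * x 0 + (-11684) * x 1 + 2820 * x 2) / 2527200,
    ((-7872) * x 0 + 24528 * x 1 + 5760 * x 2) / 2527200,
    (24128 * x 0 + (-10972) * x 1 + 5460 * x 2) / 2527200,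
    by linarith, by linarith, by linarith, by linarith, ?_⟩
  simp only [hr, hom, cmb, Pt.re, RP.mk.injEq, Nat.cast_ofNat]
  refine ⟨?_, ?_, ?_, ?_⟩ <;> linarith

lemma root1 {x : E3} (h : InD x) (e : (hh 1 : ℝ) ≤ ell 1 x) : In (root 1) (hom x) := by
  have hr : root 1 = ⟨⟨129957888, 173473792, 106364928, 127074304⟩,
      ⟨71106560, 191692800, 154992640, 119078912⟩,
      ⟨172490752, 129499136, 120061952, 114819072⟩⟩ := rfl
  obtain ⟨h0, h1, h2, h3, h4, h5, h6, h7, h8, h9, h10, h11, h12, h13, h14, h15, h16, h17⟩ := h.lin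
  rw [ell1, hh1] at e
  refine ⟨((-2132) * x 0 + 33800 * x 1 + (-71188) * x 2) / 11583000,
    ((-7964) * x 0 + 17600 * x 1 + 38324 * x 2) / 11583000,
    (46132 * x 0 + 12950 * x 1 + 35438 * x 2) / 11583000,
    by linarith, by linarith, by linarith, by linarith, ?_⟩
  simp only [hr, hom, cmb, Pt.re, RP.mk.injEq, Nat.cast_ofNat]
  refine ⟨?_, ?_, ?_, ?_⟩ <;> linarith

lemma root2 {x : E3} (h : InD x) (e : (hh 2 : ℝ) ≤ ell 2 x) : In (root 2) (hom x) := by
  have hr : root 2 = ⟨⟨173473792, 129957888, 106364928, 127074304⟩,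
      ⟨191692800, 71106560, 154992640, 119078912⟩,
      ⟨129499136, 172490752, 120061952, 114819072⟩⟩ := rfl
  obtain ⟨h0, h1, h2, h3, h4, h5, h6, h7, h8, h9, h10, h11, h12, h13, h14, h15, h16, h17⟩ := h.lin
  rw [ell2, hh2] at e
  refine ⟨(33800 * x 0 + (-2132) * x 1 + (-71188) * x 2) / 11583000,
    (17600 * x 0 + (-7964) * x 1 + 38324 * x 2) / 11583000,
    (12950 * x 0 + 46132 * x 1 + 35438 * x 2) / 11583000,
    by linarith, by linarith, by linarith, by linarith, ?_⟩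
  simp only [hr, hom, cmb, Pt.re, RP.mk.injEq, Nat.cast_ofNat]
  refine ⟨?_, ?_, ?_, ?_⟩ <;> linarith

lemma root3 {x : E3} (h : InD x) (e : (hh 3 : ℝ) ≤ ell 3 x) : In (root 3) (hom x) := by
  have hr : root 3 = ⟨⟨118030336, 118554624, 178323456, 121962496⟩,
      ⟨190906368, 118030336, 113836032, 114098176⟩,
      ⟨118095872, 163708928, 138018816, 117047296⟩⟩ := rfl
  obtain ⟨h0, h1, h2, h3, h4, h5, h6, h7, h8, h9, h10, h11, h12, h13, h14, h15, h16, h17⟩ := h.lin
  rw [ell3, hh3] at e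
  refine ⟨(1378 * x 0 + (-23444) * x 1 + 52094 * x 2) / 11484312,
    (39310 * x 0 + (-2060) * x 1 + 2618 * x 2) / 11484312,
    ((-3212) * x 0 + 62980 * x 1 + 3584 * x 2) / 11484312,
    by linarith, by linarith, by linarith, by linarith, ?_⟩
  simp only [hr, hom, cmb, Pt.re, RP.mk.injEq, Nat.cast_ofNat]
  refine ⟨?_, ?_, ?_, ?_⟩ <;> linarith

lemma root4 {x : E3} (h : InD x) (e : (hh 4 : ℝ) ≤ ell 4 x) : In (root 4) (hom x) := by
  have hr : root 4 = ⟨⟨151191552, 151191552, 88801280, 145686528⟩,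
      ⟨192479232, 109903872, 124583936, 109903872⟩,
      ⟨129171456, 173211648, 107937792, 126550016⟩⟩ := rfl
  obtain ⟨h0, h1, h2, h3, h4, h5, h6, h7, h8, h9, h10, h11, h12, h13, h14, h15, h16, h17⟩ := h.lin
  rw [ell4, hh4] at e
  refine ⟨(9968 * x 0 + (-22925) * x 1 + (-56070) * x 2) / 11895093,
    (37135 * x 0 + (-679) * x 1 + 3528 * x 2) / 11895093,
    ((-1176) * x 0 + 69531 * x 1 + 6615 * x 2) / 11895093,
    by linarith, by linarith, by linarith, by linarith, ?_⟩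
  simp only [hr, hom, cmb, Pt.re, RP.mk.injEq, Nat.cast_ofNat]
  refine ⟨?_, ?_, ?_, ?_⟩ <;> linarith

lemma root5 {x : E3} (h : InD x) (e : (hh 5 : ℝ) ≤ ell 5 x) : In (root 5) (hom x) := by
  have hr : root 5 = ⟨⟨86900736, 172359680, 139591680, 138018816⟩,
      ⟨149749760, 152895488, 90243072, 143982592⟩,
      ⟨116850688, 186056704, 118685696, 115277824⟩⟩ := rfl
  obtain ⟨h0, h1, h2, h3, h4, h5, h6, h7, h8, h9, h10, h11, h12, h13, h14, h15, h16, h17⟩ := h.lin
  rw [ell5, hh5] at e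
  refine ⟨((-55792) * x 0 + 1516 * x 1 + (-5736) * x 2) / 11043620,
    (83 * x 0 + 2571 * x 1 + (-53436) * x 2) / 11043620,
    (27059 * x 0 + 39843 * x 1 + 9512 * x 2) / 11043620,
    by linarith, by linarith, by linarith, by linarith, ?_⟩
  simp only [hr, hom, cmb, Pt.re, RP.mk.injEq, Nat.cast_ofNat]
  refine ⟨?_, ?_, ?_, ?_⟩ <;> linarith

lemma root6 {x : E3} (h : InD x) (e : (hh 6 : ℝ) ≤ ell 6 x) : In (root 6) (hom x) := by
  have hr : root 6 = ⟨⟨172359680, 86900736, 139591680, 138018816⟩,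
      ⟨152895488, 149749760, 90243072, 143982592⟩,
      ⟨186056704, 116850688, 118685696, 115277824⟩⟩ := rfl
  obtain ⟨h0, h1, h2, h3, h4, h5, h6, h7, h8, h9, h10, h11, h12, h13, h14, h15, h16, h17⟩ := h.lin
  rw [ell6, hh6] at e
  refine ⟨(1516 * x 0 + (-55792) * x 1 + (-5736) * x 2) / 11043620,
    (2571 * x 0 + 83 * x 1 + (-53436) * x 2) / 11043620,
    (39843 * x 0 + 27059 * x 1 + 9512 * x 2) / 11043620,
    by linarith, by linarith, by linarith, by linarith, ?_⟩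
  simp only [hr, hom, cmb, Pt.re, RP.mk.injEq, Nat.cast_ofNat]
  refine ⟨?_, ?_, ?_, ?_⟩ <;> linarith

lemma root7 {x : E3} (h : InD x) (e : (hh 7 : ℝ) ≤ ell 7 x) : In (root 7) (hom x) := by
  have hr : root 7 = ⟨⟨119406592, 104464384, 189399040, 123600896⟩,
      ⟨88932352, 204275712, 110952448, 132710400⟩,
      ⟨118816768, 162856960, 138477568, 116719616⟩⟩ := rfl
  obtain ⟨h0, h1, h2, h3, h4, h5, h6, h7, h8, h9, h10, h11, h12, h13, h14, h15, h16, h17⟩ := h.lin
  rw [ell7, hh7] at e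
  refine ⟨((-37267) * x 0 + (-13197) * x 1 + 31576 * x 2) / 9485229,
    ((-50235) * x 0 + 3336 * x 1 + (-2232) * x 2) / 9485229,
    (62464 * x 0 + 43245 * x 1 + 16559 * x 2) / 9485229,
    by linarith, by linarith, by linarith, by linarith, ?_⟩
  simp only [hr, hom, cmb, Pt.re, RP.mk.injEq, Nat.cast_ofNat]
  refine ⟨?_, ?_, ?_, ?_⟩ <;> linarith

lemma root8 {x : E3} (h : InD x) (e : (hh 8 : ℝ) ≤ ell 8 x) : In (root 8) (hom x) := by
  have hr : root 8 = ⟨⟨104464384, 119406592, 189399040, 123600896⟩,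
      ⟨204275712, 88932352, 110952448, 132710400⟩,
      ⟨162856960, 118816768, 138477568, 116719616⟩⟩ := rfl
  obtain ⟨h0, h1, h2, h3, h4, h5, h6, h7, h8, h9, h10, h11, h12, h13, h14, h15, h16, h17⟩ := h.lin
  rw [ell8, hh8] at e
  refine ⟨((-13197) * x 0 + (-37267) * x 1 + 31576 * x 2) / 9485229,
    (3336 * x 0 + (-50235) * x 1 + (-2232) * x 2) / 9485229,
    (43245 * x 0 + 62464 * x 1 + 16559 * x 2) / 9485229,
    by linarith, by linarith, by linarith, by linarith, ?_⟩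
  simp only [hr, hom, cmb, Pt.re, RP.mk.injEq, Nat.cast_ofNat]
  refine ⟨?_, ?_, ?_, ?_⟩ <;> linarith

lemma root9 {x : E3} (h : InD x) (e : (hh 9 : ℝ) ≤ ell 9 x) : In (root 9) (hom x) := by
  have hr : root 9 = ⟨⟨157941760, 156368896, 85065728, 137494528⟩,
      ⟨151977984, 133365760, 102957056, 148570112⟩,
      ⟨133562368, 154009600, 101580800, 147718144⟩⟩ := rfl
  obtain ⟨h0, h1, h2, h3, h4, h5, h6, h7, h8, h9, h10, h11, h12, h13, h14, h15, h16, h17⟩ := h.lin
  rw [ell9, hh9] at e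
  refine ⟨(14384 * x 0 + 11684 * x 1 + (-2820) * x 2) / 2527200,
    (7872 * x 0 + (-24528) * x 1 + (-5760) * x 2) / 2527200,
    ((-24128) * x 0 + 10972 * x 1 + (-5460) * x 2) / 2527200,
    by linarith, by linarith, by linarith, by linarith, ?_⟩
  simp only [hr, hom, cmb, Pt.re, RP.mk.injEq, Nat.cast_ofNat]
  refine ⟨?_, ?_, ?_, ?_⟩ <;> linarith

lemma root10 {x : E3} (h : InD x) (e : (hh 10 : ℝ) ≤ ell 10 x) : In (root 10) (hom x) := by
  have hr : root 10 = ⟨⟨138477568, 94961664, 162070528, 141361152⟩,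
      ⟨197328896, 76742656, 113442816, 149356544⟩,
      ⟨95944704, 138936320, 148373504, 153616384⟩⟩ := rfl
  obtain ⟨h0, h1, h2, h3, h4, h5, h6, h7, h8, h9, h10, h11, h12, h13, h14, h15, h16, h17⟩ := h.lin
  rw [ell10, hh10] at e
  refine ⟨(2132 * x 0 + (-33800) * x 1 + 71188 * x 2) / 11583000,
    (7964 * x 0 + (-17600) * x 1 + (-38324) * x 2) / 11583000,
    ((-46132) * x 0 + (-12950) * x 1 + (-35438) * x 2) / 11583000,
    by linarith, by linarith, by linarith, by linarith, ?_⟩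
  simp only [hr, hom, cmb, Pt.re, RP.mk.injEq, Nat.cast_ofNat]
  refine ⟨?_, ?_, ?_, ?_⟩ <;> linarith

lemma root11 {x : E3} (h : InD x) (e : (hh 11 : ℝ) ≤ ell 11 x) : In (root 11) (hom x) := by
  have hr : root 11 = ⟨⟨94961664, 138477568, 162070528, 141361152⟩,
      ⟨76742656, 197328896, 113442816, 149356544⟩,
      ⟨138936320, 95944704, 148373504, 153616384⟩⟩ := rfl
  obtain ⟨h0, h1, h2, h3, h4, h5, h6, h7, h8, h9, h10, h11, h12, h13, h14, h15, h16, h17⟩ := h.lin
  rw [ell11, hh11] at e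
  refine ⟨((-33800) * x 0 + 2132 * x 1 + 71188 * x 2) / 11583000,
    ((-17600) * x 0 + 7964 * x 1 + (-38324) * x 2) / 11583000,
    ((-12950) * x 0 + (-46132) * x 1 + (-35438) * x 2) / 11583000,
    by linarith, by linarith, by linarith, by linarith, ?_⟩
  simp only [hr, hom, cmb, Pt.re, RP.mk.injEq, Nat.cast_ofNat]
  refine ⟨?_, ?_, ?_, ?_⟩ <;> linarith

lemma root12 {x : E3} (h : InD x) (e : (hh 12 : ℝ) ≤ ell 12 x) : In (root 12) (hom x) := by
  have hr : root 12 = ⟨⟨150405120, 149880832, 90112000, 146472960⟩,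
      ⟨77529088, 150405120, 154599424, 154337280⟩,
      ⟨150339584, 104726528, 130416640, 151388160⟩⟩ := rfl
  obtain ⟨h0, h1, h2, h3, h4, h5, h6, h7, h8, h9, h10, h11, h12, h13, h14, h15, h16, h17⟩ := h.lin
  rw [ell12, hh12] at e
  refine ⟨((-1378) * x 0 + 23444 * x 1 + (-52094) * x 2) / 11484312,
    ((-39310) * x 0 + 2060 * x 1 + (-2618) * x 2) / 11484312,
    (3212 * x 0 + (-62980) * x 1 + (-3584) * x 2) / 11484312,
    by linarith, by linarith, by linarith, by linarith, ?_⟩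
  simp only [hr, hom, cmb, Pt.re, RP.mk.injEq, Nat.cast_ofNat]
  refine ⟨?_, ?_, ?_, ?_⟩ <;> linarith

lemma root13 {x : E3} (h : InD x) (e : (hh 13 : ℝ) ≤ ell 13 x) : In (root 13) (hom x) := by
  have hr : root 13 = ⟨⟨117243904, 117243904, 179634176, 122748928⟩,
      ⟨75956224, 158531584, 143851520, 158531584⟩,
      ⟨139264000, 95223808, 160497664, 141885440⟩⟩ := rfl
  obtain ⟨h0, h1, h2, h3, h4, h5, h6, h7, h8, h9, h10, h11, h12, h13, h14, h15, h16, h17⟩ := h.lin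
  rw [ell13, hh13] at e
  refine ⟨((-9968) * x 0 + 22925 * x 1 + 56070 * x 2) / 11895093,
    ((-37135) * x 0 + 679 * x 1 + (-3528) * x 2) / 11895093,
    (1176 * x 0 + (-69531) * x 1 + (-6615) * x 2) / 11895093,
    by linarith, by linarith, by linarith, by linarith, ?_⟩
  simp only [hr, hom, cmb, Pt.re, RP.mk.injEq, Nat.cast_ofNat]
  refine ⟨?_, ?_, ?_, ?_⟩ <;> linarith

lemma root14 {x : E3} (h : InD x) (e : (hh 14 : ℝ) ≤ ell 14 x) : In (root 14) (hom x) := by
  have hr : root 14 = ⟨⟨181534720, 96075776, 128843776, 130416640⟩,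
      ⟨118685696, 115539968, 178192384, 124452864⟩,
      ⟨151584768, 82378752, 149749760, 153157632⟩⟩ := rfl
  obtain ⟨h0, h1, h2, h3, h4, h5, h6, h7, h8, h9, h10, h11, h12, h13, h14, h15, h16, h17⟩ := h.lin
  rw [ell14, hh14] at e
  refine ⟨(55792 * x 0 + (-1516) * x 1 + 5736 * x 2) / 11043620,
    ((-83) * x 0 + (-2571) * x 1 + 53436 * x 2) / 11043620,
    ((-27059) * x 0 + (-39843) * x 1 + (-9512) * x 2) / 11043620,
    by linarith, by linarith, by linarith, by linarith, ?_⟩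
  simp only [hr, hom, cmb, Pt.re, RP.mk.injEq, Nat.cast_ofNat]
  refine ⟨?_, ?_, ?_, ?_⟩ <;> linarith

lemma root15 {x : E3} (h : InD x) (e : (hh 15 : ℝ) ≤ ell 15 x) : In (root 15) (hom x) := by
  have hr : root 15 = ⟨⟨96075776, 181534720, 128843776, 130416640⟩,
      ⟨115539968, 118685696, 178192384, 124452864⟩,
      ⟨82378752, 151584768, 149749760, 153157632⟩⟩ := rfl
  obtain ⟨h0, h1, h2, h3, h4, h5, h6, h7, h8, h9, h10, h11, h12, h13, h14, h15, h16, h17⟩ := h.lin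
  rw [ell15, hh15] at e
  refine ⟨((-1516) * x 0 + 55792 * x 1 + 5736 * x 2) / 11043620,
    ((-2571) * x 0 + (-83) * x 1 + 53436 * x 2) / 11043620,
    ((-39843) * x 0 + (-27059) * x 1 + (-9512) * x 2) / 11043620,
    by linarith, by linarith, by linarith, by linarith, ?_⟩
  simp only [hr, hom, cmb, Pt.re, RP.mk.injEq, Nat.cast_ofNat]
  refine ⟨?_, ?_, ?_, ?_⟩ <;> linarith

lemma root16 {x : E3} (h : InD x) (e : (hh 16 : ℝ) ≤ ell 16 x) : In (root 16) (hom x) := by
  have hr : root 16 = ⟨⟨149028864, 163971072, 79036416, 144834560⟩,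
      ⟨179503104, 64159744, 157483008, 135725056⟩,
      ⟨149618688, 105578496, 129957888, 151715840⟩⟩ := rfl
  obtain ⟨h0, h1, h2, h3, h4, h5, h6, h7, h8, h9, h10, h11, h12, h13, h14, h15, h16, h17⟩ := h.lin
  rw [ell16, hh16] at e
  refine ⟨(37267 * x 0 + 13197 * x 1 + (-31576) * x 2) / 9485229,
    (50235 * x 0 + (-3336) * x 1 + 2232 * x 2) / 9485229,
    ((-62464) * x 0 + (-43245) * x 1 + (-16559) * x 2) / 9485229,
    by linarith, by linarith, by linarith, by linarith, ?_⟩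
  simp only [hr, hom, cmb, Pt.re, RP.mk.injEq, Nat.cast_ofNat]
  refine ⟨?_, ?_, ?_, ?_⟩ <;> linarith

lemma root17 {x : E3} (h : InD x) (e : (hh 17 : ℝ) ≤ ell 17 x) : In (root 17) (hom x) := by
  have hr : root 17 = ⟨⟨163971072, 149028864, 79036416, 144834560⟩,
      ⟨64159744, 179503104, 157483008, 135725056⟩,
      ⟨105578496, 149618688, 129957888, 151715840⟩⟩ := rfl
  obtain ⟨h0, h1, h2, h3, h4, h5, h6, h7, h8, h9, h10, h11, h12, h13, h14, h15, h16, h17⟩ := h.lin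
  rw [ell17, hh17] at e
  refine ⟨(13197 * x 0 + 37267 * x 1 + (-31576) * x 2) / 9485229,
    ((-3336) * x 0 + 50235 * x 1 + 2232 * x 2) / 9485229,
    ((-43245) * x 0 + (-62464) * x 1 + (-16559) * x 2) / 9485229,
    by linarith, by linarith, by linarith, by linarith, ?_⟩
  simp only [hr, hom, cmb, Pt.re, RP.mk.injEq, Nat.cast_ofNat]
  refine ⟨?_, ?_, ?_, ?_⟩ <;> linarith

lemma root_in {j : ℕ} (hj : j < 18) {x : E3} (h : InD x) (e : (hh j : ℝ) ≤ ell j x) :
    In (root j) (hom x) := by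
  interval_cases j
  exacts [root0 h e, root1 h e, root2 h e, root3 h e, root4 h e, root5 h e, root6 h e, root7 h e, root8 h e,
    root9 h e, root10 h e, root11 h e, root12 h e, root13 h e, root14 h e, root15 h e, root16 h e, root17 h e]

lemma all_top (i : ℕ) (hi : i < 5832) (h1 : i / 324 % 9 ≤ i / 18 % 18 % 9)
    (h2 : i / 18 % 18 % 9 ≤ i % 18 % 9) :
    ∃ d, top (i / 2916) (i / 324 % 9) (i / 18 % 18) (i % 18) d = true := by
  rcases lt_or_ge i 344 with h | k344
  · exact rng_sound _ _ rng0 i (Nat.zero_le _) h h1 h2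
  rcases lt_or_ge i 363 with h | k363
  · exact rng_sound _ _ rng344 i k344 h h1 h2
  rcases lt_or_ge i 364 with h | k364
  · exact rng_sound _ _ rng363 i k363 h h1 h2
  rcases lt_or_ge i 365 with h | k365
  · exact rng_sound _ _ rng364 i k364 h h1 h2
  rcases lt_or_ge i 382 with h | k382
  · exact rng_sound _ _ rng365 i k365 h h1 h2
  rcases lt_or_ge i 383 with h | k383
  · exact rng_sound _ _ rng382 i k382 h h1 h2
  rcases lt_or_ge i 385 with h | k385
  · exact rng_sound _ _ rng383 i k383 h h1 h2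
  rcases lt_or_ge i 386 with h | k386
  · exact rng_sound _ _ rng385 i k385 h h1 h2
  rcases lt_or_ge i 400 with h | k400
  · exact rng_sound _ _ rng386 i k386 h h1 h2
  rcases lt_or_ge i 687 with h | k687
  · exact rng_sound _ _ rng400 i k400 h h1 h2
  rcases lt_or_ge i 706 with h | k706
  · exact rng_sound _ _ rng687 i k687 h h1 h2
  rcases lt_or_ge i 707 with h | k707
  · exact rng_sound _ _ rng706 i k706 h h1 h2
  rcases lt_or_ge i 710 with h | k710
  · exact rng_sound _ _ rng707 i k707 h h1 h2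
  rcases lt_or_ge i 716 with h | k716
  · exact rng_sound _ _ rng710 i k710 h h1 h2
  rcases lt_or_ge i 908 with h | k908
  · exact rng_sound _ _ rng716 i k716 h h1 h2
  rcases lt_or_ge i 1051 with h | k1051
  · exact rng_sound _ _ rng908 i k908 h h1 h2
  rcases lt_or_ge i 1373 with h | k1373
  · exact rng_sound _ _ rng1051 i k1051 h h1 h2
  rcases lt_or_ge i 3470 with h | k3470
  · exact rng_sound _ _ rng1373 i k1373 h h1 h2
  rcases lt_or_ge i 3795 with h | k3795
  · exact rng_sound _ _ rng3470 i k3470 h h1 h2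
  rcases lt_or_ge i 3984 with h | k3984
  · exact rng_sound _ _ rng3795 i k3795 h h1 h2
  rcases lt_or_ge i 3985 with h | k3985
  · exact rng_sound _ _ rng3984 i k3984 h h1 h2
  rcases lt_or_ge i 4127 with h | k4127
  · exact rng_sound _ _ rng3985 i k3985 h h1 h2
  rcases lt_or_ge i 4128 with h | k4128
  · exact rng_sound _ _ rng4127 i k4127 h h1 h2
  rcases lt_or_ge i 4129 with h | k4129
  · exact rng_sound _ _ rng4128 i k4128 h h1 h2
  rcases lt_or_ge i 4139 with h | k4139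
  · exact rng_sound _ _ rng4129 i k4129 h h1 h2
  rcases lt_or_ge i 4346 with h | k4346
  · exact rng_sound _ _ rng4139 i k4139 h h1 h2
  rcases lt_or_ge i 4479 with h | k4479
  · exact rng_sound _ _ rng4346 i k4346 h h1 h2
  rcases lt_or_ge i 4490 with h | k4490
  · exact rng_sound _ _ rng4479 i k4479 h h1 h2
  exact rng_sound _ _ rng4490 i k4490 hi h1 h2

lemma top_sound {ty ja jb jc : ℕ} (ht : ty < 2) (ha : ja < 9) (hb : jb < 18) (hc : jc < 18)
    (hab : ja ≤ jb % 9) (hbc : jb % 9 ≤ jc % 9) {a b c : E3} (da : InD a) (db : InD b)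
    (dc : InD c) (ea : (hh ja : ℝ) ≤ ell ja a) (eb : (hh jb : ℝ) ≤ ell jb b)
    (ec : (hh jc : ℝ) ≤ ell jc c) (hm : Msk (hom a) (hom b) (hom c) (up ty))
    (hl : Brs (hom a) (hom b) (hom c) (low ty ja jb)) : 2916000 < |det3 a b c| := by
  have q1 : (((ty * 9 + ja) * 18 + jb) * 18 + jc) / 18 = (ty * 9 + ja) * 18 + jb := by omega
  have q2 : (((ty * 9 + ja) * 18 + jb) * 18 + jc) / 324 = ty * 9 + ja := by omega
  have q3 : (((ty * 9 + ja) * 18 + jb) * 18 + jc) / 2916 = ty := by omega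
  have q4 : (((ty * 9 + ja) * 18 + jb) * 18 + jc) % 18 = jc := by omega
  have q5 : ((ty * 9 + ja) * 18 + jb) % 18 = jb := by omega
  have q6 : (ty * 9 + ja) % 9 = ja := by omega
  have hd := all_top (((ty * 9 + ja) * 18 + jb) * 18 + jc) (by omega)
  rw [q1, q2, q3, q4, q5, q6] at hd
  obtain ⟨d, hd⟩ := hd hab hbc
  rw [top_eq] at hd
  have := chk_sound (by simp only [hom]; ring) hl _ _ _ _ _ _ hd (root_in (by omega) da ea)
    (root_in hb db eb) (root_in hc dc ec) hm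
  rw [Dt_hom, abs_mul, abs_of_pos (by norm_num : (0 : ℝ) < 18014398509481984)] at this
  linarith

lemma val_low {a b c : E3} {e lo : ℕ} (he : e < 13)
    (h : ∃ j < 18, lo ≤ j % 9 ∧ (hh j : ℝ) ≤ ell j (edge a b c e)) :
    ∃ j < 18, lo ≤ j % 9 ∧ Val (hom a) (hom b) (hom c) (36 * e + 2 * j + 1) := by
  obtain ⟨j, h1, h2, h3⟩ := h
  exact ⟨j, h1, h2, val_of he h1 (by norm_num) (by norm_num; exact h3)⟩

/-- The first Minkowski type. -/
theorem type_one {ja jb jc : ℕ} (ha : ja < 9) (hb : jb < 18) (hc : jc < 18)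
    (hab : ja ≤ jb % 9) (hbc : jb % 9 ≤ jc % 9) {a b c : E3} (da : InD a) (db : InD b)
    (dc : InD c) (ea : (hh ja : ℝ) ≤ ell ja a) (eb : (hh jb : ℝ) ≤ ell jb b)
    (ec : (hh jc : ℝ) ≤ ell jc c) (d3 : InD (a - b)) (d4 : InD (a - c)) (d5 : InD (b - c))
    (o3 : ∃ j < 18, jb % 9 ≤ j % 9 ∧ (hh j : ℝ) ≤ ell j (a - b))
    (o4 : ∃ j < 18, jb % 9 ≤ j % 9 ∧ (hh j : ℝ) ≤ ell j (a - c))
    (o5 : ∃ j < 18, ja ≤ j % 9 ∧ (hh j : ℝ) ≤ ell j (b - c))
    (o : ∀ e < 13, Out (edge a b c e)) : 2916000 < |det3 a b c| := by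
  have e0 : edge a b c 0 = a := by simp [edge, lv, ze]
  have e1 : edge a b c 1 = b := by simp [edge, lv, ze]
  have e2 : edge a b c 2 = c := by simp [edge, lv, ze]
  have e3 : edge a b c 3 = a - b := by simp [edge, lv, ze, sub_eq_add_neg]
  have e4 : edge a b c 4 = a - c := by simp [edge, lv, ze, sub_eq_add_neg]
  have e5 : edge a b c 5 = b - c := by simp [edge, lv, ze, sub_eq_add_neg]
  refine top_sound (ty := 0) (by norm_num) ha hb hc hab hbc da db dc ea eb ec
    (msk_of (U := fun e => e ≤ 5) (by decide +kernel) (by decide +kernel) fun e he => ?_)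
    fun e he h => ?_
  · interval_cases e
    exacts [by rwa [e0], by rwa [e1], by rwa [e2], by rwa [e3], by rwa [e4], by rwa [e5]]
  · have key : ∀ a < 9, ∀ b < 18, ∀ e ≤ 15,
        Nat.land (Nat.shiftRight (low 0 a b) (Nat.mul 4 e)) 15 =
        if e = 3 ∨ e = 4 then b % 9 else if e = 5 then a else if e = 6 ∨ e = 7 ∨ e = 8 then 0
          else 15 := by decide +kernel
    rw [key ja ha jb hb e he] at h ⊢
    split_ifs at h ⊢ with h1 h2 h3
    · rcases h1 with rfl | rfl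
      · exact val_low (by norm_num) (e3 ▸ o3)
      · exact val_low (by norm_num) (e4 ▸ o4)
    · exact val_low (by omega) (h2 ▸ e5 ▸ o5)
    · obtain ⟨j, j1, j2⟩ := o e (by omega)
      exact val_low (by omega) ⟨j, j1, Nat.zero_le _, j2⟩
    · omega

/-- The second Minkowski type. -/
theorem type_two {ja jb jc : ℕ} (ha : ja < 9) (hb : jb < 18) (hc : jc < 18)
    (hab : ja ≤ jb % 9) (hbc : jb % 9 ≤ jc % 9) {a b c : E3} (da : InD a) (db : InD b)
    (dc : InD c) (ea : (hh ja : ℝ) ≤ ell ja a) (eb : (hh jb : ℝ) ≤ ell jb b)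
    (ec : (hh jc : ℝ) ≤ ell jc c) (d3 : InD (a + b)) (d4 : InD (a + c)) (d5 : InD (b + c))
    (o : ∀ e < 13, Out (edge a b c e)) : 2916000 < |det3 a b c| := by
  have e0 : edge a b c 0 = a := by simp [edge, lv, ze]
  have e1 : edge a b c 1 = b := by simp [edge, lv, ze]
  have e2 : edge a b c 2 = c := by simp [edge, lv, ze]
  have e3 : edge a b c 9 = a + b := by simp [edge, lv, ze]
  have e4 : edge a b c 10 = a + c := by simp [edge, lv, ze]
  have e5 : edge a b c 11 = b + c := by simp [edge, lv, ze]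
  refine top_sound (ty := 1) (by norm_num) ha hb hc hab hbc da db dc ea eb ec
    (msk_of (U := fun e => e = 0 ∨ e = 1 ∨ e = 2 ∨ e = 9 ∨ e = 10 ∨ e = 11) (by decide +kernel)
      (by decide +kernel) fun e he => ?_) fun e he h => ?_
  · rcases he with rfl | rfl | rfl | rfl | rfl | rfl
    exacts [by rwa [e0], by rwa [e1], by rwa [e2], by rwa [e3], by rwa [e4], by rwa [e5]]
  · have key : ∀ e ≤ 15, Nat.land (Nat.shiftRight (low 1 0 0) (Nat.mul 4 e)) 15 =
        if 9 ≤ e ∧ e ≤ 12 then 0 else 15 := by decide +kernel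
    rw [show low 1 ja jb = low 1 0 0 from rfl, key e he] at h ⊢
    split_ifs at h ⊢ with h1
    · obtain ⟨j, j1, j2⟩ := o e (by omega)
      exact val_low (by omega) ⟨j, j1, Nat.zero_le _, j2⟩
    · omega

end Pool.Agent.P.MP_c4753b_co.Three
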